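import Pool.Agent.Lib.MP_a4c1f4_lc.Spec

set_option linter.all false

/-!
(A5), (A6): monotonicity of the optimal cost, change of the cost by a potential.
-/

namespace Pool.Agent.MP_a4c1f4_lc

open Finset

private theorem zipWith_sum_nonneg {T : Type} (c : T → T → ℝ) (h : ∀ r s, 0 ≤ c r s) :
    ∀ (l τ : List T), 0 ≤ (List.zipWith c l τ).sum := by
  intro l
  induction l with
  | nil => intro τ; simp
  | cons x l ih =>
    intro τ
    cases τ with
    | nil => simp
    | cons y τ =>
      simp only [List.zipWith_cons_cons, List.sum_cons]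
      have := ih τ
      have := h x y
      linarith

private theorem zipWith_sum_le {T : Type} (c c' : T → T → ℝ) (K : ℝ)
    (h : ∀ r s, c' r s ≤ K * c r s) :
    ∀ (l τ : List T), (List.zipWith c' l τ).sum ≤ K * (List.zipWith c l τ).sum := by
  intro l
  induction l with
  | nil => intro τ; simp
  | cons x l ih =>
    intro τ
    cases τ with
    | nil => simp
    | cons y τ =>
      simp only [List.zipWith_cons_cons, List.sum_cons]
      have := ih τ
      have := h x y
      nlinarith

private theorem zipWith_pot {T : Type} (c : T → T → ℝ) (φ : T → ℝ) :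
    ∀ (l τ : List T), τ.length = l.length →
      (List.zipWith (fun r s => c r s + φ r - φ s) l τ).sum =
        (List.zipWith c l τ).sum + (l.map φ).sum - (τ.map φ).sum := by
  intro l
  induction l with
  | nil =>
    intro τ h
    have : τ = [] := List.length_eq_zero_iff.mp (by simpa using h)
    subst this
    simp
  | cons x l ih =>
    intro τ h
    cases τ with
    | nil => simp at h
    | cons y τ =>
      have h' : τ.length = l.length := by simpa using h
      simp only [List.zipWith_cons_cons, List.sum_cons, List.map_cons]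
      rw [ih τ h']
      ring

theorem mono (hB : OptBasicProp) : MonoProp := by
  intro T _ _ c l
  refine ⟨?_, ?_, ?_⟩
  · intro hc x hl
    obtain ⟨τ, hτ, he⟩ := (hB T c (x :: l)).2 (by simpa using hl)
    obtain ⟨hlen, hnd⟩ := hτ
    cases τ with
    | nil => simp at hlen
    | cons y τ =>
      have h1 : Adm l τ := ⟨by simpa using hlen, (List.nodup_cons.mp hnd).2⟩
      have h2 := (hB T c l).1 τ h1
      have h3 : acost c (x :: l) (y :: τ) = c x y + acost c l τ := by
        simp [acost]
      have := hc x y
      linarith
  · intro hc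
    unfold optv
    apply Real.sInf_nonneg
    rintro v ⟨τ, _, rfl⟩
    exact zipWith_sum_nonneg c hc l τ
  · intro c' K h hl
    obtain ⟨τ, hτ, he⟩ := (hB T c l).2 hl
    have h1 := (hB T c' l).1 τ hτ
    have h2 : acost c' l τ ≤ K * acost c l τ := zipWith_sum_le c c' K h l τ
    rw [he] at h2
    linarith

theorem potP (hB : OptBasicProp) : PotProp := by
  intro T _ _ c φ l F hF
  obtain ⟨τ, hτ, hF, he⟩ := hF
  have h1 := (hB T (fun r s => c r s + φ r - φ s) l).1 τ hτ
  have h2 : acost (fun r s => c r s + φ r - φ s) l τ =
      acost c l τ + (l.map φ).sum - (τ.map φ).sum := zipWith_pot c φ l τ hτ.1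
  have h3 : (τ.map φ).sum = ∑ s ∈ F, φ s := by
    rw [← hF]
    exact (List.sum_toFinset φ hτ.2).symm
  rw [h2, he, h3] at h1
  exact h1

end Pool.Agent.MP_a4c1f4_lc
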