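import Pool.Agent.Lib.MP_a4c1f4_lc.Spec

set_option linter.all false

/-!
(B1): Abel summation.
-/

namespace Pool.Agent.MP_a4c1f4_lc

open Finset

private theorem abel_geom (q : ℝ) (L : ℕ) :
    ∀ (n a : ℕ), a + n = L → (∑ j ∈ Ico a L, (1 - q) * q ^ j) + q ^ L = q ^ a := by
  intro n
  induction n with
  | zero =>
    intro a h
    rw [add_zero] at h
    subst h
    rw [Finset.Ico_self, Finset.sum_empty, zero_add]
  | succ n ih =>
    intro a h
    have h1 := ih (a + 1) (by omega)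
    rw [Finset.sum_eq_sum_Ico_succ_bot (by omega : a < L)]
    rw [pow_succ] at h1
    linarith

private theorem abel_key (L θ : ℕ) (q η : ℝ) (V far : ℕ → ℝ) (hq0 : 0 ≤ q) (hq1 : q ≤ 1)
    (hη : 0 < η) (hf : ∀ j, 0 ≤ far j)
    (hV : ∀ j, θ ≤ j → j < L → η * far (j + 1) ≤ V (j + 1) - V j) :
    ∀ (n t : ℕ), θ ≤ t → t + 1 + n = L →
      η * (∑ j ∈ Ico (t + 1) L, (1 - q) * q ^ j * far j) + (1 - q) * q ^ (t + 1) * V t ≤
        (1 - q) * ((∑ j ∈ Ico (t + 1) L, (1 - q) * q ^ j * V j) + q ^ L * V L) := by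
  have hq : 0 ≤ 1 - q := by linarith
  intro n
  induction n with
  | zero =>
    intro t ht h
    rw [add_zero] at h
    subst h
    rw [Finset.Ico_self, Finset.sum_empty, Finset.sum_empty, mul_zero, zero_add, zero_add]
    have h1 := hV t ht (Nat.lt_succ_self t)
    have h2 : 0 ≤ η * far (t + 1) := mul_nonneg hη.le (hf _)
    have h3 : V t ≤ V (t + 1) := by linarith
    have h4 : 0 ≤ (1 - q) * q ^ (t + 1) := mul_nonneg hq (pow_nonneg hq0 _)
    have h5 := mul_le_mul_of_nonneg_left h3 h4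
    linarith
  | succ n ih =>
    intro t ht h
    have h1 := ih (t + 1) (by omega) (by omega)
    have h2 := hV t ht (by omega)
    have h4 : 0 ≤ (1 - q) * q ^ (t + 1) := mul_nonneg hq (pow_nonneg hq0 _)
    have h5 := mul_le_mul_of_nonneg_left h2 h4
    rw [Finset.sum_eq_sum_Ico_succ_bot (by omega : t + 1 < L),
      Finset.sum_eq_sum_Ico_succ_bot (by omega : t + 1 < L)]
    rw [pow_succ q (t + 1)] at h1
    nlinarith [h1, h5]

theorem abel : AbelProp := by
  intro L θ q η B U N far hq0 hq1 hη hB hθ hUN hfar hstep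
  have hq : 0 ≤ 1 - q := by linarith
  have hUL := (hUN L hθ le_rfl).1
  rcases Nat.eq_or_lt_of_le hθ with h | hlt
  · subst h
    rw [Finset.Ico_self, Finset.sum_empty, Finset.sum_empty, zero_add]
    have h1 : 0 ≤ (1 - q) / η * (q ^ θ * U θ) :=
      mul_nonneg (div_nonneg hq hη.le) (mul_nonneg (pow_nonneg hq0 _) hUL)
    have h2 : 0 ≤ (1 - q) * (1 + B) := mul_nonneg hq (by linarith)
    linarith
  · have hkey := abel_key L θ q η (fun j => U j + N j) far hq0 hq1 hη (fun j => (hfar j).1)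
      (fun j h1 h2 => hstep j h1 h2) (L - (θ + 1)) θ le_rfl (by omega)
    have hgeo := abel_geom q L (L - (θ + 1)) (θ + 1) (by omega)
    have hle : q ^ (θ + 1) ≤ 1 := pow_le_one₀ hq0 hq1
    have hleθ : q ^ θ ≤ 1 := pow_le_one₀ hq0 hq1
    -- bound of the right side
    have h1 : (∑ j ∈ Ico (θ + 1) L, (1 - q) * q ^ j * (U j + N j)) ≤
        (∑ j ∈ Ico (θ + 1) L, (1 - q) * q ^ j * U j) +
          η * B * ∑ j ∈ Ico (θ + 1) L, (1 - q) * q ^ j := by
      rw [Finset.mul_sum, ← Finset.sum_add_distrib]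
      refine Finset.sum_le_sum fun j hj => ?_
      have hj' := Finset.mem_Ico.mp hj
      have h2 := (hUN j (by omega) hj'.2.le).2.2
      have h3 : 0 ≤ (1 - q) * q ^ j := mul_nonneg hq (pow_nonneg hq0 _)
      have h4 := mul_le_mul_of_nonneg_left h2 h3
      linarith
    have h2 : q ^ L * (U L + N L) ≤ q ^ L * U L + η * B * q ^ L := by
      have h3 := (hUN L hθ le_rfl).2.2
      have h4 := mul_le_mul_of_nonneg_left h3 (pow_nonneg hq0 L)
      linarith
    have h3 : (∑ j ∈ Ico (θ + 1) L, (1 - q) * q ^ j * (U j + N j)) + q ^ L * (U L + N L) ≤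
        (∑ j ∈ Ico (θ + 1) L, (1 - q) * q ^ j * U j) + q ^ L * U L + η * B := by
      have h4 : η * B * ((∑ j ∈ Ico (θ + 1) L, (1 - q) * q ^ j) + q ^ L) ≤ η * B * 1 := by
        rw [hgeo]
        exact mul_le_mul_of_nonneg_left hle (mul_nonneg hη.le hB)
      linarith
    have h4 := mul_le_mul_of_nonneg_left h3 hq
    have h5 : 0 ≤ (1 - q) * q ^ (θ + 1) * (U θ + N θ) :=
      mul_nonneg (mul_nonneg hq (pow_nonneg hq0 _))
        (add_nonneg (hUN θ le_rfl hθ).1 (hUN θ le_rfl hθ).2.1)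
    have h6 : η * (∑ j ∈ Ico (θ + 1) L, (1 - q) * q ^ j * far j) ≤
        (1 - q) * ((∑ j ∈ Ico (θ + 1) L, (1 - q) * q ^ j * U j) + q ^ L * U L + η * B) := by
      linarith
    rw [Finset.sum_eq_sum_Ico_succ_bot hlt, Finset.sum_eq_sum_Ico_succ_bot hlt]
    have h7 : (1 - q) * q ^ θ * far θ ≤ 1 - q := by
      have h8 : q ^ θ * far θ ≤ 1 := mul_le_one₀ hleθ (hfar θ).1 (hfar θ).2
      have h9 := mul_le_mul_of_nonneg_left h8 hq
      linarith
    have h8 : 0 ≤ (1 - q) * q ^ θ * U θ :=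
      mul_nonneg (mul_nonneg hq (pow_nonneg hq0 _)) (hUN θ le_rfl hθ).1
    have h9 : (∑ j ∈ Ico (θ + 1) L, (1 - q) * q ^ j * far j) ≤
        (1 - q) / η * ((∑ j ∈ Ico (θ + 1) L, (1 - q) * q ^ j * U j) + q ^ L * U L)
          + (1 - q) * B := by
      have h10 : (∑ j ∈ Ico (θ + 1) L, (1 - q) * q ^ j * far j) ≤
          (1 - q) * ((∑ j ∈ Ico (θ + 1) L, (1 - q) * q ^ j * U j) + q ^ L * U L + η * B) / η := by
        rw [le_div_iff₀ hη]
        linarith
      refine h10.trans (le_of_eq ?_)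
      field_simp
    have h10 : (1 - q) / η * ((1 - q) * q ^ θ * U θ) ≥ 0 :=
      mul_nonneg (div_nonneg hq hη.le) h8
    nlinarith [h7, h9, h10]

end Pool.Agent.MP_a4c1f4_lc
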