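import Pool.Agent.Lib.MP_a4c1f4_lc.Spec

set_option linter.all false

/-!
(A3) List form of the augmentation.
-/

namespace Pool.Agent.MP_a4c1f4_lc

open Finset

private theorem augOpt_acost_ofFn {T : Type} (c : T → T → ℝ) (l : List T)
    (f : Fin l.length → T) : acost c l (List.ofFn f) = ∑ i, c (l.get i) (f i) := by
  rw [acost, ← List.sum_ofFn]
  congr 1
  apply List.ext_getElem
  · simp
  · intro i h1 h2
    simp

private theorem augOpt_eq_ofFn {T : Type} {l τ : List T} (h : τ.length = l.length) :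
    ∃ f : Fin l.length → T, τ = List.ofFn f := by
  refine ⟨fun i => τ.get (i.cast h.symm), ?_⟩
  apply List.ext_getElem
  · simp [h]
  · intro i h1 h2
    simp

theorem augOpt (hA : AugmentProp) (hB : OptBasicProp) : AugOptProp := by
  intro T _ _ c x l F hF hl
  obtain ⟨τ, ⟨hτl, hτn⟩, hτF, hτo⟩ := hF
  obtain ⟨σ, ⟨hσl, hσn⟩, hσo⟩ := (hB T c (x :: l)).2 hl
  obtain ⟨M, rfl⟩ := augOpt_eq_ofFn hτl
  obtain ⟨M1, rfl⟩ := augOpt_eq_ofFn hσl
  have hM : Function.Injective M := List.nodup_ofFn.1 hτn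
  have hM1 : Function.Injective M1 := List.nodup_ofFn.1 hσn
  let e : Fin (l.length + 1) ≃ Option (Fin l.length) := finSuccEquiv l.length
  have hM' : Function.Injective (fun o : Option (Fin l.length) => M1 (e.symm o)) :=
    hM1.comp e.symm.injective
  obtain ⟨N, N', y, hN, hN', hy, hr, hc⟩ := hA (Fin l.length) T M _ hM hM'
  have hkey := hc fun o t => c ((x :: l).get (e.symm o)) t
  have h1 : ∑ i : Option (Fin l.length), c ((x :: l).get (e.symm i)) (N i) =
      acost c (x :: l) (List.ofFn (n := (x :: l).length) fun j => N (e j)) := by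
    rw [augOpt_acost_ofFn, ← Equiv.sum_comp e]
    refine Finset.sum_congr rfl fun j _ => ?_
    rw [Equiv.symm_apply_apply]
  have h2 : ∑ i : Fin l.length, c ((x :: l).get (e.symm (some i))) (N' i) =
      acost c l (List.ofFn N') := by
    rw [augOpt_acost_ofFn]
    refine Finset.sum_congr rfl fun j _ => ?_
    simp [e]
  have h3 : ∑ i : Fin l.length, c ((x :: l).get (e.symm (some i))) (M i) =
      acost c l (List.ofFn M) := by
    rw [augOpt_acost_ofFn]
    refine Finset.sum_congr rfl fun j _ => ?_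
    simp [e]
  have h4 : ∑ i : Option (Fin l.length), c ((x :: l).get (e.symm i)) (M1 (e.symm i)) =
      acost c (x :: l) (List.ofFn (n := (x :: l).length) M1) := by
    rw [augOpt_acost_ofFn, ← Equiv.sum_comp e]
    refine Finset.sum_congr rfl fun j _ => ?_
    rw [Equiv.symm_apply_apply]
  rw [h1, h2, h3, h4, hτo, hσo] at hkey
  have hA1 : Adm (x :: l) (List.ofFn (n := (x :: l).length) fun j => N (e j)) :=
    ⟨by simp, List.nodup_ofFn.2 (hN.comp e.injective)⟩
  have hA2 : Adm l (List.ofFn N') := ⟨by simp, List.nodup_ofFn.2 hN'⟩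
  have h5 := (hB T c (x :: l)).1 _ hA1
  have h6 := (hB T c l).1 _ hA2
  have hFm : ∀ t, t ∈ F ↔ t ∈ Set.range M := by
    intro t
    rw [← hτF, List.mem_toFinset, List.mem_ofFn]
    rfl
  refine ⟨y, fun h => hy ((hFm y).1 h), _, hA1, ?_, by linarith⟩
  ext t
  rw [List.mem_toFinset, Finset.mem_insert, hFm]
  have : t ∈ Set.range N ↔ t = y ∨ t ∈ Set.range M := by rw [hr]; exact Set.mem_insert_iff
  rw [← this, List.mem_ofFn]
  constructor
  · rintro ⟨j, hj⟩
    exact ⟨_, hj⟩
  · rintro ⟨o, ho⟩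
    exact ⟨e.symm o, by simpa using ho⟩

end Pool.Agent.MP_a4c1f4_lc
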