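import Pool.Agent.Lib.MP_a4c1f4_lc.Defs

set_option linter.all false

/-!
Statements of the lemmas as propositions, so that the files proving them are independent.
The proofs on paper are in the docstrings.
-/

namespace Pool.Agent.MP_a4c1f4_lc

open Finset

/-! ## Part A: optimal assignments -/

/-- (A1) Augmentation. `M` matches the requests `ι`, `M'` matches `Option ι` (one more request
`none`). PROOF. Let `R i i'` (for `i : Option ι`, `i' : ι`) mean `M' i = M i'`, and let `J` be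
the set of the requests reachable from `none`: `Relation.ReflTransGen (fun a b => ∃ i', b = some i'
∧ M' a = M i') none b`.
(a) If `a ∈ J` and `M' a = M i'` then `some i' ∈ J`.
(b) If `some i' ∈ J` then there is `a ∈ J` with `M' a = M i'` (cases on the last step).
Let `N a = M' a` for `a ∈ J`, `N (some i) = M i` for `some i ∉ J`; `N' i = M i` if `some i ∈ J`,
`N' i = M' (some i)` otherwise. `N` is injective: if `a ∈ J`, `some i ∉ J`, `M' a = M i`
contradicts (a). `N'` is injective: if `some i ∈ J` and `some i' ∉ J` and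
`M i = M' (some i')`, then by (b) `M i = M' a` with `a ∈ J`, so `a = some i'` by injectivity
of `M'`, contradiction. The sum identity is termwise (split the sum over `Option ι` as the
`none` term plus the sum over `ι`; at `some i` the pair `(N (some i), N' i)` is
`(M' (some i), M i)` or `(M i, M' (some i))`, and `N none = M' none`).
Range: every `M i` is in the range of `N`: if `some i ∉ J` clear; if `some i ∈ J` by (b).
The range of `N` has exactly one element more than the range of `M` (cardinalities: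
`card (Option ι) = card ι + 1`, injectivity), so `range N = insert y (range M)` for some
`y ∉ range M`. -/
def AugmentProp : Prop :=
  ∀ (ι T : Type) [Fintype ι] [DecidableEq ι] [Fintype T] [DecidableEq T]
    (M : ι → T) (M' : Option ι → T), Function.Injective M → Function.Injective M' →
    ∃ (N : Option ι → T) (N' : ι → T) (y : T), Function.Injective N ∧ Function.Injective N' ∧
      y ∉ Set.range M ∧ Set.range N = insert y (Set.range M) ∧
      ∀ c : Option ι → T → ℝ, (∑ i, c i (N i)) + (∑ i, c (some i) (N' i)) =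
        (∑ i, c (some i) (M i)) + (∑ i, c i (M' i))

/-- (A2) `optv` is a minimum. PROOF. The set of the lists `τ` with `τ.length = n` over a
finite type is finite (`List.finite_length_eq`), so the set of values is finite, hence bounded
below; it is nonempty when `n ≤ card T` (take the first `n` elements of `univ.toList`).
For (2) use `Set.Finite.csInf_mem` / `Set.Nonempty.csInf_mem`. -/
def OptBasicProp : Prop :=
  ∀ (T : Type) [Fintype T] [DecidableEq T] (c : T → T → ℝ) (l : List T),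
    (∀ τ, Adm l τ → optv c l ≤ acost c l τ) ∧
    (l.length ≤ Fintype.card T → ∃ τ, Adm l τ ∧ acost c l τ = optv c l)

/-- (A3) List form of the augmentation, from (A1) and (A2).
PROOF. Let `τ` be an optimal assignment for `l` with image `F` and `σ` an optimal assignment of
`x :: l`. With `n = l.length`, take `ι = Fin n`, `M i = τ.get i`, `M' none = σ.head`,
`M' (some i) = σ.tail.get i`; apply (A1), and read back `N`, `N'` as lists with `List.ofFn`
(`τN = N none :: List.ofFn (fun i => N (some i))`, `τN' = List.ofFn N'`). The identity of (A1)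
with `c i t = cost of request i at t` gives
`acost (x::l) τN + acost l τN' = acost l τ + acost (x::l) σ = optv l + optv (x::l)`.
Since `optv l ≤ acost l τN'` and `optv (x::l) ≤ acost (x::l) τN` we get equality. The image of
`τN` is `insert y F`. -/
def AugOptProp : Prop :=
  ∀ (T : Type) [Fintype T] [DecidableEq T] (c : T → T → ℝ) (x : T) (l : List T) (F : Finset T),
    IsOpt c l F → l.length + 1 ≤ Fintype.card T → ∃ y, y ∉ F ∧ IsOpt c (x :: l) (insert y F)

/-- (A4) The algorithm always uses an optimal set of sites. From (A3) by induction on `l`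
(for `l = []`: `optv c [] = 0`, `τ = []`; the `dite` in `pick` is in the first case). -/
def UsedProp : Prop :=
  ∀ (T : Type) [Fintype T] [DecidableEq T] [Nonempty T] (c : T → T → ℝ) (l : List T),
    (l.length ≤ Fintype.card T → IsOpt c l (used c l)) ∧
    (∀ x, l.length + 1 ≤ Fintype.card T →
      srv c x l ∉ used c l ∧ IsOpt c (x :: l) (insert (srv c x l) (used c l)))

/-- (A5) Monotonicity (drop the head of an optimal assignment of `x :: l`), comparison of
two costs, and nonnegativity. From (A2). -/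
def MonoProp : Prop :=
  ∀ (T : Type) [Fintype T] [DecidableEq T] (c : T → T → ℝ) (l : List T),
    ((∀ r s, 0 ≤ c r s) → ∀ x, l.length + 1 ≤ Fintype.card T → optv c l ≤ optv c (x :: l)) ∧
    ((∀ r s, 0 ≤ c r s) → 0 ≤ optv c l) ∧
    (∀ (c' : T → T → ℝ) (K : ℝ), (∀ r s, c' r s ≤ K * c r s) → l.length ≤ Fintype.card T →
      optv c' l ≤ K * optv c l)

/-- (A6) Change of the cost by a potential. PROOF. For `τ` optimal for `c` with image `F`,
`acost c' l τ = acost c l τ + (l.map φ).sum - (τ.map φ).sum` and `(τ.map φ).sum = ∑ s ∈ F, φ s`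
because `τ` has no duplicates (`List.sum_toFinset`). From (A2)(1). -/
def PotProp : Prop :=
  ∀ (T : Type) [Fintype T] [DecidableEq T] (c : T → T → ℝ) (φ : T → ℝ) (l : List T)
    (F : Finset T), IsOpt c l F →
    optv (fun r s => c r s + φ r - φ s) l ≤ optv c l + (l.map φ).sum - ∑ s ∈ F, φ s

/-- (A7) One step of a one-parameter family of potentials. From (A4), (A6).
PROOF. Write `F j = used (c j) l`, `y j = srv (c j) x l`, `v j = optv (c j)`.
(A6) for `c j` and `F j` with `φ = δ j` gives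
`v (j+1) l ≤ v j l + (l.map (δ j)).sum - ∑ s ∈ F j, δ j s`.
(A6) for `c (j+1)`, the list `x :: l`, the set `insert (y (j+1)) (F (j+1))` and `φ = - δ j` gives
`v j (x::l) ≤ v (j+1) (x::l) - δ j x - (l.map (δ j)).sum + ∑ s ∈ F (j+1), δ j s
 + δ j (y (j+1))`. Subtract; and `∑ s ∈ F (j+1), δ j s ≤ ∑ s ∈ F (j+1), δ (j+1) s`. -/
def StepProp : Prop :=
  ∀ (T : Type) [Fintype T] [DecidableEq T] [Nonempty T] (c : ℕ → T → T → ℝ) (δ : ℕ → T → ℝ)
    (x : T) (l : List T) (j : ℕ), l.length + 1 ≤ Fintype.card T →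
    (∀ r s, c (j + 1) r s = c j r s + δ j r - δ j s) → (∀ s, δ j s ≤ δ (j + 1) s) →
    (optv (c j) (x :: l) - optv (c j) l + ∑ s ∈ used (c j) l, δ j s) + δ j x
        - δ j (srv (c (j + 1)) x l) ≤
      optv (c (j + 1)) (x :: l) - optv (c (j + 1)) l + ∑ s ∈ used (c (j + 1)) l, δ (j + 1) s

/-- (A8) A request is never served from farther than four times the optimum.
PROOF. Let `τ` be optimal for `l` with image `F = used c l`, `σ` optimal for `x :: l` with image
`insert y F`, `y = srv c x l ∉ F`. Let `f s = D x s`. Then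
`f y = (σ.map f).sum - (τ.map f).sum`. By the triangle inequality
`f s ≤ f r + D r s` and `f r ≤ f s + D r s`, so
`(σ.map f).sum ≤ ((x::l).map f).sum + acost D (x::l) σ`,
`(l.map f).sum ≤ (τ.map f).sum + acost D l τ`, and `f x = 0`. So
`D x y ≤ acost D (x::l) σ + acost D l τ ≤ 2 * optv c (x::l) + 2 * optv c l`, and
`optv c l ≤ optv c (x::l)` by (A5). -/
def FarProp : Prop :=
  ∀ (T : Type) [Fintype T] [DecidableEq T] [Nonempty T] (D c : T → T → ℝ) (x : T)
    (l : List T), PM D → (∀ r s, 0 ≤ c r s) → (∀ r s, D r s ≤ 2 * c r s) →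
    l.length + 1 ≤ Fintype.card T → D x (srv c x l) ≤ 4 * optv c (x :: l)

/-! ## Part B: the one variable inequality -/

/-- (B1) Abel summation. PROOF. With `V j = U j + N j`, `V` is nondecreasing on `[θ, L]`.
If `θ = L` the left side is `0` (and the right side is nonnegative). Otherwise one shows by
downward induction on `t`, for `θ ≤ t < L`,
`∑ j ∈ Ico (t+1) L, (1-q) q^j η far j + (1-q) q^(t+1) V t
   ≤ (1-q) (∑ j ∈ Ico (t+1) L, (1-q) q^j V j + q^L V L)`.
Base `t = L-1`: `(1-q) q^L V (L-1) ≤ (1-q) q^L V L`. Step from `t` to `t-1`: the left side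
increases by `(1-q) q^t (η far t + V (t-1)) - (1-q) q^(t+1) V t ≤ (1-q) q^t V t (1 - q)`,
and the right side by exactly `(1-q) (1-q) q^t V t`. For `t = θ`, drop
`(1-q) q^(θ+1) V θ ≥ 0`, bound `V j ≤ U j + η B`, use
`∑ j ∈ Ico (θ+1) L, (1-q) q^j + q^L = q^(θ+1) ≤ 1`, divide by `η`, and add the term `j = θ`,
which is at most `(1-q) q^θ ≤ 1-q`; the terms `U` may be added for `j = θ` too. -/
def AbelProp : Prop :=
  ∀ (L θ : ℕ) (q η B : ℝ) (U N far : ℕ → ℝ), 0 ≤ q → q ≤ 1 → 0 < η → 0 ≤ B → θ ≤ L →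
    (∀ j, θ ≤ j → j ≤ L → 0 ≤ U j ∧ 0 ≤ N j ∧ N j ≤ η * B) → (∀ j, 0 ≤ far j ∧ far j ≤ 1) →
    (∀ j, θ ≤ j → j < L → η * far (j + 1) ≤ U (j + 1) + N (j + 1) - (U j + N j)) →
    ∑ j ∈ Finset.Ico θ L, (1 - q) * q ^ j * far j ≤
      (1 - q) / η * ((∑ j ∈ Finset.Ico θ L, (1 - q) * q ^ j * U j) + q ^ L * U L)
        + (1 - q) * (1 + B)

/-- (C1) Elementary properties of a field: Lipschitz, nonnegative, and the effect of one
variable. PROOF. With `v j x = eta * (update g zc j (z x)) - lam * D s x`, one has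
`v j x ≤ v (j+1) x ≤ v j x + eta` and `2 v (j+1) x = v j x + v (j+2) x` (both cases
`z x = zc`, `z x ≠ zc`); take suprema. -/
def FieldProp : Prop :=
  ∀ (T : Type) [Fintype T] [DecidableEq T] [Nonempty T] (D : T → T → ℝ) (eta lam : ℝ)
    (z : T → T) (g : T → ℕ), PM D → 0 ≤ eta → 0 ≤ lam →
    (∀ s s', |fld D eta lam z g s - fld D eta lam z g s'| ≤ lam * D s s') ∧
    (∀ s, 0 ≤ fld D eta lam z g s) ∧
    (∀ (zc : T) (j : ℕ) (s : T),
      0 ≤ fld D eta lam z (Function.update g zc (j + 1)) s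
            - fld D eta lam z (Function.update g zc j) s ∧
      fld D eta lam z (Function.update g zc (j + 1)) s
            - fld D eta lam z (Function.update g zc j) s ≤ eta ∧
      fld D eta lam z (Function.update g zc (j + 1)) s
            - fld D eta lam z (Function.update g zc j) s ≤
        fld D eta lam z (Function.update g zc (j + 2)) s
            - fld D eta lam z (Function.update g zc (j + 1)) s)

/-- (C2) Selection. Existence: maximise lexicographically (value, `rk (z x)`); uniqueness: two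
selected centres have the same value and `rk` is injective; monotonicity in the value of the
variable: if `zc` is selected with maximiser `x` at `j`, then at `j+1` the value at `x`
increases by `eta > 0`, the other points with centre `zc` increase by the same amount and the
points with other centres do not change. Moreover, when selected, the field at `r` increases by
exactly `eta`. Closeness: the value at `x` is at least the value at `r`, which is `≥ 0`
(`D r r = 0`), so `lam * D r x ≤ eta * g zc ≤ eta * L = lam * rho`. -/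
def SelProp : Prop :=
  ∀ (T : Type) [Fintype T] [DecidableEq T] [Nonempty T] (D : T → T → ℝ) (eta lam : ℝ)
    (z : T → T) (g : T → ℕ) (r : T), PM D → 0 < eta → 0 < lam →
    (∃ zc, Sel D eta lam z g r zc) ∧
    (∀ z1 z2, Sel D eta lam z g r z1 → Sel D eta lam z g r z2 → z1 = z2) ∧
    (∀ (zc : T) (j : ℕ), Sel D eta lam z (Function.update g zc j) r zc →
      Sel D eta lam z (Function.update g zc (j + 1)) r zc ∧
      fld D eta lam z (Function.update g zc (j + 1)) r
        - fld D eta lam z (Function.update g zc j) r = eta) ∧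
    (∀ (L : ℕ) (rho : ℝ) (zc : T), (∀ w, g w ≤ L) → eta * L = lam * rho →
      Sel D eta lam z g r zc → ∃ x, z x = zc ∧ D r x ≤ rho)

/-- (C3) Exit lemma: if `zc` is selected at `r` with value `j < L` and `D r y ≥ 6 rho`, then
changing the value to `j+1` does not change the field at `y`.
PROOF. By (C2) there is `x0` with `z x0 = zc`, `D r x0 ≤ rho` (the values are at most `L`).
We show that every term of the supremum for `j+1` at `y` is at most
`fld D eta lam z (update g zc j) y`. If `z x' ≠ zc` the term is unchanged. If `z x' = zc`, then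
`6 rho ≤ D r y ≤ D r x0 + D x0 zc + D zc x' + D x' y ≤ rho + 2 rho + 2 rho + D x' y`, so
`D y x' ≥ rho` and the term is `eta (j+1) - lam D y x' ≤ eta L - lam rho = 0`, and
`fld ... y ≥ 0`. The other inequality is (C1). -/
def ExitProp : Prop :=
  ∀ (T : Type) [Fintype T] [DecidableEq T] [Nonempty T] (D : T → T → ℝ) (eta lam rho : ℝ)
    (z : T → T) (g : T → ℕ) (L j : ℕ) (r y zc : T), PM D → 0 < eta → 0 < lam →
    eta * L = lam * rho → (∀ x, D (z x) x ≤ 2 * rho) → (∀ w, g w ≤ L) → j < L →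
    Sel D eta lam z (Function.update g zc j) r zc → 6 * rho ≤ D r y →
    fld D eta lam z (Function.update g zc (j + 1)) y
      - fld D eta lam z (Function.update g zc j) y = 0

/-- (B2) The one variable inequality. From (A7), (A5), (B1), (C1), (C2), (C3).
Here `c j = cst D (fun s => B s + fld D eta lam z (update g zc j) s)`.
PROOF. Let `S j` be `Sel ... (update g zc j) x zc`, `U j = optv (c j) (x::l) - optv (c j) l`,
`δ j s = fld (update g zc (j+1)) s - fld (update g zc j) s`, `y j = srv (c j) x l`,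
`N j = ∑ s ∈ used (c j) l, δ j s`. If `S j` fails for all `j ≤ L`, the left side is `0` and the
right side is nonnegative (`U j ≥ 0` for `j ≤ L` by (A5), `gw ≥ 0`). Otherwise let `θ` be the
least `j` with `S j`; `S j` holds iff `j ≥ θ` (C2). `0 ≤ N j ≤ eta * card T` by (C1).
By (A7) (with `c (j+1) r s = c j r s + δ j r - δ j s` and `δ j ≤ δ (j+1)` by (C1)),
for `θ ≤ j < L`: `V (j+1) ≥ V j + δ j x - δ j (y (j+1))` with `δ j x = eta` by (C2), and
`δ j (y (j+1)) ≤ eta` in general, `= 0` if `6 rho ≤ D x (y (j+1))` by (C3). So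
`eta * far (j+1) ≤ V (j+1) - V j` with `far j = ind (6 * rho ≤ D x (y j))`. Apply (B1) with
`B = card T`. Finally convert the sums over `Fin (L+1)` with `gw` into sums over `range L` plus
the last term (`Fin.sum_univ_castSucc`, `Finset.sum_range`) and then `Ico θ L`
(terms `j < θ` vanish as `S j` fails). -/
def OneVarProp : Prop :=
  ∀ (T : Type) [Fintype T] [DecidableEq T] [Nonempty T] (D : T → T → ℝ)
    (eta lam rho q : ℝ) (z : T → T) (g : T → ℕ) (L : ℕ) (B : T → ℝ) (x zc : T) (l : List T),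
    PM D → 0 < eta → 0 < lam → eta * L = lam * rho → (∀ w, D (z w) w ≤ 2 * rho) →
    (∀ w, g w ≤ L) → 0 ≤ q → q ≤ 1 → l.length + 1 ≤ Fintype.card T →
    (∀ j, j ≤ L → ∀ r s,
      0 ≤ cst D (fun s => B s + fld D eta lam z (Function.update g zc j) s) r s) →
    ∑ j : Fin (L + 1), gw q L j *
        ind (Sel D eta lam z (Function.update g zc j) x zc ∧ (j : ℕ) < L ∧
          6 * rho ≤ D x (srv (cst D
            (fun s => B s + fld D eta lam z (Function.update g zc j) s)) x l)) ≤
      (1 - q) / eta * (∑ j : Fin (L + 1), gw q L j *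
        ((optv (cst D (fun s => B s + fld D eta lam z (Function.update g zc j) s)) (x :: l)
          - optv (cst D (fun s => B s + fld D eta lam z (Function.update g zc j) s)) l) *
          ind (Sel D eta lam z (Function.update g zc j) x zc)))
        + (1 - q) * (1 + (Fintype.card T : ℝ))

/-! ## Part D: probability -/

/-- (D0) Basic facts on the weights. `gw ≥ 0` for `0 ≤ q ≤ 1`; the weights sum to one
(`∑_{j<L} (1-q) q^j + q^L = 1`, for every `q`); `Ex1 1 = 1`, `Ex 1 = 1`; nonnegativity.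
(`Finset.prod_univ_sum`, `Fintype.piFinset_univ`, `Fintype.card_perm`.) -/
def WeightProp : Prop :=
  (∀ (q : ℝ) (L j : ℕ), 0 ≤ q → q ≤ 1 → 0 ≤ gw q L j) ∧
  (∀ (q : ℝ) (L : ℕ), ∑ j : Fin (L + 1), gw q L j = 1) ∧
  (∀ (T : Type) [Fintype T] [DecidableEq T] (J L : ℕ) (u : ℕ → ℝ),
    (∑ a : Lev T J L, levw u a = 1) ∧
    ((∀ i, i < J → 0 ≤ qq u L i ∧ qq u L i ≤ 1) → ∀ a : Lev T J L, 0 ≤ levw u a)) ∧
  (∀ (T : Type) [Fintype T] [DecidableEq T] (h J L : ℕ) (u : ℕ → ℝ),
    (∑ ω : Om T h J L, omw u ω = 1) ∧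
    ((∀ i, i < J → 0 ≤ qq u L i ∧ qq u L i ≤ 1) → ∀ ω : Om T h J L, 0 ≤ omw u ω))

/-- (D1) Independence of the levels. PROOF: `Finset.prod_univ_sum` with
`Fintype.piFinset_univ`. The second part is the case `f k' = 1` for `k' ≠ k`. -/
def IndepProp : Prop :=
  ∀ (T : Type) [Fintype T] [DecidableEq T] (h J L : ℕ) (u : ℕ → ℝ),
    (∀ f : Fin h → Lev T J L → ℝ,
      Ex (h := h) u (fun ω => ∏ k, f k (ω k)) = ∏ k, Ex1 u (f k)) ∧
    (∀ (k : Fin h) (f : Lev T J L → ℝ), Ex (h := h) u (fun ω => f (ω k)) = Ex1 u f)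

/-- (D2) Resampling one variable. PROOF. Prove a general lemma for a finite product: for
`w : ι → β → ℝ` and `p0 : ι` with `∑ b, w p0 b = 1`,
`∑ g : ι → β, (∏ p, w p (g p)) * f g
  = ∑ g, (∏ p, w p (g p)) * ∑ b, w p0 b * f (update g p0 b)`,
e.g. by the equivalence `Equiv.funSplitAt p0 β`; apply it first to the coordinate `k` of
`Fin h → Lev` and then to the coordinate `(i, z)` of `Fin J × T → Fin (L+1)`. -/
def ResampleProp : Prop :=
  ∀ (T : Type) [Fintype T] [DecidableEq T] (h J L : ℕ) (u : ℕ → ℝ) (k : Fin h) (i : Fin J)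
    (z : T) (f : Om T h J L → ℝ),
    Ex u f = Ex u (fun ω => ∑ j : Fin (L + 1), gw (qq u L i) L j * f (upd ω k i z j))

/-- (D3) Marginal of a function of the permutation times a function of one value.
PROOF. `∑ a, levw a * (φ a.1 * ψ (a.2 (i,z)))` factorises: `Fintype.sum_prod_type`, and
`∑ g, (∏ p, w p (g p)) * ψ (g p0) = ∑ j, w p0 j * ψ j` (write `ψ (g p0)` as
`∏ p, (if p = p0 then ψ (g p) else 1)` and use `Finset.prod_univ_sum`). -/
def MarginalProp : Prop :=
  ∀ (T : Type) [Fintype T] [DecidableEq T] (J L : ℕ) (u : ℕ → ℝ) (i : Fin J) (z : T)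
    (φ : Equiv.Perm T → ℝ) (ψ : Fin (L + 1) → ℝ),
    Ex1 u (fun a => φ a.1 * ψ (a.2 (i, z))) =
      (1 / ((Fintype.card T).factorial : ℝ) * ∑ π, φ π) *
        ∑ j : Fin (L + 1), gw (qq u L i) L j * ψ j

/-- (D4) A fixed element comes first in a uniformly random order with probability at most
`1 / |A|`. PROOF. For `z ∈ A` the sets `P z' = {π | ∀ w ∈ A, rk (π z') ≤ rk (π w)}`, `z' ∈ A`,
are disjoint (injectivity of `rk ∘ π`), cover all permutations (`A` is nonempty) and have the
same cardinality (`π ↦ π * swap z z'` maps `P z` onto `P z'`: note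
`(π * swap z z') z' = π z` and `swap z z'` preserves `A`). So `card (P z) * card A = (card T)!`.
If `z ∉ A`, the set for `A` equals the set for `insert z A`, so
`card * (card A + 1) = (card T)!`. If `A` is empty the claim is `0 ≤ (card T)!`. -/
def PermProp : Prop :=
  ∀ (T : Type) [Fintype T] [DecidableEq T] (A : Finset T) (z : T),
    (∑ π : Equiv.Perm T, ind (∀ w ∈ A, rk T (π z) ≤ rk T (π w))) * (A.card : ℝ) ≤
      ((Fintype.card T).factorial : ℝ)

/-- (D5) Properties of the centre map. -/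
def CtrProp : Prop :=
  ∀ (T : Type) [Fintype T] [DecidableEq T] (D : T → T → ℝ) (R : ℝ) (π : Equiv.Perm T),
    PM D → 0 ≤ R → ∀ x, D (ctr D R π x) x ≤ R ∧
      ∀ w, D w x ≤ R → rk T (π (ctr D R π x)) ≤ rk T (π w)

/-- (D6) Probability that a field is capped at `r`. From (C2), (D3), (D4), (D5), (D0).
PROOF. Put `eta = lam * rho / L > 0`. If `Cap D lam rho a r i` then, with `zc` selected and
`g zc = L`, (C2) gives `x` with `ctr x = zc`, `D r x ≤ rho`; by (D5) (radius `2 rho`)
`D zc x ≤ 2 rho`, so `D zc r ≤ 3 rho`; and every `w` with `D w r ≤ rho` has `D w x ≤ 2 rho`, so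
`rk (π zc) ≤ rk (π w)`. Hence
`ind (Cap ...) ≤ ∑ zc ∈ ball (3 rho), ind (∀ w ∈ ball rho, rk (π zc) ≤ rk (π w)) *
ind (a.2 (i, zc) = L)`. By (D3) and (D4) the expectation of each term is at most
`(1 / nb rho r) * q^L`, where `gw q L L = q^L`, and `q^L = (1 - u/L)^L ≤ exp (-u)`
(`Real.one_sub_le_exp_neg`, `Real.exp_nat_mul`). `nb D rho r ≥ 1` since `D r r = 0`. -/
def CapProbProp : Prop :=
  ∀ (T : Type) [Fintype T] [DecidableEq T] [Nonempty T] (J L : ℕ) (u : ℕ → ℝ)
    (D : T → T → ℝ) (lam rho : ℝ) (r : T) (i : Fin J),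
    PM D → 0 < lam → 0 < rho → 0 < L → (∀ i, i < J → 0 ≤ qq u L i ∧ qq u L i ≤ 1) →
    Ex1 u (fun a : Lev T J L => ind (Cap D lam rho a r i)) ≤
      (nb D (3 * rho) r : ℝ) / (nb D rho r : ℝ) * Real.exp (- u i)

/-- (D7) Exponential moment for one level. From (D6), (D0).
PROOF. Pointwise `exp (Wl a / 8) ≤ exp (u0/8) * (1 + ∑ i : Fin J, exp (u i / 2) * ind (Cap i))`:
let `I` be the number of the leading capped fields (the least `i` not capped, or `J`);
`CapBelow i` holds iff `i ≤ I`. If `I = 0` then `Wl = u0` (if `J > 0`). If `I ≥ 1` then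
`Wl ≤ ∑_{i ≤ I} u i = u0 (2^(I+1) - 1) ≤ u0 + 4 u (I-1)`, and the field `I-1` is capped.
Take expectations: by (D6), with `a = nb (3 rho) / nb rho ≥ 1`,
`Ex1 (exp (Wl/8)) ≤ exp (u0/8) (1 + a ∑_i exp (u i / 2) exp (- u i))
 = exp (u0/8) (1 + a ∑_i exp (- u i / 2))`, and since `u i = 2^i u0 ≥ i + 1`,
`∑_i exp (- u i/2) ≤ ∑_i exp (-(i+1)/2) ≤ 1.55` (geometric series with ratio
`exp (-1/2) ≤ 0.6066`). So the total is `≤ exp (u0/8) * 2.55 * a ≤ exp (u0/8 + 1) * a`. -/
def ExpLevelProp : Prop :=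
  ∀ (T : Type) [Fintype T] [DecidableEq T] [Nonempty T] (J L : ℕ) (u : ℕ → ℝ) (u0 : ℝ)
    (D : T → T → ℝ) (lam rho : ℝ) (r : T),
    PM D → 0 < lam → 0 < rho → 0 < L → (∀ i, i < J → 0 ≤ qq u L i ∧ qq u L i ≤ 1) →
    1 ≤ u0 → (∀ i, u i = 2 ^ i * u0) →
    Ex1 u (fun a : Lev T J L => Real.exp (Wl D lam rho u r a / 8)) ≤
      Real.exp (u0 / 8 + 1) * ((nb D (3 * rho) r : ℝ) / (nb D rho r : ℝ))

/-- (D8) Exponential moment of `W`, from (D1), (D7).
PROOF. `exp (∑_k Wl (ω k) / 8) = ∏_k exp (Wl (ω k) / 8)`; (D1); (D7); and the product of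
`nb (3 rho_k) / nb rho_k` over `k < h` telescopes because `3 rho_k ≤ rho_{k+1}`:
it is at most `nb (3 rho_{h-1}) / nb rho_0 ≤ card T` (induction on `h`). For `h = 0` both sides
are fine as `card T ≥ 1`. -/
def ExpMomentProp : Prop :=
  ∀ (T : Type) [Fintype T] [DecidableEq T] [Nonempty T] (h J L : ℕ) (u : ℕ → ℝ) (u0 : ℝ)
    (D : T → T → ℝ) (lam : ℝ) (rho : ℕ → ℝ) (r : T),
    PM D → 0 < lam → (∀ k, k < h → 0 < rho k) → (∀ k, k + 1 < h → 4 * rho k ≤ rho (k + 1)) →
    0 < L → (∀ i, i < J → 0 ≤ qq u L i ∧ qq u L i ≤ 1) → 1 ≤ u0 → (∀ i, u i = 2 ^ i * u0) →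
    Ex u (fun ω : Om T h J L => Real.exp ((∑ k : Fin h, Wl D lam (rho k) u r (ω k)) / 8)) ≤
      Real.exp (h * (u0 / 8 + 1)) * (Fintype.card T : ℝ)

/-! ## Part E: assembly -/

/-- (E1) The perturbed costs are between `D/2` and `3D/2`. From (C1).
PROOF. `|pot r - pot s| ≤ ∑_k ∑_i lam * D r s = h * J * lam * D r s ≤ D r s / 2`. -/
def CostProp : Prop :=
  ∀ (T : Type) [Fintype T] [DecidableEq T] [Nonempty T] (h J L : ℕ)
    (D : T → T → ℝ) (lam : ℝ) (rho : ℕ → ℝ) (ω : Om T h J L),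
    PM D → 0 ≤ lam → (∀ k, k < h → 0 ≤ rho k) → h * J * lam ≤ 1 / 2 → ∀ r s,
    D r s ≤ 2 * cst D (pot D lam rho ω) r s ∧ cst D (pot D lam rho ω) r s ≤ 3 / 2 * D r s

/-- (E2) Probability of a far assignment at level `k`. From (B2), (C2), (D0), (D2), (D5), (E1).
Write `c ω = cst D (pot D lam rho ω)`, `far ω = (6 * rho k ≤ D x (srv (c ω) x l))`,
`U ω = optv (c ω) (x::l) - optv (c ω) l ≥ 0`, `P i ω = CapBelow D lam (rho k) (ω k) x i`.
PROOF. Pointwise
`ind (far) ≤ ∑_{i} ∑_{zc} ind (P i ∧ Sel_i zc ∧ g_i zc < L ∧ far) + ind (∀ i, Cap i)`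
(if not all fields are capped let `i` be the first field which is not; the centre `zc` selected
by the field `i` at `x` exists by (C2), and its value is `≠ L`). Fix `i` and `zc`. By (D2) the
expectation of the term is
`Ex (fun ω => ∑ j, gw q L j * term (upd ω k i zc j))`. In `upd ω k i zc j` the fields
`i' < i` of level `k` are the same as in `ω`, so `P i` is unchanged; the centre maps are
unchanged; and `pot (upd ω k i zc j) s = B s + fld ... (update g_i zc j) s`, where `B` is the sum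
of all the other fields. So (B2), multiplied by `ind (P i ω) ≤ 1`, gives
`∑ j, gw q L j * term (upd ω k i zc j) ≤ (1-q)/eta * ∑ j, gw q L j *
  (U * ind (P i) * ind (Sel_i zc)) (upd ω k i zc j) + (1-q) (1 + card T)`, where
`(1-q)/eta = (u i / L) / (lam rho_k / L) = u i / (lam * rho k)` and `1-q = u i / L`. By (D2)
again the expectation of the sum is `Ex (U * ind (P i) * ind (Sel_i zc))`. Sum over `zc`:
`∑_{zc} ind (Sel_i zc) ≤ 1` by the uniqueness in (C2). -/
def LevelProp : Prop :=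
  ∀ (T : Type) [Fintype T] [DecidableEq T] [Nonempty T] (h J L : ℕ) (u : ℕ → ℝ)
    (D : T → T → ℝ) (lam : ℝ) (rho : ℕ → ℝ) (x : T) (l : List T) (k : Fin h),
    PM D → 0 < lam → (∀ k, k < h → 0 < rho k) → h * J * lam ≤ 1 / 2 → 0 < L →
    (∀ i, i < J → 0 ≤ qq u L i ∧ qq u L i ≤ 1) → l.length + 1 ≤ Fintype.card T →
    Ex u (fun ω : Om T h J L =>
        ind (6 * rho k ≤ D x (srv (cst D (pot D lam rho ω)) x l))) ≤
      (∑ i : Fin J, (u i / (lam * rho k) * Ex u (fun ω : Om T h J L =>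
          (optv (cst D (pot D lam rho ω)) (x :: l) - optv (cst D (pot D lam rho ω)) l) *
            ind (CapBelow D lam (rho k) (ω k) x i))
        + (Fintype.card T : ℝ) * (u i / L * (1 + (Fintype.card T : ℝ)))))
      + Ex u (fun ω : Om T h J L => ind (∀ i, Cap D lam (rho k) (ω k) x i))

/-- (E3) The expected cost of one step. From (E2), (E1), (A8), (A5), (D0), (D1), (D6), (D8).
Hypotheses on the parameters: `lam = 1/(2hJ)`, `u i = 2^i u0`, `1 ≤ u0`, `u (J-1) ≤ L`,
`err` bounds the error of one level.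
PROOF. Write `a_k = 6 rho_k`, `O = optv D (x::l)`, `y = srv (c ω) x l`,
`U = optv (c ω) (x::l) - optv (c ω) l`, `W = ∑_k Wl (ω k)`.
(1) `D x y ≤ ∑_k 4 a_k ind (a_k ≤ D x y)`, since `D x y = 0` or `a_k ≤ D x y < 4 a_k` for some `k`.
(2) `D x y ≤ 4 optv (c ω) (x::l) ≤ 6 O` by (A8), (E1), (A5). So if `a_k > 6 O` the `k`-th term
vanishes, and in any case, by (E2), `a_k Ex (ind (a_k ≤ D x y)) ≤ (6 / lam) Ex (U * Wl (ω k)) +
6 O * (J card T (u (J-1)/L) (1 + card T) + Ex (ind (all capped at level k)))`, where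
`Ex (ind (all capped)) ≤ Ex1 (ind (Cap (J-1))) ≤ card T * exp (- u (J-1))` by (D1), (D6)
(`nb (3 rho) ≤ card T`, `nb rho ≥ 1`).
(3) Sum over `k` : `Ex (D x y) ≤ (24/lam) Ex (U * W) + 24 h O err`.
(4) `U * W ≤ w0 * U + U * 8 exp ((W - w0)/8)` (from `t ≤ exp t`, `U ≥ 0`),
`0 ≤ U ≤ optv (c ω) (x::l) ≤ (3/2) O`, and (D8):
`Ex (U W) ≤ w0 Ex U + 12 O exp (-w0/8) exp (h (u0/8+1)) card T`.
Here `24/lam = 48 h J`. -/
def StepCostProp : Prop :=
  ∀ (T : Type) [Fintype T] [DecidableEq T] [Nonempty T] (h J L : ℕ) (u : ℕ → ℝ) (u0 w0 : ℝ)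
    (D : T → T → ℝ) (lam : ℝ) (rho : ℕ → ℝ) (x : T) (l : List T),
    PM D → 0 < h → 0 < J → lam = 1 / (2 * h * J) → (∀ k, k < h → 0 < rho k) →
    (∀ k, k + 1 < h → 4 * rho k ≤ rho (k + 1)) → 0 < L → 1 ≤ u0 → (∀ i, u i = 2 ^ i * u0) →
    u (J - 1) ≤ L → l.length + 1 ≤ Fintype.card T →
    (∀ r s, D r s = 0 ∨ ∃ k, k < h ∧ 6 * rho k ≤ D r s ∧ D r s < 4 * (6 * rho k)) →
    Ex u (fun ω : Om T h J L => D x (srv (cst D (pot D lam rho ω)) x l)) ≤
      48 * h * J * (w0 * Ex u (fun ω : Om T h J L =>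
          (optv (cst D (pot D lam rho ω)) (x :: l) - optv (cst D (pot D lam rho ω)) l))
        + 12 * optv D (x :: l) *
          (Real.exp (- w0 / 8) * Real.exp (h * (u0 / 8 + 1)) * (Fintype.card T : ℝ)))
      + 24 * h * optv D (x :: l) *
        (J * (Fintype.card T : ℝ) * (u (J - 1) / L * (1 + (Fintype.card T : ℝ)))
          + (Fintype.card T : ℝ) * Real.exp (- u (J - 1)))

/-- (E4) The choice of the parameters. PROOF. `u0 = 1 + (2 ln M + 4)/h`,
`w0 = 17 h + 18 ln M + 68`, `L` a large natural number (`L ≥ 48 h J M^2 (1+M) u (J-1)`,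
`L ≥ 1`; note this is `≥ u (J-1)`).
(1) `u (J-1) = 2^(log2 h + 1) u0 ≥ h u0 = h + 2 ln M + 4` (`Nat.lt_pow_succ_log_self`), so
`24 h M * M exp (- u (J-1)) ≤ 24 h exp (-h) exp (-4) ≤ 1/2`
(`h exp (-h) ≤ exp (-1) ≤ 1/2`, `24 exp (-4) ≤ 1`).
(2) `24 h M * (J M (u (J-1)/L) (1+M)) ≤ 1/2` by the choice of `L`.
(3) `w0/8 = h u0/8 + h + ln M + (ln M + h + 8)`; indeed
`8 (h u0/8 + h + 2 ln M + h + 8) = h u0 + 16 h + 16 ln M + 64 = 17 h + 18 ln M + 68`. So
`exp (-w0/8) exp (h (u0/8+1)) M = exp (- (ln M + h + 8)) = exp (-h-8)/M`, and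
`48 h J * 12 * M * exp (-h-8)/M ≤ 1` because `J ≤ h + 1`, `576 h (h+1) ≤ exp 8 * exp h`
(`exp 8 ≥ 2980 > 576 * 5`, `exp h ≥ 1 + h + h^2/2`). -/
def ParamProp : Prop :=
  ∀ (h M : ℕ), 0 < h → 0 < M → ∃ (L : ℕ) (u0 w0 : ℝ), 0 < L ∧ 1 ≤ u0 ∧
    w0 = 17 * h + 18 * Real.log M + 68 ∧
    2 ^ (Nat.log 2 h + 2 - 1) * u0 ≤ L ∧
    48 * h * (Nat.log 2 h + 2) * (12 *
      (Real.exp (- w0 / 8) * Real.exp (h * (u0 / 8 + 1)) * M)) * M
    + 24 * h * ((Nat.log 2 h + 2) * M * (2 ^ (Nat.log 2 h + 2 - 1) * u0 / L * (1 + M))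
          + M * Real.exp (- (2 ^ (Nat.log 2 h + 2 - 1) * u0))) * M ≤ 2

/-- (E5) The theorem for requests at the sites. From (E3), (E4), (A5), (E1), (D0).
PROOF. `J = Nat.log 2 h + 2`, `Ω = Om T h J L`, `w = omw u`. For every `ω`, the list of costs is
`c ω`. By induction on `l`, with `A = 48 h J w0` and `E` the error of one step divided by
`optv D`:
`Ex (tcost D (c ω) l) ≤ A Ex (optv (c ω) l) + l.length * E * optv D l`
(`optv D l ≤ optv D (x::l)`), and `Ex (optv (c ω) l) ≤ (3/2) optv D l` by (E1), (A5),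
`l.length * E ≤ M E ≤ 2`. -/
def CoreProp : Prop :=
  ∀ (T : Type) [Fintype T] [DecidableEq T] [Nonempty T] (h : ℕ) (D : T → T → ℝ)
    (a : ℕ → ℝ), PM D → 0 < h → (∀ k, k < h → 0 < a k) →
    (∀ k, k + 1 < h → 4 * a k ≤ a (k + 1)) →
    (∀ r s, D r s = 0 ∨ ∃ k, k < h ∧ a k ≤ D r s ∧ D r s < 4 * a k) →
    ∃ (Ω : Type) (_ : Fintype Ω) (w : Ω → ℝ) (c : Ω → T → T → ℝ),
      (∀ ω, 0 ≤ w ω) ∧ ∑ ω, w ω = 1 ∧
      ∀ l : List T, l.length ≤ Fintype.card T →
        ∑ ω, w ω * tcost D (c ω) l ≤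
          (72 * h * (Nat.log 2 h + 2) *
            (17 * h + 18 * Real.log (Fintype.card T) + 68) + 2) * optv D l

end Pool.Agent.MP_a4c1f4_lc
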