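import Mathlib
import Pool.Agent.Lib.MP_a4c1f4_lc.Spec

set_option linter.all false

/-!
(A1) augmentation of matchings along alternating paths.
-/

namespace Pool.Agent.MP_a4c1f4_lc

open Finset

theorem augment : AugmentProp := by
  classical
  intro ι T _ _ _ _ M M' hM hM'
  set J : Option ι → Prop :=
    fun b => Relation.ReflTransGen (fun a b => ∃ i', b = some i' ∧ M' a = M i') none b with hJ
  have ha : ∀ a i', J a → M' a = M i' → J (some i') := by
    intro a i' h1 h2
    exact Relation.ReflTransGen.tail h1 ⟨i', rfl, h2⟩
  have hb : ∀ i', J (some i') → ∃ a, J a ∧ M' a = M i' := by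
    intro i' h
    rcases Relation.ReflTransGen.cases_tail h with h1 | ⟨a, h1, i, h2, h3⟩
    · exact absurd h1 (by simp)
    · refine ⟨a, h1, ?_⟩
      rw [h3, Option.some_injective _ h2]
  have h0 : J none := Relation.ReflTransGen.refl
  set N : Option ι → T := fun a => if J a then M' a else (a.elim (M' none) M) with hN
  set N' : ι → T := fun i => if J (some i) then M i else M' (some i) with hN'
  have N1 : ∀ a, J a → N a = M' a := fun a h => by simp only [hN, if_pos h]
  have N2 : ∀ i, ¬ J (some i) → N (some i) = M i := fun i h => by
    simp only [hN, if_neg h, Option.elim]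
  have N3 : ∀ i, J (some i) → N' i = M i := fun i h => by simp only [hN', if_pos h]
  have N4 : ∀ i, ¬ J (some i) → N' i = M' (some i) := fun i h => by simp only [hN', if_neg h]
  have hNi : Function.Injective N := by
    intro a b hab
    by_cases h1 : J a
    · by_cases h2 : J b
      · rw [N1 a h1, N1 b h2] at hab
        exact hM' hab
      · cases b with
        | none => exact absurd h0 h2
        | some i =>
          rw [N1 a h1, N2 i h2] at hab
          exact absurd (ha a i h1 hab) h2
    · cases a with
      | none => exact absurd h0 h1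
      | some i =>
        by_cases h2 : J b
        · rw [N1 b h2, N2 i h1] at hab
          exact absurd (ha b i h2 hab.symm) h1
        · cases b with
          | none => exact absurd h0 h2
          | some j =>
            rw [N2 i h1, N2 j h2] at hab
            rw [hM hab]
  have hNi' : Function.Injective N' := by
    intro i j hij
    by_cases h1 : J (some i)
    · by_cases h2 : J (some j)
      · rw [N3 i h1, N3 j h2] at hij
        exact hM hij
      · rw [N3 i h1, N4 j h2] at hij
        obtain ⟨a, h3, h4⟩ := hb i h1
        rw [← h4] at hij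
        exact absurd (hM' hij ▸ h3) h2
    · by_cases h2 : J (some j)
      · rw [N4 i h1, N3 j h2] at hij
        obtain ⟨a, h3, h4⟩ := hb j h2
        rw [← h4] at hij
        exact absurd (hM' hij ▸ h3) h1
      · rw [N4 i h1, N4 j h2] at hij
        exact Option.some_injective _ (hM' hij)
  have hsub : (univ.image M) ⊆ univ.image N := by
    intro t ht
    obtain ⟨i, _, rfl⟩ := mem_image.1 ht
    by_cases h1 : J (some i)
    · obtain ⟨a, h3, h4⟩ := hb i h1
      exact mem_image.2 ⟨a, mem_univ _, by rw [N1 a h3, h4]⟩
    · exact mem_image.2 ⟨some i, mem_univ _, N2 i h1⟩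
  have hcard : (univ.image M).card + 1 = (univ.image N).card := by
    rw [card_image_of_injective _ hM, card_image_of_injective _ hNi, card_univ, card_univ,
      Fintype.card_option]
  obtain ⟨y, hy, hins⟩ := Finset.exists_eq_insert_iff.2 ⟨hsub, hcard⟩
  refine ⟨N, N', y, hNi, hNi', ?_, ?_, ?_⟩
  · rintro ⟨i, rfl⟩
    exact hy (mem_image.2 ⟨i, mem_univ _, rfl⟩)
  · ext t
    have h1 : t ∈ univ.image N ↔ t ∈ insert y (univ.image M) := by rw [hins]
    simpa using h1
  · intro c
    rw [Fintype.sum_option, Fintype.sum_option, N1 none h0]
    have h1 : (∑ i, c (some i) (N (some i))) + (∑ i, c (some i) (N' i)) =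
        (∑ i, c (some i) (M i)) + ∑ i, c (some i) (M' (some i)) := by
      rw [← sum_add_distrib, ← sum_add_distrib]
      apply sum_congr rfl
      intro i _
      by_cases h : J (some i)
      · rw [N1 _ h, N3 i h]
        ring
      · rw [N2 i h, N4 i h]
    linarith

end Pool.Agent.MP_a4c1f4_lc
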