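import Pool.Agent.Lib.MP_a4c1f4_lc.Spec

set_option linter.all false

namespace Pool.Agent.MP_a4c1f4_lc

open Finset

private theorem Field_le_fld {T : Type} [Fintype T] [Nonempty T] (D : T → T → ℝ) (eta lam : ℝ)
    (z : T → T) (g : T → ℕ) (s x : T) :
    eta * (g (z x) : ℝ) - lam * D s x ≤ fld D eta lam z g s := by
  unfold fld
  exact Finset.le_sup' (fun x => eta * (g (z x) : ℝ) - lam * D s x) (Finset.mem_univ x)

private theorem Field_fld_le {T : Type} [Fintype T] [Nonempty T] (D : T → T → ℝ) (eta lam : ℝ)
    (z : T → T) (g : T → ℕ) (s : T) {b : ℝ}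
    (h : ∀ x, eta * (g (z x) : ℝ) - lam * D s x ≤ b) : fld D eta lam z g s ≤ b := by
  unfold fld
  exact Finset.sup'_le _ _ fun x _ => h x

private theorem Field_exists {T : Type} [Fintype T] [Nonempty T] (D : T → T → ℝ) (eta lam : ℝ)
    (z : T → T) (g : T → ℕ) (s : T) :
    ∃ x, fld D eta lam z g s = eta * (g (z x) : ℝ) - lam * D s x := by
  obtain ⟨x, -, hx⟩ := Finset.exists_mem_eq_sup' (s := (Finset.univ : Finset T))
    Finset.univ_nonempty (fun x => eta * (g (z x) : ℝ) - lam * D s x)
  exact ⟨x, hx⟩

theorem field : FieldProp := by
  intro T _ _ _ D eta lam z g hD he hl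
  have hlip : ∀ s s', fld D eta lam z g s ≤ fld D eta lam z g s' + lam * D s s' := by
    intro s s'
    refine Field_fld_le D eta lam z g s fun x => ?_
    have h1 := Field_le_fld D eta lam z g s' x
    have h2 := hD.tri s' s x
    have h3 := hD.symm s' s
    have h4 : lam * D s' x ≤ lam * (D s s' + D s x) := by
      apply mul_le_mul_of_nonneg_left _ hl
      linarith
    linarith
  refine ⟨fun s s' => ?_, fun s => ?_, fun zc j s => ?_⟩
  · rw [abs_le]
    have h1 := hlip s s'
    have h2 := hlip s' s
    rw [hD.symm s' s] at h2
    constructor <;> linarith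
  · have h1 := Field_le_fld D eta lam z g s s
    rw [hD.self s, mul_zero, sub_zero] at h1
    exact (mul_nonneg he (Nat.cast_nonneg _)).trans h1
  · -- the values of the updated function
    have hup : ∀ (k : ℕ) (w : T), (Function.update g zc k) w = if w = zc then k else g w :=
      fun k w => Function.update_apply g zc k w
    have hmono : ∀ k x, eta * (((Function.update g zc k) (z x) : ℕ) : ℝ) ≤
        eta * (((Function.update g zc (k + 1)) (z x) : ℕ) : ℝ) := by
      intro k x
      rw [hup, hup]
      split_ifs
      · push_cast
        nlinarith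
      · exact le_rfl
    have hstep : ∀ k x, eta * (((Function.update g zc (k + 1)) (z x) : ℕ) : ℝ) ≤
        eta * (((Function.update g zc k) (z x) : ℕ) : ℝ) + eta := by
      intro k x
      rw [hup, hup]
      split_ifs
      · push_cast
        nlinarith
      · linarith
    have hconv : ∀ x, 2 * (eta * (((Function.update g zc (j + 1)) (z x) : ℕ) : ℝ)) =
        eta * (((Function.update g zc j) (z x) : ℕ) : ℝ) +
          eta * (((Function.update g zc (j + 2)) (z x) : ℕ) : ℝ) := by
      intro x
      rw [hup, hup, hup]
      split_ifs
      · push_cast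
        ring
      · ring
    refine ⟨?_, ?_, ?_⟩
    · rw [sub_nonneg]
      refine Field_fld_le D eta lam z _ s fun x => ?_
      have h1 := Field_le_fld D eta lam z (Function.update g zc (j + 1)) s x
      have h2 := hmono j x
      linarith
    · rw [sub_le_iff_le_add]
      refine Field_fld_le D eta lam z _ s fun x => ?_
      have h1 := Field_le_fld D eta lam z (Function.update g zc j) s x
      have h2 := hstep j x
      linarith
    · obtain ⟨x, hx⟩ := Field_exists D eta lam z (Function.update g zc (j + 1)) s
      have h1 := Field_le_fld D eta lam z (Function.update g zc j) s x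
      have h2 := Field_le_fld D eta lam z (Function.update g zc (j + 2)) s x
      have h3 := hconv x
      linarith

end Pool.Agent.MP_a4c1f4_lc
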