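import Pool.Agent.Lib.MP_a4c1f4_lc.Spec

set_option linter.all false

/-!
(A2) `optv` is attained.
-/

namespace Pool.Agent.MP_a4c1f4_lc

open Finset

private theorem optBasic_finite {T : Type} [Fintype T] (c : T → T → ℝ) (l : List T) :
    {v : ℝ | ∃ τ, Adm l τ ∧ acost c l τ = v}.Finite := by
  have h1 : {τ : List T | Adm l τ}.Finite :=
    (List.finite_length_eq T l.length).subset fun τ h => h.1
  exact h1.image (acost c l)

theorem optBasic : OptBasicProp := by
  intro T _ _ c l
  refine ⟨fun τ hτ => csInf_le (optBasic_finite c l).bddBelow ⟨τ, hτ, rfl⟩, fun hl => ?_⟩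
  have hne : {v : ℝ | ∃ τ, Adm l τ ∧ acost c l τ = v}.Nonempty := by
    refine ⟨_, (Finset.univ : Finset T).toList.take l.length, ⟨?_, ?_⟩, rfl⟩
    · rw [List.length_take, Finset.length_toList, Finset.card_univ]
      exact min_eq_left hl
    · exact (Finset.nodup_toList _).sublist (List.take_sublist _ _)
  exact hne.csInf_mem (optBasic_finite c l)

end Pool.Agent.MP_a4c1f4_lc
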