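import Pool.Agent.Lib.MP_a4c1f4_lc.Spec

set_option linter.all false
set_option autoImplicit false

namespace Pool.Agent.MP_a4c1f4_lc

open Finset

private theorem sel_rk_inj (T : Type) [Fintype T] {a b : T} (h : rk T a = rk T b) : a = b := by
  unfold rk at h
  exact (Fintype.equivFin T).injective (Fin.ext h)

private theorem sel_fld {T : Type} [Fintype T] [Nonempty T] (D : T → T → ℝ) (eta lam : ℝ)
    (z : T → T) (g : T → ℕ) (r x : T)
    (h : ∀ x', eta * (g (z x') : ℝ) - lam * D r x' ≤ eta * (g (z x) : ℝ) - lam * D r x) :
    fld D eta lam z g r = eta * (g (z x) : ℝ) - lam * D r x := by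
  unfold fld
  apply le_antisymm
  · apply Finset.sup'_le
    intro x' _
    exact h x'
  · exact Finset.le_sup' (fun x => eta * (g (z x) : ℝ) - lam * D r x) (mem_univ x)

theorem selP : SelProp := by
  intro T _ _ _ D eta lam z g r hD heta hlam
  refine ⟨?_, ?_, ?_, ?_⟩
  · -- existence
    obtain ⟨x, -, hx⟩ := Finset.exists_max_image (univ : Finset T)
      (fun x => toLex (eta * (g (z x) : ℝ) - lam * D r x, rk T (z x))) univ_nonempty
    refine ⟨z x, x, rfl, ?_⟩
    intro x'
    have h := hx x' (mem_univ _)
    rw [Prod.Lex.toLex_le_toLex] at h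
    exact h
  · -- uniqueness
    rintro z1 z2 ⟨x1, h1, H1⟩ ⟨x2, h2, H2⟩
    subst h1
    subst h2
    have a := H1 x2
    have b := H2 x1
    apply sel_rk_inj
    rcases a with a | ⟨a, a'⟩
    · rcases b with b | ⟨b, b'⟩ <;> exfalso <;> linarith
    · rcases b with b | ⟨b, b'⟩
      · exfalso
        linarith
      · omega
  · -- monotonicity
    rintro zc j ⟨x, hx, H⟩
    have key : ∀ x', ((eta * ((Function.update g zc (j + 1)) (z x') : ℝ) - lam * D r x' <
        eta * ((Function.update g zc (j + 1)) (z x) : ℝ) - lam * D r x) ∨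
        (eta * ((Function.update g zc (j + 1)) (z x') : ℝ) - lam * D r x' =
        eta * ((Function.update g zc (j + 1)) (z x) : ℝ) - lam * D r x ∧
        rk T (z x') ≤ rk T zc)) := by
      intro x'
      have h := H x'
      rw [hx, Function.update_self] at h ⊢
      by_cases hz : z x' = zc
      · rw [hz, Function.update_self] at h ⊢
        push_cast
        rcases h with h | ⟨h, -⟩
        · left
          linarith
        · right
          exact ⟨by linarith, le_rfl⟩
      · rw [Function.update_of_ne hz] at h ⊢
        push_cast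
        left
        rcases h with h | ⟨h, -⟩ <;> linarith
    refine ⟨⟨x, hx, key⟩, ?_⟩
    rw [sel_fld D eta lam z (Function.update g zc j) r x (fun x' => by
      rcases H x' with h | ⟨h, -⟩
      · exact h.le
      · exact h.le), sel_fld D eta lam z (Function.update g zc (j + 1)) r x (fun x' => by
      rcases key x' with h | ⟨h, -⟩
      · exact h.le
      · exact h.le)]
    rw [hx, Function.update_self, Function.update_self]
    push_cast
    ring
  · rintro L rho zc hg hL ⟨x, hx, H⟩
    refine ⟨x, hx, ?_⟩
    have h1 : eta * (g (z r) : ℝ) - lam * D r r ≤ eta * (g (z x) : ℝ) - lam * D r x := by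
      rcases H r with h | ⟨h, -⟩
      · exact h.le
      · exact h.le
    rw [hD.self r] at h1
    have h2 : (0 : ℝ) ≤ eta * (g (z r) : ℝ) := by positivity
    have h3 : eta * (g (z x) : ℝ) ≤ eta * L := by
      apply mul_le_mul_of_nonneg_left _ heta.le
      exact_mod_cast hg (z x)
    have h4 : lam * D r x ≤ lam * rho := by linarith
    exact le_of_mul_le_mul_left h4 hlam

end Pool.Agent.MP_a4c1f4_lc
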