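import Mathlib
import Pool.Agent.Lib.MP_a4c1f4_lc.Spec

set_option linter.all false

/-!
(A7) one step of a one-parameter family of potentials.
-/

namespace Pool.Agent.MP_a4c1f4_lc

open Finset

theorem stepP (hU : UsedProp) (hP : PotProp) : StepProp := by
  intro T _ _ _ c δ x l j hlen hc hδ
  have u1 := (hU T (c j) l).1 (by omega)
  have u2 := (hU T (c (j + 1)) l).2 x hlen
  have p1 := hP T (c j) (δ j) l _ u1
  have p2 := hP T (c (j + 1)) (fun s => -δ j s) (x :: l) _ u2.2
  have e1 : (fun r s => c j r s + δ j r - δ j s) = c (j + 1) := by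
    funext r s
    rw [hc r s]
  have e2 : (fun r s => c (j + 1) r s + -δ j r - -δ j s) = c j := by
    funext r s
    rw [hc r s]
    ring
  have e3 : (l.map (fun s => -δ j s)).sum = -(l.map (δ j)).sum := by
    clear p1 p2 u1 u2 hlen
    induction l with
    | nil => simp
    | cons a l ih =>
      rw [List.map_cons, List.map_cons, List.sum_cons, List.sum_cons, ih]
      ring
  rw [e1] at p1
  rw [e2, List.map_cons, List.sum_cons, e3, sum_insert u2.1, sum_neg_distrib] at p2
  have h3 : ∑ s ∈ used (c (j + 1)) l, δ j s ≤ ∑ s ∈ used (c (j + 1)) l, δ (j + 1) s :=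
    sum_le_sum fun s _ => hδ s
  linarith

end Pool.Agent.MP_a4c1f4_lc
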