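import Pool.Agent.Lib.MP_a4c1f4_lc.Spec

/-!
Online transportation: the algorithm always uses an optimal set of sites.
-/

namespace Pool.Agent.MP_a4c1f4_lc

open Finset

theorem used_isOpt_nil {T : Type} [Fintype T] [DecidableEq T] (c : T → T → ℝ) :
    IsOpt c [] (∅ : Finset T) := by
  refine ⟨[], ⟨rfl, List.nodup_nil⟩, rfl, ?_⟩
  have h : {v : ℝ | ∃ τ : List T, Adm ([] : List T) τ ∧ acost c [] τ = v} = {0} := by
    ext v
    constructor
    · rintro ⟨τ, -, hv⟩
      rw [← hv]
      simp [acost]
    · intro hv
      rw [Set.mem_singleton_iff] at hv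
      exact ⟨[], ⟨rfl, List.nodup_nil⟩, by rw [hv]; simp [acost]⟩
  unfold optv
  rw [h, csInf_singleton]
  simp [acost]

theorem used_pick_spec {T : Type} [DecidableEq T] [Nonempty T] (c : T → T → ℝ) (x : T)
    (l : List T) (F : Finset T) (h : ∃ y, y ∉ F ∧ IsOpt c (x :: l) (insert y F)) :
    pick c x l F ∉ F ∧ IsOpt c (x :: l) (insert (pick c x l F) F) := by
  unfold pick
  rw [dif_pos h]
  exact h.choose_spec

theorem used_isOpt (hA : AugOptProp) {T : Type} [Fintype T] [DecidableEq T] [Nonempty T]
    (c : T → T → ℝ) (l : List T) (hl : l.length ≤ Fintype.card T) : IsOpt c l (used c l) := by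
  induction l with
  | nil => exact used_isOpt_nil c
  | cons x l ih =>
    rw [List.length_cons] at hl
    exact (used_pick_spec c x l (used c l) (hA T c x l (used c l) (ih (by omega)) hl)).2

/-- (A4) -/
theorem usedP (hA : AugOptProp) : UsedProp := by
  intro T _ _ _ c l
  refine ⟨used_isOpt hA c l, fun x hx => ?_⟩
  exact used_pick_spec c x l (used c l) (hA T c x l (used c l) (used_isOpt hA c l (by omega)) hx)

/-- the sites chosen by the algorithm -/
theorem srvs_spec (hU : UsedProp) (T : Type) [Fintype T] [DecidableEq T] [Nonempty T]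
    (c : T → T → ℝ) (l : List T) (hl : l.length ≤ Fintype.card T) :
    (srvs c l).Nodup ∧ (srvs c l).length = l.length ∧ (srvs c l).toFinset = used c l := by
  induction l with
  | nil => exact ⟨List.nodup_nil, rfl, rfl⟩
  | cons x l ih =>
    rw [List.length_cons] at hl
    obtain ⟨h1, h2, h3⟩ := ih (by omega)
    have h4 := ((hU T c l).2 x hl).1
    refine ⟨?_, ?_, ?_⟩
    · show (srv c x l :: srvs c l).Nodup
      rw [List.nodup_cons]
      refine ⟨fun hm => h4 ?_, h1⟩
      rw [← h3, List.mem_toFinset]
      exact hm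
    · show (srv c x l :: srvs c l).length = (x :: l).length
      rw [List.length_cons, List.length_cons, h2]
    · show (srv c x l :: srvs c l).toFinset = insert (pick c x l (used c l)) (used c l)
      rw [List.toFinset_cons, h3]
      rfl

end Pool.Agent.MP_a4c1f4_lc
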