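import Pool.Agent.Lib.MP_a4c1f4_lc.Spec

set_option linter.all false

/-! (D4) and (D5): random permutations and centre maps. -/

namespace Pool.Agent.MP_a4c1f4_lc

open Finset

private theorem rk_inj {T : Type} [Fintype T] {x y : T} (h : rk T x = rk T y) : x = y := by
  unfold rk at h
  exact (Fintype.equivFin T).injective (Fin.ext h)

private theorem perm_swap {T : Type} [Fintype T] [DecidableEq T] (A : Finset T) {z z' : T}
    (hz : z ∈ A) (hz' : z' ∈ A) {w : T} (hw : w ∈ A) : Equiv.swap z z' w ∈ A := by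
  by_cases h1 : w = z
  · rw [h1, Equiv.swap_apply_left]; exact hz'
  · by_cases h2 : w = z'
    · rw [h2, Equiv.swap_apply_right]; exact hz
    · rw [Equiv.swap_apply_of_ne_of_ne h1 h2]; exact hw

private theorem perm_eq {T : Type} [Fintype T] [DecidableEq T] (A : Finset T) {z z' : T}
    (hz : z ∈ A) (hz' : z' ∈ A) :
    ∑ π : Equiv.Perm T, ind (∀ w ∈ A, rk T (π z) ≤ rk T (π w)) =
      ∑ π : Equiv.Perm T, ind (∀ w ∈ A, rk T (π z') ≤ rk T (π w)) := by
  refine Fintype.sum_equiv (Equiv.mulRight (Equiv.swap z z')) _ _ fun π => ?_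
  have h : (∀ w ∈ A, rk T (π z) ≤ rk T (π w)) ↔
      (∀ w ∈ A, rk T ((Equiv.mulRight (Equiv.swap z z') π) z') ≤
        rk T ((Equiv.mulRight (Equiv.swap z z') π) w)) := by
    simp only [Equiv.coe_mulRight, Equiv.Perm.mul_apply, Equiv.swap_apply_right]
    constructor
    · intro h w hw
      exact h _ (perm_swap A hz hz' hw)
    · intro h w hw
      have := h _ (perm_swap A hz hz' hw)
      rwa [Equiv.swap_apply_self] at this
  rw [propext h]

private theorem perm_mem {T : Type} [Fintype T] [DecidableEq T] (A : Finset T) {z : T}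
    (hz : z ∈ A) :
    (∑ π : Equiv.Perm T, ind (∀ w ∈ A, rk T (π z) ≤ rk T (π w))) * (A.card : ℝ) ≤
      ((Fintype.card T).factorial : ℝ) := by
  have h1 : (∑ π : Equiv.Perm T, ind (∀ w ∈ A, rk T (π z) ≤ rk T (π w))) * (A.card : ℝ) =
      ∑ z' ∈ A, ∑ π : Equiv.Perm T, ind (∀ w ∈ A, rk T (π z') ≤ rk T (π w)) := by
    rw [Finset.sum_congr rfl fun z' hz' => (perm_eq A hz hz').symm, Finset.sum_const,
      nsmul_eq_mul, mul_comm]
  rw [h1, Finset.sum_comm]
  have h2 : ∀ π : Equiv.Perm T, ∑ z' ∈ A, ind (∀ w ∈ A, rk T (π z') ≤ rk T (π w)) ≤ 1 := by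
    intro π
    by_cases hex : ∃ z' ∈ A, ∀ w ∈ A, rk T (π z') ≤ rk T (π w)
    · obtain ⟨z0, hz0, h0⟩ := hex
      rw [Finset.sum_eq_single z0]
      · exact ind_le_one _
      · intro z' hz' hne
        apply ind_false
        intro h
        exact hne (π.injective (rk_inj (le_antisymm (h z0 hz0) (h0 z' hz'))))
      · intro h
        exact absurd hz0 h
    · push Not at hex
      rw [Finset.sum_eq_zero]
      · exact zero_le_one
      · intro z' hz'
        apply ind_false
        intro h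
        obtain ⟨w, hw, hlt⟩ := hex z' hz'
        exact absurd (h w hw) (not_le.mpr hlt)
  calc ∑ π : Equiv.Perm T, ∑ z' ∈ A, ind (∀ w ∈ A, rk T (π z') ≤ rk T (π w))
      ≤ ∑ π : Equiv.Perm T, (1 : ℝ) := Finset.sum_le_sum fun π _ => h2 π
    _ = ((Fintype.card T).factorial : ℝ) := by
        rw [Finset.sum_const, Finset.card_univ, Fintype.card_perm, nsmul_eq_mul, mul_one]

theorem permP : PermProp := by
  intro T _ _ A z
  have h1 : ∀ π : Equiv.Perm T, (∀ w ∈ A, rk T (π z) ≤ rk T (π w)) ↔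
      (∀ w ∈ insert z A, rk T (π z) ≤ rk T (π w)) := by
    intro π
    constructor
    · intro h w hw
      rcases Finset.mem_insert.mp hw with h2 | h2
      · rw [h2]
      · exact h w h2
    · intro h w hw
      exact h w (Finset.mem_insert_of_mem hw)
  have h2 : ∑ π : Equiv.Perm T, ind (∀ w ∈ A, rk T (π z) ≤ rk T (π w)) =
      ∑ π : Equiv.Perm T, ind (∀ w ∈ insert z A, rk T (π z) ≤ rk T (π w)) :=
    Finset.sum_congr rfl fun π _ => by rw [propext (h1 π)]
  rw [h2]
  refine le_trans ?_ (perm_mem (insert z A) (Finset.mem_insert_self z A))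
  refine mul_le_mul_of_nonneg_left ?_ (Finset.sum_nonneg fun π _ => ind_nonneg _)
  exact_mod_cast Finset.card_le_card (Finset.subset_insert z A)

theorem ctrP : CtrProp := by
  intro T _ _ D R π hD hR x
  have hne : ((Finset.univ : Finset T).filter (fun w => D w x ≤ R)).Nonempty :=
    ⟨x, by
      rw [Finset.mem_filter]
      exact ⟨Finset.mem_univ x, by rw [hD.self]; exact hR⟩⟩
  have h1 : ctr D R π x = (Finset.exists_min_image _ (fun w => rk T (π w)) hne).choose := by
    unfold ctr
    rw [dif_pos hne]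
  have h2 := (Finset.exists_min_image _ (fun w => rk T (π w)) hne).choose_spec
  rw [← h1] at h2
  refine ⟨(Finset.mem_filter.mp h2.1).2, fun w hw => ?_⟩
  exact h2.2 w (Finset.mem_filter.mpr ⟨Finset.mem_univ w, hw⟩)

end Pool.Agent.MP_a4c1f4_lc
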