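import Pool.Agent.Lib.MP_a4c1f4_lc.Spec3

/-!
# Contraction of small distances
-/

set_option linter.all false

namespace Pool.Agent.MP_a4c1f4_lc

open Finset

private lemma n0_step (θ b u v : ℝ) (hθ : 0 ≤ θ) (huv : u ≤ v) :
    0 ≤ min v (max b (v - θ)) - min u (max b (u - θ)) ∧
    min v (max b (v - θ)) - min u (max b (u - θ)) ≤ v - u ∧
    v - u - θ ≤ min v (max b (v - θ)) - min u (max b (u - θ)) := by
  simp only [min_def, max_def]
  split_ifs <;> refine ⟨?_, ?_, ?_⟩ <;> linarith

private lemma n0_collapse (θ : ℝ) (hθ : 0 ≤ θ) (l : List ℝ) : ∃ φ : ℝ → ℝ,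
    (∀ s t, s ≤ t → 0 ≤ φ t - φ s ∧ φ t - φ s ≤ t - s ∧ t - s - l.length * θ ≤ φ t - φ s) ∧
    (∀ a ∈ l, ∀ t, a ≤ t → t ≤ a + θ → φ t = φ a) := by
  induction l with
  | nil =>
    refine ⟨id, fun s t h => ?_, fun a ha => by simp at ha⟩
    simp only [id, List.length_nil, Nat.cast_zero, zero_mul, sub_zero]
    exact ⟨by linarith, le_refl _, le_refl _⟩
  | cons a l ih =>
    obtain ⟨φ, h1, h2⟩ := ih
    refine ⟨fun t => min (φ t) (max (φ a) (φ t - θ)), fun s t h => ?_, fun c hc t h3 h4 => ?_⟩
    · obtain ⟨e1, e2, e3⟩ := h1 s t h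
      obtain ⟨g1, g2, g3⟩ := n0_step θ (φ a) (φ s) (φ t) hθ (by linarith)
      refine ⟨g1, by linarith, ?_⟩
      simp only [List.length_cons, Nat.cast_add, Nat.cast_one]
      have : ((l.length : ℝ) + 1) * θ = l.length * θ + θ := by ring
      rw [this]
      linarith
    · rcases List.mem_cons.1 hc with rfl | hc
      · obtain ⟨e1, e2, -⟩ := h1 c t h3
        show min (φ t) (max (φ c) (φ t - θ)) = min (φ c) (max (φ c) (φ c - θ))
        rw [max_eq_left (by linarith : φ t - θ ≤ φ c), max_eq_left (by linarith : φ c - θ ≤ φ c),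
          min_eq_right (by linarith), min_self]
      · have := h2 c hc t h3 h4
        show min (φ t) (max (φ a) (φ t - θ)) = min (φ c) (max (φ a) (φ c - θ))
        rw [this]

theorem contract : ContractProp := by
  intro S _ _ D θ hD hθ
  choose φ h1 h2 using fun z : S => n0_collapse θ hθ ((univ : Finset S).toList.map (D z))
  have hlen : ∀ z : S, (((univ : Finset S).toList.map (D z)).length : ℝ) = Fintype.card S := by
    intro z
    rw [List.length_map, Finset.length_toList, Finset.card_univ]
  simp only [hlen] at h1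
  have hmem : ∀ z x : S, D z x ∈ (univ : Finset S).toList.map (D z) := fun z x =>
    List.mem_map_of_mem (Finset.mem_toList.2 (mem_univ x))
  let D' : S → S → ℝ := fun x y =>
    univ.sup' univ_nonempty fun z => |φ z (D z x) - φ z (D z y)|
  have hle : ∀ z x y, |φ z (D z x) - φ z (D z y)| ≤ D' x y := fun z x y =>
    Finset.le_sup' (fun z => |φ z (D z x) - φ z (D z y)|) (mem_univ z)
  have hsup : ∀ x y c, (∀ z, |φ z (D z x) - φ z (D z y)| ≤ c) → D' x y ≤ c := fun x y c h =>
    Finset.sup'_le _ _ fun z _ => h z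
  have hlip : ∀ z x y, |φ z (D z x) - φ z (D z y)| ≤ D x y := by
    intro z x y
    rcases le_total (D z x) (D z y) with h | h
    · obtain ⟨e1, e2, -⟩ := h1 z _ _ h
      have e3 := hD.tri z x y
      rw [abs_sub_comm, abs_of_nonneg e1]
      linarith
    · obtain ⟨e1, e2, -⟩ := h1 z _ _ h
      have e3 := hD.tri z y x
      rw [hD.symm y x] at e3
      rw [abs_of_nonneg e1]
      linarith
  refine ⟨D', ⟨fun x => ?_, fun x y => ?_, fun x y z => ?_⟩, fun x y => ?_, fun x y => ?_,
    fun x y hxy => ?_⟩
  · apply le_antisymm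
    · exact hsup x x 0 fun z => by simp
    · exact (abs_nonneg _).trans (hle (Classical.arbitrary S) x x)
  · show univ.sup' univ_nonempty (fun z => |φ z (D z x) - φ z (D z y)|) =
      univ.sup' univ_nonempty (fun z => |φ z (D z y) - φ z (D z x)|)
    congr 1
    funext z
    exact abs_sub_comm _ _
  · refine hsup x z _ fun w => ?_
    refine (abs_sub_le _ (φ w (D w y)) _).trans ?_
    exact add_le_add (hle w x y) (hle w y z)
  · exact hsup x y _ fun z => hlip z x y
  · obtain ⟨e1, e2, e3⟩ := h1 x (D x x) (D x y) (by rw [hD.self]; exact hD.nonneg x y)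
    have e4 := hle x x y
    rw [abs_sub_comm, abs_of_nonneg e1] at e4
    rw [hD.self] at e3 e4
    linarith
  · apply le_antisymm
    · refine hsup x y 0 fun z => ?_
      have : φ z (D z x) = φ z (D z y) := by
        rcases le_total (D z x) (D z y) with h | h
        · have e3 := hD.tri z x y
          exact (h2 z (D z x) (hmem z x) (D z y) h (by linarith)).symm
        · have e3 := hD.tri z y x
          rw [hD.symm y x] at e3
          exact h2 z (D z y) (hmem z y) (D z x) h (by linarith)
      rw [this, sub_self, abs_zero]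
    · exact (abs_nonneg _).trans (hle x x y)

end Pool.Agent.MP_a4c1f4_lc
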