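import Pool.Agent.Lib.MP_a4c1f4_lc.Spec

set_option linter.all false

namespace Pool.Agent.MP_a4c1f4_lc

open Finset

open Classical in
private theorem capProb_point (hS : SelProp) (hC : CtrProp) {T : Type} [Fintype T] [DecidableEq T]
    [Nonempty T] {J L : ℕ} {D : T → T → ℝ} {lam rho : ℝ} (r : T) (i : Fin J) (hD : PM D)
    (hlam : 0 < lam) (hrho : 0 < rho) (hL : 0 < L) (a : Lev T J L) :
    ind (Cap D lam rho a r i) ≤
      ∑ zc ∈ (Finset.univ : Finset T).filter (fun w => D w r ≤ 3 * rho),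
        ind (∀ w ∈ (Finset.univ : Finset T).filter (fun w => D w r ≤ rho),
          rk T (a.1 zc) ≤ rk T (a.1 w)) * ind (a.2 (i, zc) = Fin.last L) := by
  have hnn : 0 ≤ ∑ zc ∈ (Finset.univ : Finset T).filter (fun w => D w r ≤ 3 * rho),
        ind (∀ w ∈ (Finset.univ : Finset T).filter (fun w => D w r ≤ rho),
          rk T (a.1 zc) ≤ rk T (a.1 w)) * ind (a.2 (i, zc) = Fin.last L) :=
    Finset.sum_nonneg fun zc _ => mul_nonneg (ind_nonneg _) (ind_nonneg _)
  by_cases hcap : Cap D lam rho a r i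
  swap
  · rw [ind_false hcap]; exact hnn
  rw [ind_true hcap]
  obtain ⟨zc, hsel, hval⟩ := hcap
  have hL' : (0 : ℝ) < L := by exact_mod_cast hL
  have heta : 0 < lam * rho / (L : ℝ) := by positivity
  obtain ⟨-, -, -, hclose⟩ := hS T D (lam * rho / (L : ℝ)) lam (ctr D (2 * rho) a.1) (gv a i) r
    hD heta hlam
  obtain ⟨x, hx, hrx⟩ := hclose L rho zc
    (fun w => by unfold gv; exact Nat.lt_succ_iff.mp (a.2 (i, w)).2)
    (by field_simp) hsel
  obtain ⟨hc1, hc2⟩ := hC T D (2 * rho) a.1 hD (by linarith) x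
  rw [hx] at hc1 hc2
  have hzr : D zc r ≤ 3 * rho := by
    have h1 := hD.tri zc x r
    have h2 := hD.symm x r
    linarith
  have hmem : zc ∈ (Finset.univ : Finset T).filter (fun w => D w r ≤ 3 * rho) := by
    simp [hzr]
  have hall : ∀ w ∈ (Finset.univ : Finset T).filter (fun w => D w r ≤ rho),
      rk T (a.1 zc) ≤ rk T (a.1 w) := by
    intro w hw
    have hw' : D w r ≤ rho := by simpa using hw
    apply hc2
    have h1 := hD.tri w r x
    linarith
  have hlast : a.2 (i, zc) = Fin.last L := by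
    apply Fin.ext
    simpa [gv] using hval
  have hterm : (1 : ℝ) = ind (∀ w ∈ (Finset.univ : Finset T).filter (fun w => D w r ≤ rho),
          rk T (a.1 zc) ≤ rk T (a.1 w)) * ind (a.2 (i, zc) = Fin.last L) := by
    rw [ind_true hall, ind_true hlast]; norm_num
  refine le_trans (le_of_eq hterm) ?_
  exact Finset.single_le_sum (f := fun zc =>
    ind (∀ w ∈ (Finset.univ : Finset T).filter (fun w => D w r ≤ rho),
          rk T (a.1 zc) ≤ rk T (a.1 w)) * ind (a.2 (i, zc) = Fin.last L))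
    (fun zc _ => mul_nonneg (ind_nonneg _) (ind_nonneg _)) hmem

private theorem capProb_gw (q : ℝ) (L : ℕ) :
    ∑ j : Fin (L + 1), gw q L j * ind (j = Fin.last L) = q ^ L := by
  rw [Finset.sum_eq_single (Fin.last L)]
  · rw [ind_true rfl]; simp [gw]
  · intro b _ hb
    rw [ind_false hb, mul_zero]
  · intro h; exact absurd (Finset.mem_univ _) h

private theorem capProb_pow {q v : ℝ} {L : ℕ} (hL : 0 < L) (hq : q = 1 - v / (L : ℝ))
    (hq0 : 0 ≤ q) : q ^ L ≤ Real.exp (- v) := by
  have hL' : (0 : ℝ) < L := by exact_mod_cast hL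
  have h1 : q ≤ Real.exp (-(v / (L : ℝ))) := by
    rw [hq]; exact Real.one_sub_le_exp_neg _
  calc q ^ L ≤ (Real.exp (-(v / (L : ℝ)))) ^ L := pow_le_pow_left₀ hq0 h1 L
    _ = Real.exp (- v) := by
      rw [← Real.exp_nat_mul]
      congr 1
      field_simp

theorem capProb (hS : SelProp) (hW : WeightProp) (hMa : MarginalProp) (hP : PermProp)
    (hC : CtrProp) : CapProbProp := by
  classical
  intro T _ _ _ J L u D lam rho r i hD hlam hrho hL hq
  have hw0 : ∀ a : Lev T J L, 0 ≤ levw u a := (hW.2.2.1 T J L u).2 hq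
  set A : Finset T := (Finset.univ : Finset T).filter (fun w => D w r ≤ rho) with hA
  set B : Finset T := (Finset.univ : Finset T).filter (fun w => D w r ≤ 3 * rho) with hB
  have hnb1 : nb D rho r = A.card := by
    unfold nb; rw [hA]
  have hnb3 : nb D (3 * rho) r = B.card := by
    unfold nb; rw [hB]
  have hApos : (0 : ℝ) < A.card := by
    have : 0 < A.card := Finset.card_pos.mpr ⟨r, by rw [hA]; simp [hD.self, hrho.le]⟩
    exact_mod_cast this
  have hfac : (0 : ℝ) < ((Fintype.card T).factorial : ℝ) := by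
    exact_mod_cast Nat.factorial_pos _
  have hexp : (qq u L i) ^ L ≤ Real.exp (- u i) := capProb_pow hL rfl (hq i i.2).1
  have hpw0 : 0 ≤ (qq u L i) ^ L := pow_nonneg (hq i i.2).1 _
  calc Ex1 u (fun a : Lev T J L => ind (Cap D lam rho a r i))
      ≤ ∑ a : Lev T J L, levw u a * ∑ zc ∈ B,
          ind (∀ w ∈ A, rk T (a.1 zc) ≤ rk T (a.1 w)) * ind (a.2 (i, zc) = Fin.last L) := by
        unfold Ex1
        exact Finset.sum_le_sum fun a _ => mul_le_mul_of_nonneg_left
          (capProb_point hS hC r i hD hlam hrho hL a) (hw0 a)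
    _ = ∑ zc ∈ B, Ex1 u (fun a : Lev T J L =>
          ind (∀ w ∈ A, rk T (a.1 zc) ≤ rk T (a.1 w)) * ind (a.2 (i, zc) = Fin.last L)) := by
        unfold Ex1
        rw [Finset.sum_comm]
        exact Finset.sum_congr rfl fun a _ => Finset.mul_sum _ _ _
    _ = ∑ zc ∈ B, (1 / ((Fintype.card T).factorial : ℝ) *
          ∑ π : Equiv.Perm T, ind (∀ w ∈ A, rk T (π zc) ≤ rk T (π w))) * (qq u L i) ^ L := by
        refine Finset.sum_congr rfl fun zc _ => ?_
        have h := hMa T J L u i zc (fun π => ind (∀ w ∈ A, rk T (π zc) ≤ rk T (π w)))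
          (fun j => ind (j = Fin.last L))
        rw [h, capProb_gw]
    _ ≤ ∑ zc ∈ B, (1 / (A.card : ℝ)) * Real.exp (- u i) := by
        refine Finset.sum_le_sum fun zc _ => ?_
        refine mul_le_mul ?_ hexp hpw0 (by positivity)
        have h := hP T A zc
        rw [div_mul_eq_mul_div, one_mul, div_le_div_iff₀ hfac hApos, one_mul]
        exact h
    _ = (nb D (3 * rho) r : ℝ) / (nb D rho r : ℝ) * Real.exp (- u i) := by
        rw [Finset.sum_const, nsmul_eq_mul, hnb1, hnb3]
        ring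

end Pool.Agent.MP_a4c1f4_lc
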