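import Mathlib

set_option linter.all false

/-!
Online transportation: sites with capacities are replaced by copies.
-/

namespace Pool.Agent.MP_a4c1f4_lc

theorem copies_count (m : ℕ) (cap : Fin m → ℕ) (τ : List ((j : Fin m) × Fin (cap j)))
    (h : τ.Nodup) (j : Fin m) : (τ.map Sigma.fst).count j ≤ cap j := by
  classical
  have h1 : (τ.map Sigma.fst).count j = (τ.toFinset.filter (fun x => x.1 = j)).card := by
    rw [List.count, List.countP_map, List.countP_eq_length_filter]
    have h2 : (τ.filter ((fun x => x == j) ∘ Sigma.fst)).Nodup := h.filter _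
    rw [← List.toFinset_card_of_nodup h2]
    congr 1
    ext x
    simp
  rw [h1]
  have h3 : (τ.toFinset.filter (fun x => x.1 = j)) ⊆
      (Finset.univ : Finset (Fin (cap j))).image (fun i => (⟨j, i⟩ : (j : Fin m) × Fin (cap j))) := by
    intro x hx
    rw [Finset.mem_filter] at hx
    obtain ⟨a, b⟩ := x
    obtain ⟨_, hb⟩ := hx
    simp only at hb
    subst hb
    exact Finset.mem_image.mpr ⟨b, Finset.mem_univ _, rfl⟩
  calc _ ≤ _ := Finset.card_le_card h3
    _ ≤ (Finset.univ : Finset (Fin (cap j))).card := Finset.card_image_le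
    _ = cap j := by simp

theorem copies (m : ℕ) (cap : Fin m → ℕ) (τ : List (Fin m)) (h : ∀ j, τ.count j ≤ cap j) :
    ∃ τ' : List ((j : Fin m) × Fin (cap j)), τ'.Nodup ∧ τ'.map Sigma.fst = τ := by
  classical
  induction τ with
  | nil => exact ⟨[], List.nodup_nil, rfl⟩
  | cons j τ ih =>
    obtain ⟨τ', hn, hm⟩ := ih (fun i => le_trans (List.count_le_count_cons) (h i))
    have h1 : τ.count j < cap j := by
      have := h j
      rw [List.count_cons_self] at this
      omega
    have h2 : ∃ i : Fin (cap j), (⟨j, i⟩ : (j : Fin m) × Fin (cap j)) ∉ τ' := by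
      by_contra hc
      push Not at hc
      have h3 : (Finset.univ : Finset (Fin (cap j))).image
          (fun i => (⟨j, i⟩ : (j : Fin m) × Fin (cap j))) ⊆ τ'.toFinset.filter (fun x => x.1 = j) := by
        intro x hx
        obtain ⟨i, _, rfl⟩ := Finset.mem_image.mp hx
        rw [Finset.mem_filter]
        exact ⟨List.mem_toFinset.mpr (hc i), rfl⟩
      have h4 := Finset.card_le_card h3
      rw [Finset.card_image_of_injective _ (fun a b hab => by simpa using hab)] at h4
      have h5 : (τ'.map Sigma.fst).count j = (τ'.toFinset.filter (fun x => x.1 = j)).card := by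
        rw [List.count, List.countP_map, List.countP_eq_length_filter]
        have h2 : (τ'.filter ((fun x => x == j) ∘ Sigma.fst)).Nodup := hn.filter _
        rw [← List.toFinset_card_of_nodup h2]
        congr 1
        ext x
        simp
      rw [← h5, hm] at h4
      simp at h4
      omega
    obtain ⟨i, hi⟩ := h2
    exact ⟨⟨j, i⟩ :: τ', List.nodup_cons.mpr ⟨hi, hn⟩, by simp [hm]⟩

end Pool.Agent.MP_a4c1f4_lc
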