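import Pool.Agent.Lib.MP_a4c1f4_lc.Spec

set_option linter.all false

namespace Pool.Agent.MP_a4c1f4_lc

open Finset

theorem exitP (hF : FieldProp) (hS : SelProp) : ExitProp := by
  intro T _ _ _ D eta lam rho z g L j r y zc hD heta hlam hL hz hg hj hsel hfar
  obtain ⟨hlip, -, hup⟩ := hF T D eta lam z g hD heta.le hlam.le
  obtain ⟨-, hnn, -⟩ := hF T D eta lam z (Function.update g zc j) hD heta.le hlam.le
  obtain ⟨-, -, -, hcl⟩ := hS T D eta lam z (Function.update g zc j) r hD heta hlam
  have hvals : ∀ w, Function.update g zc j w ≤ L := by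
    intro w
    by_cases hw : w = zc
    · subst hw; rw [Function.update_self]; exact hj.le
    · rw [Function.update_of_ne hw]; exact hg w
  obtain ⟨x0, hx0, hrx0⟩ := hcl L rho zc hvals hL hsel
  obtain ⟨h1, -, -⟩ := hup zc j y
  have h2 : fld D eta lam z (Function.update g zc (j + 1)) y ≤
      fld D eta lam z (Function.update g zc j) y := by
    unfold fld
    refine Finset.sup'_le _ _ ?_
    intro x' _
    by_cases hx' : z x' = zc
    · have hzero := hnn y
      have t1 := hD.tri r x0 y
      have t2 := hD.tri x0 zc y
      have t3 := hD.tri zc x' y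
      have e1 : D x0 zc ≤ 2 * rho := by
        rw [hD.symm x0 zc, ← hx0]; exact hz x0
      have e2 : D zc x' ≤ 2 * rho := by
        rw [← hx']; exact hz x'
      have e3 : rho ≤ D y x' := by
        rw [hD.symm y x']; linarith
      have e4 : eta * ((j : ℝ) + 1) ≤ eta * L := by
        have : (j : ℝ) + 1 ≤ L := by exact_mod_cast hj
        exact mul_le_mul_of_nonneg_left this heta.le
      have e5 : lam * rho ≤ lam * D y x' := mul_le_mul_of_nonneg_left e3 hlam.le
      have e6 : eta * ((Function.update g zc (j + 1) (z x') : ℕ) : ℝ) - lam * D y x' ≤ 0 := by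
        rw [hx', Function.update_self]
        push_cast
        linarith
      refine e6.trans ?_
      exact hzero
    · have e : Function.update g zc (j + 1) (z x') = Function.update g zc j (z x') := by
        rw [Function.update_of_ne hx', Function.update_of_ne hx']
      rw [e]
      exact Finset.le_sup' (fun x => eta * ((Function.update g zc j (z x) : ℕ) : ℝ) - lam * D y x)
        (Finset.mem_univ x')
  linarith

end Pool.Agent.MP_a4c1f4_lc
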