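import Pool.Agent.Lib.MP_a4c1f4_lc.Spec

set_option linter.all false
set_option autoImplicit false

namespace Pool.Agent.MP_a4c1f4_lc

open Finset

open Classical in
/-- the pure counting part -/
private theorem expLevel_aux (C : ℕ → Prop) (u : ℕ → ℝ) (u0 : ℝ) (hu0 : 1 ≤ u0)
    (hu : ∀ i, u i = 2 ^ i * u0) (n : ℕ) :
    (∑ i ∈ range n, u i * ind (∀ i' < i, C i') ≤ u0) ∨
      ∃ i < n, C i ∧ ∑ i ∈ range n, u i * ind (∀ i' < i, C i') ≤ u0 + 4 * u i := by
  induction n with
  | zero =>
    left
    simp
    linarith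
  | succ n ih =>
    by_cases hB : ∀ i' < n, C i'
    · have hall : ∑ i ∈ range (n + 1), u i * ind (∀ i' < i, C i') = u0 * (2 ^ (n + 1) - 1) := by
        have h1 : ∀ i ∈ range (n + 1), u i * ind (∀ i' < i, C i') = 2 ^ i * u0 := by
          intro i hi
          rw [mem_range] at hi
          rw [ind_true (fun i' hi' => hB i' (by omega)), hu, mul_one]
        rw [sum_congr rfl h1, ← sum_mul, geom_sum_eq (by norm_num) (n + 1)]
        ring
      rcases Nat.eq_zero_or_pos n with hn | hn
      · left
        rw [hall, hn]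
        norm_num
      · right
        refine ⟨n - 1, by omega, hB _ (by omega), ?_⟩
        rw [hall, hu]
        have e : (2 : ℝ) ^ (n + 1) = 4 * 2 ^ (n - 1) := by
          obtain ⟨m, rfl⟩ : ∃ m, n = m + 1 := ⟨n - 1, by omega⟩
          rw [Nat.add_sub_cancel]
          ring
        rw [e]
        nlinarith
    · have h0 : ∑ i ∈ range (n + 1), u i * ind (∀ i' < i, C i') =
          ∑ i ∈ range n, u i * ind (∀ i' < i, C i') := by
        rw [sum_range_succ, ind_false hB, mul_zero, add_zero]
      rw [h0]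
      rcases ih with h | ⟨i, hi, hC, h⟩
      · exact Or.inl h
      · exact Or.inr ⟨i, by omega, hC, h⟩

private theorem expLevel_pt {T : Type} [Fintype T] [DecidableEq T] {J L : ℕ} (u : ℕ → ℝ) (u0 : ℝ)
    (D : T → T → ℝ) (lam rho : ℝ) (r : T) (hu0 : 1 ≤ u0) (hu : ∀ i, u i = 2 ^ i * u0)
    (a : Lev T J L) :
    Real.exp (Wl D lam rho u r a / 8) ≤ Real.exp (u0 / 8) * (1 + ∑ i : Fin J,
      Real.exp (u i / 2) * ind (Cap D lam rho a r i)) := by
  have hW : Wl D lam rho u r a = ∑ i ∈ range J, u i *
      ind (∀ i' < i, ∀ h : i' < J, Cap D lam rho a r ⟨i', h⟩) := by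
    rw [← Fin.sum_univ_eq_sum_range
      (fun i => u i * ind (∀ i' < i, ∀ h : i' < J, Cap D lam rho a r ⟨i', h⟩)) J]
    unfold Wl
    apply sum_congr rfl
    intro i _
    have : CapBelow D lam rho a r i ↔ ∀ i' < (i : ℕ), ∀ h : i' < J, Cap D lam rho a r ⟨i', h⟩ := by
      unfold CapBelow
      constructor
      · intro H i' hi' h
        exact H ⟨i', h⟩ hi'
      · intro H i' hi'
        exact H i' hi' i'.2
    rw [propext this]
  have hs : (0 : ℝ) ≤ ∑ i : Fin J, Real.exp (u i / 2) * ind (Cap D lam rho a r i) :=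
    sum_nonneg fun i _ => mul_nonneg (Real.exp_pos _).le (ind_nonneg _)
  rcases expLevel_aux (fun i' => ∀ h : i' < J, Cap D lam rho a r ⟨i', h⟩) u u0 hu0 hu J with
    h | ⟨i, hi, hC, h⟩
  · rw [← hW] at h
    have h1 : Real.exp (Wl D lam rho u r a / 8) ≤ Real.exp (u0 / 8) := by
      rw [Real.exp_le_exp]
      linarith
    have h2 := Real.exp_pos (u0 / 8)
    nlinarith
  · rw [← hW] at h
    have h1 : Real.exp (Wl D lam rho u r a / 8) ≤ Real.exp (u0 / 8) * Real.exp (u i / 2) := by
      rw [← Real.exp_add, Real.exp_le_exp]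
      linarith
    have h2 := Real.exp_pos (u0 / 8)
    have h3 : Real.exp (u i / 2) ≤ ∑ i : Fin J, Real.exp (u i / 2) * ind (Cap D lam rho a r i) := by
      have h4 := single_le_sum (f := fun i : Fin J => Real.exp (u i / 2) *
        ind (Cap D lam rho a r i)) (fun i _ => mul_nonneg (Real.exp_pos _).le (ind_nonneg _))
        (mem_univ (⟨i, hi⟩ : Fin J))
      dsimp only at h4
      rw [ind_true (hC hi), mul_one] at h4
      exact h4
    calc Real.exp (Wl D lam rho u r a / 8) ≤ Real.exp (u0 / 8) * Real.exp (u i / 2) := h1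
      _ ≤ _ := by
        apply mul_le_mul_of_nonneg_left _ h2.le
        linarith

private theorem expLevel_geom (n : ℕ) : ∑ i ∈ range n, Real.exp (-((i : ℝ) + 1) / 2) ≤ 8 / 5 := by
  have hr : Real.exp (-(1 / 2 : ℝ)) ≤ 8 / 13 := by
    rw [Real.exp_neg]
    have h1 : (13 / 8 : ℝ) ≤ Real.exp (1 / 2) := by
      have := Real.quadratic_le_exp_of_nonneg (x := 1 / 2) (by norm_num)
      norm_num at this ⊢
      linarith
    rw [inv_le_comm₀ (Real.exp_pos _) (by norm_num)]
    linarith [show ((8 : ℝ) / 13)⁻¹ = 13 / 8 by norm_num]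
  have h2 : ∀ i ∈ range n, Real.exp (-((i : ℝ) + 1) / 2) ≤ (8 / 13 : ℝ) ^ (i + 1) := by
    intro i _
    have : Real.exp (-((i : ℝ) + 1) / 2) = Real.exp (-(1 / 2 : ℝ)) ^ (i + 1) := by
      rw [← Real.exp_nat_mul]
      congr 1
      push_cast
      ring
    rw [this]
    exact pow_le_pow_left₀ (Real.exp_pos _).le hr _
  refine (sum_le_sum h2).trans ?_
  have h3 : ∀ n : ℕ, ∑ i ∈ range n, (8 / 13 : ℝ) ^ (i + 1) = 8 / 5 * (1 - (8 / 13) ^ n) := by
    intro n
    induction n with
    | zero => simp
    | succ n ih =>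
      rw [sum_range_succ, ih]
      ring
  rw [h3]
  have : (0 : ℝ) < (8 / 13) ^ n := by positivity
  linarith

private theorem expLevel_nb {T : Type} [Fintype T] (D : T → T → ℝ) (hD : PM D) (rho : ℝ)
    (hrho : 0 < rho) (r : T) : 1 ≤ (nb D (3 * rho) r : ℝ) / (nb D rho r : ℝ) := by
  classical
  have h1 : 0 < nb D rho r := by
    unfold nb
    rw [card_pos]
    exact ⟨r, by simp [hD.self r, hrho.le]⟩
  have h2 : nb D rho r ≤ nb D (3 * rho) r := by
    unfold nb
    apply card_le_card
    intro w hw
    rw [mem_filter] at hw ⊢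
    exact ⟨hw.1, by linarith [hw.2]⟩
  rw [one_le_div (by exact_mod_cast h1)]
  exact_mod_cast h2

theorem expLevel (hW : WeightProp) (hC : CapProbProp) : ExpLevelProp := by
  intro T _ _ _ J L u u0 D lam rho r hD hlam hrho hL hq hu0 hu
  obtain ⟨-, -, hW3, -⟩ := hW
  obtain ⟨hsum, hnn⟩ := hW3 T J L u
  have hnn := hnn hq
  set A := (nb D (3 * rho) r : ℝ) / (nb D rho r : ℝ) with hA
  have hA1 : 1 ≤ A := expLevel_nb D hD rho hrho r
  have hcap : ∀ i : Fin J, Ex1 u (fun a : Lev T J L => ind (Cap D lam rho a r i)) ≤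
      A * Real.exp (- u i) := fun i => hC T J L u D lam rho r i hD hlam hrho hL hq
  have h1 : Ex1 u (fun a : Lev T J L => Real.exp (Wl D lam rho u r a / 8)) ≤
      Real.exp (u0 / 8) * (1 + ∑ i : Fin J, Real.exp (u i / 2) *
        Ex1 u (fun a : Lev T J L => ind (Cap D lam rho a r i))) := by
    unfold Ex1
    calc ∑ a : Lev T J L, levw u a * Real.exp (Wl D lam rho u r a / 8) ≤
        ∑ a : Lev T J L, levw u a * (Real.exp (u0 / 8) * (1 + ∑ i : Fin J,
      Real.exp (u i / 2) * ind (Cap D lam rho a r i))) := by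
          apply sum_le_sum
          intro a _
          exact mul_le_mul_of_nonneg_left (expLevel_pt u u0 D lam rho r hu0 hu a) (hnn a)
      _ = Real.exp (u0 / 8) * (∑ a : Lev T J L, levw u a + ∑ a : Lev T J L, ∑ i : Fin J,
          Real.exp (u i / 2) * (levw u a * ind (Cap D lam rho a r i))) := by
          rw [← sum_add_distrib, mul_sum]
          apply sum_congr rfl
          intro a _
          rw [show ∑ i : Fin J, Real.exp (u i / 2) * (levw u a * ind (Cap D lam rho a r i)) =
            levw u a * ∑ i : Fin J, Real.exp (u i / 2) * ind (Cap D lam rho a r i) from by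
              rw [mul_sum]
              apply sum_congr rfl
              intro i _
              ring]
          ring
      _ = _ := by
          rw [hsum, sum_comm]
          congr 2
          apply sum_congr rfl
          intro i _
          rw [mul_sum]
  have h2 : ∑ i : Fin J, Real.exp (u i / 2) *
        Ex1 u (fun a : Lev T J L => ind (Cap D lam rho a r i)) ≤ A * (8 / 5) := by
    calc ∑ i : Fin J, Real.exp (u i / 2) *
        Ex1 u (fun a : Lev T J L => ind (Cap D lam rho a r i)) ≤
        ∑ i : Fin J, A * Real.exp (-(((i : ℕ) : ℝ) + 1) / 2) := by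
          apply sum_le_sum
          intro i _
          calc Real.exp (u i / 2) * Ex1 u (fun a : Lev T J L => ind (Cap D lam rho a r i)) ≤
              Real.exp (u i / 2) * (A * Real.exp (- u i)) :=
                mul_le_mul_of_nonneg_left (hcap i) (Real.exp_pos _).le
            _ = A * Real.exp (- u i / 2) := by
                rw [mul_left_comm, ← Real.exp_add]
                congr 2
                ring
            _ ≤ A * Real.exp (-(((i : ℕ) : ℝ) + 1) / 2) := by
                apply mul_le_mul_of_nonneg_left _ (by linarith)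
                rw [Real.exp_le_exp]
                have h3 : ((i : ℕ) : ℝ) + 1 ≤ 2 ^ (i : ℕ) := by
                  exact_mod_cast Nat.lt_two_pow_self (n := (i : ℕ))
                have h4 : (2 : ℝ) ^ (i : ℕ) ≤ u i := by
                  rw [hu]
                  have : (0 : ℝ) < 2 ^ (i : ℕ) := by positivity
                  nlinarith
                linarith
      _ = A * ∑ i ∈ range J, Real.exp (-((i : ℝ) + 1) / 2) := by
          rw [← mul_sum, Fin.sum_univ_eq_sum_range (fun i => Real.exp (-((i : ℝ) + 1) / 2)) J]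
      _ ≤ A * (8 / 5) := mul_le_mul_of_nonneg_left (expLevel_geom J) (by linarith)
  refine h1.trans ?_
  rw [Real.exp_add, mul_assoc]
  apply mul_le_mul_of_nonneg_left _ (Real.exp_pos _).le
  have h5 : (2.7 : ℝ) ≤ Real.exp 1 := by
    have := Real.exp_one_gt_d9
    linarith
  nlinarith

end Pool.Agent.MP_a4c1f4_lc
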