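import Pool.Agent.Lib.MP_a4c1f4_lc.Spec

set_option linter.all false

/-!
(A8): a request is never served from farther than four times the optimum.
-/

namespace Pool.Agent.MP_a4c1f4_lc

open Finset

private theorem far_cost_nil {T : Type} (c : T → T → ℝ) (τ : List T) : acost c [] τ = 0 := by
  unfold acost
  rw [List.zipWith_nil_left, List.sum_nil]

private theorem far_cost_cons {T : Type} (c : T → T → ℝ) (r s : T) (l τ : List T) :
    acost c (r :: l) (s :: τ) = c r s + acost c l τ := by
  unfold acost
  rw [List.zipWith_cons_cons, List.sum_cons]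

private theorem far_up {T : Type} (D : T → T → ℝ) (f : T → ℝ) (hf : ∀ r s, f s ≤ f r + D r s) :
    ∀ (l τ : List T), τ.length = l.length → (τ.map f).sum ≤ (l.map f).sum + acost D l τ := by
  intro l
  induction l with
  | nil =>
    intro τ h
    rw [List.length_nil, List.length_eq_zero_iff] at h
    subst h
    rw [far_cost_nil, add_zero]
  | cons r l ih =>
    intro τ h
    cases τ with
    | nil => simp at h
    | cons s τ =>
      rw [List.length_cons, List.length_cons, Nat.add_right_cancel_iff] at h
      rw [List.map_cons, List.map_cons, List.sum_cons, List.sum_cons, far_cost_cons]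
      have h1 := ih τ h
      have h2 := hf r s
      linarith

private theorem far_down {T : Type} (D : T → T → ℝ) (f : T → ℝ)
    (hf : ∀ r s, f r ≤ f s + D r s) :
    ∀ (l τ : List T), τ.length = l.length → (l.map f).sum ≤ (τ.map f).sum + acost D l τ := by
  intro l
  induction l with
  | nil =>
    intro τ h
    rw [List.length_nil, List.length_eq_zero_iff] at h
    subst h
    rw [far_cost_nil, add_zero]
  | cons r l ih =>
    intro τ h
    cases τ with
    | nil => simp at h
    | cons s τ =>
      rw [List.length_cons, List.length_cons, Nat.add_right_cancel_iff] at h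
      rw [List.map_cons, List.map_cons, List.sum_cons, List.sum_cons, far_cost_cons]
      have h1 := ih τ h
      have h2 := hf r s
      linarith

private theorem far_two {T : Type} (D c : T → T → ℝ) (hf : ∀ r s, D r s ≤ 2 * c r s) :
    ∀ (l τ : List T), τ.length = l.length → acost D l τ ≤ 2 * acost c l τ := by
  intro l
  induction l with
  | nil =>
    intro τ h
    rw [far_cost_nil, far_cost_nil, mul_zero]
  | cons r l ih =>
    intro τ h
    cases τ with
    | nil => simp at h
    | cons s τ =>
      rw [List.length_cons, List.length_cons, Nat.add_right_cancel_iff] at h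
      rw [far_cost_cons, far_cost_cons]
      have h1 := ih τ h
      have h2 := hf r s
      linarith

theorem farP (hB : OptBasicProp) (hU : UsedProp) (hM : MonoProp) : FarProp := by
  intro T _ _ _ D c x l hD hc hDc hl
  obtain ⟨hU1, hU2⟩ := hU T c l
  obtain ⟨τ, hτ, hτF, hτc⟩ := hU1 (by omega)
  obtain ⟨hy, σ, hσ, hσF, hσc⟩ := hU2 x hl
  have h1 : (σ.map (D x)).sum = D x (srv c x l) + (τ.map (D x)).sum := by
    rw [← List.sum_toFinset _ hσ.2, ← List.sum_toFinset _ hτ.2, hσF, hτF, Finset.sum_insert hy]
  have h2 := far_up D (D x) (fun r s => hD.tri x r s) (x :: l) σ hσ.1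
  have h3 := far_down D (D x) (fun r s => by
    have h := hD.tri x s r
    rwa [hD.symm s r] at h) l τ hτ.1
  have h4 := far_two D c hDc (x :: l) σ hσ.1
  have h5 := far_two D c hDc l τ hτ.1
  have h6 := (hM T c l).1 hc x hl
  rw [List.map_cons, List.sum_cons, hD.self x] at h2
  rw [hσc] at h4
  rw [hτc] at h5
  linarith

end Pool.Agent.MP_a4c1f4_lc
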