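import Pool.Agent.Lib.MP_a4c1f4_lc.Spec

set_option linter.all false

/-!
(D3) The marginal of a function of the permutation times a function of one value.
-/

namespace Pool.Agent.MP_a4c1f4_lc

open Finset

private theorem marginal_aux {ι β : Type} [Fintype ι] [DecidableEq ι] [Fintype β]
    (w : ι → β → ℝ) (p0 : ι) (hw : ∀ p, p ≠ p0 → ∑ b, w p b = 1) (ψ : β → ℝ) :
    ∑ g : ι → β, (∏ p, w p (g p)) * ψ (g p0) = ∑ b, w p0 b * ψ b := by
  classical
  have h1 : ∀ g : ι → β, (∏ p, w p (g p)) * ψ (g p0) =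
      ∏ p, (w p (g p) * (if p = p0 then ψ (g p) else 1)) := by
    intro g
    rw [Finset.prod_mul_distrib, Finset.prod_ite_eq' Finset.univ p0 (fun p => ψ (g p)),
      if_pos (Finset.mem_univ _)]
  have h2 : ∑ g : ι → β, (∏ p, (w p (g p) * (if p = p0 then ψ (g p) else 1))) =
      ∏ p, ∑ b, (w p b * (if p = p0 then ψ b else 1)) := by
    rw [Finset.prod_univ_sum, Fintype.piFinset_univ]
  rw [Finset.sum_congr rfl fun g _ => h1 g, h2, Finset.prod_eq_single p0]
  · exact Finset.sum_congr rfl fun b _ => by rw [if_pos rfl]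
  · intro p _ hp
    have h3 : ∑ b, (w p b * (if p = p0 then ψ b else 1)) = ∑ b, w p b :=
      Finset.sum_congr rfl fun b _ => by rw [if_neg hp, mul_one]
    rw [h3, hw p hp]
  · intro h
    exact absurd (Finset.mem_univ _) h

theorem marginal (hW : WeightProp) : MarginalProp := by
  intro T _ _ J L u i z φ ψ
  have h1 : ∑ g : Fin J × T → Fin (L + 1), (∏ p, gw (qq u L p.1) L (g p)) * ψ (g (i, z)) =
      ∑ j : Fin (L + 1), gw (qq u L i) L j * ψ j :=
    marginal_aux (fun (p : Fin J × T) (b : Fin (L + 1)) => gw (qq u L p.1) L b) (i, z)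
      (fun p _ => hW.2.1 _ _) ψ
  unfold Ex1
  rw [← h1, Fintype.sum_prod_type, mul_assoc, Finset.sum_mul, Finset.mul_sum]
  refine Finset.sum_congr rfl fun π _ => ?_
  rw [Finset.mul_sum, Finset.mul_sum]
  refine Finset.sum_congr rfl fun g _ => ?_
  unfold levw
  ring

end Pool.Agent.MP_a4c1f4_lc
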