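import Pool.Agent.Lib.MP_a4c1f4_lc.Spec3

set_option linter.all false

/-!
The levels of a finite pseudometric.
-/

namespace Pool.Agent.MP_a4c1f4_lc

open Finset

private theorem metric3_uniq {x : ℝ} {k k' : ℤ} (h1 : (4 : ℝ) ^ k ≤ x) (h2 : x < (4 : ℝ) ^ (k + 1))
    (h3 : (4 : ℝ) ^ k' ≤ x) (h4 : x < (4 : ℝ) ^ (k' + 1)) : k = k' := by
  have a : k < k' + 1 := (zpow_lt_zpow_iff_right₀ (by norm_num : (1 : ℝ) < 4)).1
    (lt_of_le_of_lt h1 h4)
  have b : k' < k + 1 := (zpow_lt_zpow_iff_right₀ (by norm_num : (1 : ℝ) < 4)).1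
    (lt_of_le_of_lt h3 h2)
  omega

theorem metric3 (hC : ContractProp) : MetricProp3 := by
  classical
  intro m D n hD hm hn hyp
  haveI : Nonempty (Fin m) := ⟨⟨0, hm⟩⟩
  have hmR : (0 : ℝ) < m := by exact_mod_cast hm
  have hmR1 : (1 : ℝ) ≤ m := by exact_mod_cast hm
  obtain ⟨K, hK⟩ : ∃ K : Finset ℤ, K = ((Finset.univ : Finset (Fin m × Fin m)).filter
    (fun p => 0 < D p.1 p.2)).image (fun p => Int.log 4 (D p.1 p.2)) := ⟨_, rfl⟩
  have hKmem : ∀ i j, 0 < D i j → Int.log 4 (D i j) ∈ K := by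
    intro i j hij
    rw [hK]
    exact Finset.mem_image.2 ⟨(i, j), by simp [hij], rfl⟩
  have hlog : ∀ x : ℝ, 0 < x → (4 : ℝ) ^ (Int.log 4 x) ≤ x ∧ x < (4 : ℝ) ^ (Int.log 4 x + 1) := by
    intro x hx
    have h1 := Int.zpow_log_le_self (b := 4) (by norm_num) hx
    have h2 := Int.lt_zpow_succ_log_self (b := 4) (by norm_num) x
    exact ⟨by exact_mod_cast h1, by exact_mod_cast h2⟩
  obtain ⟨h, hh⟩ : ∃ h : ℕ, h = K.card := ⟨_, rfl⟩
  obtain ⟨e, he⟩ : ∃ e : Fin h ↪o ℤ, Set.range e = (K : Set ℤ) :=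
    ⟨K.orderEmbOfFin hh.symm, Finset.range_orderEmbOfFin _ _⟩
  obtain ⟨rho, hrho⟩ : ∃ rho : ℕ → ℝ, rho = fun k =>
    if hk : k < h then (4 : ℝ) ^ (e ⟨k, hk⟩) / 7 else 1 := ⟨_, rfl⟩
  have hrk : ∀ k (hk : k < h), rho k = (4 : ℝ) ^ (e ⟨k, hk⟩) / 7 := by
    intro k hk
    rw [hrho]
    simp only [hk, dif_pos]
  have hpos : ∀ k, 0 < rho k := by
    intro k
    rw [hrho]
    simp only
    split_ifs with hk
    · positivity
    · norm_num
  have hE : ∀ k, ∃ E' : Fin m → Fin m → ℝ, PM E' ∧ (∀ x y, E' x y ≤ D x y) ∧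
      (∀ x y, D x y ≤ E' x y + rho k) ∧ (∀ x y, D x y ≤ rho k / (m : ℝ) → E' x y = 0) := by
    intro k
    obtain ⟨E', h1, h2, h3, h4⟩ := hC (Fin m) D (rho k / (m : ℝ)) hD
      (div_nonneg (hpos k).le hmR.le)
    refine ⟨E', h1, h2, ?_, h4⟩
    intro x y
    have h5 := h3 x y
    rw [Fintype.card_fin] at h5
    have h6 : (m : ℝ) * (rho k / (m : ℝ)) = rho k := by field_simp
    rw [h6] at h5
    exact h5
  choose E hE1 hE2 hE3 hE4 using hE
  have hstep : ∀ (n k : ℕ) (hk : k + n < h), e ⟨k, by omega⟩ + n ≤ e ⟨k + n, hk⟩ := by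
    intro n
    induction n with
    | zero => intro k hk; simp
    | succ n ih =>
      intro k hk
      have h1 := ih k (by omega)
      have h2 : e ⟨k + n, by omega⟩ < e ⟨k + (n + 1), hk⟩ :=
        e.lt_iff_lt.2 (by simp [Fin.lt_def])
      push_cast
      omega
  have hpow : ∀ (n k : ℕ), k + n < h → (4 : ℝ) ^ n * rho k ≤ rho (k + n) := by
    intro n k hk
    rw [hrk k (by omega), hrk (k + n) hk]
    have h1 := hstep n k hk
    have h2 : (4 : ℝ) ^ (e ⟨k, by omega⟩ + (n : ℤ)) ≤ (4 : ℝ) ^ (e ⟨k + n, hk⟩) :=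
      zpow_le_zpow_right₀ (by norm_num) h1
    rw [zpow_add₀ (by norm_num), zpow_natCast] at h2
    have e1 : (4 : ℝ) ^ n * ((4 : ℝ) ^ (e ⟨k, by omega⟩) / 7) =
        (4 : ℝ) ^ (e ⟨k, by omega⟩) * (4 : ℝ) ^ n / 7 := by ring
    rw [e1]
    linarith
  refine ⟨h, E, rho, ⟨hD, hE1, hE2, fun k _ => hE3 k, ?_, fun k _ => hpos k, ?_, ?_, ?_, hn⟩, ?_⟩
  · intro k _ x y hxy
    rw [Fintype.card_fin] at hxy
    exact hE4 k x y hxy
  · intro k hk
    have := hpow 1 k hk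
    rw [pow_one] at this
    exact this
  · intro k hk
    rw [Fintype.card_fin]
    rcases hyp with hyp | ⟨K', hK', hyp⟩
    · have h1 := hpow n k hk
      have h2 : (176 : ℝ) * m ^ 2 ≤ 4 ^ n := by
        have h3 : (m : ℝ) < 2 ^ (Nat.log 2 m + 1) := by
          exact_mod_cast Nat.lt_pow_succ_log_self (b := 2) (by norm_num) m
        obtain ⟨w, hw⟩ : ∃ w : ℝ, w = 2 ^ (Nat.log 2 m) := ⟨_, rfl⟩
        have h4 : (m : ℝ) < 2 * w := by rw [hw, ← pow_succ']; exact h3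
        have h5 : (4 : ℝ) ^ (Nat.log 2 m + 5) = 1024 * w ^ 2 := by
          rw [hw, ← pow_mul, mul_comm (Nat.log 2 m) 2, pow_mul, pow_add]
          norm_num
          ring
        have h6 : (4 : ℝ) ^ (Nat.log 2 m + 5) ≤ 4 ^ n := pow_le_pow_right₀ (by norm_num) hyp
        have h7 : (m : ℝ) ^ 2 ≤ (2 * w) ^ 2 := pow_le_pow_left₀ hmR.le h4.le 2
        nlinarith
      calc (176 : ℝ) * m ^ 2 * rho k ≤ 4 ^ n * rho k :=
            mul_le_mul_of_nonneg_right h2 (hpos k).le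
        _ ≤ rho (k + n) := h1
    · exfalso
      have h1 : K ⊆ K' := by
        intro k0 hk0
        rw [hK, Finset.mem_image] at hk0
        obtain ⟨⟨i, j⟩, hij, hk0⟩ := hk0
        simp only [Finset.mem_filter, Finset.mem_univ, true_and] at hij hk0
        obtain ⟨h2, h3⟩ := hlog _ hij
        rcases hyp i j with h4 | ⟨k1, hk1, h5, h6⟩
        · linarith
        · have := metric3_uniq h2 h3 h5 h6
          rw [← hk0, this]
          exact hk1
      have h2 := Finset.card_le_card h1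
      omega
  · intro i j
    rcases (hD.nonneg i j).eq_or_lt with h0 | h0
    · left; exact h0.symm
    · right
      have h1 := hKmem i j h0
      have h2 : Int.log 4 (D i j) ∈ Set.range e := by rw [he]; exact h1
      obtain ⟨⟨k, hk⟩, hk2⟩ := h2
      obtain ⟨h3, h4⟩ := hlog _ h0
      refine ⟨k, hk, ?_, ?_⟩
      · rw [hrk k hk, hk2]
        linarith
      · rw [hrk k hk, hk2]
        rw [zpow_add₀ (by norm_num), zpow_one] at h4
        linarith
  · rw [hh, hK]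
    refine Finset.card_image_le.trans ((Finset.card_filter_le _ _).trans ?_)
    rw [Finset.card_univ, Fintype.card_prod, Fintype.card_fin]
    exact le_of_eq (by ring)

end Pool.Agent.MP_a4c1f4_lc
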