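import Pool.Agent.Lib.MP_a4c1f4_lc.Spec3

set_option linter.all false

/-!
(N1) The perturbed costs, one pseudometric for each level.
-/

namespace Pool.Agent.MP_a4c1f4_lc

open Finset

private theorem n1_geom (rho : ℕ → ℝ) (h : ℕ) (hpos : ∀ k, k < h → 0 < rho k)
    (hfour : ∀ k, k + 1 < h → 4 * rho k ≤ rho (k + 1)) (j : ℕ) (hj : j < h) :
    ∑ k ∈ range (j + 1), rho k ≤ 4 / 3 * rho j := by
  induction j with
  | zero =>
    have := hpos 0 hj
    simp
    linarith
  | succ j ih =>
    have h1 := ih (by omega)
    have h2 := hfour j hj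
    rw [Finset.sum_range_succ]
    linarith

private theorem n1_mono (rho : ℕ → ℝ) (h : ℕ) (hpos : ∀ k, k < h → 0 < rho k)
    (hfour : ∀ k, k + 1 < h → 4 * rho k ≤ rho (k + 1)) (a b : ℕ) (hab : a ≤ b) (hb : b < h) :
    rho a ≤ rho b := by
  induction b with
  | zero =>
    have : a = 0 := by omega
    rw [this]
  | succ b ih =>
    rcases Nat.lt_or_ge a (b + 1) with h1 | h1
    · have h2 := ih (by omega) (by omega)
      have h3 := hfour b hb
      have h4 := hpos b (by omega)
      linarith
    · have : a = b + 1 := by omega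
      rw [this]

private theorem n1_le {T : Type} [Fintype T] [Nonempty T] (D : T → T → ℝ) (hD : PM D)
    (eta lam : ℝ) (heta : 0 ≤ eta) (hlam : 0 ≤ lam) (z : T → T) (g : T → ℕ) (L : ℕ)
    (hg : ∀ w, g w ≤ L) (s : T) : fld D eta lam z g s ≤ eta * L := by
  unfold fld
  apply Finset.sup'_le
  intro x _
  have h1 : eta * (g (z x) : ℝ) ≤ eta * L :=
    mul_le_mul_of_nonneg_left (by exact_mod_cast hg (z x)) heta
  have h2 : 0 ≤ lam * D s x := mul_nonneg hlam (hD.nonneg s x)
  linarith

theorem cost3 (hF : FieldProp) : CostProp3 := by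
  intro S _ _ _ h n J L D E lam rho ω hL hlam hL0 hnJ r s
  have hDn := hL.pmD.nonneg r s
  have hn : (1 : ℝ) ≤ n := by exact_mod_cast hL.npos
  have hJlam : 0 ≤ (J : ℝ) * lam := by positivity
  -- one field
  have hf1 : ∀ (k : Fin h) (i : Fin J),
      |fld (E k) (lam * rho k / (L : ℝ)) lam (ctr (E k) (2 * rho k) (ω k).1) (gv (ω k) i) r -
        fld (E k) (lam * rho k / (L : ℝ)) lam (ctr (E k) (2 * rho k) (ω k).1) (gv (ω k) i) s| ≤
        lam * E k r s := by
    intro k i
    have hη : 0 ≤ lam * rho k / (L : ℝ) := by
      have := hL.pos k k.2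
      positivity
    exact (hF S (E k) _ lam _ _ (hL.pmE k) hη hlam).1 r s
  have hf2 : ∀ (k : Fin h) (i : Fin J),
      |fld (E k) (lam * rho k / (L : ℝ)) lam (ctr (E k) (2 * rho k) (ω k).1) (gv (ω k) i) r -
        fld (E k) (lam * rho k / (L : ℝ)) lam (ctr (E k) (2 * rho k) (ω k).1) (gv (ω k) i) s| ≤
        lam * rho k := by
    intro k i
    have hη : 0 ≤ lam * rho k / (L : ℝ) := by
      have := hL.pos k k.2
      positivity
    have hLr : (0 : ℝ) < L := by exact_mod_cast hL0
    have h0 := (hF S (E k) (lam * rho k / (L : ℝ)) lam (ctr (E k) (2 * rho k) (ω k).1)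
      (gv (ω k) i) (hL.pmE k) hη hlam).2.1
    have h1 : ∀ w, fld (E k) (lam * rho k / (L : ℝ)) lam (ctr (E k) (2 * rho k) (ω k).1)
        (gv (ω k) i) w ≤ lam * rho k := by
      intro w
      have h2 := n1_le (E k) (hL.pmE k) (lam * rho k / (L : ℝ)) lam hη hlam
        (ctr (E k) (2 * rho k) (ω k).1) (gv (ω k) i) L
        (fun w => Nat.lt_succ_iff.1 ((ω k).2 (i, w)).2) w
      have h3 : lam * rho k / (L : ℝ) * L = lam * rho k := by field_simp
      rw [h3] at h2
      exact h2
    rw [abs_le]
    constructor
    · have := h0 r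
      have := h1 s
      linarith
    · have := h0 s
      have := h1 r
      linarith
  -- the sum
  have key : ∀ B : ℕ → ℝ, (∀ (k : Fin h), min (lam * E k r s) (lam * rho k) ≤ lam * B k) →
      ∑ k ∈ range h, B k ≤ n * D r s →
      |pot3 E lam rho ω r - pot3 E lam rho ω s| ≤ 1 / 2 * D r s := by
    intro B hB hsum
    have e1 : pot3 E lam rho ω r - pot3 E lam rho ω s = ∑ k : Fin h, ∑ i : Fin J,
        (fld (E k) (lam * rho k / (L : ℝ)) lam (ctr (E k) (2 * rho k) (ω k).1) (gv (ω k) i) r -
          fld (E k) (lam * rho k / (L : ℝ)) lam (ctr (E k) (2 * rho k) (ω k).1) (gv (ω k) i) s)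
        := by
      unfold pot3
      rw [← Finset.sum_sub_distrib]
      exact Finset.sum_congr rfl fun k _ => by rw [← Finset.sum_sub_distrib]
    rw [e1]
    calc |∑ k : Fin h, ∑ i : Fin J,
        (fld (E k) (lam * rho k / (L : ℝ)) lam (ctr (E k) (2 * rho k) (ω k).1) (gv (ω k) i) r -
          fld (E k) (lam * rho k / (L : ℝ)) lam (ctr (E k) (2 * rho k) (ω k).1) (gv (ω k) i) s)|
        ≤ ∑ k : Fin h, |∑ i : Fin J,
        (fld (E k) (lam * rho k / (L : ℝ)) lam (ctr (E k) (2 * rho k) (ω k).1) (gv (ω k) i) r -
          fld (E k) (lam * rho k / (L : ℝ)) lam (ctr (E k) (2 * rho k) (ω k).1)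
            (gv (ω k) i) s)| := Finset.abs_sum_le_sum_abs _ _
      _ ≤ ∑ k : Fin h, ∑ i : Fin J, lam * B k := by
          refine Finset.sum_le_sum fun k _ => ?_
          refine (Finset.abs_sum_le_sum_abs _ _).trans ?_
          refine Finset.sum_le_sum fun i _ => ?_
          exact (le_min (hf1 k i) (hf2 k i)).trans (hB k)
      _ = J * lam * ∑ k ∈ range h, B k := by
          rw [← Fin.sum_univ_eq_sum_range, Finset.mul_sum]
          refine Finset.sum_congr rfl fun k _ => ?_
          simp only [Finset.sum_const, Finset.card_univ, Fintype.card_fin, nsmul_eq_mul]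
          ring
      _ ≤ J * lam * (n * D r s) := mul_le_mul_of_nonneg_left hsum hJlam
      _ = n * J * lam * D r s := by ring
      _ ≤ 1 / 2 * D r s := mul_le_mul_of_nonneg_right hnJ hDn
  have main : |pot3 E lam rho ω r - pot3 E lam rho ω s| ≤ 1 / 2 * D r s := by
    rcases hL.cov r s with h0 | ⟨j, hj, hj1, hj2⟩
    · apply key (fun _ => 0)
      · intro k
        have h1 := hL.le k r s
        have h2 : E k r s = 0 := le_antisymm (by linarith) ((hL.pmE k).nonneg r s)
        rw [h2]
        exact min_le_left _ _
      · simp only [Finset.sum_const_zero]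
        positivity
    · apply key (fun k => if k ≤ j then rho k else if k < j + n then D r s else 0)
      · intro k
        split_ifs with h1 h2
        · exact min_le_right _ _
        · exact (min_le_left _ _).trans (mul_le_mul_of_nonneg_left (hL.le k r s) hlam)
        · have hk := k.2
          have hjn : j + n < h := by omega
          have h3 := hL.win j hjn
          have h4 := n1_mono rho h hL.pos hL.four (j + n) k (by omega) hk
          have hm : (1 : ℝ) ≤ (Fintype.card S : ℝ) := by
            exact_mod_cast Fintype.card_pos (α := S)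
          have hrj := hL.pos j hj
          have h5 : D r s ≤ rho k / (Fintype.card S : ℝ) := by
            rw [le_div_iff₀ (by linarith)]
            have h6 : (Fintype.card S : ℝ) ≤ (Fintype.card S : ℝ) ^ 2 := by nlinarith
            have h7 : D r s * (Fintype.card S : ℝ) ≤ 28 * rho j * (Fintype.card S : ℝ) ^ 2 := by
              apply mul_le_mul hj2.le h6 (by linarith) (by positivity)
            have h8 : 0 ≤ (Fintype.card S : ℝ) ^ 2 * rho j := by positivity
            nlinarith
          rw [hL.zero k hk r s h5]
          exact min_le_left _ _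
      · rw [← Finset.sum_range_add_sum_Ico _ (show j + 1 ≤ h by omega)]
        have h1 : ∑ k ∈ range (j + 1), (if k ≤ j then rho k else if k < j + n then D r s else 0) =
            ∑ k ∈ range (j + 1), rho k := by
          refine Finset.sum_congr rfl fun k hk => ?_
          rw [if_pos (by have := Finset.mem_range.1 hk; omega)]
        have h2 : ∑ k ∈ Ico (j + 1) h, (if k ≤ j then rho k else if k < j + n then D r s else 0) ≤
            (n - 1 : ℝ) * D r s := by
          have h3 : ∑ k ∈ Ico (j + 1) h, (if k ≤ j then rho k else if k < j + n then D r s else 0)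
              = ∑ k ∈ (Ico (j + 1) h).filter (fun k => k < j + n), D r s := by
            rw [Finset.sum_filter]
            refine Finset.sum_congr rfl fun k hk => ?_
            rw [if_neg (by have := Finset.mem_Ico.1 hk; omega)]
          rw [h3, Finset.sum_const, nsmul_eq_mul]
          apply mul_le_mul_of_nonneg_right _ hDn
          have h4 : (Ico (j + 1) h).filter (fun k => k < j + n) ⊆ Ico (j + 1) (j + n) := by
            intro k hk
            rw [Finset.mem_filter, Finset.mem_Ico] at hk
            rw [Finset.mem_Ico]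
            omega
          have h5 := Finset.card_le_card h4
          rw [Nat.card_Ico] at h5
          have h6 : ((((Ico (j + 1) h).filter (fun k => k < j + n)).card : ℕ) : ℝ) + 1 ≤ n := by
            have := hL.npos
            exact_mod_cast (by omega :
              ((Ico (j + 1) h).filter (fun k => k < j + n)).card + 1 ≤ n)
          linarith
        have h7 := n1_geom rho h hL.pos hL.four j hj
        rw [h1]
        have h8 : 4 / 3 * rho j ≤ D r s := by
          have := hL.pos j hj
          linarith
        calc _ ≤ D r s + (n - 1 : ℝ) * D r s := add_le_add (h7.trans h8) h2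
          _ = n * D r s := by ring
  have h1 := abs_le.1 main
  unfold cst
  constructor <;> linarith [h1.1, h1.2]

end Pool.Agent.MP_a4c1f4_lc
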