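import Pool.Agent.Lib.MP_a4c1f4_lc.Spec3
import Pool.Agent.Lib.MP_a4c1f4_lc.OptBasic

set_option linter.all false

/-!
The one variable inequality with the level pseudometric `E` in the noise field, a constant `C0`
subtracted from the price, and the indicator of the cheap steps.
-/

namespace Pool.Agent.MP_a4c1f4_lc

open Finset

/-- The price of a step is at most the cost of the chosen site. -/
private theorem N2_price (hU : UsedProp) {T : Type} [Fintype T] [DecidableEq T] [Nonempty T]
    (c : T → T → ℝ) (x : T) (l : List T) (hl : l.length + 1 ≤ Fintype.card T) :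
    optv c (x :: l) - optv c l ≤ c x (srv c x l) := by
  obtain ⟨τ, ⟨hτ1, hτ2⟩, hτ3, hτ4⟩ := (hU T c l).1 (by omega)
  have hy := ((hU T c l).2 x hl).1
  have hadm : Adm (x :: l) (srv c x l :: τ) := by
    refine ⟨by simp [hτ1], ?_⟩
    rw [List.nodup_cons]
    refine ⟨fun h => hy ?_, hτ2⟩
    rw [← hτ3]
    exact List.mem_toFinset.mpr h
  have h1 := (optBasic T c (x :: l)).1 _ hadm
  have h2 : acost c (x :: l) (srv c x l :: τ) = c x (srv c x l) + acost c l τ := by
    simp [acost]
  rw [h2, hτ4] at h1
  linarith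

private theorem N2_neg {T : Type} (f : T → ℝ) (l : List T) :
    (l.map (fun t => - f t)).sum = - (l.map f).sum := by
  induction l with
  | nil => simp
  | cons a l ih =>
    simp only [List.map_cons, List.sum_cons]
    rw [ih]
    ring

/-- Upper bound for the growth of the price in one step. -/
private theorem N2_up (hU : UsedProp) (hP : PotProp) {T : Type} [Fintype T] [DecidableEq T]
    [Nonempty T] (c : ℕ → T → T → ℝ) (δ : ℕ → T → ℝ) (x : T) (l : List T) (j : ℕ)
    (hl : l.length + 1 ≤ Fintype.card T)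
    (hc : ∀ r s, c (j + 1) r s = c j r s + δ j r - δ j s) (hδ : ∀ s, δ j s ≤ δ (j + 1) s) :
    optv (c (j + 1)) (x :: l) - optv (c (j + 1)) l - ∑ s ∈ used (c (j + 1)) l, δ (j + 1) s ≤
      optv (c j) (x :: l) - optv (c j) l - ∑ s ∈ used (c j) l, δ j s
        + δ j x - δ j (srv (c j) x l) := by
  have e1 : c (j + 1) = fun r s => c j r s + δ j r - δ j s := by
    funext r s; exact hc r s
  have e2 : c j = fun r s => c (j + 1) r s + (fun t => - δ j t) r - (fun t => - δ j t) s := by
    funext r s
    have := hc r s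
    simp only
    linarith
  have h1 := hP T (c j) (δ j) (x :: l) _ ((hU T (c j) l).2 x hl).2
  rw [← e1] at h1
  have h2 := hP T (c (j + 1)) (fun t => - δ j t) l _ ((hU T (c (j + 1)) l).1 (by omega))
  rw [← e2] at h2
  rw [Finset.sum_insert ((hU T (c j) l).2 x hl).1] at h1
  have e3 : (l.map (fun t => - δ j t)).sum = - (l.map (δ j)).sum := N2_neg _ _
  have e4 : ((x :: l).map (δ j)).sum = δ j x + (l.map (δ j)).sum := by simp
  have e5 : ∑ s ∈ used (c (j + 1)) l, (fun t => - δ j t) s =
      - ∑ s ∈ used (c (j + 1)) l, δ j s := by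
    simp
  have e6 : ∑ s ∈ used (c (j + 1)) l, δ j s ≤ ∑ s ∈ used (c (j + 1)) l, δ (j + 1) s :=
    Finset.sum_le_sum fun s _ => hδ s
  rw [e3, e5] at h2
  rw [e4] at h1
  linarith

/-- Sums over `range L` supported on `θ ≤ j`. -/
private theorem N2_sum {L θ : ℕ} (hθ : θ ≤ L) (f g : ℕ → ℝ) (h0 : ∀ j, j < θ → f j = 0)
    (h1 : ∀ j, θ ≤ j → j < L → f j = g j) :
    ∑ j ∈ Finset.range L, f j = ∑ j ∈ Finset.Ico θ L, g j := by
  rw [Finset.range_eq_Ico, ← Finset.sum_Ico_consecutive f (Nat.zero_le θ) hθ]
  have e0 : ∑ j ∈ Finset.Ico 0 θ, f j = 0 := by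
    apply Finset.sum_eq_zero
    intro j hj
    exact h0 j (Finset.mem_Ico.mp hj).2
  rw [e0, zero_add]
  apply Finset.sum_congr rfl
  intro j hj
  exact h1 j (Finset.mem_Ico.mp hj).1 (Finset.mem_Ico.mp hj).2

theorem oneVar3 (hM : MonoProp) (hU : UsedProp) (hSt : StepProp) (hP : PotProp) (hA : AbelProp)
    (hF : FieldProp) (hS : SelProp) (hE : ExitProp) : OneVarProp3 := by
  intro S' T _ _ _ _ _ _ σ D E eta lam rho q C0 z g L B x zc l hD hpE hED hDE heta hlam hlam2
    hrho hel hTL hz hg hq0 hq1 hl hc hC0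
  obtain ⟨c, hcdef⟩ : ∃ c : ℕ → T → T → ℝ, c = fun j =>
      pull σ (cst D (fun s => B s + fld E eta lam z (Function.update g zc j) s)) := ⟨_, rfl⟩
  obtain ⟨S, hSdef⟩ : ∃ S : ℕ → Prop, S = fun j =>
      Sel E eta lam z (Function.update g zc j) (σ x) zc := ⟨_, rfl⟩
  obtain ⟨δ, hδ⟩ : ∃ δ : ℕ → T → ℝ, δ = fun j s =>
      fld E eta lam z (Function.update g zc (j + 1)) (σ s)
        - fld E eta lam z (Function.update g zc j) (σ s) := ⟨_, rfl⟩
  obtain ⟨U, hUdef⟩ : ∃ U : ℕ → ℝ, U = fun j => optv (c j) (x :: l) - optv (c j) l := ⟨_, rfl⟩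
  obtain ⟨N, hN⟩ : ∃ N : ℕ → ℝ, N = fun j => ∑ s ∈ used (c j) l, δ j s := ⟨_, rfl⟩
  obtain ⟨P, hPdef⟩ : ∃ P : ℕ → Prop, P = fun j =>
      (7 * rho ≤ D (σ x) (σ (srv (c j) x l)) ∧ D (σ x) (σ (srv (c j) x l)) < 28 * rho) :=
    ⟨_, rfl⟩
  have hc32 : ∀ j, j ≤ L → ∀ r s, c j r s ≤ 3 / 2 * D (σ r) (σ s) := by
    intro j hj r s
    rw [hcdef]
    exact (hc j hj (σ r) (σ s)).2
  have hC0' : ∀ j, j ≤ L → C0 ≤ U j := by
    intro j hj
    rw [hUdef, hcdef]
    exact hC0 j hj
  -- rewrite the goal
  have goal_eq : (∑ j : Fin (L + 1), gw q L j * ind (S j ∧ (j : ℕ) < L ∧ P j)) ≤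
      (1 - q) / eta * (∑ j : Fin (L + 1), gw q L j *
        (((U j - C0) * ind (U j ≤ 44 * rho)) * ind (S j)))
        + (1 - q) * (1 + (Fintype.card T : ℝ)) := by
    have hq1' : 0 ≤ 1 - q := by linarith
    have hcard : (0 : ℝ) ≤ (Fintype.card T : ℝ) := Nat.cast_nonneg _
    have hfld := hF S' E eta lam z
    have hδ0 : ∀ j s, 0 ≤ δ j s := by
      intro j s
      rw [hδ]
      exact ((hfld g hpE heta.le hlam.le).2.2 zc j (σ s)).1
    have hδ1 : ∀ j s, δ j s ≤ eta := by
      intro j s
      rw [hδ]
      exact ((hfld g hpE heta.le hlam.le).2.2 zc j (σ s)).2.1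
    have hδ2 : ∀ j s, δ j s ≤ δ (j + 1) s := by
      intro j s
      rw [hδ]
      exact ((hfld g hpE heta.le hlam.le).2.2 zc j (σ s)).2.2
    have hNnn : ∀ j, 0 ≤ N j := by
      intro j
      rw [hN]
      exact Finset.sum_nonneg (fun s _ => hδ0 j s)
    have hNle : ∀ j, N j ≤ eta * (Fintype.card T : ℝ) := by
      intro j
      rw [hN]
      calc ∑ s ∈ used (c j) l, δ j s ≤ ∑ s ∈ used (c j) l, eta :=
            Finset.sum_le_sum (fun s _ => hδ1 j s)
        _ = ((used (c j) l).card : ℝ) * eta := by rw [Finset.sum_const, nsmul_eq_mul]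
        _ ≤ (Fintype.card T : ℝ) * eta := by
            apply mul_le_mul_of_nonneg_right _ heta.le
            exact_mod_cast Finset.card_le_univ _
        _ = eta * (Fintype.card T : ℝ) := mul_comm _ _
    have hstepc : ∀ j r s, c (j + 1) r s = c j r s + δ j r - δ j s := by
      intro j r s
      rw [hcdef, hδ]
      simp only [pull, cst]
      ring
    have hSsucc : ∀ j, S j → S (j + 1) ∧ δ j x = eta := by
      intro j hj
      rw [hSdef] at hj ⊢
      rw [hδ]
      exact (hS S' E eta lam z g (σ x) hpE heta hlam).2.2.1 zc j hj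
    have hmain : ∀ j, S j → j < L →
        eta * ind (P (j + 1)) ≤ U (j + 1) + N (j + 1) - (U j + N j) := by
      intro j hj hjL
      have h1 := hSt T c δ x l j hl (hstepc j) (hδ2 j)
      have h2 := (hSsucc j hj).2
      have h3 : U (j + 1) + N (j + 1) - (U j + N j) ≥ eta - δ j (srv (c (j + 1)) x l) := by
        rw [hUdef, hN]
        simp only
        linarith
      have h4 : eta * ind (P (j + 1)) ≤ eta - δ j (srv (c (j + 1)) x l) := by
        by_cases h6 : P (j + 1)
        · have e2 : δ j (srv (c (j + 1)) x l) = 0 := by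
            have hj' := hj
            have h7 := h6
            rw [hPdef] at h7
            rw [hSdef] at hj'
            rw [hδ]
            refine hE S' E eta lam rho z g L j (σ x) _ zc hpE heta hlam hel hz hg hjL hj' ?_
            have h8 := hDE (σ x) (σ (srv (c (j + 1)) x l))
            have h9 := h7.1
            linarith
          rw [ind_true h6, e2]
          linarith
        · have e2 := hδ1 j (srv (c (j + 1)) x l)
          rw [ind_false h6]
          linarith
      linarith
    have hup : ∀ j, U (j + 1) - N (j + 1) ≤ U j - N j + eta := by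
      intro j
      have h1 := N2_up hU hP c δ x l j hl (hstepc j) (hδ2 j)
      have h2 := hδ1 j x
      have h3 := hδ0 j (srv (c j) x l)
      rw [hUdef, hN]
      simp only
      linarith
    have hcT : eta * (Fintype.card T : ℝ) ≤ rho / 2 := by
      have h1 : eta * (Fintype.card T : ℝ) ≤ eta * L :=
        mul_le_mul_of_nonneg_left (by exact_mod_cast hTL) heta.le
      have h2 : lam * rho ≤ 1 / 2 * rho := mul_le_mul_of_nonneg_right hlam2 hrho.le
      linarith
    have hprice : ∀ j, j ≤ L → P j → U j ≤ 42 * rho := by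
      intro j hj hPj
      have h1 := N2_price hU (c j) x l hl
      have h2 := hc32 j hj x (srv (c j) x l)
      rw [hPdef] at hPj
      have h3 := hPj.2
      rw [hUdef]
      simp only
      linarith
    -- monotonicity
    have hmono : ∀ (a d : ℕ), S a → a + d ≤ L → U a + N a ≤ U (a + d) + N (a + d) ∧ S (a + d) := by
      intro a d ha
      induction d with
      | zero => intro _; exact ⟨le_rfl, ha⟩
      | succ d ih =>
        intro hd
        obtain ⟨h1, h2⟩ := ih (by omega)
        have h3 := hmain (a + d) h2 (by omega)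
        have h4 : 0 ≤ eta * ind (P (a + d + 1)) := mul_nonneg heta.le (ind_nonneg _)
        refine ⟨?_, (hSsucc _ h2).1⟩
        rw [show a + (d + 1) = a + d + 1 by ring]
        linarith
    have hgrow : ∀ (a d : ℕ), U (a + d) - N (a + d) ≤ U a - N a + eta * d := by
      intro a d
      induction d with
      | zero => simp
      | succ d ih =>
        have h1 := hup (a + d)
        rw [show a + (d + 1) = a + d + 1 by ring]
        push_cast
        linarith
    -- cheap steps
    have hcheap : ∀ θ j0, S θ → θ ≤ j0 → j0 ≤ L → P j0 → ∀ j, θ ≤ j → j ≤ L → U j ≤ 44 * rho := by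
      intro θ j0 hθ hθj hjL hPj j hj1 hj2
      have hp := hprice j0 hjL hPj
      have hSj : S j := by
        have := (hmono θ (j - θ) hθ (by omega)).2
        rwa [show θ + (j - θ) = j by omega] at this
      rcases le_total j j0 with hle | hle
      · have h1 := (hmono j (j0 - j) hSj (by omega)).1
        rw [show j + (j0 - j) = j0 by omega] at h1
        have h2 := hNnn j
        have h3 := hNle j0
        linarith
      · have h1 := hgrow j0 (j - j0)
        rw [show j0 + (j - j0) = j by omega] at h1
        have h2 := hNnn j0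
        have h3 := hNle j
        have h4 : eta * ((j - j0 : ℕ) : ℝ) ≤ eta * L :=
          mul_le_mul_of_nonneg_left (by exact_mod_cast (by omega : j - j0 ≤ L)) heta.le
        have h5 : lam * rho ≤ 1 / 2 * rho := mul_le_mul_of_nonneg_right hlam2 hrho.le
        linarith
    have hgw : ∀ j, 0 ≤ gw q L j := by
      intro j
      unfold gw
      split_ifs
      · exact mul_nonneg hq1' (pow_nonneg hq0 _)
      · exact pow_nonneg hq0 _
    have hrhs : 0 ≤ (1 - q) / eta * (∑ j : Fin (L + 1), gw q L j *
        (((U j - C0) * ind (U j ≤ 44 * rho)) * ind (S j)))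
        + (1 - q) * (1 + (Fintype.card T : ℝ)) := by
      refine add_nonneg (mul_nonneg (div_nonneg hq1' heta.le) (Finset.sum_nonneg ?_))
        (by positivity)
      intro j _
      have h1 := hC0' j (by omega)
      exact mul_nonneg (hgw _) (mul_nonneg (mul_nonneg (by linarith) (ind_nonneg _))
        (ind_nonneg _))
    by_cases hex : ∃ j, j < L ∧ S j ∧ P j
    · obtain ⟨j0, hj0L, hSj0, hPj0⟩ := hex
      classical
      obtain ⟨θ, hθS, hθmin⟩ : ∃ θ, S θ ∧ ∀ j, j < θ → ¬ S j :=
        ⟨Nat.find ⟨j0, hSj0⟩, Nat.find_spec ⟨j0, hSj0⟩, fun j hj => Nat.find_min ⟨j0, hSj0⟩ hj⟩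
      have hθj0 : θ ≤ j0 := by
        by_contra hcon
        exact hθmin j0 (by omega) hSj0
      have hθL : θ ≤ L := by omega
      have hSge : ∀ j, θ ≤ j → S j := by
        intro j hj
        induction j, hj using Nat.le_induction with
        | base => exact hθS
        | succ n hn ih => exact (hSsucc n ih).1
      have hSlt : ∀ j, j < θ → ¬ S j := hθmin
      have hU44 := hcheap θ j0 hθS hθj0 hj0L.le hPj0
      -- sums
      rw [Fin.sum_univ_eq_sum_range (fun j => gw q L j * ind (S j ∧ j < L ∧ P j)) (L + 1),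
        Fin.sum_univ_eq_sum_range (fun j => gw q L j *
          (((U j - C0) * ind (U j ≤ 44 * rho)) * ind (S j))) (L + 1),
        Finset.sum_range_succ, Finset.sum_range_succ]
      have elast : ind (S L ∧ L < L ∧ P L) = 0 :=
        ind_false (fun h => absurd h.2.1 (lt_irrefl L))
      rw [elast, mul_zero, add_zero]
      have e1 : ∑ j ∈ Finset.range L, gw q L j * ind (S j ∧ j < L ∧ P j) =
          ∑ j ∈ Finset.Ico θ L, (1 - q) * q ^ j * ind (P j) := by
        apply N2_sum hθL
        · intro j hj
          rw [ind_false (fun h => hSlt j hj h.1), mul_zero]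
        · intro j hj hjL
          have : gw q L j = (1 - q) * q ^ j := by
            unfold gw
            rw [if_pos hjL]
          rw [this]
          congr 1
          by_cases h6 : P j
          · rw [ind_true ⟨hSge j hj, hjL, h6⟩, ind_true h6]
          · rw [ind_false (fun h => h6 h.2.2), ind_false h6]
      have e2 : ∑ j ∈ Finset.range L, gw q L j *
          (((U j - C0) * ind (U j ≤ 44 * rho)) * ind (S j)) =
          ∑ j ∈ Finset.Ico θ L, (1 - q) * q ^ j * (U j - C0) := by
        apply N2_sum hθL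
        · intro j hj
          rw [ind_false (hSlt j hj), mul_zero, mul_zero]
        · intro j hj hjL
          have : gw q L j = (1 - q) * q ^ j := by
            unfold gw
            rw [if_pos hjL]
          rw [this, ind_true (hSge j hj), ind_true (hU44 j hj hjL.le), mul_one, mul_one]
      have e3 : gw q L L * (((U L - C0) * ind (U L ≤ 44 * rho)) * ind (S L)) =
          q ^ L * (U L - C0) := by
        have : gw q L L = q ^ L := by
          unfold gw
          rw [if_neg (lt_irrefl L)]
        rw [this, ind_true (hSge L hθL), ind_true (hU44 L hθL le_rfl), mul_one, mul_one]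
      rw [e1, e2, e3]
      exact hA L θ q eta (Fintype.card T : ℝ) (fun j => U j - C0) N (fun j => ind (P j))
        hq0 hq1 heta hcard hθL
        (fun j _ hjL => ⟨by have := hC0' j hjL; linarith, hNnn j, hNle j⟩)
        (fun j => ⟨ind_nonneg _, ind_le_one _⟩)
        (fun j hj hjL => by have := hmain j (hSge j hj) hjL; linarith)
    · have e1 : ∑ j : Fin (L + 1), gw q L j * ind (S j ∧ (j : ℕ) < L ∧ P j) = 0 := by
        apply Finset.sum_eq_zero
        intro j _
        rw [ind_false (fun h => hex ⟨j, h.2.1, h.1, h.2.2⟩), mul_zero]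
      rw [e1]
      exact hrhs
  have := goal_eq
  rw [hPdef, hcdef, hSdef, hUdef, hcdef] at this
  exact this

end Pool.Agent.MP_a4c1f4_lc
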