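import Pool.Agent.Lib.MP_a4c1f4_lc.Spec3

set_option linter.all false

/-!
Expected cost of one step, with one pseudometric for each level.
-/

namespace Pool.Agent.MP_a4c1f4_lc

open Finset

theorem stepCost3 (hM : MonoProp) (hFar : FarProp) (hW : WeightProp)
    (hCo : CostProp3) (hL : LevelProp3) : StepCostProp3 := by
  intro S T _ _ _ _ _ _ σ h n J L u u0 D E lam rho x l C hLv hJ hlam hL0 hTL hu0 hu huJ hlen
    hC1 hC2
  have hD : PM D := hLv.pmD
  have hn : 0 < n := hLv.npos
  have hnr : (0 : ℝ) < n := by exact_mod_cast hn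
  have hJr : (0 : ℝ) < J := by exact_mod_cast hJ
  have hn1 : (1 : ℝ) ≤ n := by exact_mod_cast hn
  have hJ1 : (1 : ℝ) ≤ J := by exact_mod_cast hJ
  have hLr : (0 : ℝ) < L := by exact_mod_cast hL0
  have hlam0 : 0 < lam := by rw [hlam]; positivity
  have hnJ : (n : ℝ) * J * lam = 1 / 2 := by
    rw [hlam]
    field_simp
  have hlam1 : lam ≤ 1 / 2 := by
    have h1 : (1 : ℝ) ≤ n * J := by nlinarith
    nlinarith
  have hui0 : ∀ i, 0 ≤ u i := fun i => by
    rw [hu i]
    have : (0 : ℝ) ≤ u0 := by linarith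
    positivity
  have huiJ : ∀ i, i < J → u i ≤ u (J - 1) := fun i hi => by
    rw [hu i, hu (J - 1)]
    have h1 : (2 : ℝ) ^ i ≤ 2 ^ (J - 1) := pow_le_pow_right₀ (by norm_num) (by omega)
    exact mul_le_mul_of_nonneg_right h1 (by linarith)
  have hqq : ∀ i, i < J → 0 ≤ qq u L i ∧ qq u L i ≤ 1 := fun i hi => by
    unfold qq
    have h1 : u i / (L : ℝ) ≤ 1 := by
      rw [div_le_one hLr]
      exact (huiJ i hi).trans huJ
    have h2 : 0 ≤ u i / (L : ℝ) := div_nonneg (hui0 i) hLr.le
    constructor <;> linarith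
  obtain ⟨hsum1, hw⟩ := hW.2.2.2 S h J L u
  have hw0 : ∀ ω : Om S h J L, 0 ≤ omw u ω := hw hqq
  have hDT : PM (pull σ D) :=
    ⟨fun x => hD.self _, fun x y => hD.symm _ _, fun x y z => hD.tri _ _ _⟩
  -- the costs
  let c : Om S h J L → T → T → ℝ := fun ω => pull σ (cst D (pot3 E lam rho ω))
  have hc : ∀ ω r s, pull σ D r s ≤ 2 * c ω r s ∧ c ω r s ≤ 3 / 2 * pull σ D r s :=
    fun ω r s => hCo S h n J L D E lam rho ω hLv hlam0.le hL0 hnJ.le (σ r) (σ s)
  have hD0 : ∀ r s, 0 ≤ pull σ D r s := fun r s => hD.nonneg _ _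
  have hc0 : ∀ ω r s, 0 ≤ c ω r s := fun ω r s => by
    have h1 := (hc ω r s).1
    have h2 := hD0 r s
    linarith
  set O := optv (pull σ D) (x :: l) with hO
  have hlen' : (x :: l).length ≤ Fintype.card T := by simpa using hlen
  have hO0 : 0 ≤ O := (hM T (pull σ D) (x :: l)).2.1 hD0
  have hcO : ∀ ω, optv (c ω) (x :: l) ≤ 3 / 2 * O := fun ω =>
    (hM T (pull σ D) (x :: l)).2.2 (c ω) (3 / 2) (fun r s => (hc ω r s).2) hlen'
  let U : Om S h J L → ℝ := fun ω => optv (c ω) (x :: l) - optv (c ω) l
  let y : Om S h J L → S := fun ω => σ (srv (c ω) x l)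
  have hDy : ∀ ω, D (σ x) (y ω) ≤ 6 * O := fun ω => by
    have h1 := hFar T (pull σ D) (c ω) x l hDT (hc0 ω) (fun r s => (hc ω r s).1) hlen
    have h2 := hcO ω
    change D (σ x) (σ (srv (c ω) x l)) ≤ _ at h1
    change D (σ x) (σ (srv (c ω) x l)) ≤ _
    linarith
  set M : ℝ := (Fintype.card T : ℝ) with hMdef
  have hM0 : 0 ≤ M := Nat.cast_nonneg _
  set m : ℝ := (Fintype.card S : ℝ) with hmdef
  have hm0 : 0 ≤ m := Nat.cast_nonneg _
  set err : ℝ := J * m * (u (J - 1) / L * (1 + M)) with herr
  have huJ0 : 0 ≤ u (J - 1) := hui0 _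
  have herr0 : 0 ≤ err := by positivity
  let Wk : Fin h → Om S h J L → ℝ := fun k ω => Wl (E k) lam (rho k) u (σ x) (ω k)
  -- the truncated price of the step
  let V : Fin h → Om S h J L → ℝ := fun k ω => (U ω - C k ω) * ind (U ω ≤ 44 * rho k)
  have hV0 : ∀ k ω, 0 ≤ V k ω := fun k ω =>
    mul_nonneg (sub_nonneg.2 (hC2 k ω)) (ind_nonneg _)
  have hWk0 : ∀ k ω, 0 ≤ Wk k ω := fun k ω =>
    Finset.sum_nonneg fun i _ => mul_nonneg (hui0 i) (ind_nonneg _)
  let F : Fin h → Om S h J L → Prop := fun k ω =>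
    (7 * rho k ≤ D (σ x) (y ω) ∧ D (σ x) (y ω) < 28 * rho k) ∧
    ¬ ∀ i, Cap (E k) lam (rho k) (ω k) (σ x) i
  -- step (2)
  have step2 : ∀ k : Fin h, 28 * rho k * Ex u (fun ω : Om S h J L => ind (F k ω)) ≤
      28 / lam * Ex u (fun ω => Wk k ω * V k ω) + 24 * O * err := by
    intro k
    have hrk := hLv.pos k k.2
    have hUW0 : 0 ≤ Ex u (fun ω => Wk k ω * V k ω) :=
      stepCost_Ex_nonneg hw0 fun ω => mul_nonneg (hWk0 k ω) (hV0 k ω)
    rcases lt_or_ge (6 * O) (7 * rho k) with hcase | hcase
    · have hz : Ex u (fun ω : Om S h J L => ind (F k ω)) ≤ 0 := by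
        have h1 : ∀ ω : Om S h J L, ind (F k ω) ≤ 0 * (0 : ℝ) := fun ω => by
          rw [ind_false, mul_zero]
          rintro ⟨⟨h2, -⟩, -⟩
          have h3 := hDy ω
          linarith
        refine (stepCost_Ex_mono hw0 h1).trans ?_
        rw [stepCost_Ex_mul (T := S) (h := h) (J := J) (L := L) (u := u) 0 (fun _ => 0), zero_mul]
      have h4 : 28 * rho k * Ex u (fun ω : Om S h J L => ind (F k ω)) ≤ 0 :=
        mul_nonpos_of_nonneg_of_nonpos (by positivity) hz
      have h5 : 0 ≤ 28 / lam * Ex u (fun ω => Wk k ω * V k ω) := by positivity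
      have h6 : 0 ≤ 24 * O * err := by positivity
      linarith
    · have h1 := hL S T σ h n J L u D E lam rho x l k (C k) hLv hlam0 hlam1 hnJ.le hL0 hTL hqq
        hlen (fun ω i z j => hC1 k ω i z j) (fun ω => hC2 k ω)
      have hsumi : ∑ i : Fin J, (u i / (lam * rho k) * Ex u (fun ω : Om S h J L =>
            ((optv (pull σ (cst D (pot3 E lam rho ω))) (x :: l)
              - optv (pull σ (cst D (pot3 E lam rho ω))) l - C k ω) *
              ind (optv (pull σ (cst D (pot3 E lam rho ω))) (x :: l)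
              - optv (pull σ (cst D (pot3 E lam rho ω))) l ≤ 44 * rho k)) *
              ind (CapBelow (E k) lam (rho k) (ω k) (σ x) i))
          + m * (u i / L * (1 + M))) ≤
          1 / (lam * rho k) * Ex u (fun ω => Wk k ω * V k ω) + err := by
        rw [Finset.sum_add_distrib]
        refine add_le_add (le_of_eq ?_) ?_
        · have e1 : Ex u (fun ω => Wk k ω * V k ω) =
              ∑ i : Fin J, u i * Ex u (fun ω : Om S h J L => V k ω *
                ind (CapBelow (E k) lam (rho k) (ω k) (σ x) i)) := by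
            have e2 : (fun ω : Om S h J L => Wk k ω * V k ω) = fun ω => ∑ i : Fin J,
                u i * (V k ω * ind (CapBelow (E k) lam (rho k) (ω k) (σ x) i)) := by
              funext ω
              change (∑ i : Fin J, u i * ind (CapBelow (E k) lam (rho k) (ω k) (σ x) i)) *
                V k ω = _
              rw [Finset.sum_mul]
              exact Finset.sum_congr rfl fun i _ => by ring
            rw [e2, stepCost_Ex_sum]
            exact Finset.sum_congr rfl fun i _ => stepCost_Ex_mul _ _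
          rw [e1, Finset.mul_sum]
          refine Finset.sum_congr rfl fun i _ => ?_
          change u i / (lam * rho k) * Ex u (fun ω : Om S h J L => V k ω *
                ind (CapBelow (E k) lam (rho k) (ω k) (σ x) i)) = _
          ring
        · calc ∑ i : Fin J, m * (u i / L * (1 + M)) ≤
              ∑ _i : Fin J, m * (u (J - 1) / L * (1 + M)) := by
                refine Finset.sum_le_sum fun i _ => ?_
                have h2 := huiJ i i.2
                gcongr
            _ = err := by
                rw [Finset.sum_const, Finset.card_univ, Fintype.card_fin, nsmul_eq_mul, herr]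
                ring
      have h2 : Ex u (fun ω : Om S h J L => ind (F k ω)) ≤
          1 / (lam * rho k) * Ex u (fun ω => Wk k ω * V k ω) + err := h1.trans hsumi
      calc 28 * rho k * Ex u (fun ω : Om S h J L => ind (F k ω))
          ≤ 28 * rho k * (1 / (lam * rho k) * Ex u (fun ω => Wk k ω * V k ω) + err) :=
            mul_le_mul_of_nonneg_left h2 (by positivity)
        _ = 28 / lam * Ex u (fun ω => Wk k ω * V k ω) + 28 * rho k * err := by
            have := hrk.ne'
            have := hlam0.ne'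
            field_simp
        _ ≤ 28 / lam * Ex u (fun ω => Wk k ω * V k ω) + 24 * O * err := by
            have := mul_le_mul_of_nonneg_right hcase herr0
            linarith
  -- step (1) and (3)
  have step3 : Ex u (fun ω : Om S h J L => D (σ x) (y ω) * ind (Good3 E lam rho ω)) ≤
      28 / lam * Ex u (fun ω => ∑ k : Fin h, Wk k ω * V k ω) + 24 * h * O * err := by
    have h1 : ∀ ω : Om S h J L, D (σ x) (y ω) * ind (Good3 E lam rho ω) ≤
        ∑ k : Fin h, 28 * rho k * ind (F k ω) := by
      intro ω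
      have hnn : ∀ k : Fin h, 0 ≤ 28 * rho k * ind (F k ω) := fun k =>
        mul_nonneg (by have := hLv.pos k k.2; positivity) (ind_nonneg _)
      have hsn : 0 ≤ ∑ k : Fin h, 28 * rho k * ind (F k ω) :=
        Finset.sum_nonneg fun k _ => hnn k
      by_cases hG : Good3 E lam rho ω
      · rw [ind_true hG, mul_one]
        rcases hLv.cov (σ x) (y ω) with h0 | ⟨k, hk, h2, h3⟩
        · rw [h0]
          exact hsn
        · have h4 := Finset.single_le_sum (f := fun k : Fin h =>
            28 * rho k * ind (F k ω)) (fun k _ => hnn k)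
            (Finset.mem_univ (⟨k, hk⟩ : Fin h))
          refine le_trans ?_ h4
          change D (σ x) (y ω) ≤ 28 * rho k * ind (F ⟨k, hk⟩ ω)
          rw [ind_true ⟨⟨h2, h3⟩, hG (σ x) ⟨k, hk⟩⟩, mul_one]
          exact h3.le
      · rw [ind_false hG, mul_zero]
        exact hsn
    have h2 : Ex u (fun ω => ∑ k : Fin h, Wk k ω * V k ω) =
        ∑ k : Fin h, Ex u (fun ω => Wk k ω * V k ω) := stepCost_Ex_sum _ _
    calc Ex u (fun ω : Om S h J L => D (σ x) (y ω) * ind (Good3 E lam rho ω))
        ≤ Ex u (fun ω : Om S h J L =>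
          ∑ k : Fin h, 28 * rho k * ind (F k ω)) := stepCost_Ex_mono hw0 h1
      _ = ∑ k : Fin h, (28 * rho k * Ex u (fun ω : Om S h J L => ind (F k ω))) := by
          rw [stepCost_Ex_sum]
          exact Finset.sum_congr rfl fun k _ => stepCost_Ex_mul _ _
      _ ≤ ∑ k : Fin h, (28 / lam * Ex u (fun ω => Wk k ω * V k ω) + 24 * O * err) :=
          Finset.sum_le_sum fun k _ => step2 k
      _ = 28 / lam * Ex u (fun ω => ∑ k : Fin h, Wk k ω * V k ω) + 24 * h * O * err := by
          rw [h2, Finset.sum_add_distrib, ← Finset.mul_sum, Finset.sum_const,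
            Finset.card_univ, Fintype.card_fin, nsmul_eq_mul]
          ring
  have h56 : 28 / lam = 56 * n * J := by
    rw [hlam]
    field_simp
    norm_num
  rw [h56] at step3
  exact step3

end Pool.Agent.MP_a4c1f4_lc
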