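import Pool.Agent.Lib.MP_a4c1f4_lc.Spec3

set_option linter.all false

/-!
Exponential moment of one block of levels.
-/

namespace Pool.Agent.MP_a4c1f4_lc

open Finset

theorem expBlock_tele (a b : ℕ → ℝ) (s : Finset ℕ) (hb : ∀ k ∈ s, 1 ≤ b k)
    (ha : ∀ k ∈ s, 0 ≤ a k) (hab : ∀ j ∈ s, ∀ k ∈ s, j < k → a j ≤ b k) :
    ∀ x : ℝ, 1 ≤ x → (∀ k ∈ s, a k ≤ x) → ∏ k ∈ s, a k / b k ≤ x := by
  induction s using Finset.induction_on_max with
  | empty => intro x hx _; simpa using hx
  | insert m s hm ih =>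
    intro x hx hax
    have hms : m ∉ s := fun h => lt_irrefl _ (hm m h)
    have hbm : 1 ≤ b m := hb m (Finset.mem_insert_self _ _)
    have h1 : ∏ k ∈ s, a k / b k ≤ b m := by
      refine ih (fun k hk => hb k (Finset.mem_insert_of_mem hk))
        (fun k hk => ha k (Finset.mem_insert_of_mem hk))
        (fun j hj k hk hjk => hab j (Finset.mem_insert_of_mem hj) k
          (Finset.mem_insert_of_mem hk) hjk) (b m) hbm ?_
      intro k hk
      exact hab k (Finset.mem_insert_of_mem hk) m (Finset.mem_insert_self _ _) (hm k hk)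
    rw [Finset.prod_insert hms]
    have h2 : 0 ≤ a m := ha m (Finset.mem_insert_self _ _)
    calc a m / b m * ∏ k ∈ s, a k / b k ≤ a m / b m * b m :=
          mul_le_mul_of_nonneg_left h1 (by positivity)
      _ = a m := by field_simp
      _ ≤ x := hax m (Finset.mem_insert_self _ _)

theorem expBlock_rho (rho : ℕ → ℝ) (h : ℕ) (h1 : ∀ k, k < h → 0 < rho k)
    (h2 : ∀ k, k + 1 < h → 4 * rho k ≤ rho (k + 1)) :
    ∀ k j, j < k → k < h → 4 * rho j ≤ rho k := by
  intro k
  induction k with
  | zero => intro j hj; omega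
  | succ k ih =>
    intro j hj hk
    rcases Nat.lt_succ_iff_lt_or_eq.1 hj with hlt | heq
    · have e1 := ih j hlt (by omega)
      have e2 := h2 k hk
      have e3 := h1 k (by omega)
      linarith
    · subst heq
      exact h2 j hk

theorem expBlock (hW : WeightProp) (hI : IndepProp) (hE : ExpLevelProp) : ExpBlockProp := by
  classical
  intro S _ _ _ h n J L u u0 D E lam rho r b hL hlam hL0 hqq hu0 hu
  set F : Fin h → Lev S J L → ℝ := fun k a =>
    if (k : ℕ) / n = b then Real.exp (Wl (E k) lam (rho k) u r a / 8) else 1 with hF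
  have hfun : (fun ω : Om S h J L => Real.exp ((∑ k ∈ (Finset.univ : Finset (Fin h)).filter
        (fun k : Fin h => (k : ℕ) / n = b), Wl (E k) lam (rho k) u r (ω k)) / 8)) =
      fun ω : Om S h J L => ∏ k : Fin h, F k (ω k) := by
    funext ω
    rw [Finset.sum_div, Real.exp_sum, Finset.prod_filter]
  rw [hfun, (hI S h J L u).1 F]
  have hlev0 : ∀ a : Lev S J L, 0 ≤ levw u a := (hW.2.2.1 S J L u).2 hqq
  have hnn : ∀ k : Fin h, 0 ≤ Ex1 u (F k) := by
    intro k
    refine Finset.sum_nonneg fun a _ => mul_nonneg (hlev0 a) ?_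
    simp only [hF]
    split_ifs
    · exact (Real.exp_pos _).le
    · exact zero_le_one
  set G : ℕ → ℝ := fun k => if k / n = b then Real.exp (u0 / 8 + 1) *
    ((nb (E k) (3 * rho k) r : ℝ) / (nb (E k) (rho k) r : ℝ)) else 1 with hG
  have hle : ∀ k : Fin h, Ex1 u (F k) ≤ G k := by
    intro k
    by_cases hk : (k : ℕ) / n = b
    · have e1 : F k = fun a => Real.exp (Wl (E k) lam (rho k) u r a / 8) := by
        funext a; simp only [hF]; rw [if_pos hk]
      have e2 : G k = Real.exp (u0 / 8 + 1) *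
          ((nb (E k) (3 * rho k) r : ℝ) / (nb (E k) (rho k) r : ℝ)) := by
        simp only [hG]; rw [if_pos hk]
      rw [e1, e2]
      exact hE S J L u u0 (E k) lam (rho k) r (hL.pmE k) hlam (hL.pos k k.2) hL0 hqq hu0 hu
    · have e1 : F k = fun a => 1 := by
        funext a; simp only [hF]; rw [if_neg hk]
      have e2 : G k = 1 := by
        simp only [hG]; rw [if_neg hk]
      rw [e1, e2]
      have e3 := (hW.2.2.1 S J L u).1
      have e4 : Ex1 u (fun _ : Lev S J L => (1 : ℝ)) = ∑ a : Lev S J L, levw u a := by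
        simp only [Ex1, mul_one]
      rw [e4, e3]
  have hprod : ∏ k : Fin h, Ex1 u (F k) ≤ ∏ k : Fin h, G k :=
    Finset.prod_le_prod (fun k _ => hnn k) fun k _ => hle k
  refine hprod.trans ?_
  rw [Fin.prod_univ_eq_prod_range G h]
  have hG2 : ∏ k ∈ range h, G k = ∏ k ∈ (range h).filter (fun k => k / n = b),
      (Real.exp (u0 / 8 + 1) *
        ((nb (E k) (3 * rho k) r : ℝ) / (nb (E k) (rho k) r : ℝ))) := by
    rw [Finset.prod_filter]
  rw [hG2, Finset.prod_mul_distrib, Finset.prod_const, ← Real.exp_nat_mul]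
  set s : Finset ℕ := (range h).filter (fun k => k / n = b) with hs
  have hsh : ∀ k ∈ s, k < h := fun k hk => Finset.mem_range.1 (Finset.mem_filter.1 hk).1
  have hcard : s.card ≤ n := by
    have hsub : s ⊆ Finset.Ico (b * n) (b * n + n) := by
      intro k hk
      have h1 := (Finset.mem_filter.1 hk).2
      rw [Finset.mem_Ico]
      have h2 := Nat.div_add_mod k n
      have h3 := Nat.mod_lt k hL.npos
      rw [h1] at h2
      constructor
      · calc b * n = n * b := Nat.mul_comm _ _
          _ ≤ k := by omega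
      · have h4 : b * n = n * b := Nat.mul_comm _ _
        omega
    have := Finset.card_le_card hsub
    rw [Nat.card_Ico] at this
    omega
  have hu0' : 0 ≤ u0 / 8 + 1 := by linarith
  have hexp : Real.exp ((s.card : ℝ) * (u0 / 8 + 1)) ≤ Real.exp (n * (u0 / 8 + 1)) := by
    apply Real.exp_le_exp.2
    apply mul_le_mul_of_nonneg_right _ hu0'
    exact_mod_cast hcard
  have hone : ∀ (D' : S → S → ℝ) (R : ℝ), PM D' → 0 < R → (1 : ℝ) ≤ (nb D' R r : ℝ) := by
    intro D' R hD' hR
    have : 1 ≤ nb D' R r := by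
      unfold nb
      rw [Nat.one_le_iff_ne_zero, Ne, Finset.card_eq_zero]
      refine Finset.nonempty_iff_ne_empty.1 ⟨r, ?_⟩
      rw [Finset.mem_filter]
      exact ⟨Finset.mem_univ _, by rw [hD'.self]; exact hR.le⟩
    exact_mod_cast this
  have hrho := expBlock_rho rho h hL.pos hL.four
  have htele : ∏ k ∈ s, ((nb (E k) (3 * rho k) r : ℝ) / (nb (E k) (rho k) r : ℝ)) ≤
      (Fintype.card S : ℝ) := by
    refine expBlock_tele (fun k => (nb (E k) (3 * rho k) r : ℝ))
      (fun k => (nb (E k) (rho k) r : ℝ)) s ?_ ?_ ?_ _ ?_ ?_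
    · intro k hk
      exact hone (E k) (rho k) (hL.pmE k) (hL.pos k (hsh k hk))
    · intro k hk
      exact Nat.cast_nonneg _
    · intro j hj k hk hjk
      have hle' : nb (E j) (3 * rho j) r ≤ nb (E k) (rho k) r := by
        unfold nb
        refine Finset.card_le_card fun w hw => ?_
        rw [Finset.mem_filter] at hw ⊢
        refine ⟨hw.1, ?_⟩
        have e1 := hrho k j hjk (hsh k hk)
        have e2 := hL.ge j (hsh j hj)
        have e3 := hL.le k
        first
          | linarith [e2 w r, e3 w r, hw.2]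
          | linarith [e2 r w, e3 r w, hw.2]
      exact_mod_cast hle'
    · have : 1 ≤ Fintype.card S := Fintype.card_pos
      exact_mod_cast this
    · intro k hk
      have : nb (E k) (3 * rho k) r ≤ Fintype.card S := by
        unfold nb
        exact Finset.card_le_univ _
      exact_mod_cast this
  have hnn2 : 0 ≤ ∏ k ∈ s, ((nb (E k) (3 * rho k) r : ℝ) / (nb (E k) (rho k) r : ℝ)) :=
    Finset.prod_nonneg fun k _ => by positivity
  calc Real.exp ((s.card : ℝ) * (u0 / 8 + 1)) *
        ∏ k ∈ s, ((nb (E k) (3 * rho k) r : ℝ) / (nb (E k) (rho k) r : ℝ))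
      ≤ Real.exp (n * (u0 / 8 + 1)) *
        ∏ k ∈ s, ((nb (E k) (3 * rho k) r : ℝ) / (nb (E k) (rho k) r : ℝ)) :=
        mul_le_mul_of_nonneg_right hexp hnn2
    _ ≤ Real.exp (n * (u0 / 8 + 1)) * (Fintype.card S : ℝ) :=
        mul_le_mul_of_nonneg_left htele (Real.exp_pos _).le

end Pool.Agent.MP_a4c1f4_lc
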