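import Pool.Agent.Lib.MP_a4c1f4_lc.Spec3

set_option linter.all false

/-!
Parameters.
-/

namespace Pool.Agent.MP_a4c1f4_lc

open Finset

private theorem n6_exp (n : ℕ) : (2.7 : ℝ) ^ n ≤ Real.exp n := by
  have h1 : (2.7 : ℝ) < Real.exp 1 := lt_trans (by norm_num) Real.exp_one_gt_d9
  have h2 : Real.exp n = Real.exp 1 ^ n := by
    rw [← Real.exp_nat_mul]
    norm_num
  rw [h2]
  exact pow_le_pow_left₀ (by norm_num) h1.le n

theorem param3 : ParamProp3 := by
  intro h n m M hn hm hM hhm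
  obtain ⟨J, hJ⟩ : ∃ J : ℕ, J = Nat.log 2 n + 2 := ⟨_, rfl⟩
  have hJR : ((Nat.log 2 n : ℝ) + 2) = (J : ℝ) := by rw [hJ]; push_cast; ring
  have hnR : (1 : ℝ) ≤ n := by exact_mod_cast hn
  have hmR : (1 : ℝ) ≤ m := by exact_mod_cast hm
  have hMR : (1 : ℝ) ≤ M := by exact_mod_cast hM
  have hhR : (h : ℝ) ≤ m ^ 2 := by exact_mod_cast hhm
  have hh0 : (0 : ℝ) ≤ h := Nat.cast_nonneg _
  have hJR0 : (2 : ℝ) ≤ J := by rw [← hJR]; linarith [Nat.cast_nonneg (α := ℝ) (Nat.log 2 n)]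
  have hlM : 0 ≤ Real.log m := Real.log_nonneg hmR
  obtain ⟨u0, hu0⟩ : ∃ u0 : ℝ, u0 = 1 + (4 * Real.log m + 1) / n := ⟨_, rfl⟩
  have hu1 : 1 ≤ u0 := by
    rw [hu0]
    have : 0 ≤ (4 * Real.log m + 1) / n := by positivity
    linarith
  have hnu : n * u0 = n + 4 * Real.log m + 1 := by
    rw [hu0]
    field_simp
    ring
  obtain ⟨U, hU⟩ : ∃ U : ℝ, U = 2 ^ (Nat.log 2 n + 2 - 1) * u0 := ⟨_, rfl⟩
  have hUge : n + 4 * Real.log m + 1 ≤ U := by
    rw [← hnu, hU]
    have h1 : n < 2 ^ (Nat.log 2 n + 2 - 1) := by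
      have := Nat.lt_pow_succ_log_self (b := 2) (by norm_num) n
      simpa using this
    have h2 : (n : ℝ) ≤ 2 ^ (Nat.log 2 n + 2 - 1) := by exact_mod_cast h1.le
    nlinarith
  have hU0 : 0 < U := by linarith
  obtain ⟨K, hK⟩ : ∃ K : ℝ, K = 24 * (h + 1) * J * m * (1 + M) * M * U := ⟨_, rfl⟩
  have hK1 : (1 : ℝ) ≤ 24 * (h + 1) * J * m * (1 + M) := by
    have a1 : (1 : ℝ) ≤ 24 * (h + 1) := by linarith
    have a2 : (1 : ℝ) ≤ 24 * (h + 1) * J := by nlinarith
    have a3 : (1 : ℝ) ≤ 24 * (h + 1) * J * m := by nlinarith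
    nlinarith
  have hKU : U ≤ K := by
    rw [hK]
    have h2 : (1 : ℝ) ≤ 24 * (h + 1) * J * m * (1 + M) * M := by nlinarith
    nlinarith
  have hK0 : 0 < K := lt_of_lt_of_le hU0 hKU
  obtain ⟨L, hL⟩ : ∃ L : ℕ, L = max M ⌈K⌉₊ := ⟨_, rfl⟩
  have hLM : M ≤ L := by rw [hL]; exact le_max_left _ _
  have hLK : K ≤ L := by
    rw [hL]
    refine (Nat.le_ceil K).trans ?_
    exact_mod_cast le_max_right _ _
  have hL0 : 0 < L := by omega
  have hLR : (0 : ℝ) < L := by exact_mod_cast hL0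
  have hexpM : Real.exp (Real.log m) = m := Real.exp_log (by linarith)
  have e2 : Real.exp (-(4 * Real.log m)) * (m ^ 4) = 1 := by
    have : (m : ℝ) ^ 4 = Real.exp (4 * Real.log m) := by
      rw [show 4 * Real.log m = ((4 : ℕ) : ℝ) * Real.log m by norm_num, Real.exp_nat_mul, hexpM]
    rw [this, ← Real.exp_add, show -(4 * Real.log m) + 4 * Real.log m = 0 by ring, Real.exp_zero]
  have hm4 : (m : ℝ) * m * h ≤ m ^ 4 := by
    have : (m : ℝ) * m * h ≤ m * m * m ^ 2 := mul_le_mul_of_nonneg_left hhR (by positivity)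
    linarith [this, show (m : ℝ) * m * m ^ 2 = m ^ 4 by ring]
  refine ⟨L, u0, 9 * n + 36 * Real.log m + 19, hL0, hLM, hu1, by positivity, rfl, ?_, ?_, ?_, ?_⟩
  · rw [← hU]
    linarith
  · have e1 : Real.exp (-(9 * n + 36 * Real.log m + 19) / 8) * Real.exp (n * (u0 / 8 + 1)) =
        Real.exp (-(9 / 4)) * Real.exp (-(4 * Real.log m)) := by
      rw [← Real.exp_add, ← Real.exp_add]
      congr 1
      have : (n : ℝ) * (u0 / 8 + 1) = n * u0 / 8 + n := by ring
      rw [this, hnu]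
      ring
    have e3 : 8 * Real.exp (-(9 * n + 36 * Real.log m + 19) / 8) *
        (Real.exp (n * (u0 / 8 + 1)) * m) * m * h ≤ 8 * Real.exp (-(9 / 4)) := by
      calc _ = 8 * (Real.exp (-(9 * n + 36 * Real.log m + 19) / 8) *
            Real.exp (n * (u0 / 8 + 1))) * (m * m * h) := by ring
        _ = 8 * Real.exp (-(9 / 4)) * (Real.exp (-(4 * Real.log m)) * (m * m * h)) := by
            rw [e1]; ring
        _ ≤ 8 * Real.exp (-(9 / 4)) * (Real.exp (-(4 * Real.log m)) * (m ^ 4)) := by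
            gcongr
        _ = _ := by rw [e2, mul_one]
    refine e3.trans ?_
    have h3 := n6_exp 9
    have h4 : Real.exp (-(9 / 4)) ^ 4 * Real.exp 9 = 1 := by
      rw [← Real.exp_nat_mul, ← Real.exp_add]
      norm_num
    have h5 : ((8 : ℝ)) ^ 4 ≤ Real.exp 9 := by
      refine le_trans (by norm_num) (show (2.7 : ℝ) ^ 9 ≤ Real.exp 9 from ?_)
      exact_mod_cast h3
    have h6 : 0 < Real.exp (-(9 / 4)) := Real.exp_pos _
    have h7 : (8 * Real.exp (-(9 / 4))) ^ 4 ≤ 1 ^ 4 := by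
      rw [mul_pow, one_pow]
      have h8 : 0 < Real.exp (-(9 / 4)) ^ 4 := by positivity
      nlinarith [mul_le_mul_of_nonneg_right h5 h8.le]
    exact le_of_pow_le_pow_left₀ (by norm_num) (by norm_num) h7
  · rw [← hU, hJR]
    have e : 24 * (h : ℝ) * (J * m * (U / L * (1 + M))) * M =
        (24 * h * J * m * (1 + M) * M * U) / L := by
      field_simp
    rw [e, div_le_one hLR]
    refine le_trans ?_ hLK
    rw [hK]
    gcongr
    linarith
  · rw [← hU]
    have e1 : Real.exp (-U) ≤ Real.exp (-n - 1) * Real.exp (-(4 * Real.log m)) := by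
      rw [← Real.exp_add]
      exact Real.exp_le_exp.mpr (by linarith)
    have e3 : (h : ℝ) * m * (m * Real.exp (-U)) ≤ Real.exp (-n - 1) := by
      calc (h : ℝ) * m * (m * Real.exp (-U)) = (m * m * h) * Real.exp (-U) := by ring
        _ ≤ (m ^ 4) * Real.exp (-U) := mul_le_mul_of_nonneg_right hm4 (Real.exp_pos _).le
        _ ≤ (m ^ 4) * (Real.exp (-n - 1) * Real.exp (-(4 * Real.log m))) :=
            mul_le_mul_of_nonneg_left e1 (by positivity)
        _ = Real.exp (-n - 1) * (Real.exp (-(4 * Real.log m)) * m ^ 4) := by ring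
        _ = _ := by rw [e2, mul_one]
    refine e3.trans ?_
    have h2 := n6_exp 2
    have h5 : (2 : ℝ) ≤ Real.exp 2 := by
      refine le_trans (by norm_num) (show (2.7 : ℝ) ^ 2 ≤ Real.exp 2 from ?_)
      exact_mod_cast h2
    have h6 : Real.exp (-(n : ℝ) - 1) ≤ Real.exp (-2) := Real.exp_le_exp.mpr (by linarith)
    have h7 : Real.exp (-2) * Real.exp 2 = 1 := by
      rw [← Real.exp_add]
      norm_num
    have h8 : 0 < Real.exp (-2) := Real.exp_pos _
    nlinarith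

end Pool.Agent.MP_a4c1f4_lc
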