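import Pool.Agent.Lib.MP_a4c1f4_lc.Spec3

/-!
# P1: `asg` is a minimum
-/

namespace Pool.Agent.MP_a4c1f4_lc

open Finset

theorem asgBasic : AsgBasicProp := by
  intro T _ _ _ c loc A
  have hfin : {w : ℝ | ∃ f : ℕ → T, Set.InjOn f (A : Set ℕ) ∧
      ∑ i ∈ A, c (loc i) (f i) = w}.Finite := by
    refine (Set.finite_range (fun g : (A → T) => ∑ i : A, c (loc i) (g i))).subset ?_
    rintro w ⟨f, -, rfl⟩
    refine ⟨fun i => f i, ?_⟩
    exact Finset.sum_coe_sort A (fun i => c (loc i) (f i))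
  refine ⟨fun f hf => csInf_le hfin.bddBelow ⟨f, hf, rfl⟩, fun hA => ?_⟩
  have hne : {w : ℝ | ∃ f : ℕ → T, Set.InjOn f (A : Set ℕ) ∧
      ∑ i ∈ A, c (loc i) (f i) = w}.Nonempty := by
    have hcard : Fintype.card A ≤ Fintype.card T := by simpa using hA
    obtain ⟨e⟩ := Function.Embedding.nonempty_of_card_le hcard
    refine ⟨_, fun n => if h : n ∈ A then e ⟨n, h⟩ else Classical.arbitrary T, ?_, rfl⟩
    intro x hx y hy hxy
    have hx' : x ∈ A := hx
    have hy' : y ∈ A := hy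
    simp only [hx', hy', dif_pos] at hxy
    have := e.injective hxy
    simpa using this
  obtain ⟨f, hf, h⟩ := hne.csInf_mem hfin
  exact ⟨f, hf, h⟩

end Pool.Agent.MP_a4c1f4_lc
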