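import Pool.Agent.Lib.MP_a4c1f4_lc.Spec3

set_option linter.all false

/-!
# P10: the capped value does not feel the noise of the high levels
-/

namespace Pool.Agent.MP_a4c1f4_lc

open Finset

theorem capInv_le (h1 : AsgBasicProp) (h2 : CapBasicProp)
    (S T : Type) [Fintype T] [DecidableEq T] [Nonempty T] (σ : T → S) (D : S → S → ℝ)
    (β β' : S → ℝ) (θ R : ℝ) (loc : ℕ → T) (A : Finset ℕ) (hA : A.card ≤ Fintype.card T)
    (heq : ∀ r s, D r s ≤ θ → β r - β s = β' r - β' s)
    (hD' : ∀ r s, D r s ≤ 2 * cst D β' r s)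
    (hR : 2 * R ≤ θ) :
    vR (asg (pull σ (cst D β)) loc) R A ≤ vR (asg (pull σ (cst D β')) loc) R A := by
  classical
  obtain ⟨E, hE, hv⟩ := (h2 (asg (pull σ (cst D β')) loc) R A).1
  have hcard : (A \ E).card ≤ Fintype.card T := le_trans (card_le_card sdiff_subset) hA
  obtain ⟨f, hf, hfs⟩ := (h1 T (pull σ (cst D β')) loc (A \ E)).2 hcard
  set F : Finset ℕ := (A \ E).filter (fun i => θ < D (σ (loc i)) (σ (f i))) with hF
  have hFsub : F ⊆ A \ E := filter_subset _ _
  have hdisj : Disjoint E F := by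
    rw [Finset.disjoint_left]
    intro i hi hiF
    exact (mem_sdiff.1 (hFsub hiF)).2 hi
  have hE2 : E ∪ F ⊆ A := union_subset hE (hFsub.trans sdiff_subset)
  have hsd : A \ (E ∪ F) = (A \ E) \ F := by
    ext i
    simp only [mem_sdiff, mem_union, not_or]
    tauto
  have hub := (h2 (asg (pull σ (cst D β)) loc) R A).2.1 (E ∪ F) hE2
  have hf2 : Set.InjOn f ((A \ (E ∪ F) : Finset ℕ) : Set ℕ) := by
    rw [hsd]
    exact hf.mono (by exact_mod_cast sdiff_subset)
  have has := (h1 T (pull σ (cst D β)) loc (A \ (E ∪ F))).1 f hf2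
  have hcardU : ((E ∪ F).card : ℝ) = (E.card : ℝ) + (F.card : ℝ) := by
    rw [card_union_of_disjoint hdisj]
    push_cast
    ring
  -- the requests outside of `F` have the same cost
  have hsame : ∑ i ∈ (A \ E) \ F, pull σ (cst D β) (loc i) (f i) =
      ∑ i ∈ (A \ E) \ F, pull σ (cst D β') (loc i) (f i) := by
    apply sum_congr rfl
    intro i hi
    have hi1 := (mem_sdiff.1 hi).1
    have hi2 := (mem_sdiff.1 hi).2
    have hle : D (σ (loc i)) (σ (f i)) ≤ θ := by
      by_contra hcon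
      exact hi2 (mem_filter.2 ⟨hi1, not_le.1 hcon⟩)
    have hb := heq _ _ hle
    unfold pull cst
    linarith
  have hbig : R * (F.card : ℝ) ≤ ∑ i ∈ F, pull σ (cst D β') (loc i) (f i) := by
    have : ∑ i ∈ F, R ≤ ∑ i ∈ F, pull σ (cst D β') (loc i) (f i) := by
      apply sum_le_sum
      intro i hi
      have h3 := (mem_filter.1 hi).2
      have h4 := hD' (σ (loc i)) (σ (f i))
      show R ≤ cst D β' (σ (loc i)) (σ (f i))
      linarith
    rw [sum_const, nsmul_eq_mul] at this
    linarith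
  have hsplit : ∑ i ∈ A \ E, pull σ (cst D β') (loc i) (f i) =
      ∑ i ∈ (A \ E) \ F, pull σ (cst D β') (loc i) (f i) +
        ∑ i ∈ F, pull σ (cst D β') (loc i) (f i) := by
    rw [sum_sdiff hFsub]
  rw [hsd] at has hub
  rw [hv, ← hfs, hsplit]
  rw [hcardU] at hub
  have hmul : R * ((E.card : ℝ) + (F.card : ℝ)) = R * (E.card : ℝ) + R * (F.card : ℝ) := by ring
  rw [hmul] at hub
  linarith

/-- The capped value does not feel the noise of the high levels. -/
theorem capInv (h1 : AsgBasicProp) (h2 : CapBasicProp) : CapInvProp := by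
  intro S T _ _ _ σ D β β' θ R loc A hA heq hD hD' hR
  apply le_antisymm
  · exact capInv_le h1 h2 S T σ D β β' θ R loc A hA heq hD' hR
  · exact capInv_le h1 h2 S T σ D β' β θ R loc A hA (fun r s h => (heq r s h).symm) hD hR

end Pool.Agent.MP_a4c1f4_lc
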