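import Pool.Agent.Lib.MP_a4c1f4_lc.Spec3

set_option linter.all false

/-!
(P2) `asg` on initial segments is `optv` of the list of the first requests.
-/

namespace Pool.Agent.MP_a4c1f4_lc

open Finset

private theorem p2_length {T : Type} (f : ℕ → T) (t : ℕ) : (lst f t).length = t := by
  induction t with
  | zero => rfl
  | succ t ih => simp [lst, ih]

private theorem p2_cost {T : Type} (c : T → T → ℝ) (loc f : ℕ → T) (t : ℕ) :
    acost c (lst loc t) (lst f t) = ∑ i ∈ range t, c (loc i) (f i) := by
  induction t with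
  | zero => simp [lst, acost]
  | succ t ih =>
    rw [Finset.sum_range_succ, ← ih]
    simp [lst, acost, add_comm]

private theorem p2_mem {T : Type} (f : ℕ → T) (t : ℕ) (a : T) :
    a ∈ lst f t ↔ ∃ i, i < t ∧ f i = a := by
  induction t with
  | zero => simp [lst]
  | succ t ih =>
    rw [lst, List.mem_cons, ih]
    constructor
    · rintro (rfl | ⟨i, hi, rfl⟩)
      · exact ⟨t, Nat.lt_succ_self t, rfl⟩
      · exact ⟨i, by omega, rfl⟩
    · rintro ⟨i, hi, rfl⟩
      rcases Nat.lt_succ_iff_lt_or_eq.1 hi with h | h
      · exact Or.inr ⟨i, h, rfl⟩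
      · subst h
        exact Or.inl rfl

private theorem p2_nodup {T : Type} (f : ℕ → T) (t : ℕ) :
    (lst f t).Nodup ↔ Set.InjOn f (range t : Set ℕ) := by
  induction t with
  | zero => simp [lst]
  | succ t ih =>
    rw [lst, List.nodup_cons, ih, p2_mem]
    constructor
    · rintro ⟨h1, h2⟩ i hi j hj hij
      simp only [Finset.coe_range, Set.mem_Iio] at hi hj
      rcases Nat.lt_succ_iff_lt_or_eq.1 hi with h | h
      · rcases Nat.lt_succ_iff_lt_or_eq.1 hj with h' | h'
        · exact h2 (by simpa using h) (by simpa using h') hij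
        · subst h'
          exact absurd ⟨i, h, hij⟩ h1
      · subst h
        rcases Nat.lt_succ_iff_lt_or_eq.1 hj with h' | h'
        · exact absurd ⟨j, h', hij.symm⟩ h1
        · exact h'.symm
    · intro h
      refine ⟨?_, ?_⟩
      · rintro ⟨i, hi, hit⟩
        have := h (by simpa using Nat.lt_succ_of_lt hi) (by simp) hit
        omega
      · exact h.mono (by
          intro i hi
          simp only [Finset.coe_range, Set.mem_Iio] at hi ⊢
          omega)

private theorem p2_congr {T : Type} (f g : ℕ → T) (t : ℕ) (h : ∀ i, i < t → f i = g i) :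
    lst f t = lst g t := by
  induction t with
  | zero => rfl
  | succ t ih =>
    rw [lst, lst, h t (Nat.lt_succ_self t), ih fun i hi => h i (Nat.lt_succ_of_lt hi)]

private theorem p2_exists {T : Type} [Nonempty T] (l : List T) :
    ∃ f : ℕ → T, lst f l.length = l := by
  induction l with
  | nil => exact ⟨fun _ => Classical.arbitrary T, rfl⟩
  | cons x l ih =>
    obtain ⟨f, hf⟩ := ih
    refine ⟨Function.update f l.length x, ?_⟩
    rw [List.length_cons, lst, Function.update_self]
    congr 1
    conv_rhs => rw [← hf]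
    apply p2_congr
    intro i hi
    rw [Function.update_of_ne (by omega)]

theorem asgList (h1 : AsgBasicProp) (h2 : OptBasicProp) : AsgListProp := by
  intro T _ _ _
  refine ⟨?_, p2_exists⟩
  intro c loc t ht
  apply le_antisymm
  · obtain ⟨τ, hτ, hc⟩ := (h2 T c (lst loc t)).2 (by rw [p2_length]; exact ht)
    obtain ⟨f, hf⟩ := p2_exists τ
    have hl : τ.length = t := by rw [hτ.1, p2_length]
    rw [hl] at hf
    rw [← hc, ← hf, p2_cost]
    apply (h1 T c loc (range t)).1 f
    rw [← p2_nodup, hf]
    exact hτ.2
  · obtain ⟨f, hf, hc⟩ := (h1 T c loc (range t)).2 (by rw [Finset.card_range]; exact ht)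
    rw [← hc, ← p2_cost]
    apply (h2 T c (lst loc t)).1
    exact ⟨by rw [p2_length, p2_length], (p2_nodup f t).2 hf⟩

end Pool.Agent.MP_a4c1f4_lc
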