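import Pool.Agent.Lib.MP_a4c1f4_lc.Spec3

/-!
# P3: the exchange property of assignments
-/

set_option linter.all false

namespace Pool.Agent.MP_a4c1f4_lc

open Finset

theorem P3_ext {T : Type} [DecidableEq T] (C : ℕ → T → ℝ) (A : Finset ℕ) (f : ℕ → T) (z : ℕ)
    (v : T) (hz : z ∉ A) (hf : Set.InjOn f (A : Set ℕ)) (hv : ∀ i ∈ A, f i ≠ v) :
    Set.InjOn (Function.update f z v) ((insert z A : Finset ℕ) : Set ℕ) ∧
    ∑ i ∈ insert z A, C i (Function.update f z v i) = C z v + ∑ i ∈ A, C i (f i) ∧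
    ∀ P : T → Prop, P v → (∀ i ∈ A, P (f i)) → ∀ i ∈ insert z A, P (Function.update f z v i) := by
  have hne : ∀ i ∈ A, i ≠ z := fun i hi h => hz (h ▸ hi)
  have hup : ∀ i ∈ A, Function.update f z v i = f i := fun i hi =>
    Function.update_of_ne (hne i hi) _ _
  refine ⟨?_, ?_, ?_⟩
  · intro i hi j hj hij
    rw [Finset.mem_coe, Finset.mem_insert] at hi hj
    rcases hi with rfl | hi <;> rcases hj with rfl | hj
    · rfl
    · rw [Function.update_self, hup j hj] at hij
      exact absurd hij.symm (hv j hj)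
    · rw [Function.update_self, hup i hi] at hij
      exact absurd hij (hv i hi)
    · rw [hup i hi, hup j hj] at hij
      exact hf (Finset.mem_coe.2 hi) (Finset.mem_coe.2 hj) hij
  · rw [Finset.sum_insert hz, Function.update_self]
    congr 1
    exact Finset.sum_congr rfl fun i hi => by rw [hup i hi]
  · intro P hPv hP i hi
    rw [Finset.mem_insert] at hi
    rcases hi with rfl | hi
    · rw [Function.update_self]
      exact hPv
    · rw [hup i hi]
      exact hP i hi

theorem P3_exch {T : Type} [DecidableEq T] (C : ℕ → T → ℝ) (n : ℕ) :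
    ∀ (P : T → Prop) (a b : Finset ℕ) (x : ℕ) (f g : ℕ → T), b.card = n → x ∈ a → x ∉ b →
      Set.InjOn f (a : Set ℕ) → Set.InjOn g (b : Set ℕ) →
      (∀ i ∈ a, P (f i)) → (∀ i ∈ b, P (g i)) →
    ∃ a' b' : Finset ℕ, ((a' = a.erase x ∧ b' = insert x b) ∨
        ∃ y ∈ b, y ∉ a ∧ a' = insert y (a.erase x) ∧ b' = (insert x b).erase y) ∧
      ∃ f' g' : ℕ → T, Set.InjOn f' (a' : Set ℕ) ∧ Set.InjOn g' (b' : Set ℕ) ∧
        ∑ i ∈ a', C i (f' i) + ∑ i ∈ b', C i (g' i) =
          ∑ i ∈ a, C i (f i) + ∑ i ∈ b, C i (g i) ∧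
        (∀ i ∈ a', P (f' i)) ∧ ∀ i ∈ b', P (g' i) := by
  induction n with
  | zero =>
    intro P a b x f g hn hxa hxb hf hg hPf hPg
    have hb : b = ∅ := Finset.card_eq_zero.1 hn
    subst hb
    refine ⟨a.erase x, insert x ∅, Or.inl ⟨rfl, rfl⟩, f, Function.update g x (f x), ?_, ?_, ?_,
      ?_, ?_⟩
    · exact hf.mono (fun i hi => by
        rw [Finset.mem_coe] at hi ⊢
        exact Finset.mem_of_mem_erase hi)
    · exact (P3_ext C ∅ g x (f x) hxb hg (by simp)).1
    · rw [(P3_ext C ∅ g x (f x) hxb hg (by simp)).2.1, ← Finset.add_sum_erase a _ hxa]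
      ring
    · exact fun i hi => hPf i (Finset.mem_of_mem_erase hi)
    · exact (P3_ext C ∅ g x (f x) hxb hg (by simp)).2.2 P (hPf x hxa) (by simp)
  | succ n ih =>
    intro P a b x f g hn hxa hxb hf hg hPf hPg
    have hfa : ∀ i ∈ a.erase x, f i ≠ f x := fun i hi h =>
      (Finset.mem_erase.1 hi).1 (hf (Finset.mem_coe.2 (Finset.mem_erase.1 hi).2)
        (Finset.mem_coe.2 hxa) h)
    have hfer : Set.InjOn f ((a.erase x : Finset ℕ) : Set ℕ) := hf.mono (fun i hi => by
        rw [Finset.mem_coe] at hi ⊢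
        exact Finset.mem_of_mem_erase hi)
    by_cases hs : ∃ r ∈ b, g r = f x
    · obtain ⟨r, hr, hgr⟩ := hs
      have hrx : r ≠ x := fun h => hxb (h ▸ hr)
      have hgb : ∀ i ∈ b.erase r, g i ≠ f x := fun i hi h =>
        (Finset.mem_erase.1 hi).1 (hg (Finset.mem_coe.2 (Finset.mem_erase.1 hi).2)
          (Finset.mem_coe.2 hr) (h.trans hgr.symm))
      have hger : Set.InjOn g ((b.erase r : Finset ℕ) : Set ℕ) := hg.mono (fun i hi => by
        rw [Finset.mem_coe] at hi ⊢
        exact Finset.mem_of_mem_erase hi)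
      by_cases hra : r ∈ a
      · -- recursion
        have hra₁ : r ∈ a.erase x := Finset.mem_erase.2 ⟨hrx, hra⟩
        obtain ⟨a₁, b₁, hab, f₁, g₁, hf₁, hg₁, hsum, hPf₁, hPg₁⟩ :=
          ih (fun t => P t ∧ t ≠ f x) (a.erase x) (b.erase r) r f g
            (by rw [Finset.card_erase_of_mem hr, hn]; rfl) hra₁ (Finset.notMem_erase r b) hfer hger
            (fun i hi => ⟨hPf i (Finset.mem_of_mem_erase hi), hfa i hi⟩)
            (fun i hi => ⟨hPg i (Finset.mem_of_mem_erase hi), hgb i hi⟩)
        have hr₁ : r ∉ a₁ := by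
          rcases hab with ⟨rfl, -⟩ | ⟨y, hy, -, rfl, -⟩
          · exact Finset.notMem_erase _ _
          · intro h
            rcases Finset.mem_insert.1 h with h | h
            · exact (Finset.mem_erase.1 hy).1 h.symm
            · exact Finset.notMem_erase _ _ h
        have hx₁ : x ∉ b₁ := by
          rcases hab with ⟨-, rfl⟩ | ⟨y, hy, -, -, rfl⟩
          · rw [Finset.insert_erase hr]
            exact hxb
          · rw [Finset.insert_erase hr]
            exact fun h => hxb (Finset.mem_of_mem_erase h)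
        have e1 := P3_ext C a₁ f₁ r (f x) hr₁ hf₁ (fun i hi => (hPf₁ i hi).2)
        have e2 := P3_ext C b₁ g₁ x (f x) hx₁ hg₁ (fun i hi => (hPg₁ i hi).2)
        refine ⟨insert r a₁, insert x b₁, ?_, Function.update f₁ r (f x),
          Function.update g₁ x (f x), e1.1, e2.1, ?_,
          e1.2.2 P (hPf x hxa) (fun i hi => (hPf₁ i hi).1),
          e2.2.2 P (hPf x hxa) (fun i hi => (hPg₁ i hi).1)⟩
        · rcases hab with ⟨h1, h2⟩ | ⟨y, hy, hya, h1, h2⟩
          · left
            rw [h1, h2, Finset.insert_erase hr, Finset.insert_erase hra₁]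
            exact ⟨rfl, rfl⟩
          · right
            have hyb : y ∈ b := Finset.mem_of_mem_erase hy
            have hyx : y ≠ x := fun h => hxb (h ▸ hyb)
            have hyr : y ≠ r := (Finset.mem_erase.1 hy).1
            refine ⟨y, hyb, fun h => hya (Finset.mem_erase.2 ⟨hyx, h⟩), ?_, ?_⟩
            · rw [h1, Finset.insert_comm, Finset.insert_erase hra₁]
            · rw [h2, Finset.insert_erase hr, Finset.erase_insert_of_ne hyx.symm]
        · rw [e1.2.1, e2.2.1]
          have h1 := Finset.add_sum_erase a (fun i => C i (f i)) hxa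
          have h2 := Finset.add_sum_erase b (fun i => C i (g i)) hr
          rw [hgr] at h2
          linarith
      · have e1 := P3_ext C (a.erase x) f r (f x)
          (fun h => hra (Finset.mem_of_mem_erase h)) hfer hfa
        have e2 := P3_ext C (b.erase r) g x (f x)
          (fun h => hxb (Finset.mem_of_mem_erase h)) hger hgb
        refine ⟨insert r (a.erase x), insert x (b.erase r), Or.inr ⟨r, hr, hra, rfl, ?_⟩,
          Function.update f r (f x), Function.update g x (f x), e1.1, e2.1, ?_,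
          e1.2.2 P (hPf x hxa) (fun i hi => hPf i (Finset.mem_of_mem_erase hi)),
          e2.2.2 P (hPf x hxa) (fun i hi => hPg i (Finset.mem_of_mem_erase hi))⟩
        · rw [Finset.erase_insert_of_ne hrx.symm]
        · rw [e1.2.1, e2.2.1]
          have h1 := Finset.add_sum_erase a (fun i => C i (f i)) hxa
          have h2 := Finset.add_sum_erase b (fun i => C i (g i)) hr
          rw [hgr] at h2
          linarith
    · have e2 := P3_ext C b g x (f x) hxb hg (fun i hi h => hs ⟨i, hi, h⟩)
      refine ⟨a.erase x, insert x b, Or.inl ⟨rfl, rfl⟩, f, Function.update g x (f x), hfer, e2.1,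
        ?_, fun i hi => hPf i (Finset.mem_of_mem_erase hi), e2.2.2 P (hPf x hxa) hPg⟩
      rw [e2.2.1]
      have h1 := Finset.add_sum_erase a (fun i => C i (f i)) hxa
      linarith

theorem P3_sym {T : Type} [DecidableEq T] (c : T → T → ℝ) (loc : ℕ → T) (A : Finset ℕ) (x y : ℕ)
    (h : ∀ t, c (loc x) t = c (loc y) t) (hx : x ∉ A) (hy : y ∉ A) :
    {w : ℝ | ∃ f : ℕ → T, Set.InjOn f ((insert x A : Finset ℕ) : Set ℕ) ∧
      ∑ i ∈ insert x A, c (loc i) (f i) = w} ⊆
    {w : ℝ | ∃ f : ℕ → T, Set.InjOn f ((insert y A : Finset ℕ) : Set ℕ) ∧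
      ∑ i ∈ insert y A, c (loc i) (f i) = w} := by
  rintro w ⟨f, hf, rfl⟩
  have hfA : Set.InjOn f (A : Set ℕ) := hf.mono (fun i hi => by
    rw [Finset.mem_coe] at hi ⊢
    exact Finset.mem_insert_of_mem hi)
  have hne : ∀ i ∈ A, f i ≠ f x := by
    intro i hi hi'
    have := hf (Finset.mem_coe.2 (Finset.mem_insert_of_mem hi))
      (Finset.mem_coe.2 (Finset.mem_insert_self x A)) hi'
    exact hx (this ▸ hi)
  have e := P3_ext (fun i t => c (loc i) t) A f y (f x) hy hfA hne
  refine ⟨Function.update f y (f x), e.1, ?_⟩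
  rw [e.2.1, Finset.sum_insert hx, h]

theorem asgVal (h1 : AsgBasicProp) : AsgValProp := by
  intro T _ _ _ c loc
  refine ⟨?_, ?_, ?_, ?_⟩
  · intro a b x ha hb hxa hxb
    obtain ⟨f, hf, hfc⟩ := (h1 T c loc a).2 ha
    obtain ⟨g, hg, hgc⟩ := (h1 T c loc b).2 hb
    obtain ⟨a', b', hab, f', g', hf', hg', hsum, -, -⟩ :=
      P3_exch (fun i t => c (loc i) t) b.card (fun _ => True) a b x f g rfl hxa hxb hf hg
        (fun _ _ => trivial) (fun _ _ => trivial)
    have ha' := (h1 T c loc a').1 f' hf'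
    have hb' := (h1 T c loc b').1 g' hg'
    rcases hab with ⟨rfl, rfl⟩ | ⟨y, hy, hya, rfl, rfl⟩
    · left
      refine ⟨?_, by linarith⟩
      have hc := Finset.card_le_card_of_injOn g' (s := insert x b) (t := univ)
        (fun _ _ => Finset.mem_coe.2 (Finset.mem_univ _)) hg'
      rw [Finset.card_insert_of_notMem hxb, Finset.card_univ] at hc
      exact hc
    · right
      exact ⟨y, hy, hya, by linarith⟩
  · intro hc A x hx hA
    obtain ⟨f, hf, hfc⟩ := (h1 T c loc (insert x A)).2
      (by rw [Finset.card_insert_of_notMem hx]; exact hA)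
    have hfA : Set.InjOn f (A : Set ℕ) := hf.mono (fun i hi => by
      rw [Finset.mem_coe] at hi ⊢
      exact Finset.mem_insert_of_mem hi)
    have h2 := (h1 T c loc A).1 f hfA
    rw [Finset.sum_insert hx] at hfc
    have h3 := hc (loc x) (f x)
    linarith
  · intro S site hs x y A hxy hx hy
    have h2 := hs x y hxy
    unfold asg
    rw [Set.Subset.antisymm (P3_sym c loc A x y h2 hx hy)
      (P3_sym c loc A y x (fun t => (h2 t).symm) hy hx)]
  · unfold asg
    have : {w : ℝ | ∃ f : ℕ → T, Set.InjOn f ((∅ : Finset ℕ) : Set ℕ) ∧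
        ∑ i ∈ (∅ : Finset ℕ), c (loc i) (f i) = w} = {0} := by
      ext w
      simp only [Finset.coe_empty, Set.injOn_empty, Finset.sum_empty, true_and,
        Set.mem_setOf_eq, Set.mem_singleton_iff]
      constructor
      · rintro ⟨_, h⟩
        exact h.symm
      · intro h
        exact ⟨fun _ => Classical.arbitrary T, h.symm⟩
    rw [this]
    exact csInf_singleton 0

end Pool.Agent.MP_a4c1f4_lc
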