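import Pool.Agent.Lib.MP_a4c1f4_lc.Spec3

/-!
# Increasing differences
-/

namespace Pool.Agent.MP_a4c1f4_lc

open Finset

theorem sup : SupProp := by
  intro S N v site hv
  refine ⟨?_, ?_⟩
  · intro A B x hAB hx hN
    have hxA : x ∉ A := fun h => hx (hAB h)
    have hca : (insert x B).card ≤ N := by
      rw [card_insert_of_notMem hx]
      exact hN
    have hcb : A.card ≤ N := (card_le_card hAB).trans (by omega)
    rcases hv (insert x B) A x hca hcb (mem_insert_self _ _) hxA with ⟨-, h⟩ | ⟨y, hy, hya, -⟩
    · rw [erase_insert hx] at h
      linarith
    · exact absurd (mem_insert_of_mem (hAB hy)) hya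
  · intro hsym A p x x' hp hx hx' hpx hpx' hxx' hN hs
    have hx1 : x ∉ insert x' A := by
      rw [mem_insert, not_or]
      exact ⟨hxx', hx⟩
    have hx2 : x ∉ insert p A := by
      rw [mem_insert, not_or]
      exact ⟨fun h => hpx h.symm, hx⟩
    have hx3 : x' ∉ insert p A := by
      rw [mem_insert, not_or]
      exact ⟨fun h => hpx' h.symm, hx'⟩
    have hca : (insert x (insert x' A)).card ≤ N := by
      rw [card_insert_of_notMem hx1, card_insert_of_notMem hx']
      omega
    have hcb : (insert p A).card ≤ N := by
      rw [card_insert_of_notMem hp]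
      omega
    rcases hv (insert x (insert x' A)) (insert p A) x hca hcb (mem_insert_self _ _) hx2 with
      ⟨-, h⟩ | ⟨y, hy, hya, h⟩
    · rw [erase_insert hx1] at h
      linarith
    · rw [mem_insert] at hy
      rcases hy with rfl | hy
      · rw [erase_insert hx1] at h
        have e1 : (insert x (insert y A)).erase y = insert x A := by
          rw [Finset.insert_comm, erase_insert]
          rw [mem_insert, not_or]
          exact ⟨hpx, hp⟩
        rw [e1] at h
        have e2 : v (insert y (insert x' A)) = v (insert x (insert y A)) := by
          rw [Finset.insert_comm]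
          exact (hsym x x' (insert y A) hs hx2 hx3).symm
        have e3 : v (insert x A) = v (insert x' A) := hsym x x' A hs hx hx'
        linarith
      · exact absurd (mem_insert_of_mem (mem_insert_of_mem hy)) hya

end Pool.Agent.MP_a4c1f4_lc
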