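import Pool.Agent.Lib.MP_a4c1f4_lc.Spec3

set_option autoImplicit false

/-!
# Basic properties of the capped value
-/

namespace Pool.Agent.MP_a4c1f4_lc

open Finset

theorem capBasic : CapBasicProp := by
  intro v R A
  have hle : ∀ E, E ⊆ A → vR v R A ≤ v (A \ E) + R * (E.card : ℝ) := by
    intro E hE
    exact Finset.inf'_le (fun E => v (A \ E) + R * (E.card : ℝ)) (Finset.mem_powerset.2 hE)
  have hmin : ∀ R : ℝ, ∃ E, E ⊆ A ∧ vR v R A = v (A \ E) + R * (E.card : ℝ) := by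
    intro R
    obtain ⟨E, hE, h⟩ := Finset.exists_mem_eq_inf' (s := A.powerset)
      ⟨∅, Finset.empty_mem_powerset A⟩ (fun E => v (A \ E) + R * (E.card : ℝ))
    exact ⟨E, Finset.mem_powerset.1 hE, h⟩
  refine ⟨hmin R, hle, ?_, ?_, ?_⟩
  · have := hle ∅ (Finset.empty_subset A)
    simpa using this
  · intro R' hR
    obtain ⟨E, hE, h⟩ := hmin R'
    have h1 := hle E hE
    have h2 : R * (E.card : ℝ) ≤ R' * (E.card : ℝ) :=
      mul_le_mul_of_nonneg_right hR (Nat.cast_nonneg _)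
    linarith
  · intro hR hv
    obtain ⟨E, hE, h⟩ := hmin R
    have h1 := hv (A \ E) Finset.sdiff_subset
    have h2 : 0 ≤ R * (E.card : ℝ) := mul_nonneg hR (Nat.cast_nonneg _)
    linarith

end Pool.Agent.MP_a4c1f4_lc
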