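import Pool.Agent.Lib.MP_a4c1f4_lc.Spec3

/-!
# P7: the cheap steps
-/

namespace Pool.Agent.MP_a4c1f4_lc

open Finset

namespace P7

/-- Telescoping with a shift by `n`. -/
theorem tele (q n : ℕ) (a b : ℕ → ℝ) (B : ℝ) (hB : 0 ≤ B) (ha : ∀ i, i < q → a i ≤ B)
    (hb : ∀ i, i < q → 0 ≤ b i) (hab : ∀ i, n ≤ i → i < q → a (i - n) ≤ b i) :
    ∑ i ∈ range q, (a i - b i) ≤ (n : ℝ) * B := by
  rw [Finset.sum_sub_distrib]
  have h1 : ∑ i ∈ range (q - n), a i ≤ ∑ i ∈ range q, b i := by
    by_cases hn : n ≤ q
    · have h2 : ∑ i ∈ Ico n q, b i ≤ ∑ i ∈ range q, b i := by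
        refine Finset.sum_le_sum_of_subset_of_nonneg ?_ ?_
        · intro i hi
          exact mem_range.mpr (mem_Ico.mp hi).2
        · intro i hi _
          exact hb i (mem_range.mp hi)
      refine le_trans ?_ h2
      rw [Finset.sum_Ico_eq_sum_range]
      refine Finset.sum_le_sum fun i hi => ?_
      have hi' := mem_range.mp hi
      have h3 := hab (n + i) (by omega) (by omega)
      rwa [Nat.add_sub_cancel_left] at h3
    · have : q - n = 0 := by omega
      rw [this]
      simp only [Finset.range_zero, Finset.sum_empty]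
      exact Finset.sum_nonneg fun i hi => hb i (mem_range.mp hi)
  have h2 : ∑ i ∈ range (q - n), a i + ∑ i ∈ Ico (q - n) q, a i = ∑ i ∈ range q, a i :=
    Finset.sum_range_add_sum_Ico _ (Nat.sub_le _ _)
  have h3 : ∑ i ∈ Ico (q - n) q, a i ≤ (n : ℝ) * B := by
    have h4 : ∑ i ∈ Ico (q - n) q, a i ≤ ((Ico (q - n) q).card : ℝ) * B := by
      rw [← nsmul_eq_mul]
      exact Finset.sum_le_card_nsmul _ _ _ fun i hi => ha i (mem_Ico.mp hi).2
    refine h4.trans (mul_le_mul_of_nonneg_right ?_ hB)
    rw [Nat.card_Ico]
    exact_mod_cast (by omega : q - (q - n) ≤ n)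
  linarith

/-- Exchange of the removed elements. -/
theorem exch (S : Type) (N : ℕ) (v : Finset ℕ → ℝ) (site : ℕ → S)
    (hsup1 : ∀ (A B : Finset ℕ) (x : ℕ), A ⊆ B → x ∉ B → B.card + 1 ≤ N →
      v (insert x A) - v A ≤ v (insert x B) - v B)
    (hsup2 : ∀ (A : Finset ℕ) (p x x' : ℕ), p ∉ A → x ∉ A → x' ∉ A → p ≠ x → p ≠ x' →
      x ≠ x' → A.card + 2 ≤ N → site x = site x' →
      v (insert x (insert p A)) - v (insert p A) ≤
        v (insert x (insert x' A)) - v (insert x' A))
    (t : ℕ) (ht : t + 1 ≤ N) (X : Finset ℕ) (hX : X ⊆ range t) (hXs : ∀ i ∈ X, site i = site t) :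
    ∀ (m : ℕ) (E : Finset ℕ), (E \ X).card = m → E ⊆ range t → E.card ≤ X.card →
      v (insert t (range t \ X)) - v (range t \ X) ≤
        v (insert t (range t \ E)) - v (range t \ E) := by
  intro m
  induction m with
  | zero =>
    intro E hE _ _
    have hEX : E ⊆ X := by
      rw [Finset.card_eq_zero, Finset.sdiff_eq_empty_iff_subset] at hE
      exact hE
    refine hsup1 _ _ _ (Finset.sdiff_subset_sdiff subset_rfl hEX) ?_ ?_
    · simp
    · have : (range t \ E).card ≤ t := by
        refine (Finset.card_le_card Finset.sdiff_subset).trans ?_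
        simp
      omega
  | succ m ih =>
    intro E hE hEt hcard
    obtain ⟨p, hp⟩ : (E \ X).Nonempty := by
      rw [← Finset.card_pos, hE]; omega
    obtain ⟨hpE, hpX⟩ := Finset.mem_sdiff.mp hp
    obtain ⟨x', hx'⟩ : (X \ E).Nonempty := by
      rw [Finset.sdiff_nonempty]
      intro hXE
      have h1 : E = X := (Finset.eq_of_subset_of_card_le hXE hcard).symm
      exact hpX (h1 ▸ hpE)
    obtain ⟨hx'X, hx'E⟩ := Finset.mem_sdiff.mp hx'
    have hpx' : p ≠ x' := fun h => hx'E (h ▸ hpE)
    have hpt : p < t := mem_range.mp (hEt hpE)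
    have hx't : x' < t := mem_range.mp (hX hx'X)
    set E1 := insert x' (E.erase p) with hE1
    have hE1c : E1.card = E.card := by
      rw [hE1, Finset.card_insert_of_notMem (by
        intro h; exact hx'E (Finset.mem_of_mem_erase h)), Finset.card_erase_of_mem hpE]
      have : 0 < E.card := Finset.card_pos.mpr ⟨p, hpE⟩
      omega
    have hE1X : (E1 \ X).card = m := by
      have h1 : E1 \ X = (E \ X).erase p := by
        ext y
        simp only [hE1, Finset.mem_sdiff, Finset.mem_insert, Finset.mem_erase]
        constructor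
        · rintro ⟨rfl | ⟨h1, h2⟩, h3⟩
          · exact absurd hx'X h3
          · exact ⟨h1, h2, h3⟩
        · rintro ⟨h1, h2, h3⟩
          exact ⟨Or.inr ⟨h1, h2⟩, h3⟩
      rw [h1, Finset.card_erase_of_mem hp, hE]
      omega
    have hE1t : E1 ⊆ range t := by
      intro y hy
      rw [hE1, Finset.mem_insert, Finset.mem_erase] at hy
      rcases hy with rfl | ⟨_, hy⟩
      · exact hX hx'X
      · exact hEt hy
    refine (ih E1 hE1X hE1t (by omega)).trans ?_
    set A := range t \ insert x' E with hA
    have hA1 : range t \ E1 = insert p A := by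
      ext y
      simp only [hE1, hA, Finset.mem_sdiff, Finset.mem_insert, Finset.mem_erase, Finset.mem_range]
      constructor
      · rintro ⟨h1, h2⟩
        push Not at h2
        by_cases hy : y = p
        · exact Or.inl hy
        · right
          refine ⟨h1, ?_⟩
          push Not
          exact ⟨h2.1, fun h => hy (by
            by_contra hne
            exact h2.2 hne h)⟩
      · rintro (rfl | ⟨h1, h2⟩)
        · refine ⟨hpt, ?_⟩
          push Not
          exact ⟨hpx', fun h => absurd rfl h⟩
        · push Not at h2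
          refine ⟨h1, ?_⟩
          push Not
          exact ⟨h2.1, fun _ => h2.2⟩
    have hA2 : range t \ E = insert x' A := by
      ext y
      simp only [hA, Finset.mem_sdiff, Finset.mem_insert, Finset.mem_range]
      constructor
      · rintro ⟨h1, h2⟩
        by_cases hy : y = x'
        · exact Or.inl hy
        · right
          refine ⟨h1, ?_⟩
          push Not
          exact ⟨hy, h2⟩
      · rintro (rfl | ⟨h1, h2⟩)
        · exact ⟨hx't, hx'E⟩
        · push Not at h2
          exact ⟨h1, h2.2⟩
    have hpA : p ∉ A := by simp [hA, hpE]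
    have htA : t ∉ A := by simp [hA]
    have hx'A : x' ∉ A := by simp [hA]
    have hAc : A.card + 2 ≤ N := by
      have h1 : (insert p (insert x' A)).card ≤ (range t).card := by
        refine Finset.card_le_card ?_
        intro y hy
        rw [Finset.mem_insert, Finset.mem_insert] at hy
        rcases hy with rfl | rfl | hy
        · exact mem_range.mpr hpt
        · exact mem_range.mpr hx't
        · exact (Finset.mem_sdiff.mp hy).1
      rw [Finset.card_insert_of_notMem, Finset.card_insert_of_notMem hx'A, Finset.card_range] at h1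
      · omega
      · rw [Finset.mem_insert]
        push Not
        exact ⟨hpx', hpA⟩
    have h := hsup2 A p t x' hpA htA hx'A (by omega) hpx' (by omega) hAc (hXs x' hx'X).symm
    rw [hA1, hA2]
    exact h

/-- The sum over one site, from the two properties of `f` and `g`. -/
theorem site_sum (I : Finset ℕ) (n : ℕ) (f g : ℕ → ℝ) (B : ℝ) (hB : 0 ≤ B)
    (hf : ∀ t ∈ I, f t ≤ B) (hg : ∀ t ∈ I, 0 ≤ g t)
    (hfg : ∀ t ∈ I, ∀ X : Finset ℕ, X ⊆ I → X.card = n → (∀ i ∈ X, i < t) → ∀ t' ∈ I, t' ≤ t →
      (∀ i ∈ X, t' ≤ i) → f t' ≤ g t) :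
    ∑ t ∈ I, (f t - g t) ≤ (n : ℝ) * B := by
  set q := I.card with hq
  set e : Fin q ↪o ℕ := I.orderEmbOfFin rfl with he
  have hmem : ∀ i : Fin q, e i ∈ I := fun i => Finset.orderEmbOfFin_mem I rfl i
  set e' : ℕ → ℕ := fun i => if h : i < q then e ⟨i, h⟩ else 0 with he'
  have he'm : ∀ i, i < q → e' i ∈ I := by
    intro i hi
    simp only [he', hi, dif_pos]
    exact hmem _
  have hmono : ∀ i j, i < j → j < q → e' i < e' j := by
    intro i j hij hj
    have hi : i < q := by omega
    simp only [he', hi, hj, dif_pos]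
    exact e.strictMono (by simpa using hij)
  have hmono' : ∀ i j, i ≤ j → j < q → e' i ≤ e' j := by
    intro i j hij hj
    rcases Nat.lt_or_ge i j with h | h
    · exact (hmono i j h hj).le
    · have : i = j := by omega
      rw [this]
  have hinj : Set.InjOn e' (range q : Set ℕ) := by
    intro i hi j hj hij
    have hi' := mem_range.mp (Finset.mem_coe.mp hi)
    have hj' := mem_range.mp (Finset.mem_coe.mp hj)
    rcases Nat.lt_trichotomy i j with h | h | h
    · have := hmono i j h hj'; omega
    · exact h
    · have := hmono j i h hi'; omega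
  have himg : (range q).image e' = I := by
    refine Finset.eq_of_subset_of_card_le ?_ ?_
    · intro x hx
      obtain ⟨i, hi, rfl⟩ := Finset.mem_image.mp hx
      exact he'm i (mem_range.mp hi)
    · rw [Finset.card_image_of_injOn hinj, Finset.card_range]
  rw [← himg, Finset.sum_image hinj]
  refine tele q n (fun i => f (e' i)) (fun i => g (e' i)) B hB (fun i hi => hf _ (he'm i hi))
    (fun i hi => hg _ (he'm i hi)) ?_
  intro i hni hi
  refine hfg (e' i) (he'm i hi) ((Ico (i - n) i).image e') ?_ ?_ ?_ (e' (i - n))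
    (he'm _ (by omega)) (hmono' _ _ (by omega) hi) ?_
  · intro x hx
    obtain ⟨j, hj, rfl⟩ := Finset.mem_image.mp hx
    exact he'm j (by have := (mem_Ico.mp hj).2; omega)
  · rw [Finset.card_image_of_injOn, Nat.card_Ico]
    · omega
    · intro x hx y hy hxy
      have hx' := (mem_Ico.mp (Finset.mem_coe.mp hx)).2
      have hy' := (mem_Ico.mp (Finset.mem_coe.mp hy)).2
      exact hinj (Finset.mem_coe.mpr (mem_range.mpr (by omega)))
        (Finset.mem_coe.mpr (mem_range.mpr (by omega))) hxy
  · intro x hx
    obtain ⟨j, hj, rfl⟩ := Finset.mem_image.mp hx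
    exact hmono j i (mem_Ico.mp hj).2 hi
  · intro x hx
    obtain ⟨j, hj, rfl⟩ := Finset.mem_image.mp hx
    exact hmono' _ _ (mem_Ico.mp hj).1 (by have := (mem_Ico.mp hj).2; omega)

end P7

open P7 in
theorem haul (h1 : SupProp) (h2 : CapBasicProp) (h3 : CapMonoProp) : HaulProp := by
  classical
  intro S _ _ N M v site R B hVal hInc hSym hMN hB hBR
  have hR : 0 < R := lt_of_le_of_lt hB hBR
  obtain ⟨hsup1, hsup2'⟩ := h1 S N v site hVal
  have hsup2 := hsup2' hSym
  set f : ℕ → ℝ := fun t => v (range (t + 1)) - v (range t) with hf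
  set g : ℕ → ℝ := fun t => vR v R (range (t + 1)) - vR v R (range t) with hg
  set Δ : ℝ := vR v R (range M) - vR v (R / 2) (range M) with hΔ
  set n : ℕ := ⌊2 / R * Δ⌋₊ with hn
  have hΔ0 : 0 ≤ Δ := by
    have := (h2 v (R / 2) (range M)).2.2.2.1 R (by linarith)
    rw [hΔ]; linarith
  have hnle : (n : ℝ) ≤ 2 / R * Δ := Nat.floor_le (by positivity)
  -- facts about one step
  have hins : ∀ t, insert t (range t) = range (t + 1) := fun t => (Finset.range_add_one).symm
  have hstep : ∀ t, t + 1 ≤ N → 0 ≤ g t ∧ g t ≤ f t := by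
    intro t ht
    obtain ⟨m1, m2, m3⟩ := h3 N v (range t) t hVal (by simp) (by simpa using ht)
    rw [hins] at m1 m3
    exact ⟨by have := m1 R hR.le hInc; simp only [hg]; linarith, m3 R⟩
  have hmonoΔ : ∀ a, a ≤ M → vR v R (range a) - vR v (R / 2) (range a) ≤ Δ := by
    intro a ha
    have key : ∀ j, a + j ≤ M → vR v R (range a) - vR v (R / 2) (range a) ≤
        vR v R (range (a + j)) - vR v (R / 2) (range (a + j)) := by
      intro j
      induction j with
      | zero => intro _; exact le_rfl
      | succ j ih =>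
        intro hj
        have h5 := ih (by omega)
        obtain ⟨_, m2, _⟩ := h3 N v (range (a + j)) (a + j) hVal (by simp)
          (by rw [Finset.card_range]; omega)
        rw [hins] at m2
        have h6 := m2 (R / 2) R (by linarith)
        have h7 : a + (j + 1) = a + j + 1 := by omega
        rw [h7]
        linarith
    have := key (M - a) (by omega)
    rwa [Nat.add_sub_cancel' ha] at this
  -- the main step
  have hmain : ∀ t, t < M → f t ≤ B → ∀ X : Finset ℕ, X ⊆ range t → X.card = n →
      (∀ i ∈ X, site i = site t) → ∀ t', t' ≤ t → site t' = site t → (∀ i ∈ X, t' ≤ i) →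
      f t' ≤ g t := by
    intro t ht hft X hX hXc hXs t' ht' hst hXt
    obtain ⟨⟨E, hEsub, hE⟩, -⟩ := h2 v R (range (t + 1))
    have htE : t ∉ E := by
      intro htE
      have hsub : E.erase t ⊆ range t := by
        intro y hy
        rw [Finset.mem_erase] at hy
        have := mem_range.mp (hEsub hy.2)
        exact mem_range.mpr (by omega)
      have hsd : range (t + 1) \ E = range t \ E.erase t := by
        ext y
        simp only [Finset.mem_sdiff, Finset.mem_range, Finset.mem_erase]
        constructor
        · rintro ⟨a1, a2⟩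
          have : y ≠ t := fun h => a2 (h ▸ htE)
          exact ⟨by omega, fun h => a2 h.2⟩
        · rintro ⟨a1, a2⟩
          exact ⟨by omega, fun h => a2 ⟨by omega, h⟩⟩
      have hub := (h2 v R (range t)).2.1 (E.erase t) hsub
      have hcard : (E.card : ℝ) = ((E.erase t).card : ℝ) + 1 := by
        have := Finset.card_erase_add_one htE
        exact_mod_cast this.symm
      rw [hsd, hcard] at hE
      have h4 := (hstep t (by omega)).2
      have h5 : R ≤ g t := by
        simp only [hg]
        linarith
      linarith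
    have hEt : E ⊆ range t := by
      intro y hy
      have a1 := mem_range.mp (hEsub hy)
      have a2 : y ≠ t := fun h => htE (h ▸ hy)
      exact mem_range.mpr (by omega)
    have hEcard : E.card ≤ n := by
      rw [hn]
      refine Nat.le_floor ?_
      have a1 := (h2 v (R / 2) (range (t + 1))).2.1 E hEsub
      have a2 := hmonoΔ (t + 1) (by omega)
      have a3 : R / 2 * (E.card : ℝ) ≤ Δ := by linarith
      have a4 : (E.card : ℝ) = 2 / R * (R / 2 * (E.card : ℝ)) := by
        field_simp
      rw [a4]
      exact mul_le_mul_of_nonneg_left a3 (by positivity)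
    have hsd : range (t + 1) \ E = insert t (range t \ E) := by
      rw [← hins, Finset.insert_sdiff_of_notMem _ htE]
    have hgt : v (insert t (range t \ E)) - v (range t \ E) ≤ g t := by
      have hub := (h2 v R (range t)).2.1 E hEt
      rw [hsd] at hE
      simp only [hg]
      linarith
    have hex := exch S N v site hsup1 hsup2 t (by omega) X hX hXs _ E rfl hEt (by omega)
    have hft' : f t' ≤ v (insert t (range t \ X)) - v (range t \ X) := by
      have a1 : range t' ⊆ range t \ X := by
        intro y hy
        have hy' := mem_range.mp hy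
        refine Finset.mem_sdiff.mpr ⟨mem_range.mpr (by omega), fun hyX => ?_⟩
        have := hXt y hyX
        omega
      have a2 : t ∉ range t \ X := by simp
      have a3 : (range t \ X).card + 1 ≤ N := by
        have : (range t \ X).card ≤ t := by
          refine (Finset.card_le_card Finset.sdiff_subset).trans ?_
          simp
        omega
      have a4 := hsup1 (range t') (range t \ X) t a1 a2 a3
      have a5 : v (range (t' + 1)) = v (insert t (range t')) := by
        rw [← hins]
        exact hSym t' t (range t') hst (by simp) (by simp; omega)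
      simp only [hf]
      rw [a5]
      exact a4
    linarith
  -- the sum over the sites
  have hlhs : ∑ t ∈ range M, (f t - g t) * ind (f t ≤ B) =
      ∑ s : S, ∑ t ∈ ((range M).filter (fun t => f t ≤ B)).filter (fun t => site t = s),
        (f t - g t) := by
    rw [Finset.sum_fiberwise, Finset.sum_filter]
    refine Finset.sum_congr rfl fun t _ => ?_
    by_cases h : f t ≤ B
    · rw [ind_true h, if_pos h, mul_one]
    · rw [ind_false h, if_neg h, mul_zero]
  have hgoal : ∑ t ∈ range M, (f t - g t) * ind (f t ≤ B) ≤ (Fintype.card S : ℝ) * ((n : ℝ) * B) := by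
    rw [hlhs, ← nsmul_eq_mul, ← Finset.card_univ]
    refine Finset.sum_le_card_nsmul _ _ _ fun s _ => ?_
    set I := ((range M).filter (fun t => f t ≤ B)).filter (fun t => site t = s) with hI
    have hIm : ∀ t ∈ I, t < M ∧ f t ≤ B ∧ site t = s := by
      intro t ht
      rw [hI, Finset.mem_filter, Finset.mem_filter, Finset.mem_range] at ht
      exact ⟨ht.1.1, ht.1.2, ht.2⟩
    refine site_sum I n f g B hB (fun t ht => (hIm t ht).2.1)
      (fun t ht => (hstep t (by have := (hIm t ht).1; omega)).1) ?_
    intro t ht X hXI hXc hXt t' ht'I ht' hXt'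
    refine hmain t (hIm t ht).1 (hIm t ht).2.1 X (fun i hi => mem_range.mpr (hXt i hi)) hXc
      (fun i hi => ?_) t' ht' ?_ hXt'
    · rw [(hIm i (hXI hi)).2.2, (hIm t ht).2.2]
    · rw [(hIm t' ht'I).2.2, (hIm t ht).2.2]
  refine hgoal.trans ?_
  have h9 : (n : ℝ) * B ≤ B * (2 / R * Δ) := by
    rw [mul_comm]
    exact mul_le_mul_of_nonneg_left hnle hB
  calc (Fintype.card S : ℝ) * ((n : ℝ) * B) ≤ (Fintype.card S : ℝ) * (B * (2 / R * Δ)) :=
        mul_le_mul_of_nonneg_left h9 (Nat.cast_nonneg _)
    _ = (Fintype.card S : ℝ) * B * (2 / R * Δ) := by ring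

end Pool.Agent.MP_a4c1f4_lc
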