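import Pool.Agent.Lib.MP_a4c1f4_lc.Spec3

/-!
# MP_a4c1f4_lc, P8: weighted sums over windows
-/

set_option autoImplicit false

namespace Pool.Agent.MP_a4c1f4_lc

open Finset

theorem P8_two (N : ℕ) (P Q : ℕ → ℝ) (F : ℝ) (hF : 0 ≤ F) (hQ : ∀ b, b < N → 0 ≤ Q b)
    (hP : ∀ b, b < N → P b ≤ F) (hPQ : ∀ b, b + 2 < N → P b ≤ Q (b + 2)) :
    ∑ b ∈ range N, (P b - Q b) ≤ 2 * F := by
  rcases N with _ | _ | N
  · simpa using hF
  · have h1 := hQ 0 (by omega)
    have h2 := hP 0 (by omega)
    simp
    linarith
  · rw [Finset.sum_sub_distrib, Finset.sum_range_succ, Finset.sum_range_succ,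
      Finset.sum_range_succ' Q, Finset.sum_range_succ' (fun i => Q (i + 1))]
    have h1 := hQ 0 (by omega)
    have h2 := hQ 1 (by omega)
    have h3 := hP N (by omega)
    have h4 := hP (N + 1) (by omega)
    have h5 : ∑ b ∈ range N, P b ≤ ∑ b ∈ range N, Q (b + 1 + 1) :=
      Finset.sum_le_sum fun b hb => hPQ b (by rw [Finset.mem_range] at hb; omega)
    simp only [zero_add]
    linarith

theorem block : BlockProp := by
  intro h n w p q K F hn hK hF hw hblk hpq hmono hwin
  rcases Nat.eq_zero_or_pos h with rfl | hh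
  · simp
    positivity
  obtain ⟨m, hm⟩ : ∃ m, m = (h - 1) / n := ⟨_, rfl⟩
  have hmn : m * n ≤ h - 1 := by rw [hm]; exact Nat.div_mul_le_self _ _
  obtain ⟨last, hlast⟩ : ∃ last : ℕ → ℕ, ∀ b, last b = min ((b + 1) * n) h - 1 := ⟨_, fun _ => rfl⟩
  have hl1 : ∀ b, last b < h := by
    intro b
    rw [hlast]
    have : min ((b + 1) * n) h ≤ h := min_le_right _ _
    omega
  have hl2 : ∀ b, b ≤ m → b * n ≤ last b := by
    intro b hb
    rw [hlast]
    have h1 : b * n ≤ m * n := Nat.mul_le_mul_right _ hb
    have h2 : (b + 1) * n = b * n + n := by ring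
    rcases le_total ((b + 1) * n) h with h3 | h3
    · rw [min_eq_left h3]
      omega
    · rw [min_eq_right h3]
      omega
  have hPQ0 : ∀ b, b ≤ m → 0 ≤ p (last b) - q (b * n) := by
    intro b hb
    have h1 := (hmono _ _ (hl2 b hb) (hl1 b)).2
    have h2 := (hpq _ (hl1 b)).2.1
    linarith
  have hmaps : ∀ k ∈ range h, k / n ∈ range (m + 1) := by
    intro k hk
    rw [Finset.mem_range] at hk ⊢
    have : k / n ≤ (h - 1) / n := Nat.div_le_div_right (by omega)
    omega
  rw [← Finset.sum_fiberwise_of_maps_to hmaps]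
  have hstep : ∀ b ∈ range (m + 1),
      ∑ k ∈ (range h).filter (fun k => k / n = b), w k * (p k - q k) ≤
        K * (p (last b) - q (b * n)) := by
    intro b hb
    have hb' : b ≤ m := by rw [Finset.mem_range] at hb; omega
    calc ∑ k ∈ (range h).filter (fun k => k / n = b), w k * (p k - q k)
        ≤ ∑ k ∈ (range h).filter (fun k => k / n = b), w k * (p (last b) - q (b * n)) := by
          refine Finset.sum_le_sum fun k hk => ?_
          rw [Finset.mem_filter, Finset.mem_range] at hk
          obtain ⟨hk1, hk2⟩ := hk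
          refine mul_le_mul_of_nonneg_left ?_ (hw k hk1)
          have h1 : b * n ≤ k := by rw [← hk2]; exact Nat.div_mul_le_self _ _
          have h2 : k < (b + 1) * n := by
            rw [← hk2]
            have e1 := Nat.div_add_mod k n
            have e2 := Nat.mod_lt k hn
            have e3 : (k / n + 1) * n = n * (k / n) + n := by ring
            omega
          have h3 : k ≤ last b := by
            rw [hlast]
            rcases le_total ((b + 1) * n) h with h4 | h4
            · rw [min_eq_left h4]; omega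
            · rw [min_eq_right h4]; omega
          have h4 := (hmono _ _ h3 (hl1 b)).1
          have h5 := (hmono _ _ h1 hk1).2
          linarith
      _ = (∑ k ∈ (range h).filter (fun k => k / n = b), w k) * (p (last b) - q (b * n)) := by
          rw [Finset.sum_mul]
      _ ≤ K * (p (last b) - q (b * n)) :=
          mul_le_mul_of_nonneg_right (hblk b) (hPQ0 b hb')
  refine (Finset.sum_le_sum hstep).trans ?_
  rw [← Finset.mul_sum]
  have h2 := P8_two (m + 1) (fun b => p (last b)) (fun b => q (b * n)) F hF
    (fun b hb => (hpq _ (lt_of_le_of_lt (hl2 b (by omega)) (hl1 b))).1)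
    (fun b _ => (hpq _ (hl1 b)).2.2) (fun b hb => by
      have h3 : (b + 2) * n ≤ m * n := Nat.mul_le_mul_right _ (by omega)
      have h4 : (b + 2) * n = (b + 1) * n + n := by ring
      have h5 : last b = (b + 1) * n - 1 := by
        rw [hlast, min_eq_left (by omega)]
      have h6 : 0 < (b + 1) * n := Nat.mul_pos (by omega) hn
      have h7 := hwin (last b) (by omega)
      have h8 := (hmono (last b + n) ((b + 2) * n) (by omega) (by omega)).2
      exact h7.trans h8)
  calc K * ∑ b ∈ range (m + 1), (p (last b) - q (b * n)) ≤ K * (2 * F) :=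
        mul_le_mul_of_nonneg_left h2 hK
    _ = 2 * K * F := by ring

end Pool.Agent.MP_a4c1f4_lc
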