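import Pool.Agent.Lib.MP_a4c1f4_lc.Spec3

set_option linter.all false

/-!
# Sums over the windows
-/

namespace Pool.Agent.MP_a4c1f4_lc

open Finset

section P9

/-- The increment of the capped value. -/
noncomputable def P9UR (v : Finset ℕ → ℝ) (R : ℝ) (t : ℕ) : ℝ :=
  vR v R (range (t + 1)) - vR v R (range t)

/-- The increment of the value. -/
noncomputable def P9U (v : Finset ℕ → ℝ) (t : ℕ) : ℝ := v (range (t + 1)) - v (range t)

lemma P9_facts (h2 : CapMonoProp) {N : ℕ} {v : Finset ℕ → ℝ} (hV : Val N v) (hI : Inc N v)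
    {t : ℕ} (ht : t + 1 ≤ N) :
    (∀ R, 0 ≤ R → 0 ≤ P9UR v R t) ∧ (∀ R R', R ≤ R' → P9UR v R t ≤ P9UR v R' t) ∧
    (∀ R, P9UR v R t ≤ P9U v t) ∧ 0 ≤ P9U v t := by
  have hx : t ∉ range t := by simp
  have hc : (range t).card + 1 ≤ N := by simpa using ht
  obtain ⟨a, b, c⟩ := h2 N v (range t) t hV hx hc
  have hr : range (t + 1) = insert t (range t) := range_add_one
  unfold P9UR P9U
  rw [hr]
  refine ⟨fun R hR => ?_, b, c, ?_⟩
  · have := a R hR hI
    linarith
  · have := hI (range t) t hx hc
    linarith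

lemma P9_nonneg {N : ℕ} {v : Finset ℕ → ℝ} (hI : Inc N v) (h0 : v ∅ = 0) (B : Finset ℕ)
    (hB : B.card ≤ N) : 0 ≤ v B := by
  induction B using Finset.induction_on with
  | empty => rw [h0]
  | insert x A hx ih =>
    rw [card_insert_of_notMem hx] at hB
    have h1 := hI A x hx hB
    have h2 := ih (by omega)
    linarith

lemma P9_tele (g : ℕ → ℝ) (g' : ℕ → ℝ) (h : ℕ) (hg' : ∀ k, k < h → 0 ≤ g' k)
    (hgg : ∀ k, k + 1 < h → g k ≤ g' (k + 1)) :
    ∀ j, j < h → ∑ k ∈ range (j + 1), (g k - g' k) ≤ g j := by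
  intro j
  induction j with
  | zero =>
    intro hj
    rw [sum_range_one]
    have := hg' 0 hj
    linarith
  | succ j ih =>
    intro hj
    rw [sum_range_succ]
    have h1 := ih (by omega)
    have h2 := hgg j hj
    linarith

lemma P9_mono {rho : ℕ → ℝ} {h : ℕ} (hpos : ∀ k, k < h → 0 < rho k)
    (h4 : ∀ k, k + 1 < h → 4 * rho k ≤ rho (k + 1)) :
    ∀ j k, j ≤ k → k < h → rho j ≤ rho k := by
  intro j k hjk
  induction k, hjk using Nat.le_induction with
  | base => intro _; exact le_rfl
  | succ k hk ih =>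
    intro hk'
    have h1 := ih (by omega)
    have h2 := h4 k hk'
    have h3 := hpos k (by omega)
    linarith

theorem window (h1 : CapBasicProp) (h2 : CapMonoProp) (h3 : HaulProp) (h4 : BlockProp) :
    WindowProp := by
  intro S _ _ _ N M h n v site rho W K hV hI hS h0 hM hn hpos hfour hwin hW hK hblock
  obtain ⟨m, hm⟩ : ∃ m : ℝ, m = (Fintype.card S : ℝ) := ⟨_, rfl⟩
  have hm1 : 1 ≤ m := by
    rw [hm]
    exact_mod_cast Fintype.card_pos
  have hm0 : 0 < m := by linarith
  rw [← hm] at hwin ⊢
  have hmono := P9_mono hpos hfour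
  have hfacts : ∀ t, t < M → (∀ R, 0 ≤ R → 0 ≤ P9UR v R t) ∧
      (∀ R R', R ≤ R' → P9UR v R t ≤ P9UR v R' t) ∧
      (∀ R, P9UR v R t ≤ P9U v t) ∧ 0 ≤ P9U v t := fun t ht =>
    P9_facts h2 hV hI (by omega)
  have hvM : 0 ≤ v (range M) := P9_nonneg hI h0 _ (by simpa using hM)
  -- the first part
  have hR0 : ∀ k, k < h → 0 ≤ rho k / (2 * m) := fun k hk =>
    div_nonneg (hpos k hk).le (by linarith)
  have hRR : ∀ k, k < h → rho k / (2 * m) ≤ 88 * m * rho k := by
    intro k hk
    have hp := hpos k hk
    rw [div_le_iff₀ (by linarith)]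
    have h5 : 1 ≤ m * m := by nlinarith
    nlinarith
  have first : ∀ t, t < M → ∑ k ∈ range h, W k (site t) *
      (P9UR v (88 * m * rho k) t - P9UR v (rho k / (2 * m)) t) ≤ 2 * K * P9U v t := by
    intro t ht
    obtain ⟨a, b, c, d⟩ := hfacts t ht
    refine h4 h n (fun k => W k (site t)) (fun k => P9UR v (88 * m * rho k) t)
      (fun k => P9UR v (rho k / (2 * m)) t) K (P9U v t) hn hK d (fun k _ => hW k _)
      (fun b => hblock (site t) b) ?_ ?_ ?_
    · intro k hk
      exact ⟨a _ (hR0 k hk), b _ _ (hRR k hk), c _⟩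
    · intro j k hjk hk
      have hle := hmono j k hjk hk
      constructor
      · apply b
        exact mul_le_mul_of_nonneg_left hle (by positivity)
      · apply b
        exact div_le_div_of_nonneg_right hle (by linarith)
    · intro k hk
      apply b
      rw [le_div_iff₀ (by linarith)]
      have := hwin k hk
      nlinarith
  -- the second part
  have hWK : ∀ k s, k < h → W k s ≤ K := by
    intro k s hk
    refine le_trans ?_ (hblock s (k / n))
    exact single_le_sum (f := fun k => W k s) (fun k _ => hW k s)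
      (mem_filter.2 ⟨mem_range.2 hk, rfl⟩)
  have second : ∀ k, k < h → ∑ t ∈ range M, ((P9U v t - P9UR v (88 * m * rho k) t) *
      ind (P9U v t ≤ 44 * rho k)) ≤
      vR v (88 * m * rho k) (range M) - vR v (88 * m * rho k / 2) (range M) := by
    intro k hk
    have hp := hpos k hk
    have h5 := h3 S N M v site (88 * m * rho k) (44 * rho k) hV hI hS hM (by linarith)
      (by nlinarith)
    refine h5.trans (le_of_eq ?_)
    rw [← hm]
    field_simp
    ring
  have hvRnn : ∀ R, 0 ≤ R → 0 ≤ vR v R (range M) := by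
    intro R hR
    refine (h1 v R (range M)).2.2.2.2 hR fun B hB => P9_nonneg hI h0 B ?_
    have := card_le_card hB
    rw [card_range] at this
    omega
  have tele : ∑ k ∈ range h, (vR v (88 * m * rho k) (range M) -
      vR v (88 * m * rho k / 2) (range M)) ≤ v (range M) := by
    rcases Nat.eq_zero_or_pos h with hh | hh
    · subst hh
      rw [range_zero, sum_empty]
      exact hvM
    · obtain ⟨j, rfl⟩ : ∃ j, h = j + 1 := ⟨h - 1, by omega⟩
      refine (P9_tele (fun k => vR v (88 * m * rho k) (range M))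
        (fun k => vR v (88 * m * rho k / 2) (range M)) (j + 1) ?_ ?_ j (by omega)).trans
        (h1 v _ (range M)).2.2.1
      · intro k hk
        apply hvRnn
        have := hpos k hk
        positivity
      · intro k hk
        apply (h1 v _ (range M)).2.2.2.1
        have h6 := hfour k hk
        have h7 := hpos k (by omega)
        have h8 : 4 * (m * rho k) ≤ m * rho (k + 1) := by
          have := mul_le_mul_of_nonneg_left h6 hm0.le
          linarith
        have h9 : 0 < m * rho k := mul_pos hm0 h7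
        linarith
  -- the splitting
  have split : ∀ t, t < M → ∀ k, k < h → W k (site t) *
        (((v (range (t + 1)) - v (range t)) -
          (vR v (rho k / (2 * m)) (range (t + 1)) -
            vR v (rho k / (2 * m)) (range t))) *
          ind (v (range (t + 1)) - v (range t) ≤ 44 * rho k)) ≤
      W k (site t) * (P9UR v (88 * m * rho k) t - P9UR v (rho k / (2 * m)) t) +
      K * ((P9U v t - P9UR v (88 * m * rho k) t) * ind (P9U v t ≤ 44 * rho k)) := by
    intro t ht k hk
    obtain ⟨a, b, c, d⟩ := hfacts t ht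
    have hb := b _ _ (hRR k hk)
    have hc := c (88 * m * rho k)
    have hWn := hW k (site t)
    have hWK' := hWK k (site t) hk
    show W k (site t) * ((P9U v t - P9UR v (rho k / (2 * m)) t) *
      ind (P9U v t ≤ 44 * rho k)) ≤ _
    have e1 : (P9U v t - P9UR v (rho k / (2 * m)) t) * ind (P9U v t ≤ 44 * rho k) ≤
        (P9UR v (88 * m * rho k) t - P9UR v (rho k / (2 * m)) t) +
        (P9U v t - P9UR v (88 * m * rho k) t) * ind (P9U v t ≤ 44 * rho k) := by
      have i0 := ind_nonneg (P9U v t ≤ 44 * rho k)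
      have i1 := ind_le_one (P9U v t ≤ 44 * rho k)
      nlinarith
    have e2 : 0 ≤ (P9U v t - P9UR v (88 * m * rho k) t) * ind (P9U v t ≤ 44 * rho k) :=
      mul_nonneg (by linarith) (ind_nonneg _)
    calc W k (site t) * ((P9U v t - P9UR v (rho k / (2 * m)) t) *
          ind (P9U v t ≤ 44 * rho k)) ≤
        W k (site t) * ((P9UR v (88 * m * rho k) t - P9UR v (rho k / (2 * m)) t) +
        (P9U v t - P9UR v (88 * m * rho k) t) * ind (P9U v t ≤ 44 * rho k)) :=
          mul_le_mul_of_nonneg_left e1 hWn
      _ = W k (site t) * (P9UR v (88 * m * rho k) t - P9UR v (rho k / (2 * m)) t) +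
        W k (site t) * ((P9U v t - P9UR v (88 * m * rho k) t) *
          ind (P9U v t ≤ 44 * rho k)) := by ring
      _ ≤ _ := by
          have := mul_le_mul_of_nonneg_right hWK' e2
          linarith
  have hsumU : ∑ t ∈ range M, P9U v t = v (range M) := by
    unfold P9U
    rw [sum_range_sub (fun t => v (range t)), range_zero, h0, sub_zero]
  calc _ ≤ ∑ t ∈ range M, ∑ k ∈ range h, (W k (site t) *
        (P9UR v (88 * m * rho k) t - P9UR v (rho k / (2 * m)) t) +
      K * ((P9U v t - P9UR v (88 * m * rho k) t) * ind (P9U v t ≤ 44 * rho k))) :=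
        sum_le_sum fun t ht => sum_le_sum fun k hk =>
          split t (mem_range.1 ht) k (mem_range.1 hk)
    _ = ∑ t ∈ range M, ∑ k ∈ range h, W k (site t) *
        (P9UR v (88 * m * rho k) t - P9UR v (rho k / (2 * m)) t) +
      K * ∑ k ∈ range h, ∑ t ∈ range M,
        ((P9U v t - P9UR v (88 * m * rho k) t) * ind (P9U v t ≤ 44 * rho k)) := by
        simp only [sum_add_distrib]
        congr 1
        rw [sum_comm, mul_sum]
        refine sum_congr rfl fun k _ => ?_
        rw [mul_sum]
    _ ≤ ∑ t ∈ range M, 2 * K * P9U v t + K * v (range M) := by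
        apply add_le_add
        · exact sum_le_sum fun t ht => first t (mem_range.1 ht)
        · apply mul_le_mul_of_nonneg_left _ hK
          exact (sum_le_sum fun k hk => second k (mem_range.1 hk)).trans tele
    _ = 3 * K * v (range M) := by
        rw [← mul_sum, hsumU]
        ring

end P9

end Pool.Agent.MP_a4c1f4_lc
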