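import Pool.Agent.Lib.MP_a4c1f4_lc.Spec

set_option linter.all false

/-!
(D2) Resampling one coordinate of a finite product.
-/

namespace Pool.Agent.MP_a4c1f4_lc

open Finset

private theorem resample_aux {ι β : Type} [Fintype ι] [DecidableEq ι] [Fintype β]
    (w : ι → β → ℝ) (p0 : ι) (hw : ∑ b, w p0 b = 1) (f : (ι → β) → ℝ) :
    ∑ g : ι → β, (∏ p, w p (g p)) * f g =
      ∑ g : ι → β, (∏ p, w p (g p)) * ∑ b, w p0 b * f (Function.update g p0 b) := by
  classical
  let e : (ι → β) × β ≃ (ι → β) × β :=
    { toFun := fun p => (Function.update p.1 p0 p.2, p.1 p0)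
      invFun := fun p => (Function.update p.1 p0 p.2, p.1 p0)
      left_inv := by intro p; simp
      right_inv := by intro p; simp }
  have key : ∀ (g : ι → β) (b : β), (∏ p, w p (Function.update g p0 b p)) * w p0 (g p0) =
      (∏ p, w p (g p)) * w p0 b := by
    intro g b
    rw [← Finset.mul_prod_erase univ _ (Finset.mem_univ p0),
      ← Finset.mul_prod_erase univ (fun p => w p (g p)) (Finset.mem_univ p0)]
    have : ∏ p ∈ univ.erase p0, w p (Function.update g p0 b p) =
        ∏ p ∈ univ.erase p0, w p (g p) := by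
      refine Finset.prod_congr rfl fun p hp => ?_
      rw [Function.update_of_ne (Finset.ne_of_mem_erase hp)]
    rw [this]
    simp only [Function.update_self]
    ring
  have h1 : ∑ g : ι → β, (∏ p, w p (g p)) * ∑ b, w p0 b * f (Function.update g p0 b) =
      ∑ x : (ι → β) × β, (∏ p, w p (x.1 p)) * w p0 x.2 * f (Function.update x.1 p0 x.2) := by
    rw [Fintype.sum_prod_type]
    refine Finset.sum_congr rfl fun g _ => ?_
    rw [Finset.mul_sum]
    exact Finset.sum_congr rfl fun b _ => by ring
  have h2 : ∑ x : (ι → β) × β, (∏ p, w p (x.1 p)) * w p0 x.2 * f (Function.update x.1 p0 x.2) =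
      ∑ x : (ι → β) × β, (∏ p, w p (x.1 p)) * w p0 x.2 * f x.1 := by
    refine Fintype.sum_equiv e _ _ fun x => ?_
    simp only [e, Equiv.coe_fn_mk]
    rw [key]
  rw [h1, h2, Fintype.sum_prod_type]
  refine Finset.sum_congr rfl fun g _ => ?_
  have : ∀ b, (∏ p, w p (g p)) * w p0 b * f g = ((∏ p, w p (g p)) * f g) * w p0 b := by
    intro b; ring
  simp only [this]
  rw [← Finset.mul_sum, hw, mul_one]

theorem resample (hW : WeightProp) : ResampleProp := by
  intro T _ _ h J L u k i z f
  obtain ⟨-, hg, hl, -⟩ := hW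
  have hlev := (hl T J L u).1
  have hgw := hg (qq u L i) L
  -- inner resampling
  have inner : ∀ F : Lev T J L → ℝ, ∑ a, levw u a * F a =
      ∑ a : Lev T J L, levw u a * ∑ j : Fin (L + 1), gw (qq u L i) L j *
        F (a.1, Function.update a.2 (i, z) j) := by
    intro F
    rw [Fintype.sum_prod_type, Fintype.sum_prod_type]
    refine Finset.sum_congr rfl fun π _ => ?_
    have h1 := resample_aux (fun (p : Fin J × T) (b : Fin (L + 1)) => gw (qq u L p.1) L b) (i, z)
      hgw (fun g => F (π, g))
    have h2 : ∀ g : Fin J × T → Fin (L + 1), levw u ((π, g) : Lev T J L) =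
        (1 / ((Fintype.card T).factorial : ℝ)) * ∏ p : Fin J × T, gw (qq u L p.1) L (g p) := by
      intro g; rfl
    simp only [h2, mul_assoc]
    rw [← Finset.mul_sum, ← Finset.mul_sum, h1]
  have outer : ∀ G : Om T h J L → ℝ, ∑ ω, omw u ω * G ω =
      ∑ ω : Om T h J L, omw u ω * ∑ a : Lev T J L, levw u a * G (Function.update ω k a) := by
    intro G
    exact resample_aux (fun (_ : Fin h) (a : Lev T J L) => levw u a) k hlev G
  unfold Ex
  rw [outer f, outer (fun ω => ∑ j : Fin (L + 1), gw (qq u L i) L j * f (upd ω k i z j))]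
  refine Finset.sum_congr rfl fun ω _ => ?_
  congr 1
  rw [inner (fun a => f (Function.update ω k a))]
  refine Finset.sum_congr rfl fun a _ => ?_
  congr 1
  refine Finset.sum_congr rfl fun j _ => ?_
  congr 2
  unfold upd
  simp

end Pool.Agent.MP_a4c1f4_lc
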