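import Pool.Agent.Lib.MP_a4c1f4_lc.StepCost2

set_option linter.all false

/-!
# All metrics: definitions and statements

Goal: for `m` sites with arbitrary capacities in an arbitrary metric space the ratio is
`O(n log n (log m + n))` where `n = min (number of scales) (log_2 m + 5)`.

New ingredients with respect to `Spec`:
* the noise of level `k` uses a pseudometric `E k` in which all distances at most `rho k / m` are
  contracted to `0` (so a pair at distance `d` feels only `O(log m)` levels above it);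
* the price of a step is compared with the price of the same step when requests may be dropped
  for the penalty `R` (function `vR`); for small `R` the capped price does not depend on the noise
  of level `k`, for large `R` the difference of the prices, summed over the cheap steps, is small
  (`HaulProp`).

`Val N v` is the exchange property (M-natural convexity) of set functions.
-/

namespace Pool.Agent.MP_a4c1f4_lc

open Finset

/-! ## Definitions -/

/-- Minimal cost of an injective assignment of the requests with numbers in `A`; the request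
number `i` is `loc i`. -/
noncomputable def asg {T : Type} (c : T → T → ℝ) (loc : ℕ → T) (A : Finset ℕ) : ℝ :=
  sInf {w : ℝ | ∃ f : ℕ → T, Set.InjOn f (A : Set ℕ) ∧ ∑ i ∈ A, c (loc i) (f i) = w}

/-- The list of the first `t` requests, the latest first. -/
def lst {T : Type} (loc : ℕ → T) : ℕ → List T
  | 0 => []
  | t + 1 => loc t :: lst loc t

/-- Exchange property of a set function, for sets with at most `N` elements. -/
def Val (N : ℕ) (v : Finset ℕ → ℝ) : Prop :=
  ∀ (a b : Finset ℕ) (x : ℕ), a.card ≤ N → b.card ≤ N → x ∈ a → x ∉ b →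
    (b.card + 1 ≤ N ∧ v (a.erase x) + v (insert x b) ≤ v a + v b) ∨
    ∃ y ∈ b, y ∉ a ∧ v (insert y (a.erase x)) + v ((insert x b).erase y) ≤ v a + v b

/-- `v` is monotone. -/
def Inc (N : ℕ) (v : Finset ℕ → ℝ) : Prop :=
  ∀ (A : Finset ℕ) (x : ℕ), x ∉ A → A.card + 1 ≤ N → v A ≤ v (insert x A)

/-- Two requests at the same site are interchangeable. -/
def Sym {S : Type} (site : ℕ → S) (v : Finset ℕ → ℝ) : Prop :=
  ∀ (x y : ℕ) (A : Finset ℕ), site x = site y → x ∉ A → y ∉ A → v (insert x A) = v (insert y A)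

/-- The value when requests may be dropped for the penalty `R`. -/
noncomputable def vR (v : Finset ℕ → ℝ) (R : ℝ) (A : Finset ℕ) : ℝ :=
  A.powerset.inf' ⟨∅, Finset.empty_mem_powerset A⟩ (fun E => v (A \ E) + R * (E.card : ℝ))

/-- The total noise, with one pseudometric for each level. -/
noncomputable def pot3 {S : Type} [Fintype S] [Nonempty S] {h J L : ℕ} (E : ℕ → S → S → ℝ)
    (lam : ℝ) (rho : ℕ → ℝ) (ω : Om S h J L) (s : S) : ℝ :=
  ∑ k : Fin h, ∑ i : Fin J,
    fld (E k) (lam * rho k / (L : ℝ)) lam (ctr (E k) (2 * rho k) (ω k).1) (gv (ω k) i) s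

/-- The hypotheses on the levels. `h` levels, windows of `n` levels. -/
structure Lvl {S : Type} [Fintype S] (D : S → S → ℝ) (E : ℕ → S → S → ℝ) (rho : ℕ → ℝ)
    (h n : ℕ) : Prop where
  pmD : PM D
  pmE : ∀ k, PM (E k)
  le : ∀ k x y, E k x y ≤ D x y
  ge : ∀ k, k < h → ∀ x y, D x y ≤ E k x y + rho k
  zero : ∀ k, k < h → ∀ x y, D x y ≤ rho k / (Fintype.card S : ℝ) → E k x y = 0
  pos : ∀ k, k < h → 0 < rho k
  four : ∀ k, k + 1 < h → 4 * rho k ≤ rho (k + 1)
  win : ∀ k, k + n < h → 176 * (Fintype.card S : ℝ) ^ 2 * rho k ≤ rho (k + n)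
  cov : ∀ r s, D r s = 0 ∨ ∃ k, k < h ∧ 7 * rho k ≤ D r s ∧ D r s < 28 * rho k
  npos : 0 < n

/-- No point of no level has all its fields capped. -/
def Good3 {S : Type} [Fintype S] [DecidableEq S] {h J L : ℕ} (E : ℕ → S → S → ℝ) (lam : ℝ)
    (rho : ℕ → ℝ) (ω : Om S h J L) : Prop :=
  ∀ (s : S) (k : Fin h), ¬ ∀ i, Cap (E k) lam (rho k) (ω k) s i

/-! ## P. Set functions -/

/-- File P1.lean. `asg` is a minimum (over a finite set of values: only the restriction of `f` to
`A` matters, and `T` is finite). (1) is `csInf_le` (finite set, hence bounded below), (2) uses that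
the set is nonempty when `A.card ≤ card T`, and `Set.Nonempty.csInf_mem` with finiteness. -/
def AsgBasicProp : Prop :=
  ∀ (T : Type) [Fintype T] [DecidableEq T] [Nonempty T] (c : T → T → ℝ) (loc : ℕ → T)
    (A : Finset ℕ),
    (∀ f : ℕ → T, Set.InjOn f (A : Set ℕ) → asg c loc A ≤ ∑ i ∈ A, c (loc i) (f i)) ∧
    (A.card ≤ Fintype.card T → ∃ f : ℕ → T, Set.InjOn f (A : Set ℕ) ∧
      ∑ i ∈ A, c (loc i) (f i) = asg c loc A)

/-- File P2.lean, from `AsgBasicProp`, `OptBasicProp`. For `f : ℕ → T`, `τ = lst f t` satisfies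
`acost c (lst loc t) (lst f t) = ∑ i ∈ range t, c (loc i) (f i)`, and `τ.Nodup` iff `f` is injective
on `range t`; every list `τ` is `lst f τ.length` for some `f` (this is also the second claim). -/
def AsgListProp : Prop :=
  ∀ (T : Type) [Fintype T] [DecidableEq T] [Nonempty T],
    (∀ (c : T → T → ℝ) (loc : ℕ → T) (t : ℕ), t ≤ Fintype.card T →
      asg c loc (range t) = optv c (lst loc t)) ∧
    (∀ l : List T, ∃ loc : ℕ → T, lst loc l.length = l)

/-- File P3.lean, from `AsgBasicProp`. (1) exchange property. Proof: let `f` be injective on `a`,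
`g` injective on `b`, `x ∈ a \ b`. Claim: there are `f'`, `g'` and either (case 1) `f'` is
injective on `a.erase x`, `g'` injective on `insert x b`, or (case 2) for some `y ∈ b \ a`, `f'` is
injective on `insert y (a.erase x)` and `g'` on `(insert x b).erase y`; in both cases the sum of the
two costs is the same as for `f`, `g` and all the values of `f'`, `g'` on these sets lie in
`f(a) ∪ g(b)`. Induction on `b.card`: let `s = f x`. If `s ∉ g(b)`: `f' = f`,
`g' = update g x s`, case 1. Otherwise `s = g r` with `r ∈ b`. If `r ∉ a`: case 2 with `y = r`,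
`g' = update g x s`, `f' = update f r s`. If `r ∈ a`: apply the induction hypothesis to
`a₁ = a.erase x`, `b₁ = b.erase r`, `f`, `g`, and the start `r ∈ a₁ \ b₁`; we get `f₁` on
`a₁.erase r` and `g₁` on `insert r b₁ = b` (case 1), or `y ∈ b₁ \ a₁`, `f₁` on
`insert y (a₁.erase r)`, `g₁` on `b.erase y` (case 2); put `f' = update f₁ r s`,
`g' = update g₁ x s`; `s` is not a value of `f₁`, `g₁` since `s ∉ f(a₁) ∪ g(b₁)`.
In case 1 `insert x b` has an injective map to `T`, so `b.card + 1 ≤ card T`.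
(2) monotone: restrict an optimal assignment (`c ≥ 0`). (3) obvious. (4) `asg c loc ∅ = 0`. -/
def AsgValProp : Prop :=
  ∀ (T : Type) [Fintype T] [DecidableEq T] [Nonempty T] (c : T → T → ℝ) (loc : ℕ → T),
    Val (Fintype.card T) (asg c loc) ∧
    ((∀ r s, 0 ≤ c r s) → Inc (Fintype.card T) (asg c loc)) ∧
    (∀ (S : Type) (site : ℕ → S), (∀ x y, site x = site y → ∀ t, c (loc x) t = c (loc y) t) →
      Sym site (asg c loc)) ∧
    asg c loc ∅ = 0

/-- File P4.lean. (1) increasing differences: `Val` with `a = insert x B`, `b = A`; the second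
alternative is impossible as `A ⊆ B`. (2) `p`, `x`, `x'` distinct and outside of `A`:
`Val` with `a = insert x (insert x' A)`, `b = insert p A`; second alternative: `y = p`, and then
`Sym` gives `v (insert p (insert x' A)) = v (insert x (insert p A))` (as sets
`insert p (insert x' A) = insert x' (insert p A)`), `(insert x (insert p A)).erase p = insert x A`
and `v (insert x A) = v (insert x' A)`. -/
def SupProp : Prop :=
  ∀ (S : Type) (N : ℕ) (v : Finset ℕ → ℝ) (site : ℕ → S), Val N v →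
    (∀ (A B : Finset ℕ) (x : ℕ), A ⊆ B → x ∉ B → B.card + 1 ≤ N →
      v (insert x A) - v A ≤ v (insert x B) - v B) ∧
    (Sym site v → ∀ (A : Finset ℕ) (p x x' : ℕ), p ∉ A → x ∉ A → x' ∉ A → p ≠ x → p ≠ x' →
      x ≠ x' → A.card + 2 ≤ N → site x = site x' →
      v (insert x (insert p A)) - v (insert p A) ≤
        v (insert x (insert x' A)) - v (insert x' A))

/-- File P5.lean. Basic properties of the capped value. (1) attained; (2) upper bounds by any
`E ⊆ A` (in particular `≤ v A`); (3) monotone in `R`; (4) nonnegative if `v` is nonnegative on the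
subsets of `A`, `0 ≤ R`. All immediate (`Finset.exists_mem_eq_inf'`, `Finset.inf'_le`,
`Finset.le_inf'`). -/
def CapBasicProp : Prop :=
  ∀ (v : Finset ℕ → ℝ) (R : ℝ) (A : Finset ℕ),
    (∃ E, E ⊆ A ∧ vR v R A = v (A \ E) + R * (E.card : ℝ)) ∧
    (∀ E, E ⊆ A → vR v R A ≤ v (A \ E) + R * (E.card : ℝ)) ∧
    vR v R A ≤ v A ∧
    (∀ R', R ≤ R' → vR v R A ≤ vR v R' A) ∧
    (0 ≤ R → (∀ B, B ⊆ A → 0 ≤ v B) → 0 ≤ vR v R A)

/-- File P6.lean, from `CapBasicProp`, `SupProp`. (1) Monotone in the set: `E` optimal for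
`insert x A`; if `x ∉ E` use `Inc` for `A \ E`, otherwise drop `E.erase x` (`R ≥ 0`).
(2) Proof of increasing differences in `R`: `E'` optimal for `(R', insert x A)`, `E` optimal for
`(R, A)`. If `x ∈ E'`: `vR R' (insert x A) = v (A \ E'.erase x) + R' (|E'.erase x| + 1)
≥ vR R' A + R'` and `vR R (insert x A) ≤ vR R A + R` (drop `insert x E`). If `x ∉ E'`: `Val` with
`a = insert x A \ E'`, `b = A \ E`. First alternative:
`v (A \ E') + v (insert x A \ E) ≤ v a + v b`. Second: `y ∈ b \ a`, so `y ∈ A`, `y ∈ E'`, `y ∉ E`: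
`v (A \ (E'.erase y)) + v (insert x A \ insert y E) ≤ v a + v b`; use
`R' |E'| = R' (|E'.erase y| + 1)` and `R |E| = R (|insert y E| - 1)`.
(3) with `E` optimal for `A`: `v (insert x (A \ E)) - v (A \ E) ≤ v (insert x A) - v A`
by `SupProp` (1) and `vR R (insert x A) ≤ v (insert x A \ E) + R |E|`. -/
def CapMonoProp : Prop :=
  ∀ (N : ℕ) (v : Finset ℕ → ℝ) (A : Finset ℕ) (x : ℕ), Val N v → x ∉ A → A.card + 1 ≤ N →
    (∀ R, 0 ≤ R → Inc N v → vR v R A ≤ vR v R (insert x A)) ∧
    (∀ R R', R ≤ R' → vR v R (insert x A) - vR v R A ≤ vR v R' (insert x A) - vR v R' A) ∧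
    (∀ R, vR v R (insert x A) - vR v R A ≤ v (insert x A) - v A)

/-- File P7.lean, from `SupProp`, `CapBasicProp`, `CapMonoProp`. The cheap steps. Put
`f t = v (range (t+1)) - v (range t)`, `g t = vR v R (range (t+1)) - vR v R (range t)`,
`n = ⌊2/R * (vR v R (range M) - vR v (R/2) (range M))⌋₊`. Note `0 ≤ g t ≤ f t` (`CapMonoProp`).
(a) Let `t < M`, `f t ≤ B`, `E` optimal for `vR v R (range (t+1))`. Then `t ∉ E`: otherwise
`vR v R (range (t+1)) ≥ vR v R (range t) + R`, so `f t ≥ g t ≥ R > B`. And `E.card ≤ n`: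
`vR v (R/2) (range (t+1)) ≤ v (range (t+1) \ E) + R/2 * |E| = vR v R (range (t+1)) - R/2 * |E|`,
and `vR v R - vR v (R/2)` increases from `range (t+1)` to `range M` by `CapMonoProp` (2). So
`E ⊆ range t` and `g t ≥ v (insert t (range t \ E)) - v (range t \ E)` (as `vR v R (range t) ≤
v (range t \ E) + R |E|`).
(b) Let `X ⊆ range t` be a set of `n` elements `i` with `site i = site t` and let `t' ≤ min X`,
`site t' = site t`. Then `v (insert t (range t \ E)) - v (range t \ E) ≥ f t'`. Indeed, replacing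
in `range t \ X` the elements of `E \ X` one by one by elements of `X \ E` (`|E \ X| ≤ |X \ E|`)
increases the increment of `t` by `SupProp` (2), and adding the other elements of `X \ E` as
well by `SupProp` (1); finally `range t' ⊆ range t \ X`, `SupProp` (1) and `Sym`.
(c) For a site `s` let `t_1 < t_2 < ... < t_q` be the numbers `t < M` with `site t = s`,
`f t ≤ B`. `f t_i` is nondecreasing in `i` (`SupProp` (1), `Sym`) (and all earlier arrivals at `s`
satisfy `f ≤ B` too). By (a), (b) `f t_i - g t_i ≤ f t_i - f t_{i-n}` for `i > n`, and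
`f t_i - g t_i ≤ f t_i` for `i ≤ n`. The sum over `i` telescopes to the sum of the last `n`
(or fewer) values `f t_i ≤ B`, so it is at most `n B`. Sum over the sites. -/
def HaulProp : Prop :=
  ∀ (S : Type) [Fintype S] [DecidableEq S] (N M : ℕ) (v : Finset ℕ → ℝ) (site : ℕ → S)
    (R B : ℝ), Val N v → Inc N v → Sym site v → M ≤ N → 0 ≤ B → B < R →
    ∑ t ∈ range M, ((v (range (t + 1)) - v (range t)) -
        (vR v R (range (t + 1)) - vR v R (range t))) * ind (v (range (t + 1)) - v (range t) ≤ B) ≤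
      (Fintype.card S : ℝ) * B * (2 / R * (vR v R (range M) - vR v (R / 2) (range M)))

/-- File P8.lean. Weighted sums over windows. Proof: group the `k` by `b = k / n`. For `k` in the
block `b` (`k < h`): `p k ≤ P b := p (last b)`, `last b = min ((b+1)n, h) - 1`, and
`q k ≥ Q b := q (b n)`; so the block contributes at most `K (P b - Q b)`. For `(b+2) n < h`:
`P b = p ((b+1)n - 1) ≤ q ((b+2) n - 1) ≤ q ((b+2) n) = Q (b+2)`. Hence (induction on the number
of blocks) `∑ b, (P b - Q b) ≤ P (last) + P (last - 1) ≤ 2F`. -/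
def BlockProp : Prop :=
  ∀ (h n : ℕ) (w p q : ℕ → ℝ) (K F : ℝ), 0 < n → 0 ≤ K → 0 ≤ F →
    (∀ k, k < h → 0 ≤ w k) →
    (∀ b, ∑ k ∈ (range h).filter (fun k => k / n = b), w k ≤ K) →
    (∀ k, k < h → 0 ≤ q k ∧ q k ≤ p k ∧ p k ≤ F) →
    (∀ j k, j ≤ k → k < h → p j ≤ p k ∧ q j ≤ q k) →
    (∀ k, k + n < h → p k ≤ q (k + n)) →
    ∑ k ∈ range h, w k * (p k - q k) ≤ 2 * K * F

/-- File P9.lean, from `CapBasicProp`, `CapMonoProp`, `HaulProp`, `BlockProp`. Write `m = card S`,
`R⁻ k = rho k / (2m)`, `R⁺ k = 88 m rho k`, `U t = v (range (t+1)) - v (range t)`,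
`UR R t = vR v R (range (t+1)) - vR v R (range t)`; `0 ≤ UR R t ≤ UR R' t ≤ U t` for
`0 ≤ R ≤ R'`. Proof: `(U t - UR (R⁻ k) t) ind(..) ≤ (UR (R⁺ k) t - UR (R⁻ k) t)
+ (U t - UR (R⁺ k) t) ind(U t ≤ 44 rho k)`. First part: for every `t`, by `BlockProp` with
`w k = W k (site t)`, `p k = UR (R⁺ k) t`, `q k = UR (R⁻ k) t`, `F = U t` (`R⁺ k ≤ R⁻ (k+n)` by the
hypothesis on the windows; `rho` is increasing), it is at most `2 K U t`; sum over `t`:
`2 K v (range M)`. Second part: `W k s ≤ K` (one block contains `k`), and for each `k`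
`HaulProp` with `B = 44 rho k`, `R = R⁺ k`: `m B 2/R = 1`, so the sum over `t` is at most
`vR v (R⁺ k) (range M) - vR v (R⁺ k / 2) (range M)`; the sum over `k` telescopes
(`R⁺ k ≤ R⁺ (k+1) / 2`, `vR` is monotone in `R`, `0 ≤ vR ≤ v (range M)`), so it is at most
`v (range M)`. -/
def WindowProp : Prop :=
  ∀ (S : Type) [Fintype S] [DecidableEq S] [Nonempty S] (N M h n : ℕ) (v : Finset ℕ → ℝ)
    (site : ℕ → S) (rho : ℕ → ℝ) (W : ℕ → S → ℝ) (K : ℝ),
    Val N v → Inc N v → Sym site v → v ∅ = 0 → M ≤ N → 0 < n →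
    (∀ k, k < h → 0 < rho k) → (∀ k, k + 1 < h → 4 * rho k ≤ rho (k + 1)) →
    (∀ k, k + n < h → 176 * (Fintype.card S : ℝ) ^ 2 * rho k ≤ rho (k + n)) →
    (∀ k s, 0 ≤ W k s) → 0 ≤ K →
    (∀ s b, ∑ k ∈ (range h).filter (fun k => k / n = b), W k s ≤ K) →
    ∑ t ∈ range M, ∑ k ∈ range h, W k (site t) *
        (((v (range (t + 1)) - v (range t)) -
          (vR v (rho k / (2 * (Fintype.card S : ℝ))) (range (t + 1)) -
            vR v (rho k / (2 * (Fintype.card S : ℝ))) (range t))) *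
          ind (v (range (t + 1)) - v (range t) ≤ 44 * rho k)) ≤
      3 * K * v (range M)

/-- File P10.lean, from `AsgBasicProp`, `CapBasicProp`. The capped value does not feel the noise of
the high levels. Proof (one inequality, the other by symmetry): take `E ⊆ A` optimal for
`(β', R, A)` and `f` optimal on `A \ E` for `β'`. Let `E₂ = E ∪ {i ∈ A \ E | θ < D (σ (loc i))
(σ (f i))}`. For such `i` the cost is at least `D/2 > θ/2 ≥ R`; for the other `i ∈ A \ E` the costs
for `β` and `β'` are equal. So dropping `E₂` and using `f` on `A \ E₂` costs for `β` at most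
the value for `β'`. -/
def CapInvProp : Prop :=
  ∀ (S T : Type) [Fintype T] [DecidableEq T] [Nonempty T] (σ : T → S) (D : S → S → ℝ)
    (β β' : S → ℝ) (θ R : ℝ) (loc : ℕ → T) (A : Finset ℕ), A.card ≤ Fintype.card T →
    (∀ r s, D r s ≤ θ → β r - β s = β' r - β' s) →
    (∀ r s, D r s ≤ 2 * cst D β r s) → (∀ r s, D r s ≤ 2 * cst D β' r s) →
    2 * R ≤ θ →
    vR (asg (pull σ (cst D β)) loc) R A = vR (asg (pull σ (cst D β')) loc) R A

/-! ## N. Noise -/

/-- File N0.lean. Contraction of the distances at most `θ`. Proof: for `z : S` let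
`V z = ⋃ a : S, ⋃ b : S, Icc (D z a) (D z b)` over the pairs with `0 ≤ D z b - D z a ≤ θ`, a subset
of `⋃ a, Icc (D z a) (D z a + θ)`, so its Lebesgue measure is at most `card S * θ`; let
`φ z t = t - volume (V z ∩ Icc 0 t)`, which satisfies `0 ≤ φ z t' - φ z t ≤ t' - t` for
`0 ≤ t ≤ t'`. Put `D' x y = max over z of |φ z (D z x) - φ z (D z y)|`. If `D x y ≤ θ` the interval
between `D z x` and `D z y` is in `V z`, so `D' x y = 0`; and with `z = x`:
`D' x y ≥ φ x (D x y) ≥ D x y - card S * θ`. (Any other construction is fine, e.g. the path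
pseudometric of the complete graph where the edges with `D ≤ θ` get length zero.) -/
def ContractProp : Prop :=
  ∀ (S : Type) [Fintype S] [Nonempty S] (D : S → S → ℝ) (θ : ℝ), PM D → 0 ≤ θ →
    ∃ D' : S → S → ℝ, PM D' ∧ (∀ x y, D' x y ≤ D x y) ∧
      (∀ x y, D x y ≤ D' x y + (Fintype.card S : ℝ) * θ) ∧ (∀ x y, D x y ≤ θ → D' x y = 0)

/-- File N1.lean, from `FieldProp`. Compare `Cost.lean`. Proof: let `7 rho j ≤ d = D r s < 28 rho j`
(if `D r s = 0` all `E k r s = 0` and the noise at `r` and `s` is the same). A field of level `k`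
takes values in `[0, lam rho k]` and is `lam`-Lipschitz for `E k`. Levels `k ≤ j`: difference at
most `lam rho k`, and `∑_{k ≤ j} rho k ≤ 4/3 rho j ≤ 4/21 d`. Levels `k ≥ j + n`:
`rho k / m ≥ rho (j+n) / m ≥ 176 m rho j > d`, so `E k r s = 0` and the difference is `0`. The at
most `n - 1` other levels: at most `lam d` each. Total
`≤ J lam (4/21 + n - 1) d ≤ n J lam d ≤ d / 2`. -/
def CostProp3 : Prop :=
  ∀ (S : Type) [Fintype S] [DecidableEq S] [Nonempty S] (h n J L : ℕ)
    (D : S → S → ℝ) (E : ℕ → S → S → ℝ) (lam : ℝ) (rho : ℕ → ℝ) (ω : Om S h J L),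
    Lvl D E rho h n → 0 ≤ lam → 0 < L → n * J * lam ≤ 1 / 2 → ∀ r s,
    D r s ≤ 2 * cst D (pot3 E lam rho ω) r s ∧ cst D (pot3 E lam rho ω) r s ≤ 3 / 2 * D r s

/-- File N2.lean. The one variable inequality, compare `OneVar2.lean` (same proof with small
changes). Notation of `OneVar2.lean`: `c j`, `S j`, `δ j`, `U j`, `N j`, `V j = U j + N j`, and
`far j = ind (7 rho ≤ D (σ x) (σ (srv (c j) x l)) < 28 rho)`. `7 rho ≤ D` implies
`6 rho ≤ E` by the hypothesis `D ≤ E + rho`, so `eta * far (j+1) ≤ V (j+1) - V j` as before.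
(i) If `far j = 0` for all `j ∈ [θ, L]` the left side is `0`. (ii) Suppose `far j = 1` for some
`j ∈ [θ, L]`. Then `U j ≤ c j x y ≤ 3/2 * 28 rho = 42 rho` where `y = srv (c j) x l`
(`used (c j) l ∪ {y}`: an optimal assignment of `l` with image `used (c j) l`, plus `x ↦ y`).
For `j' < j`: `U j' ≤ V j' ≤ V j = U j + N j ≤ 42 rho + eta * card T ≤ 43 rho`
(`eta * card T ≤ eta * L = lam rho ≤ rho / 2`). For `j' > j`: by `PotProp` for
`c (j+1)`, `c j` one gets `U (j+1) ≤ U j + δ j x - δ j (srv (c j) x l) - ∑ s ∈ used (c j) l, δ j s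
+ ∑ s ∈ used (c (j+1)) l, δ j s`, so `U - N` increases by at most `eta` in each step, and
`U j' ≤ U j + eta L + N j' ≤ 42 rho + rho / 2 + rho / 2`. So all the indicators
`ind (U j ≤ 44 rho)` are `1`. Then apply `AbelProp` with `U j - C0 ≥ 0` instead of `U j`. -/
def OneVarProp3 : Prop :=
  ∀ (S T : Type) [Fintype S] [DecidableEq S] [Nonempty S] [Fintype T] [DecidableEq T]
    [Nonempty T] (σ : T → S) (D E : S → S → ℝ)
    (eta lam rho q C0 : ℝ) (z : S → S) (g : S → ℕ) (L : ℕ) (B : S → ℝ) (x : T) (zc : S)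
    (l : List T),
    PM D → PM E → (∀ x y, E x y ≤ D x y) → (∀ x y, D x y ≤ E x y + rho) →
    0 < eta → 0 < lam → lam ≤ 1 / 2 → 0 < rho → eta * L = lam * rho → Fintype.card T ≤ L →
    (∀ w, E (z w) w ≤ 2 * rho) →
    (∀ w, g w ≤ L) → 0 ≤ q → q ≤ 1 → l.length + 1 ≤ Fintype.card T →
    (∀ j, j ≤ L → ∀ r s,
      D r s ≤ 2 * cst D (fun s => B s + fld E eta lam z (Function.update g zc j) s) r s ∧
      cst D (fun s => B s + fld E eta lam z (Function.update g zc j) s) r s ≤ 3 / 2 * D r s) →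
    (∀ j, j ≤ L →
      C0 ≤ optv (pull σ (cst D (fun s => B s + fld E eta lam z (Function.update g zc j) s)))
            (x :: l)
          - optv (pull σ (cst D (fun s => B s + fld E eta lam z (Function.update g zc j) s))) l) →
    ∑ j : Fin (L + 1), gw q L j *
        ind (Sel E eta lam z (Function.update g zc j) (σ x) zc ∧ (j : ℕ) < L ∧
          (7 * rho ≤ D (σ x) (σ (srv (pull σ (cst D
            (fun s => B s + fld E eta lam z (Function.update g zc j) s))) x l)) ∧
          D (σ x) (σ (srv (pull σ (cst D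
            (fun s => B s + fld E eta lam z (Function.update g zc j) s))) x l)) < 28 * rho)) ≤
      (1 - q) / eta * (∑ j : Fin (L + 1), gw q L j *
        (((optv (pull σ (cst D (fun s => B s + fld E eta lam z (Function.update g zc j) s)))
            (x :: l)
          - optv (pull σ (cst D (fun s => B s + fld E eta lam z (Function.update g zc j) s))) l
          - C0) *
          ind (optv (pull σ (cst D (fun s => B s + fld E eta lam z (Function.update g zc j) s)))
            (x :: l)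
          - optv (pull σ (cst D (fun s => B s + fld E eta lam z (Function.update g zc j) s))) l
            ≤ 44 * rho)) *
          ind (Sel E eta lam z (Function.update g zc j) (σ x) zc)))
        + (1 - q) * (1 + (Fintype.card T : ℝ))

/-- File N3.lean, from `OneVarProp3` etc.: adaptation of `Level2.lean`. `C` is a function of the
sample point that does not depend on the values of level `k`. -/
def LevelProp3 : Prop :=
  ∀ (S T : Type) [Fintype S] [DecidableEq S] [Nonempty S] [Fintype T] [DecidableEq T]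
    [Nonempty T] (σ : T → S) (h n J L : ℕ) (u : ℕ → ℝ)
    (D : S → S → ℝ) (E : ℕ → S → S → ℝ) (lam : ℝ) (rho : ℕ → ℝ) (x : T) (l : List T) (k : Fin h)
    (C : Om S h J L → ℝ),
    Lvl D E rho h n → 0 < lam → lam ≤ 1 / 2 → n * J * lam ≤ 1 / 2 → 0 < L →
    Fintype.card T ≤ L →
    (∀ i, i < J → 0 ≤ qq u L i ∧ qq u L i ≤ 1) → l.length + 1 ≤ Fintype.card T →
    (∀ ω i z j, C (upd ω k i z j) = C ω) →
    (∀ ω, C ω ≤ optv (pull σ (cst D (pot3 E lam rho ω))) (x :: l)
            - optv (pull σ (cst D (pot3 E lam rho ω))) l) →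
    Ex u (fun ω : Om S h J L =>
        ind ((7 * rho k ≤ D (σ x) (σ (srv (pull σ (cst D (pot3 E lam rho ω))) x l)) ∧
          D (σ x) (σ (srv (pull σ (cst D (pot3 E lam rho ω))) x l)) < 28 * rho k) ∧
          ¬ ∀ i, Cap (E k) lam (rho k) (ω k) (σ x) i)) ≤
      ∑ i : Fin J, (u i / (lam * rho k) * Ex u (fun ω : Om S h J L =>
          ((optv (pull σ (cst D (pot3 E lam rho ω))) (x :: l)
            - optv (pull σ (cst D (pot3 E lam rho ω))) l - C ω) *
            ind (optv (pull σ (cst D (pot3 E lam rho ω))) (x :: l)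
            - optv (pull σ (cst D (pot3 E lam rho ω))) l ≤ 44 * rho k)) *
            ind (CapBelow (E k) lam (rho k) (ω k) (σ x) i))
        + (Fintype.card S : ℝ) * (u i / L * (1 + (Fintype.card T : ℝ))))

/-- File N4.lean, from `LevelProp3` etc.: adaptation of `StepCost2.lean` (the levels with
`7 rho k > 6 O`, `O = optv (pull σ D) (x :: l)`, contribute nothing by `FarProp`). -/
def StepCostProp3 : Prop :=
  ∀ (S T : Type) [Fintype S] [DecidableEq S] [Nonempty S] [Fintype T] [DecidableEq T]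
    [Nonempty T] (σ : T → S) (h n J L : ℕ) (u : ℕ → ℝ) (u0 : ℝ)
    (D : S → S → ℝ) (E : ℕ → S → S → ℝ) (lam : ℝ) (rho : ℕ → ℝ) (x : T) (l : List T)
    (C : Fin h → Om S h J L → ℝ),
    Lvl D E rho h n → 0 < J → lam = 1 / (2 * n * J) →
    0 < L → Fintype.card T ≤ L → 1 ≤ u0 → (∀ i, u i = 2 ^ i * u0) →
    u (J - 1) ≤ L → l.length + 1 ≤ Fintype.card T →
    (∀ k ω i z j, C k (upd ω k i z j) = C k ω) →
    (∀ k ω, C k ω ≤ optv (pull σ (cst D (pot3 E lam rho ω))) (x :: l)
            - optv (pull σ (cst D (pot3 E lam rho ω))) l) →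
    Ex u (fun ω : Om S h J L => D (σ x) (σ (srv (pull σ (cst D (pot3 E lam rho ω))) x l)) *
        ind (Good3 E lam rho ω)) ≤
      56 * n * J * Ex u (fun ω : Om S h J L => ∑ k : Fin h,
          Wl (E k) lam (rho k) u (σ x) (ω k) *
          ((optv (pull σ (cst D (pot3 E lam rho ω))) (x :: l)
            - optv (pull σ (cst D (pot3 E lam rho ω))) l - C k ω) *
            ind (optv (pull σ (cst D (pot3 E lam rho ω))) (x :: l)
            - optv (pull σ (cst D (pot3 E lam rho ω))) l ≤ 44 * rho k)))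
      + 24 * h * optv (pull σ D) (x :: l) *
        (J * (Fintype.card S : ℝ) * (u (J - 1) / L * (1 + (Fintype.card T : ℝ))))

/-- File N5.lean, from `WeightProp`, `IndepProp`, `ExpLevelProp`: adaptation of `ExpMoment.lean`.
Exponential moment of the levels of one block `k / n = b`. Proof: `IndepProp` with the factor `1`
for the levels outside of the block; in the block `ExpLevelProp` for `E k`; the product of
`nb (E k) (3 rho k) r / nb (E k) (rho k) r` over the (consecutive) levels of the block telescopes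
because `E k w r ≤ 3 rho k` implies `D w r ≤ 4 rho k ≤ rho (k+1)`, hence
`E (k+1) w r ≤ rho (k+1)`; at most `n` levels. -/
def ExpBlockProp : Prop :=
  ∀ (S : Type) [Fintype S] [DecidableEq S] [Nonempty S] (h n J L : ℕ) (u : ℕ → ℝ) (u0 : ℝ)
    (D : S → S → ℝ) (E : ℕ → S → S → ℝ) (lam : ℝ) (rho : ℕ → ℝ) (r : S) (b : ℕ),
    Lvl D E rho h n → 0 < lam →
    0 < L → (∀ i, i < J → 0 ≤ qq u L i ∧ qq u L i ≤ 1) → 1 ≤ u0 → (∀ i, u i = 2 ^ i * u0) →
    Ex u (fun ω : Om S h J L => Real.exp ((∑ k ∈ (Finset.univ : Finset (Fin h)).filter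
        (fun k : Fin h => (k : ℕ) / n = b), Wl (E k) lam (rho k) u r (ω k)) / 8)) ≤
      Real.exp (n * (u0 / 8 + 1)) * (Fintype.card S : ℝ)

/-- File N6.lean. Parameters, compare `param2` in `Core2.lean`. `m` sites, `M` copies, `h ≤ m^2`
levels, windows of `n` levels. `u0 = 1 + (4 ln m + 1)/n`, `w0 = 9 n + 36 ln m + 19`, `L` large.
`2^(log_2 n + 1) u0 ≥ n u0 = n + 4 ln m + 1`. -/
def ParamProp3 : Prop :=
  ∀ (h n m M : ℕ), 0 < n → 0 < m → 0 < M → h ≤ m ^ 2 →
    ∃ (L : ℕ) (u0 w0 : ℝ), 0 < L ∧ M ≤ L ∧ 1 ≤ u0 ∧ 0 ≤ w0 ∧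
    w0 = 9 * n + 36 * Real.log m + 19 ∧
    2 ^ (Nat.log 2 n + 2 - 1) * u0 ≤ L ∧
    8 * Real.exp (- w0 / 8) * (Real.exp (n * (u0 / 8 + 1)) * m) * m * h ≤ 1 ∧
    24 * h * ((Nat.log 2 n + 2) * m * (2 ^ (Nat.log 2 n + 2 - 1) * u0 / L * (1 + M))) * M ≤ 1 ∧
    h * m * (m * Real.exp (- (2 ^ (Nat.log 2 n + 2 - 1) * u0))) ≤ 1 / 2

/-- File Core3.lean. The theorem for the copies. -/
def CoreProp3 : Prop :=
  ∀ (S T : Type) [Fintype S] [DecidableEq S] [Nonempty S] [Fintype T] [DecidableEq T]
    [Nonempty T] (σ : T → S) (h n : ℕ) (D : S → S → ℝ) (E : ℕ → S → S → ℝ) (rho : ℕ → ℝ),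
    Lvl D E rho h n → h ≤ (Fintype.card S) ^ 2 →
    ∃ (Ω : Type) (_ : Fintype Ω) (w : Ω → ℝ) (c : Ω → T → T → ℝ),
      (∀ ω, 0 ≤ w ω) ∧ ∑ ω, w ω = 1 ∧
      ∀ l : List T, l.length ≤ Fintype.card T →
        ∑ ω, w ω * tcost (pull σ D) (c ω) l ≤
          (504 * n * (Nat.log 2 n + 2) *
            (9 * n + 36 * Real.log (Fintype.card S) + 20) + 2) * optv (pull σ D) l

/-- File Metric3.lean, from `ContractProp`. Construction of the levels for a finite pseudometric.
Proof: let `K` be the finite set of the integers `k` such that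
`4^k ≤ D i j < 4^(k+1)` for some `i`, `j` (`k = Int.log 4 _`; at most `m^2` of them),
`h = card K`, `e : Fin h → ℤ` its increasing enumeration, `rho k = 4^(e k) / 7` for `k < h`,
`E k` from `ContractProp` with `θ = rho k / m`. Windows: if `log_2 m + 5 ≤ n` then
`rho (k+n) ≥ 4^n rho k` and `4^n ≥ 1024 * (2^(log_2 m))^2 ≥ 256 m^2` (`Nat.lt_pow_succ_log_self`).
If `card K' ≤ n` for some `K'` as in the hypothesis then `K ⊆ K'`, so `h ≤ n` and there is no `k` with
`k + n < h`. -/
def MetricProp3 : Prop :=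
  ∀ (m : ℕ) (D : Fin m → Fin m → ℝ) (n : ℕ), PM D → 0 < m → 0 < n →
    (Nat.log 2 m + 5 ≤ n ∨ ∃ K : Finset ℤ, K.card ≤ n ∧ ∀ i j, D i j = 0 ∨
      ∃ k ∈ K, (4 : ℝ) ^ k ≤ D i j ∧ D i j < (4 : ℝ) ^ (k + 1)) →
    ∃ (h : ℕ) (E : ℕ → Fin m → Fin m → ℝ) (rho : ℕ → ℝ), Lvl D E rho h n ∧ h ≤ m ^ 2

end Pool.Agent.MP_a4c1f4_lc
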