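import Pool.Agent.Lib.MP_a4c1f4_lc.Spec
import Pool.Agent.Lib.MP_a4c1f4_lc.Augment
import Pool.Agent.Lib.MP_a4c1f4_lc.OptBasic
import Pool.Agent.Lib.MP_a4c1f4_lc.AugOpt
import Pool.Agent.Lib.MP_a4c1f4_lc.Used
import Pool.Agent.Lib.MP_a4c1f4_lc.Mono
import Pool.Agent.Lib.MP_a4c1f4_lc.Step
import Pool.Agent.Lib.MP_a4c1f4_lc.Far
import Pool.Agent.Lib.MP_a4c1f4_lc.Abel
import Pool.Agent.Lib.MP_a4c1f4_lc.Field
import Pool.Agent.Lib.MP_a4c1f4_lc.Sel
import Pool.Agent.Lib.MP_a4c1f4_lc.Exit
import Pool.Agent.Lib.MP_a4c1f4_lc.Weight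
import Pool.Agent.Lib.MP_a4c1f4_lc.Resample
import Pool.Agent.Lib.MP_a4c1f4_lc.Marginal
import Pool.Agent.Lib.MP_a4c1f4_lc.Perm
import Pool.Agent.Lib.MP_a4c1f4_lc.CapProb
import Pool.Agent.Lib.MP_a4c1f4_lc.ExpLevel
import Pool.Agent.Lib.MP_a4c1f4_lc.Copies
import Pool.Agent.Lib.MP_a4c1f4_lc.Spec3
import Pool.Agent.Lib.MP_a4c1f4_lc.P1
import Pool.Agent.Lib.MP_a4c1f4_lc.P2
import Pool.Agent.Lib.MP_a4c1f4_lc.P3
import Pool.Agent.Lib.MP_a4c1f4_lc.P4
import Pool.Agent.Lib.MP_a4c1f4_lc.P5
import Pool.Agent.Lib.MP_a4c1f4_lc.P6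
import Pool.Agent.Lib.MP_a4c1f4_lc.P7
import Pool.Agent.Lib.MP_a4c1f4_lc.P8
import Pool.Agent.Lib.MP_a4c1f4_lc.P9
import Pool.Agent.Lib.MP_a4c1f4_lc.P10
import Pool.Agent.Lib.MP_a4c1f4_lc.N0
import Pool.Agent.Lib.MP_a4c1f4_lc.N1
import Pool.Agent.Lib.MP_a4c1f4_lc.N2
import Pool.Agent.Lib.MP_a4c1f4_lc.N3
import Pool.Agent.Lib.MP_a4c1f4_lc.N4
import Pool.Agent.Lib.MP_a4c1f4_lc.N5
import Pool.Agent.Lib.MP_a4c1f4_lc.N6
import Pool.Agent.Lib.MP_a4c1f4_lc.Metric3
import Pool.Agent.Lib.MP_a4c1f4_lc.Core3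

set_option linter.all false

/-!
Randomized online transportation (in particular online metric assignment, all capacities
equal to one) in arbitrary metric spaces, with arbitrary capacities.
-/

namespace Pool.Agent.Results.MP_a4c1f4_lc.AllMetrics

open Finset Pool.Agent.MP_a4c1f4_lc

/-- The sites chosen by the online rule `A` for the requests `l`. Lists of requests are
written with the most recent request first: `A x l` is the site serving the request `x` when
`l` is the list of the earlier requests. -/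
def assigned {N : Type*} {m : ℕ} (A : N → List N → Fin m) : List N → List (Fin m)
  | [] => []
  | x :: l => A x l :: assigned A l

/-- The cost of serving the requests `l` by the sites `τ`. -/
noncomputable def cost {N : Type*} [MetricSpace N] {m : ℕ} (s : Fin m → N) (l : List N)
    (τ : List (Fin m)) : ℝ := (List.zipWith (fun x j => dist x (s j)) l τ).sum

/-- No site is used more often than its capacity. -/
def Respects {m : ℕ} (cap : Fin m → ℕ) (τ : List (Fin m)) : Prop := ∀ j, τ.count j ≤ cap j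

section Aux

variable {N : Type*} [MetricSpace N] {m : ℕ}

private theorem cost_cons (s : Fin m → N) (x : N) (l : List N) (j : Fin m) (τ : List (Fin m)) :
    cost s (x :: l) (j :: τ) = dist x (s j) + cost s l τ := by
  simp [cost]

private theorem cost_nonneg (s : Fin m → N) (l : List N) (τ : List (Fin m)) :
    0 ≤ cost s l τ := by
  induction l generalizing τ with
  | nil => simp [cost]
  | cons x l ih =>
    cases τ with
    | nil => simp [cost]
    | cons j τ => rw [cost_cons]; have := ih τ; positivity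

variable (cap : Fin m → ℕ)

private theorem assigned_eq (p : N → (j : Fin m) × Fin (cap j)) [Nonempty ((j : Fin m) × Fin (cap j))]
    (c : ((j : Fin m) × Fin (cap j)) → ((j : Fin m) × Fin (cap j)) → ℝ) (l : List N) :
    assigned (fun x l => (srv c (p x) (l.map p)).1) l = (srvs c (l.map p)).map Sigma.fst := by
  induction l with
  | nil => rfl
  | cons x l ih => simp only [assigned, List.map_cons, srvs, ih]

private theorem alg_cost (s : Fin m → N) (p : N → (j : Fin m) × Fin (cap j))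
    [Nonempty ((j : Fin m) × Fin (cap j))]
    (c : ((j : Fin m) × Fin (cap j)) → ((j : Fin m) × Fin (cap j)) → ℝ) (l : List N) :
    cost s l (assigned (fun x l => (srv c (p x) (l.map p)).1) l) ≤
      (l.map (fun x => dist x (s (p x).1))).sum +
        tcost (fun t t' => dist (s t.1) (s t'.1)) c (l.map p) := by
  induction l with
  | nil => simp [cost, tcost, assigned]
  | cons x l ih =>
    simp only [assigned, cost_cons, List.map_cons, List.sum_cons, tcost]
    have := dist_triangle x (s (p x).1) (s (srv c (p x) (l.map p)).1)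
    linarith

private theorem opt_cost (s : Fin m → N) (p : N → (j : Fin m) × Fin (cap j))
    (hp : ∀ x (t : (j : Fin m) × Fin (cap j)), dist x (s (p x).1) ≤ dist x (s t.1))
    (l : List N) (τ' : List ((j : Fin m) × Fin (cap j))) (hl : τ'.length = l.length) :
    acost (fun t t' : (j : Fin m) × Fin (cap j) => dist (s t.1) (s t'.1)) (l.map p) τ' ≤
        2 * cost s l (τ'.map Sigma.fst) ∧
      (l.map (fun x => dist x (s (p x).1))).sum ≤ cost s l (τ'.map Sigma.fst) := by
  induction l generalizing τ' with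
  | nil =>
    cases τ' with
    | nil => simp [acost, cost]
    | cons t τ' => simp at hl
  | cons x l ih =>
    cases τ' with
    | nil => simp at hl
    | cons t τ' =>
      obtain ⟨h1, h2⟩ := ih τ' (by simpa using hl)
      simp only [List.map_cons, cost_cons, List.sum_cons]
      have h3 := hp x t
      have h4 := dist_triangle (s (p x).1) x (s t.1)
      rw [dist_comm (s (p x).1) x] at h4
      have h5 : acost (fun t t' : (j : Fin m) × Fin (cap j) => dist (s t.1) (s t'.1))
          (p x :: l.map p) (t :: τ') = dist (s (p x).1) (s t.1) +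
          acost (fun t t' : (j : Fin m) × Fin (cap j) => dist (s t.1) (s t'.1)) (l.map p) τ' := by
        simp [acost]
      rw [h5]
      constructor <;> linarith

end Aux

private theorem main_aux (hCore : CoreProp3) (hMet : MetricProp3) (hB : OptBasicProp)
    (hSrv : ∀ (T : Type) [Fintype T] [DecidableEq T] [Nonempty T] (c : T → T → ℝ) (l : List T),
      l.length ≤ Fintype.card T →
      (srvs c l).Nodup ∧ (srvs c l).length = l.length ∧ (srvs c l).toFinset = used c l)
    (hCopies : ∀ (m : ℕ) (cap : Fin m → ℕ) (τ : List (Fin m)), (∀ j, τ.count j ≤ cap j) →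
      ∃ τ' : List ((j : Fin m) × Fin (cap j)), τ'.Nodup ∧ τ'.map Sigma.fst = τ)
    (hCount : ∀ (m : ℕ) (cap : Fin m → ℕ) (τ : List ((j : Fin m) × Fin (cap j))), τ.Nodup →
      ∀ j : Fin m, (τ.map Sigma.fst).count j ≤ cap j)
    {N : Type*} [MetricSpace N] (m : ℕ) (hm : 0 < m) (s : Fin m → N) (cap : Fin m → ℕ)
    (hcap : ∀ j, 0 < cap j) (n : ℕ) (hn : 0 < n)
    (hs : Nat.log 2 m + 5 ≤ n ∨ ∃ K : Finset ℤ, K.card ≤ n ∧ ∀ i j, dist (s i) (s j) = 0 ∨
      ∃ k ∈ K, (4 : ℝ) ^ k ≤ dist (s i) (s j) ∧ dist (s i) (s j) < (4 : ℝ) ^ (k + 1)) :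
    ∃ (Ω : Type) (_ : Fintype Ω) (w : Ω → ℝ) (A : Ω → N → List N → Fin m),
      (∀ ω, 0 ≤ w ω) ∧ ∑ ω, w ω = 1 ∧
      (∀ ω l, l.length ≤ ∑ j, cap j → Respects cap (assigned (A ω) l)) ∧
      ∀ (l : List N) (τ : List (Fin m)), τ.length = l.length → Respects cap τ →
        ∑ ω, w ω * cost s l (assigned (A ω) l) ≤
          36300 * n * (Nat.log 2 n + 2) * (Real.log m + n) * cost s l τ := by
  classical
  have hcard : Fintype.card ((j : Fin m) × Fin (cap j)) = ∑ j, cap j := by
    simp [Fintype.card_sigma]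
  haveI hne : Nonempty ((j : Fin m) × Fin (cap j)) := ⟨⟨⟨0, hm⟩, ⟨0, hcap _⟩⟩⟩
  haveI hne' : Nonempty (Fin m) := ⟨⟨0, hm⟩⟩
  set D : Fin m → Fin m → ℝ := fun t t' => dist (s t) (s t') with hD
  have hPM : PM D := ⟨fun x => dist_self _, fun x y => dist_comm _ _,
    fun x y z => dist_triangle _ _ _⟩
  obtain ⟨h, E, rho, hLv, hhm⟩ := hMet m D n hPM hm hn hs
  obtain ⟨Ω, fΩ, w, c, hw0, hw1, hmain⟩ :=
    hCore (Fin m) ((j : Fin m) × Fin (cap j)) Sigma.fst h n D E rho hLv
      (by rw [Fintype.card_fin]; exact hhm)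
  have hp : ∀ x : N, ∃ t : (j : Fin m) × Fin (cap j), ∀ t' : (j : Fin m) × Fin (cap j),
      dist x (s t.1) ≤ dist x (s t'.1) := by
    intro x
    obtain ⟨t, -, ht⟩ := Finset.exists_min_image (Finset.univ : Finset ((j : Fin m) × Fin (cap j)))
      (fun t => dist x (s t.1)) Finset.univ_nonempty
    exact ⟨t, fun t' => ht t' (Finset.mem_univ _)⟩
  choose p hp using hp
  refine ⟨Ω, fΩ, w, fun ω x l => (srv (c ω) (p x) (l.map p)).1, hw0, hw1, ?_, ?_⟩
  · intro ω l hl j
    have := hSrv _ (c ω) (l.map p) (by rw [hcard]; simpa using hl)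
    rw [assigned_eq cap p (c ω) l]
    exact hCount m cap _ this.1 j
  · intro l τ hlen hresp
    obtain ⟨τ', hnd, hmap⟩ := hCopies m cap τ hresp
    have hlen' : τ'.length = l.length := by
      rw [← hlen, ← hmap, List.length_map]
    obtain ⟨ho1, ho2⟩ := opt_cost cap s p hp l τ' hlen'
    rw [hmap] at ho1 ho2
    have hcardl : (l.map p).length ≤ Fintype.card ((j : Fin m) × Fin (cap j)) := by
      rw [List.length_map, ← hlen']
      exact hnd.length_le_card
    have h1 := hmain (l.map p) hcardl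
    have h2 : optv (pull Sigma.fst D) (l.map p) ≤ acost (pull Sigma.fst D) (l.map p) τ' :=
      (hB _ (pull Sigma.fst D) (l.map p)).1 τ' ⟨by rw [List.length_map, hlen'], hnd⟩
    have hsum : ∑ ω, w ω * cost s l (assigned (fun x l => (srv (c ω) (p x) (l.map p)).1) l) ≤
        (l.map (fun x => dist x (s (p x).1))).sum +
          ∑ ω, w ω * tcost (pull Sigma.fst D) (c ω) (l.map p) := by
      calc ∑ ω, w ω * cost s l (assigned (fun x l => (srv (c ω) (p x) (l.map p)).1) l)
          ≤ ∑ ω, w ω * ((l.map (fun x => dist x (s (p x).1))).sum +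
              tcost (pull Sigma.fst D) (c ω) (l.map p)) :=
            Finset.sum_le_sum fun ω _ => mul_le_mul_of_nonneg_left
              (alg_cost cap s p (c ω) l) (hw0 ω)
        _ = _ := by
            simp only [mul_add]
            rw [Finset.sum_add_distrib, ← Finset.sum_mul, hw1, one_mul]
    have hM1 : (1 : ℝ) ≤ (m : ℝ) := by exact_mod_cast hm
    have hlog : 0 ≤ Real.log (m : ℝ) := Real.log_nonneg hM1
    have hn1 : (1 : ℝ) ≤ (n : ℝ) := by exact_mod_cast hn
    have hC := cost_nonneg s l τ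
    set X : ℝ := Real.log (m : ℝ) with hX
    set J : ℝ := ((Nat.log 2 n : ℕ) : ℝ) + 2 with hJ
    have hJ2 : (2 : ℝ) ≤ J := by
      have : (0 : ℝ) ≤ ((Nat.log 2 n : ℕ) : ℝ) := Nat.cast_nonneg _
      linarith
    rw [Fintype.card_fin, ← hX] at h1
    have hR0 : 0 ≤ 504 * (n : ℝ) * J * (9 * n + 36 * X + 20) + 2 := by positivity
    have h3 : ∑ ω, w ω * tcost (pull Sigma.fst D) (c ω) (l.map p) ≤
        (504 * (n : ℝ) * J * (9 * n + 36 * X + 20) + 2) * (2 * cost s l τ) :=
      h1.trans (mul_le_mul_of_nonneg_left (h2.trans ho1) hR0)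
    have h4 : 1 + 2 * (504 * (n : ℝ) * J * (9 * n + 36 * X + 20) + 2) ≤
        36300 * n * J * (X + n) := by
      have hnJ : 2 ≤ (n : ℝ) * J := by nlinarith
      have e1 : 1 + 2 * (504 * (n : ℝ) * J * (9 * n + 36 * X + 20) + 2) =
        ((n : ℝ) * J) * (1008 * (9 * n + 36 * X + 20)) + 5 := by ring
      have e2 : 36300 * n * J * (X + n) = ((n : ℝ) * J) * (36300 * (X + n)) := by ring
      rw [e1, e2]
      have e3 : 1008 * (9 * (n : ℝ) + 36 * X + 20) + 5 / 2 ≤ 36300 * (X + n) := by nlinarith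
      nlinarith [mul_le_mul_of_nonneg_left e3 (by linarith : (0 : ℝ) ≤ (n : ℝ) * J)]
    calc ∑ ω, w ω * cost s l (assigned (fun x l => (srv (c ω) (p x) (l.map p)).1) l)
        ≤ cost s l τ + (504 * (n : ℝ) * J * (9 * n + 36 * X + 20) + 2) * (2 * cost s l τ) := by
          linarith
      _ = (1 + 2 * (504 * (n : ℝ) * J * (9 * n + 36 * X + 20) + 2)) * cost s l τ := by ring
      _ ≤ 36300 * n * J * (X + n) * cost s l τ := mul_le_mul_of_nonneg_right h4 hC

/-- Online transportation in an arbitrary metric space: `m` sites with arbitrary capacities. Let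
`n ≥ 1` be such that `log_2 m + 5 ≤ n` or the distances between the sites use at most `n` of
the dyadic scales `[4^k, 4^(k+1))`. Then there is a randomized online algorithm whose competitive
ratio against an oblivious adversary is at most `36300 n (log_2 n + 2) (ln m + n)`. -/
theorem result {N : Type*} [MetricSpace N] (m : ℕ) (hm : 0 < m) (s : Fin m → N)
    (cap : Fin m → ℕ) (hcap : ∀ j, 0 < cap j) (n : ℕ) (hn : 0 < n)
    (hs : Nat.log 2 m + 5 ≤ n ∨ ∃ K : Finset ℤ, K.card ≤ n ∧ ∀ i j, dist (s i) (s j) = 0 ∨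
      ∃ k ∈ K, (4 : ℝ) ^ k ≤ dist (s i) (s j) ∧ dist (s i) (s j) < (4 : ℝ) ^ (k + 1)) :
    ∃ (Ω : Type) (_ : Fintype Ω) (w : Ω → ℝ) (A : Ω → N → List N → Fin m),
      (∀ ω, 0 ≤ w ω) ∧ ∑ ω, w ω = 1 ∧
      (∀ ω l, l.length ≤ ∑ j, cap j → Respects cap (assigned (A ω) l)) ∧
      ∀ (l : List N) (τ : List (Fin m)), τ.length = l.length → Respects cap τ →
        ∑ ω, w ω * cost s l (assigned (A ω) l) ≤
          36300 * n * (Nat.log 2 n + 2) * (Real.log m + n) * cost s l τ := by
  have hA2 := optBasic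
  have hA3 := augOpt augment hA2
  have hA4 := usedP hA3
  have hA5 := mono hA2
  have hA6 := potP hA2
  have hA7 := stepP hA4 hA6
  have hA8 := farP hA2 hA4 hA5
  have hC1 := field
  have hC2 := selP
  have hC3 := exitP hC1 hC2
  have hD0 := weight
  have hD1 := indep hD0
  have hD2 := resample hD0
  have hD3 := marginal hD0
  have hD6 := capProb hC2 hD0 hD3 permP ctrP
  have hD7 := expLevel hD0 hD6
  have hP1 := asgBasic
  have hP2 := asgList hP1 hA2
  have hP3 := asgVal hP1
  have hP5 := capBasic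
  have hP6 := capMono hP5 sup
  have hP7 := haul sup hP5 hP6
  have hP9 := window hP5 hP6 hP7 block
  have hP10 := capInv hP1 hP5
  have hN1 := cost3 hC1
  have hN2 := oneVar3 hA5 hA4 hA7 hA6 abel hC1 hC2 hC3
  have hN3 := level3 hA5 hN2 hC2 hD0 hD2 ctrP hC1 hN1
  have hN4 := stepCost3 hA5 hA8 hD0 hN1 hN3
  have hN5 := expBlock hD0 hD1 hD7
  have hcore := core3 hA5 hD0 hD1 hD6 hN5 hN1 hN4 param3 hP2 hP3 hP6 hP10 hP9 hC1
  exact main_aux hcore (metric3 contract) hA2
    (fun T _ _ _ c l hl => srvs_spec hA4 T c l hl) copies copies_count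
    m hm s cap hcap n hn hs

end Pool.Agent.Results.MP_a4c1f4_lc.AllMetrics
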