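import Pool.Agent.Lib.MP_a4c1f4_lc.Spec

set_option linter.all false

/-!
(E5) The theorem for requests at the sites: induction over the requests.
-/

namespace Pool.Agent.MP_a4c1f4_lc

open Finset

private theorem core_Ex_add {T : Type} [Fintype T] [DecidableEq T] {h J L : ℕ} (u : ℕ → ℝ)
    (f g : Om T h J L → ℝ) : Ex u (fun ω => f ω + g ω) = Ex u f + Ex u g := by
  unfold Ex
  rw [← Finset.sum_add_distrib]
  exact Finset.sum_congr rfl fun ω _ => by ring

private theorem core_Ex_sub {T : Type} [Fintype T] [DecidableEq T] {h J L : ℕ} (u : ℕ → ℝ)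
    (f g : Om T h J L → ℝ) : Ex u (fun ω => f ω - g ω) = Ex u f - Ex u g := by
  unfold Ex
  rw [← Finset.sum_sub_distrib]
  exact Finset.sum_congr rfl fun ω _ => by ring

theorem core (hM : MonoProp) (hW : WeightProp) (hCo : CostProp) (hSC : StepCostProp)
    (hPa : ParamProp) : CoreProp := by
  intro T _ _ _ h D a hD hh ha0 ha4 hcov
  have hMpos : 0 < Fintype.card T := Fintype.card_pos
  obtain ⟨L, u0, w0, hL, hu0, hw0, hLu, hE⟩ := hPa h (Fintype.card T) hh hMpos
  obtain ⟨J, hJ⟩ : ∃ J : ℕ, J = Nat.log 2 h + 2 := ⟨_, rfl⟩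
  have hJR : (J : ℝ) = (Nat.log 2 h : ℝ) + 2 := by rw [hJ]; push_cast; ring
  have hJpos : 0 < J := by omega
  obtain ⟨u, hu⟩ : ∃ u : ℕ → ℝ, u = fun i => 2 ^ i * u0 := ⟨_, rfl⟩
  have hui : ∀ i, u i = 2 ^ i * u0 := fun i => by rw [hu]
  obtain ⟨lam, hlam⟩ : ∃ lam : ℝ, lam = 1 / (2 * h * J) := ⟨_, rfl⟩
  obtain ⟨rho, hrho⟩ : ∃ rho : ℕ → ℝ, rho = fun k => a k / 6 := ⟨_, rfl⟩
  have hrk : ∀ k, 6 * rho k = a k := fun k => by rw [hrho]; ring
  have hrho0 : ∀ k, k < h → 0 < rho k := fun k hk => by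
    have := ha0 k hk
    have := hrk k
    linarith
  have hrho4 : ∀ k, k + 1 < h → 4 * rho k ≤ rho (k + 1) := fun k hk => by
    have h1 := ha4 k hk
    have h2 := hrk k
    have h3 := hrk (k + 1)
    linarith
  have hcov' : ∀ r s, D r s = 0 ∨ ∃ k, k < h ∧ 6 * rho k ≤ D r s ∧ D r s < 4 * (6 * rho k) := by
    intro r s
    rcases hcov r s with h0 | ⟨k, hk, h1, h2⟩
    · exact Or.inl h0
    · exact Or.inr ⟨k, hk, by rw [hrk]; exact h1, by rw [hrk]; exact h2⟩
  have hhR : (0 : ℝ) < h := by exact_mod_cast hh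
  have hJR0 : (0 : ℝ) < J := by exact_mod_cast hJpos
  have hLR : (0 : ℝ) < L := by exact_mod_cast hL
  have hMR : (0 : ℝ) < (Fintype.card T : ℝ) := by exact_mod_cast hMpos
  have hJ1 : J - 1 = Nat.log 2 h + 2 - 1 := by rw [hJ]
  have huL : u (J - 1) ≤ L := by rw [hui, hJ1]; exact hLu
  have hq : ∀ i, i < J → 0 ≤ qq u L i ∧ qq u L i ≤ 1 := by
    intro i hi
    have h1 : 0 ≤ u i := by
      rw [hui]
      have : (0 : ℝ) < 2 ^ i := by positivity
      nlinarith
    have h2 : u i ≤ u (J - 1) := by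
      rw [hui, hui]
      have : (2 : ℝ) ^ i ≤ 2 ^ (J - 1) := pow_le_pow_right₀ (by norm_num) (by omega)
      nlinarith
    have h3 : u i / L ≤ 1 := by
      rw [div_le_one hLR]
      linarith
    have h4 : 0 ≤ u i / L := div_nonneg h1 hLR.le
    unfold qq
    constructor <;> linarith
  have hlam0 : 0 ≤ lam := by
    rw [hlam]
    positivity
  have hlamJ : (h : ℝ) * J * lam ≤ 1 / 2 := by
    rw [hlam]
    apply le_of_eq
    field_simp
  -- the costs
  have hc : ∀ ω : Om T h J L, ∀ r s, D r s ≤ 2 * cst D (pot D lam rho ω) r s ∧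
      cst D (pot D lam rho ω) r s ≤ 3 / 2 * D r s := fun ω =>
    hCo T h J L D lam rho ω hD hlam0 (fun k hk => (hrho0 k hk).le) hlamJ
  have hc0 : ∀ ω : Om T h J L, ∀ r s, 0 ≤ cst D (pot D lam rho ω) r s := fun ω r s => by
    have h1 := (hc ω r s).1
    have h2 := hD.nonneg r s
    linarith
  obtain ⟨hw1, hw2⟩ := hW.2.2.2 T h J L u
  have hwnn := hw2 hq
  -- the error of one step
  obtain ⟨E, hEdef⟩ : ∃ E : ℝ, E = 48 * h * J * (12 *
      (Real.exp (- w0 / 8) * Real.exp (h * (u0 / 8 + 1)) * (Fintype.card T : ℝ)))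
      + 24 * h * (J * (Fintype.card T : ℝ) * (u (J - 1) / L * (1 + (Fintype.card T : ℝ)))
          + (Fintype.card T : ℝ) * Real.exp (- u (J - 1))) := ⟨_, rfl⟩
  have huJ0 : 0 ≤ u (J - 1) := by
    rw [hui]
    have : (0 : ℝ) < 2 ^ (J - 1) := by positivity
    nlinarith
  have hE0 : 0 ≤ E := by
    rw [hEdef]
    positivity
  have hEM : (Fintype.card T : ℝ) * E ≤ 2 := by
    refine le_trans (le_of_eq ?_) hE
    rw [hEdef, hui, hJ1, hJR]
    ring
  have hw00 : 0 ≤ w0 := by
    rw [hw0]
    have : 0 ≤ Real.log (Fintype.card T) := Real.log_nonneg (by exact_mod_cast hMpos)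
    positivity
  obtain ⟨A, hA⟩ : ∃ A : ℝ, A = 48 * h * J * w0 := ⟨_, rfl⟩
  have hA0 : 0 ≤ A := by rw [hA]; positivity
  have step : ∀ (x : T) (l : List T), l.length + 1 ≤ Fintype.card T →
      Ex u (fun ω : Om T h J L => D x (srv (cst D (pot D lam rho ω)) x l)) ≤
        A * (Ex u (fun ω : Om T h J L => optv (cst D (pot D lam rho ω)) (x :: l))
          - Ex u (fun ω : Om T h J L => optv (cst D (pot D lam rho ω)) l))
          + E * optv D (x :: l) := by
    intro x l hl
    have := hSC T h J L u u0 w0 D lam rho x l hD hh hJpos hlam hrho0 hrho4 hL hu0 hui huL hl hcov'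
    refine le_trans this (le_of_eq ?_)
    rw [core_Ex_sub, hA, hEdef]
    ring
  have main : ∀ l : List T, l.length ≤ Fintype.card T →
      Ex u (fun ω : Om T h J L => tcost D (cst D (pot D lam rho ω)) l) ≤
        A * Ex u (fun ω : Om T h J L => optv (cst D (pot D lam rho ω)) l)
          + l.length * E * optv D l := by
    intro l
    induction l with
    | nil =>
      intro _
      have h1 : Ex u (fun ω : Om T h J L => tcost D (cst D (pot D lam rho ω)) []) = 0 := by
        unfold Ex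
        exact Finset.sum_eq_zero fun ω _ => by simp [tcost]
      have h2 : 0 ≤ Ex u (fun ω : Om T h J L => optv (cst D (pot D lam rho ω)) []) := by
        unfold Ex
        exact Finset.sum_nonneg fun ω _ =>
          mul_nonneg (hwnn ω) ((hM T (cst D (pot D lam rho ω)) []).2.1 (hc0 ω))
      rw [h1]
      simp only [List.length_nil, Nat.cast_zero, zero_mul, add_zero]
      exact mul_nonneg hA0 h2
    | cons x l ih =>
      intro hl
      rw [List.length_cons] at hl
      have ih' := ih (by omega)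
      have hst := step x l hl
      have e : Ex u (fun ω : Om T h J L => tcost D (cst D (pot D lam rho ω)) (x :: l)) =
          Ex u (fun ω : Om T h J L => tcost D (cst D (pot D lam rho ω)) l) +
          Ex u (fun ω : Om T h J L => D x (srv (cst D (pot D lam rho ω)) x l)) := by
        rw [← core_Ex_add]
        rfl
      rw [e]
      have hmono : optv D l ≤ optv D (x :: l) :=
        (hM T D l).1 (fun r s => hD.nonneg r s) x hl
      have h3 : (l.length : ℝ) * E * optv D l ≤ (l.length : ℝ) * E * optv D (x :: l) :=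
        mul_le_mul_of_nonneg_left hmono (by positivity)
      rw [List.length_cons]
      push_cast
      nlinarith
  refine ⟨Om T h J L, inferInstance, omw u, fun ω => cst D (pot D lam rho ω), hwnn, hw1, ?_⟩
  intro l hl
  have h1 := main l hl
  have hopt0 : 0 ≤ optv D l := (hM T D l).2.1 (fun r s => hD.nonneg r s)
  have h2 : Ex u (fun ω : Om T h J L => optv (cst D (pot D lam rho ω)) l) ≤ 3 / 2 * optv D l := by
    calc Ex u (fun ω : Om T h J L => optv (cst D (pot D lam rho ω)) l)
        ≤ ∑ ω : Om T h J L, omw u ω * (3 / 2 * optv D l) := by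
          unfold Ex
          refine Finset.sum_le_sum fun ω _ => mul_le_mul_of_nonneg_left ?_ (hwnn ω)
          exact (hM T D l).2.2 (cst D (pot D lam rho ω)) (3 / 2) (fun r s => (hc ω r s).2) hl
      _ = 3 / 2 * optv D l := by rw [← Finset.sum_mul, hw1, one_mul]
  have h3 : (l.length : ℝ) * E * optv D l ≤ 2 * optv D l := by
    refine mul_le_mul_of_nonneg_right ?_ hopt0
    refine le_trans (mul_le_mul_of_nonneg_right ?_ hE0) hEM
    exact_mod_cast hl
  have h4 : A * Ex u (fun ω : Om T h J L => optv (cst D (pot D lam rho ω)) l) ≤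
      A * (3 / 2 * optv D l) := mul_le_mul_of_nonneg_left h2 hA0
  have h5 : A * (3 / 2 * optv D l) + 2 * optv D l = (72 * h * (Nat.log 2 h + 2) *
            (17 * h + 18 * Real.log (Fintype.card T) + 68) + 2) * optv D l := by
    rw [hA, hw0, hJR]
    ring
  rw [← h5]
  change Ex u (fun ω : Om T h J L => tcost D (cst D (pot D lam rho ω)) l) ≤ _
  linarith

end Pool.Agent.MP_a4c1f4_lc
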