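import Pool.Agent.Lib.MP_a4c1f4_lc.StepCost2

set_option linter.all false

/-!
The theorem for the copies: choice of the parameters, summation over the requests,
conditioning on the good event.
-/

namespace Pool.Agent.MP_a4c1f4_lc

open Finset

/-! ### Parameters -/

private theorem param2_exp (n : ℕ) : (2.7 : ℝ) ^ n ≤ Real.exp n := by
  have h1 : (2.7 : ℝ) < Real.exp 1 := lt_trans (by norm_num) Real.exp_one_gt_d9
  have h2 : Real.exp n = Real.exp 1 ^ n := by
    rw [← Real.exp_nat_mul]
    norm_num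
  rw [h2]
  exact pow_le_pow_left₀ (by norm_num) h1.le n

theorem param2 (h m M : ℕ) (hh : 0 < h) (hm : 0 < m) (hM : 0 < M) :
    ∃ (L : ℕ) (u0 w0 : ℝ), 0 < L ∧ 1 ≤ u0 ∧ 0 ≤ w0 ∧
    w0 = 9 * h + 18 * Real.log m + 25 ∧
    2 ^ (Nat.log 2 h + 2 - 1) * u0 ≤ L ∧
    8 * Real.exp (- w0 / 8) * (Real.exp (h * (u0 / 8 + 1)) * m) * m ≤ 1 ∧
    24 * h * ((Nat.log 2 h + 2) * m * (2 ^ (Nat.log 2 h + 2 - 1) * u0 / L * (1 + M))) * M ≤ 1 ∧
    h * m * (m * Real.exp (- (2 ^ (Nat.log 2 h + 2 - 1) * u0))) ≤ 1 / 2 := by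
  obtain ⟨J, hJ⟩ : ∃ J : ℕ, J = Nat.log 2 h + 2 := ⟨_, rfl⟩
  have hJR : ((Nat.log 2 h : ℝ) + 2) = (J : ℝ) := by rw [hJ]; push_cast; ring
  have hhR : (1 : ℝ) ≤ h := by exact_mod_cast hh
  have hmR : (1 : ℝ) ≤ m := by exact_mod_cast hm
  have hMR : (1 : ℝ) ≤ M := by exact_mod_cast hM
  have hJR0 : (2 : ℝ) ≤ J := by rw [← hJR]; linarith [Nat.cast_nonneg (α := ℝ) (Nat.log 2 h)]
  have hlM : 0 ≤ Real.log m := Real.log_nonneg hmR
  obtain ⟨u0, hu0⟩ : ∃ u0 : ℝ, u0 = 1 + (2 * Real.log m + 1) / h := ⟨_, rfl⟩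
  have hu1 : 1 ≤ u0 := by
    rw [hu0]
    have : 0 ≤ (2 * Real.log m + 1) / h := by positivity
    linarith
  have hhu : h * u0 = h + 2 * Real.log m + 1 := by
    rw [hu0]
    field_simp
    ring
  obtain ⟨U, hU⟩ : ∃ U : ℝ, U = 2 ^ (Nat.log 2 h + 2 - 1) * u0 := ⟨_, rfl⟩
  have hUge : h + 2 * Real.log m + 1 ≤ U := by
    rw [← hhu, hU]
    have h1 : h < 2 ^ (Nat.log 2 h + 2 - 1) := by
      have := Nat.lt_pow_succ_log_self (b := 2) (by norm_num) h
      simpa using this
    have h2 : (h : ℝ) ≤ 2 ^ (Nat.log 2 h + 2 - 1) := by exact_mod_cast h1.le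
    nlinarith
  have hU0 : 0 < U := by linarith
  obtain ⟨K, hK⟩ : ∃ K : ℝ, K = 24 * h * J * m * (1 + M) * M * U := ⟨_, rfl⟩
  have hKU : U ≤ K := by
    rw [hK]
    have h1 : (1 : ℝ) ≤ 24 * h * J * m * (1 + M) * M := by
      have a1 : (1 : ℝ) ≤ 24 * h := by linarith
      have a2 : (1 : ℝ) ≤ 24 * h * J := by nlinarith
      have a3 : (1 : ℝ) ≤ 24 * h * J * m := by nlinarith
      have a4 : (1 : ℝ) ≤ 24 * h * J * m * (1 + M) := by nlinarith
      nlinarith
    nlinarith
  have hK0 : 0 < K := lt_of_lt_of_le hU0 hKU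
  obtain ⟨L, hL⟩ : ∃ L : ℕ, L = ⌈K⌉₊ := ⟨_, rfl⟩
  have hLK : K ≤ L := by rw [hL]; exact Nat.le_ceil K
  have hL0 : 0 < L := by rw [hL]; exact Nat.ceil_pos.mpr hK0
  have hLR : (0 : ℝ) < L := by exact_mod_cast hL0
  have hexpM : Real.exp (Real.log m) = m := Real.exp_log (by linarith)
  have e2 : Real.exp (-(2 * Real.log m)) * (m * m) = 1 := by
    rw [← hexpM, Real.log_exp, ← Real.exp_add, ← Real.exp_add]
    rw [show -(2 * Real.log m) + (Real.log m + Real.log m) = 0 by ring, Real.exp_zero]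
  refine ⟨L, u0, 9 * h + 18 * Real.log m + 25, hL0, hu1, by positivity, rfl, ?_, ?_, ?_, ?_⟩
  · rw [← hU]
    linarith
  · have e1 : Real.exp (-(9 * h + 18 * Real.log m + 25) / 8) * Real.exp (h * (u0 / 8 + 1)) =
        Real.exp (-3) * Real.exp (-(2 * Real.log m)) := by
      rw [← Real.exp_add, ← Real.exp_add]
      congr 1
      have : (h : ℝ) * (u0 / 8 + 1) = h * u0 / 8 + h := by ring
      rw [this, hhu]
      ring
    have e3 : 8 * Real.exp (-(9 * h + 18 * Real.log m + 25) / 8) *
        (Real.exp (h * (u0 / 8 + 1)) * m) * m = 8 * Real.exp (-3) := by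
      calc _ = 8 * (Real.exp (-(9 * h + 18 * Real.log m + 25) / 8) *
            Real.exp (h * (u0 / 8 + 1))) * (m * m) := by ring
        _ = 8 * Real.exp (-3) * (Real.exp (-(2 * Real.log m)) * (m * m)) := by rw [e1]; ring
        _ = _ := by rw [e2, mul_one]
    rw [e3]
    have h3 := param2_exp 3
    have h4 : Real.exp (-3) * Real.exp 3 = 1 := by
      rw [← Real.exp_add]
      norm_num
    have h5 : (8 : ℝ) ≤ Real.exp 3 := by
      refine le_trans (by norm_num) (show (2.7 : ℝ) ^ 3 ≤ Real.exp 3 from ?_)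
      exact_mod_cast h3
    have h6 : 0 < Real.exp (-3) := Real.exp_pos _
    nlinarith
  · rw [← hU, hJR]
    have e : 24 * (h : ℝ) * (J * m * (U / L * (1 + M))) * M = K / L := by
      rw [hK]
      field_simp
    rw [e, div_le_one hLR]
    exact hLK
  · rw [← hU]
    have e1 : Real.exp (-U) ≤ Real.exp (-h - 1) * Real.exp (-(2 * Real.log m)) := by
      rw [← Real.exp_add]
      exact Real.exp_le_exp.mpr (by linarith)
    have e3 : (h : ℝ) * m * (m * Real.exp (-U)) ≤ h * Real.exp (-h - 1) := by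
      calc (h : ℝ) * m * (m * Real.exp (-U)) = h * (m * m) * Real.exp (-U) := by ring
        _ ≤ h * (m * m) * (Real.exp (-h - 1) * Real.exp (-(2 * Real.log m))) :=
            mul_le_mul_of_nonneg_left e1 (by positivity)
        _ = h * Real.exp (-h - 1) * (Real.exp (-(2 * Real.log m)) * (m * m)) := by ring
        _ = _ := by rw [e2, mul_one]
    refine le_trans e3 ?_
    have h1 : (h : ℝ) ≤ Real.exp (h - 1) := by
      have := Real.add_one_le_exp ((h : ℝ) - 1)
      linarith
    have h2 := param2_exp 2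
    have h5 : (2 : ℝ) ≤ Real.exp 2 := by
      refine le_trans (by norm_num) (show (2.7 : ℝ) ^ 2 ≤ Real.exp 2 from ?_)
      exact_mod_cast h2
    have hexp : Real.exp (-(h : ℝ) - 1) * (Real.exp (h - 1) * Real.exp 2) = 1 := by
      rw [← Real.exp_add, ← Real.exp_add, show -(h : ℝ) - 1 + (h - 1 + 2) = 0 by ring,
        Real.exp_zero]
    have hp : 0 < Real.exp (-(h : ℝ) - 1) := Real.exp_pos _
    have hle : 2 * (h : ℝ) ≤ Real.exp (h - 1) * Real.exp 2 := by nlinarith
    nlinarith

/-! ### Weighted sum of the increments of the optimum -/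

/-- Sum of the increments of the optimum, with weights. -/
noncomputable def wsum {T : Type} (c : T → T → ℝ) (W : T → ℝ) : List T → ℝ
  | [] => 0
  | x :: l => wsum c W l + (optv c (x :: l) - optv c l) * W x

theorem wsum_le (hM : MonoProp) {T : Type} [Fintype T] [DecidableEq T] (c : T → T → ℝ)
    (hc : ∀ r s, 0 ≤ c r s) (W : T → ℝ) (K : ℝ) (hK : 0 ≤ K) (hW : ∀ x, W x ≤ K)
    (l : List T) (hl : l.length ≤ Fintype.card T) : wsum c W l ≤ K * optv c l := by
  induction l with
  | nil =>
    simp only [wsum]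
    exact mul_nonneg hK ((hM T c []).2.1 hc)
  | cons x l ih =>
    rw [List.length_cons] at hl
    have h1 := ih (by omega)
    have h2 : 0 ≤ optv c (x :: l) - optv c l := sub_nonneg.2 ((hM T c l).1 hc x hl)
    have h3 := mul_le_mul_of_nonneg_left (hW x) h2
    simp only [wsum]
    nlinarith

/-! ### The theorem for the copies -/

/-- The theorem for requests at the sites, with copies. -/
def CoreProp2 : Prop :=
  ∀ (S T : Type) [Fintype S] [DecidableEq S] [Nonempty S] [Fintype T] [DecidableEq T]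
    [Nonempty T] (σ : T → S) (h : ℕ) (D : S → S → ℝ)
    (a : ℕ → ℝ), PM D → 0 < h → (∀ k, k < h → 0 < a k) →
    (∀ k, k + 1 < h → 4 * a k ≤ a (k + 1)) →
    (∀ r s, D r s = 0 ∨ ∃ k, k < h ∧ a k ≤ D r s ∧ D r s < 4 * a k) →
    ∃ (Ω : Type) (_ : Fintype Ω) (w : Ω → ℝ) (c : Ω → T → T → ℝ),
      (∀ ω, 0 ≤ w ω) ∧ ∑ ω, w ω = 1 ∧
      ∀ l : List T, l.length ≤ Fintype.card T →
        ∑ ω, w ω * tcost (pull σ D) (c ω) l ≤
          (144 * h * (Nat.log 2 h + 2) *
            (9 * h + 18 * Real.log (Fintype.card S) + 26) + 2) * optv (pull σ D) l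

theorem core2 (hM : MonoProp) (hW : WeightProp) (hI : IndepProp) (hCa : CapProbProp)
    (hE : ExpMomentProp) (hCo : CostProp) (hSC : StepCostProp2) : CoreProp2 := by
  intro S T _ _ _ _ _ _ σ h D a hD hh ha0 ha4 hcov
  have hMpos : 0 < Fintype.card T := Fintype.card_pos
  have hmpos : 0 < Fintype.card S := Fintype.card_pos
  obtain ⟨L, u0, w0, hL, hu0, hw00, hw0, hLu, hpa, hpb, hpc⟩ :=
    param2 h (Fintype.card S) (Fintype.card T) hh hmpos hMpos
  obtain ⟨J, hJ⟩ : ∃ J : ℕ, J = Nat.log 2 h + 2 := ⟨_, rfl⟩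
  have hJR : (J : ℝ) = (Nat.log 2 h : ℝ) + 2 := by rw [hJ]; push_cast; ring
  have hJpos : 0 < J := by omega
  obtain ⟨u, hu⟩ : ∃ u : ℕ → ℝ, u = fun i => 2 ^ i * u0 := ⟨_, rfl⟩
  have hui : ∀ i, u i = 2 ^ i * u0 := fun i => by rw [hu]
  obtain ⟨lam, hlam⟩ : ∃ lam : ℝ, lam = 1 / (2 * h * J) := ⟨_, rfl⟩
  obtain ⟨rho, hrho⟩ : ∃ rho : ℕ → ℝ, rho = fun k => a k / 6 := ⟨_, rfl⟩
  have hrk : ∀ k, 6 * rho k = a k := fun k => by rw [hrho]; ring
  have hrho0 : ∀ k, k < h → 0 < rho k := fun k hk => by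
    have := ha0 k hk
    have := hrk k
    linarith
  have hrho4 : ∀ k, k + 1 < h → 4 * rho k ≤ rho (k + 1) := fun k hk => by
    have h1 := ha4 k hk
    have h2 := hrk k
    have h3 := hrk (k + 1)
    linarith
  have hcov' : ∀ r s, D r s = 0 ∨ ∃ k, k < h ∧ 6 * rho k ≤ D r s ∧ D r s < 4 * (6 * rho k) := by
    intro r s
    rcases hcov r s with h0 | ⟨k, hk, h1, h2⟩
    · exact Or.inl h0
    · exact Or.inr ⟨k, hk, by rw [hrk]; exact h1, by rw [hrk]; exact h2⟩
  have hhR : (0 : ℝ) < h := by exact_mod_cast hh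
  have hJR0 : (0 : ℝ) < J := by exact_mod_cast hJpos
  have hLR : (0 : ℝ) < L := by exact_mod_cast hL
  have hMR : (0 : ℝ) < (Fintype.card T : ℝ) := by exact_mod_cast hMpos
  have hmR : (0 : ℝ) < (Fintype.card S : ℝ) := by exact_mod_cast hmpos
  have hJ1 : J - 1 = Nat.log 2 h + 2 - 1 := by rw [hJ]
  have huL : u (J - 1) ≤ L := by rw [hui, hJ1]; exact hLu
  have hq : ∀ i, i < J → 0 ≤ qq u L i ∧ qq u L i ≤ 1 := by
    intro i hi
    have h1 : 0 ≤ u i := by
      rw [hui]
      have : (0 : ℝ) < 2 ^ i := by positivity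
      nlinarith
    have h2 : u i ≤ u (J - 1) := by
      rw [hui, hui]
      have : (2 : ℝ) ^ i ≤ 2 ^ (J - 1) := pow_le_pow_right₀ (by norm_num) (by omega)
      nlinarith
    have h3 : u i / L ≤ 1 := by
      rw [div_le_one hLR]
      linarith
    have h4 : 0 ≤ u i / L := div_nonneg h1 hLR.le
    unfold qq
    constructor <;> linarith
  have hlam0 : 0 < lam := by
    rw [hlam]
    positivity
  have hlamJ : (h : ℝ) * J * lam ≤ 1 / 2 := by
    rw [hlam]
    apply le_of_eq
    field_simp
  -- the costs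
  have hc : ∀ ω : Om S h J L, ∀ r s, pull σ D r s ≤ 2 * pull σ (cst D (pot D lam rho ω)) r s ∧
      pull σ (cst D (pot D lam rho ω)) r s ≤ 3 / 2 * pull σ D r s := fun ω r s =>
    hCo S h J L D lam rho ω hD hlam0.le (fun k hk => (hrho0 k hk).le) hlamJ (σ r) (σ s)
  have hDT0 : ∀ r s, 0 ≤ pull σ D r s := fun r s => hD.nonneg _ _
  have hc0 : ∀ ω : Om S h J L, ∀ r s, 0 ≤ pull σ (cst D (pot D lam rho ω)) r s := fun ω r s => by
    have h1 := (hc ω r s).1
    have h2 := hDT0 r s
    linarith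
  obtain ⟨hw1, hw2⟩ := hW.2.2.2 S h J L u
  have hwnn := hw2 hq
  set m : ℝ := (Fintype.card S : ℝ) with hm
  set M : ℝ := (Fintype.card T : ℝ) with hMM
  have hEx1 : Ex u (fun _ : Om S h J L => (1 : ℝ)) = 1 := by
    unfold Ex
    simp only [mul_one]
    exact hw1
  -- probability of the good event
  obtain ⟨P, hP⟩ : ∃ P : ℝ, P = Ex u (fun ω : Om S h J L => ind (Good D lam rho ω)) := ⟨_, rfl⟩
  have hPge : 1 / 2 ≤ P := by
    have h1 : ∀ ω : Om S h J L, (1 : ℝ) ≤ ind (Good D lam rho ω) +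
        ∑ s : S, ∑ k : Fin h, ind (∀ i, Cap D lam (rho k) (ω k) s i) := by
      intro ω
      by_cases hG : Good D lam rho ω
      · rw [ind_true hG]
        have : 0 ≤ ∑ s : S, ∑ k : Fin h, ind (∀ i, Cap D lam (rho k) (ω k) s i) :=
          Finset.sum_nonneg fun s _ => Finset.sum_nonneg fun k _ => ind_nonneg _
        linarith
      · rw [ind_false hG]
        unfold Good at hG
        push Not at hG
        obtain ⟨s, k, hk⟩ := hG
        have h2 : ind (∀ i, Cap D lam (rho k) (ω k) s i) = 1 := ind_true hk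
        have h3 : ind (∀ i, Cap D lam (rho k) (ω k) s i) ≤
            ∑ k : Fin h, ind (∀ i, Cap D lam (rho k) (ω k) s i) :=
          Finset.single_le_sum (f := fun k : Fin h => ind (∀ i, Cap D lam (rho k) (ω k) s i))
            (fun k _ => ind_nonneg _) (Finset.mem_univ k)
        have h4 : ∑ k : Fin h, ind (∀ i, Cap D lam (rho k) (ω k) s i) ≤
            ∑ s : S, ∑ k : Fin h, ind (∀ i, Cap D lam (rho k) (ω k) s i) :=
          Finset.single_le_sum (f := fun s : S =>
            ∑ k : Fin h, ind (∀ i, Cap D lam (rho k) (ω k) s i))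
            (fun s _ => Finset.sum_nonneg fun k _ => ind_nonneg _) (Finset.mem_univ s)
        linarith
    have h2 : ∀ (s : S) (k : Fin h),
        Ex u (fun ω : Om S h J L => ind (∀ i, Cap D lam (rho k) (ω k) s i)) ≤
          m * Real.exp (- u (J - 1)) := by
      intro s k
      have hJ1' : J - 1 < J := by omega
      have hrk := hrho0 k k.2
      have g1 : Ex u (fun ω : Om S h J L => ind (∀ i, Cap D lam (rho k) (ω k) s i)) ≤
          Ex u (fun ω : Om S h J L => ind (Cap D lam (rho k) (ω k) s ⟨J - 1, hJ1'⟩)) :=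
        stepCost_Ex_mono hwnn fun ω => ind_mono fun hall => hall _
      have g2 := (hI S h J L u).2 k (fun a => ind (Cap D lam (rho k) a s ⟨J - 1, hJ1'⟩))
      have g3 := hCa S J L u D lam (rho k) s ⟨J - 1, hJ1'⟩ hD hlam0 hrk hL hq
      have g4 := stepCost_nb_le hD (3 * rho k) (rho k) hrk s
      calc _ ≤ _ := g1
        _ = _ := g2
        _ ≤ _ := g3
        _ ≤ m * Real.exp (- u (J - 1)) :=
          mul_le_mul_of_nonneg_right g4 (Real.exp_pos _).le
    have h3 : (1 : ℝ) ≤ P + ∑ s : S, ∑ k : Fin h,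
        Ex u (fun ω : Om S h J L => ind (∀ i, Cap D lam (rho k) (ω k) s i)) := by
      calc (1 : ℝ) = Ex u (fun _ : Om S h J L => (1 : ℝ)) := hEx1.symm
        _ ≤ Ex u (fun ω : Om S h J L => ind (Good D lam rho ω) +
              ∑ s : S, ∑ k : Fin h, ind (∀ i, Cap D lam (rho k) (ω k) s i)) :=
            stepCost_Ex_mono hwnn h1
        _ = _ := by
            rw [stepCost_Ex_add, stepCost_Ex_sum, hP]
            congr 1
            exact Finset.sum_congr rfl fun s _ => stepCost_Ex_sum _ _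
    have h4 : ∑ s : S, ∑ k : Fin h,
        Ex u (fun ω : Om S h J L => ind (∀ i, Cap D lam (rho k) (ω k) s i)) ≤
        h * m * (m * Real.exp (- u (J - 1))) := by
      calc _ ≤ ∑ _s : S, ∑ _k : Fin h, m * Real.exp (- u (J - 1)) :=
            Finset.sum_le_sum fun s _ => Finset.sum_le_sum fun k _ => h2 s k
        _ = _ := by
            simp only [Finset.sum_const, Finset.card_univ, Fintype.card_fin, nsmul_eq_mul]
            rw [← hm]
            ring
    have h5 : h * m * (m * Real.exp (- u (J - 1))) ≤ 1 / 2 := by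
      rw [hui, hJ1]
      exact hpc
    linarith
  have hPpos : 0 < P := by linarith
  -- the error of one step
  obtain ⟨E, hEdef⟩ : ∃ E : ℝ, E = 24 * h * (J * m * (u (J - 1) / L * (1 + M))) := ⟨_, rfl⟩
  have huJ0 : 0 ≤ u (J - 1) := by
    rw [hui]
    have : (0 : ℝ) < 2 ^ (J - 1) := by positivity
    nlinarith
  have hE0 : 0 ≤ E := by
    rw [hEdef]
    positivity
  have hEM : E * M ≤ 1 := by
    refine le_trans (le_of_eq ?_) hpb
    rw [hEdef, hui, hJ1, hJR]
  obtain ⟨A, hA⟩ : ∃ A : ℝ, A = 48 * h * J := ⟨_, rfl⟩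
  have hA0 : 0 ≤ A := by rw [hA]; positivity
  let Wf : Om S h J L → T → ℝ := fun ω x => ∑ k : Fin h, Wl D lam (rho k) u (σ x) (ω k)
  have step : ∀ (x : T) (l : List T), l.length + 1 ≤ Fintype.card T →
      Ex u (fun ω : Om S h J L => D (σ x) (σ (srv (pull σ (cst D (pot D lam rho ω))) x l)) *
          ind (Good D lam rho ω)) ≤
        A * Ex u (fun ω : Om S h J L => (optv (pull σ (cst D (pot D lam rho ω))) (x :: l)
            - optv (pull σ (cst D (pot D lam rho ω))) l) * Wf ω x)
          + E * optv (pull σ D) (x :: l) := by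
    intro x l hl
    have := hSC S T σ h J L u u0 D lam rho x l hD hh hJpos hlam hrho0 hL hu0 hui huL hl hcov'
    refine le_trans this (le_of_eq ?_)
    rw [hA, hEdef]
    ring
  have main : ∀ l : List T, l.length ≤ Fintype.card T →
      Ex u (fun ω : Om S h J L => tcost (pull σ D) (pull σ (cst D (pot D lam rho ω))) l *
          ind (Good D lam rho ω)) ≤
        A * Ex u (fun ω : Om S h J L =>
            wsum (pull σ (cst D (pot D lam rho ω))) (Wf ω) l)
          + l.length * E * optv (pull σ D) l := by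
    intro l
    induction l with
    | nil =>
      intro _
      have h1 : Ex u (fun ω : Om S h J L =>
          tcost (pull σ D) (pull σ (cst D (pot D lam rho ω))) [] * ind (Good D lam rho ω)) = 0 := by
        unfold Ex
        exact Finset.sum_eq_zero fun ω _ => by simp [tcost]
      have h2 : Ex u (fun ω : Om S h J L =>
            wsum (pull σ (cst D (pot D lam rho ω))) (Wf ω) []) = 0 := by
        unfold Ex
        exact Finset.sum_eq_zero fun ω _ => by simp [wsum]
      rw [h1, h2]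
      simp
    | cons x l ih =>
      intro hl
      rw [List.length_cons] at hl
      have ih' := ih (by omega)
      have hst := step x l hl
      have e : Ex u (fun ω : Om S h J L =>
          tcost (pull σ D) (pull σ (cst D (pot D lam rho ω))) (x :: l) *
            ind (Good D lam rho ω)) =
          Ex u (fun ω : Om S h J L =>
            tcost (pull σ D) (pull σ (cst D (pot D lam rho ω))) l * ind (Good D lam rho ω)) +
          Ex u (fun ω : Om S h J L =>
            D (σ x) (σ (srv (pull σ (cst D (pot D lam rho ω))) x l)) *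
              ind (Good D lam rho ω)) := by
        rw [← stepCost_Ex_add]
        congr 1
        funext ω
        simp only [tcost, pull]
        ring
      have e' : Ex u (fun ω : Om S h J L =>
            wsum (pull σ (cst D (pot D lam rho ω))) (Wf ω) (x :: l)) =
          Ex u (fun ω : Om S h J L =>
            wsum (pull σ (cst D (pot D lam rho ω))) (Wf ω) l) +
          Ex u (fun ω : Om S h J L => (optv (pull σ (cst D (pot D lam rho ω))) (x :: l)
            - optv (pull σ (cst D (pot D lam rho ω))) l) * Wf ω x) := by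
        rw [← stepCost_Ex_add]
        rfl
      rw [e, e']
      have hmono : optv (pull σ D) l ≤ optv (pull σ D) (x :: l) :=
        (hM T (pull σ D) l).1 hDT0 x hl
      have h3 : (l.length : ℝ) * E * optv (pull σ D) l ≤
          (l.length : ℝ) * E * optv (pull σ D) (x :: l) :=
        mul_le_mul_of_nonneg_left hmono (by positivity)
      rw [List.length_cons]
      push_cast
      nlinarith
  -- the weights
  have hwsum : ∀ l : List T, l.length ≤ Fintype.card T →
      Ex u (fun ω : Om S h J L => wsum (pull σ (cst D (pot D lam rho ω))) (Wf ω) l) ≤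
        3 / 2 * optv (pull σ D) l * (w0 + 1) := by
    intro l hl
    have hO0 : 0 ≤ optv (pull σ D) l := (hM T (pull σ D) l).2.1 hDT0
    let K : Om S h J L → ℝ := fun ω => w0 + ∑ s : S, 8 * Real.exp (- w0 / 8) *
      Real.exp ((∑ k : Fin h, Wl D lam (rho k) u s (ω k)) / 8)
    have hK0 : ∀ ω, 0 ≤ K ω := fun ω => by
      have : 0 ≤ ∑ s : S, 8 * Real.exp (- w0 / 8) *
          Real.exp ((∑ k : Fin h, Wl D lam (rho k) u s (ω k)) / 8) :=
        Finset.sum_nonneg fun s _ => by positivity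
      change 0 ≤ w0 + _
      linarith
    have hWK : ∀ ω x, Wf ω x ≤ K ω := by
      intro ω x
      have h2 := Real.add_one_le_exp ((Wf ω x - w0) / 8)
      have h3 : Real.exp ((Wf ω x - w0) / 8) = Real.exp (- w0 / 8) * Real.exp (Wf ω x / 8) := by
        rw [← Real.exp_add]
        congr 1
        ring
      have h4 : Wf ω x ≤ w0 + 8 * Real.exp (- w0 / 8) * Real.exp (Wf ω x / 8) := by
        rw [h3] at h2
        linarith
      have h5 : 8 * Real.exp (- w0 / 8) * Real.exp (Wf ω x / 8) ≤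
          ∑ s : S, 8 * Real.exp (- w0 / 8) *
            Real.exp ((∑ k : Fin h, Wl D lam (rho k) u s (ω k)) / 8) :=
        Finset.single_le_sum (f := fun s : S => 8 * Real.exp (- w0 / 8) *
            Real.exp ((∑ k : Fin h, Wl D lam (rho k) u s (ω k)) / 8))
          (fun s _ => by positivity) (Finset.mem_univ (σ x))
      change Wf ω x ≤ w0 + _
      linarith
    have hp : ∀ ω : Om S h J L, wsum (pull σ (cst D (pot D lam rho ω))) (Wf ω) l ≤
        3 / 2 * optv (pull σ D) l * K ω := by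
      intro ω
      have h1 := wsum_le hM (pull σ (cst D (pot D lam rho ω))) (hc0 ω) (Wf ω) (K ω) (hK0 ω)
        (hWK ω) l hl
      have h2 : optv (pull σ (cst D (pot D lam rho ω))) l ≤ 3 / 2 * optv (pull σ D) l :=
        (hM T (pull σ D) l).2.2 _ (3 / 2) (fun r s => (hc ω r s).2) hl
      have h3 := mul_le_mul_of_nonneg_left h2 (hK0 ω)
      linarith
    have hEK : Ex u K ≤ w0 + 1 := by
      have e1 : Ex u K = w0 + ∑ s : S, 8 * Real.exp (- w0 / 8) *
          Ex u (fun ω : Om S h J L =>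
            Real.exp ((∑ k : Fin h, Wl D lam (rho k) u s (ω k)) / 8)) := by
        have e2 : Ex u K = Ex u (fun _ : Om S h J L => w0) +
            Ex u (fun ω : Om S h J L => ∑ s : S, 8 * Real.exp (- w0 / 8) *
              Real.exp ((∑ k : Fin h, Wl D lam (rho k) u s (ω k)) / 8)) := by
          rw [← stepCost_Ex_add]
        have e3 : Ex u (fun _ : Om S h J L => w0) = w0 := by
          have := stepCost_Ex_mul (T := S) (h := h) (J := J) (L := L) (u := u) w0 (fun _ => 1)
          simp only [mul_one] at this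
          rw [this, hEx1, mul_one]
        rw [e2, e3, stepCost_Ex_sum]
        congr 1
        exact Finset.sum_congr rfl fun s _ => stepCost_Ex_mul _ _
      rw [e1]
      have h7 : ∀ s : S, 8 * Real.exp (- w0 / 8) * Ex u (fun ω : Om S h J L =>
            Real.exp ((∑ k : Fin h, Wl D lam (rho k) u s (ω k)) / 8)) ≤
          8 * Real.exp (- w0 / 8) * (Real.exp (h * (u0 / 8 + 1)) * m) := fun s =>
        mul_le_mul_of_nonneg_left
          (hE S h J L u u0 D lam rho s hD hlam0 hrho0 hrho4 hL hq hu0 hui) (by positivity)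
      have h8 := Finset.sum_le_sum (s := (Finset.univ : Finset S)) fun s _ => h7 s
      have h9 : ∑ _s : S, 8 * Real.exp (- w0 / 8) * (Real.exp (h * (u0 / 8 + 1)) * m) =
          8 * Real.exp (- w0 / 8) * (Real.exp (h * (u0 / 8 + 1)) * m) * m := by
        rw [Finset.sum_const, Finset.card_univ, nsmul_eq_mul, ← hm]
        ring
      rw [h9] at h8
      linarith
    calc Ex u (fun ω : Om S h J L => wsum (pull σ (cst D (pot D lam rho ω))) (Wf ω) l)
        ≤ Ex u (fun ω => 3 / 2 * optv (pull σ D) l * K ω) := stepCost_Ex_mono hwnn hp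
      _ = 3 / 2 * optv (pull σ D) l * Ex u K := stepCost_Ex_mul _ _
      _ ≤ 3 / 2 * optv (pull σ D) l * (w0 + 1) :=
          mul_le_mul_of_nonneg_left hEK (by positivity)
  refine ⟨Om S h J L, inferInstance, fun ω => omw u ω * ind (Good D lam rho ω) / P,
    fun ω => pull σ (cst D (pot D lam rho ω)), fun ω => ?_, ?_, ?_⟩
  · exact div_nonneg (mul_nonneg (hwnn ω) (ind_nonneg _)) hPpos.le
  · rw [← Finset.sum_div]
    have : ∑ ω : Om S h J L, omw u ω * ind (Good D lam rho ω) = P := by rw [hP]; rfl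
    rw [this, div_self hPpos.ne']
  · intro l hl
    have h1 := main l hl
    have h2 := hwsum l hl
    have hopt0 : 0 ≤ optv (pull σ D) l := (hM T (pull σ D) l).2.1 hDT0
    have h3 : (l.length : ℝ) * E * optv (pull σ D) l ≤ 1 * optv (pull σ D) l := by
      refine mul_le_mul_of_nonneg_right ?_ hopt0
      have : (l.length : ℝ) * E ≤ M * E := mul_le_mul_of_nonneg_right
        (by rw [hMM]; exact_mod_cast hl) hE0
      linarith
    have h4 : A * Ex u (fun ω : Om S h J L =>
            wsum (pull σ (cst D (pot D lam rho ω))) (Wf ω) l) ≤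
        A * (3 / 2 * optv (pull σ D) l * (w0 + 1)) := mul_le_mul_of_nonneg_left h2 hA0
    set X : ℝ := Ex u (fun ω : Om S h J L =>
      tcost (pull σ D) (pull σ (cst D (pot D lam rho ω))) l * ind (Good D lam rho ω)) with hX
    have h5 : X ≤ (72 * h * J * (w0 + 1) + 1) * optv (pull σ D) l := by
      have e : (72 * h * J * (w0 + 1) + 1) * optv (pull σ D) l =
          A * (3 / 2 * optv (pull σ D) l * (w0 + 1)) + 1 * optv (pull σ D) l := by
        rw [hA]
        ring
      rw [e]
      linarith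
    have h6 : ∑ ω : Om S h J L, omw u ω * ind (Good D lam rho ω) / P *
        tcost (pull σ D) (pull σ (cst D (pot D lam rho ω))) l = X / P := by
      rw [hX]
      unfold Ex
      rw [Finset.sum_div]
      exact Finset.sum_congr rfl fun ω _ => by ring
    rw [h6, div_le_iff₀ hPpos]
    have hR0 : 0 ≤ (72 * h * J * (w0 + 1) + 1) * optv (pull σ D) l :=
      mul_nonneg (by positivity) hopt0
    have h7 : (144 * h * ((Nat.log 2 h : ℝ) + 2) *
            (9 * h + 18 * Real.log m + 26) + 2) * optv (pull σ D) l * P =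
        ((72 * h * J * (w0 + 1) + 1) * optv (pull σ D) l) * (2 * P) := by
      rw [hw0, hJR]
      ring
    have h8 : ((72 * h * J * (w0 + 1) + 1) * optv (pull σ D) l) * 1 ≤
        ((72 * h * J * (w0 + 1) + 1) * optv (pull σ D) l) * (2 * P) :=
      mul_le_mul_of_nonneg_left (by linarith) hR0
    calc X ≤ _ := h5
      _ = ((72 * h * J * (w0 + 1) + 1) * optv (pull σ D) l) * 1 := by ring
      _ ≤ _ := h8
      _ = _ := h7.symm

end Pool.Agent.MP_a4c1f4_lc
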