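import Pool.Agent.Lib.MP_a4c1f4_lc.Spec3

set_option linter.all false

/-!
The theorem for the copies, all metrics.
-/

namespace Pool.Agent.MP_a4c1f4_lc

open Finset

section Aux

theorem core3_length {T : Type} (loc : ℕ → T) (t : ℕ) : (lst loc t).length = t := by
  induction t with
  | zero => rfl
  | succ t ih => simp [lst, ih]

/-- Changing the noise of level `k` does not change the differences of the total noise at points
at distance at most `rho k / card S`. -/
theorem core3_pot_upd {S : Type} [Fintype S] [DecidableEq S] [Nonempty S] (hF : FieldProp)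
    {h n J L : ℕ} {D : S → S → ℝ} {E : ℕ → S → S → ℝ} {lam : ℝ} {rho : ℕ → ℝ}
    (hLv : Lvl D E rho h n) (hlam : 0 ≤ lam) (ω : Om S h J L) (k : Fin h) (i : Fin J) (z : S)
    (j : Fin (L + 1)) (r s : S) (hrs : D r s ≤ rho k / (Fintype.card S : ℝ)) :
    pot3 E lam rho (upd ω k i z j) r - pot3 E lam rho (upd ω k i z j) s =
      pot3 E lam rho ω r - pot3 E lam rho ω s := by
  have key : ∀ (a : Lev S J L), ∑ i : Fin J,
      fld (E k) (lam * rho k / (L : ℝ)) lam (ctr (E k) (2 * rho k) a.1) (gv a i) r =
      ∑ i : Fin J,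
      fld (E k) (lam * rho k / (L : ℝ)) lam (ctr (E k) (2 * rho k) a.1) (gv a i) s := by
    intro a
    refine Finset.sum_congr rfl fun i' _ => ?_
    have hrk := (hLv.pos k k.2).le
    have h1 := (hF S (E k) (lam * rho k / (L : ℝ)) lam (ctr (E k) (2 * rho k) a.1) (gv a i')
      (hLv.pmE k) (by positivity) hlam).1 r s
    rw [hLv.zero k k.2 r s hrs, mul_zero] at h1
    have h2 := abs_nonneg (fld (E k) (lam * rho k / (L : ℝ)) lam (ctr (E k) (2 * rho k) a.1)
      (gv a i') r - fld (E k) (lam * rho k / (L : ℝ)) lam (ctr (E k) (2 * rho k) a.1)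
      (gv a i') s)
    have h3 := abs_eq_zero.1 (le_antisymm h1 h2)
    linarith
  unfold pot3
  rw [← Finset.sum_sub_distrib, ← Finset.sum_sub_distrib]
  refine Finset.sum_congr rfl fun k' _ => ?_
  by_cases hk : k' = k
  · subst hk
    rw [key, key]
    ring
  · have : upd ω k i z j k' = ω k' := by simp [upd, Function.update_of_ne hk]
    rw [this]

/-- The weights as functions on `ℕ`. -/
noncomputable def core3_W {S : Type} [Fintype S] [DecidableEq S] {h J L : ℕ}
    (E : ℕ → S → S → ℝ) (lam : ℝ) (rho : ℕ → ℝ) (u : ℕ → ℝ) (ω : Om S h J L) (k : ℕ) (s : S) :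
    ℝ := if hk : k < h then Wl (E k) lam (rho k) u s (ω ⟨k, hk⟩) else 0

end Aux

theorem core3 (hM : MonoProp) (hW : WeightProp) (hI : IndepProp) (hCa : CapProbProp)
    (hE : ExpBlockProp) (hCo : CostProp3) (hSC : StepCostProp3) (hPar : ParamProp3)
    (hAL : AsgListProp) (hAV : AsgValProp) (hCM : CapMonoProp) (hCI : CapInvProp)
    (hWin : WindowProp) (hF : FieldProp) : CoreProp3 := by
  intro S T _ _ _ _ _ _ σ h n D E rho hLv hhm
  have hMpos : 0 < Fintype.card T := Fintype.card_pos
  have hmpos : 0 < Fintype.card S := Fintype.card_pos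
  have hnpos : 0 < n := hLv.npos
  obtain ⟨L, u0, w0, hL, hML, hu0, hw00, hw0, hLu, hpa, hpb, hpc⟩ :=
    hPar h n (Fintype.card S) (Fintype.card T) hnpos hmpos hMpos hhm
  obtain ⟨J, hJ⟩ : ∃ J : ℕ, J = Nat.log 2 n + 2 := ⟨_, rfl⟩
  have hJR : (J : ℝ) = (Nat.log 2 n : ℝ) + 2 := by rw [hJ]; push_cast; ring
  have hJpos : 0 < J := by omega
  obtain ⟨u, hu⟩ : ∃ u : ℕ → ℝ, u = fun i => 2 ^ i * u0 := ⟨_, rfl⟩
  have hui : ∀ i, u i = 2 ^ i * u0 := fun i => by rw [hu]
  obtain ⟨lam, hlam⟩ : ∃ lam : ℝ, lam = 1 / (2 * n * J) := ⟨_, rfl⟩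
  have hnR : (0 : ℝ) < n := by exact_mod_cast hnpos
  have hJR0 : (0 : ℝ) < J := by exact_mod_cast hJpos
  have hLR : (0 : ℝ) < L := by exact_mod_cast hL
  have hMR : (0 : ℝ) < (Fintype.card T : ℝ) := by exact_mod_cast hMpos
  have hmR : (0 : ℝ) < (Fintype.card S : ℝ) := by exact_mod_cast hmpos
  have hJ1 : J - 1 = Nat.log 2 n + 2 - 1 := by rw [hJ]
  have huL : u (J - 1) ≤ L := by rw [hui, hJ1]; exact hLu
  have hui0 : ∀ i, 0 ≤ u i := fun i => by
    rw [hui]
    have : (0 : ℝ) < 2 ^ i := by positivity
    nlinarith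
  have hq : ∀ i, i < J → 0 ≤ qq u L i ∧ qq u L i ≤ 1 := by
    intro i hi
    have h1 : 0 ≤ u i := hui0 i
    have h2 : u i ≤ u (J - 1) := by
      rw [hui, hui]
      have : (2 : ℝ) ^ i ≤ 2 ^ (J - 1) := pow_le_pow_right₀ (by norm_num) (by omega)
      nlinarith
    have h3 : u i / L ≤ 1 := by
      rw [div_le_one hLR]
      linarith
    have h4 : 0 ≤ u i / L := div_nonneg h1 hLR.le
    unfold qq
    constructor <;> linarith
  have hlam0 : 0 < lam := by
    rw [hlam]
    positivity
  have hlamJ : (n : ℝ) * J * lam ≤ 1 / 2 := by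
    rw [hlam]
    apply le_of_eq
    field_simp
  -- the costs
  have hc : ∀ ω : Om S h J L, ∀ r s, D r s ≤ 2 * cst D (pot3 E lam rho ω) r s ∧
      cst D (pot3 E lam rho ω) r s ≤ 3 / 2 * D r s := fun ω r s =>
    hCo S h n J L D E lam rho ω hLv hlam0.le hL hlamJ r s
  have hDT0 : ∀ r s, 0 ≤ pull σ D r s := fun r s => hLv.pmD.nonneg _ _
  have hc0 : ∀ ω : Om S h J L, ∀ r s, 0 ≤ pull σ (cst D (pot3 E lam rho ω)) r s := fun ω r s => by
    have h1 := (hc ω (σ r) (σ s)).1
    have h2 := hDT0 r s
    simp only [pull] at h2 ⊢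
    linarith
  obtain ⟨hw1, hw2⟩ := hW.2.2.2 S h J L u
  have hwnn := hw2 hq
  set m : ℝ := (Fintype.card S : ℝ) with hm
  set M : ℝ := (Fintype.card T : ℝ) with hMM
  have hEx1 : Ex u (fun _ : Om S h J L => (1 : ℝ)) = 1 := by
    unfold Ex
    simp only [mul_one]
    exact hw1
  -- probability of the good event
  obtain ⟨P, hP⟩ : ∃ P : ℝ, P = Ex u (fun ω : Om S h J L => ind (Good3 E lam rho ω)) := ⟨_, rfl⟩
  have hPge : 1 / 2 ≤ P := by
    have h1 : ∀ ω : Om S h J L, (1 : ℝ) ≤ ind (Good3 E lam rho ω) +
        ∑ s : S, ∑ k : Fin h, ind (∀ i, Cap (E k) lam (rho k) (ω k) s i) := by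
      intro ω
      by_cases hG : Good3 E lam rho ω
      · rw [ind_true hG]
        have : 0 ≤ ∑ s : S, ∑ k : Fin h, ind (∀ i, Cap (E k) lam (rho k) (ω k) s i) :=
          Finset.sum_nonneg fun s _ => Finset.sum_nonneg fun k _ => ind_nonneg _
        linarith
      · rw [ind_false hG]
        unfold Good3 at hG
        push Not at hG
        obtain ⟨s, k, hk⟩ := hG
        have h2 : ind (∀ i, Cap (E k) lam (rho k) (ω k) s i) = 1 := ind_true hk
        have h3 : ind (∀ i, Cap (E k) lam (rho k) (ω k) s i) ≤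
            ∑ k : Fin h, ind (∀ i, Cap (E k) lam (rho k) (ω k) s i) :=
          Finset.single_le_sum
            (f := fun k : Fin h => ind (∀ i, Cap (E k) lam (rho k) (ω k) s i))
            (fun k _ => ind_nonneg _) (Finset.mem_univ k)
        have h4 : ∑ k : Fin h, ind (∀ i, Cap (E k) lam (rho k) (ω k) s i) ≤
            ∑ s : S, ∑ k : Fin h, ind (∀ i, Cap (E k) lam (rho k) (ω k) s i) :=
          Finset.single_le_sum (f := fun s : S =>
            ∑ k : Fin h, ind (∀ i, Cap (E k) lam (rho k) (ω k) s i))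
            (fun s _ => Finset.sum_nonneg fun k _ => ind_nonneg _) (Finset.mem_univ s)
        linarith
    have h2 : ∀ (s : S) (k : Fin h),
        Ex u (fun ω : Om S h J L => ind (∀ i, Cap (E k) lam (rho k) (ω k) s i)) ≤
          m * Real.exp (- u (J - 1)) := by
      intro s k
      have hJ1' : J - 1 < J := by omega
      have hrk := hLv.pos k k.2
      have g1 : Ex u (fun ω : Om S h J L => ind (∀ i, Cap (E k) lam (rho k) (ω k) s i)) ≤
          Ex u (fun ω : Om S h J L => ind (Cap (E k) lam (rho k) (ω k) s ⟨J - 1, hJ1'⟩)) :=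
        stepCost_Ex_mono hwnn fun ω => ind_mono fun hall => hall _
      have g2 := (hI S h J L u).2 k (fun a => ind (Cap (E k) lam (rho k) a s ⟨J - 1, hJ1'⟩))
      have g3 := hCa S J L u (E k) lam (rho k) s ⟨J - 1, hJ1'⟩ (hLv.pmE k) hlam0 hrk hL hq
      have g4 := stepCost_nb_le (hLv.pmE k) (3 * rho k) (rho k) hrk s
      calc _ ≤ _ := g1
        _ = _ := g2
        _ ≤ _ := g3
        _ ≤ m * Real.exp (- u (J - 1)) :=
          mul_le_mul_of_nonneg_right g4 (Real.exp_pos _).le
    have h3 : (1 : ℝ) ≤ P + ∑ s : S, ∑ k : Fin h,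
        Ex u (fun ω : Om S h J L => ind (∀ i, Cap (E k) lam (rho k) (ω k) s i)) := by
      calc (1 : ℝ) = Ex u (fun _ : Om S h J L => (1 : ℝ)) := hEx1.symm
        _ ≤ Ex u (fun ω : Om S h J L => ind (Good3 E lam rho ω) +
              ∑ s : S, ∑ k : Fin h, ind (∀ i, Cap (E k) lam (rho k) (ω k) s i)) :=
            stepCost_Ex_mono hwnn h1
        _ = _ := by
            rw [stepCost_Ex_add, stepCost_Ex_sum, hP]
            congr 1
            exact Finset.sum_congr rfl fun s _ => stepCost_Ex_sum _ _
    have h4 : ∑ s : S, ∑ k : Fin h,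
        Ex u (fun ω : Om S h J L => ind (∀ i, Cap (E k) lam (rho k) (ω k) s i)) ≤
        h * m * (m * Real.exp (- u (J - 1))) := by
      calc _ ≤ ∑ _s : S, ∑ _k : Fin h, m * Real.exp (- u (J - 1)) :=
            Finset.sum_le_sum fun s _ => Finset.sum_le_sum fun k _ => h2 s k
        _ = _ := by
            simp only [Finset.sum_const, Finset.card_univ, Fintype.card_fin, nsmul_eq_mul]
            rw [← hm]
            ring
    have h5 : h * m * (m * Real.exp (- u (J - 1))) ≤ 1 / 2 := by
      rw [hui, hJ1]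
      exact hpc
    linarith
  have hPpos : 0 < P := by linarith
  -- the error of one step
  obtain ⟨Err, hEdef⟩ : ∃ Err : ℝ, Err = 24 * h * (J * m * (u (J - 1) / L * (1 + M))) :=
    ⟨_, rfl⟩
  have huJ0 : 0 ≤ u (J - 1) := hui0 _
  have hE0 : 0 ≤ Err := by
    rw [hEdef]
    positivity
  have hEM : Err * M ≤ 1 := by
    refine le_trans (le_of_eq ?_) hpb
    rw [hEdef, hui, hJ1, hJR]
  obtain ⟨A, hA⟩ : ∃ A : ℝ, A = 56 * n * J := ⟨_, rfl⟩
  have hA0 : 0 ≤ A := by rw [hA]; positivity
  -- the bound for the weights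
  let K : Om S h J L → ℝ := fun ω => w0 + ∑ s : S, ∑ b ∈ range h, 8 * Real.exp (- w0 / 8) *
      Real.exp ((∑ k ∈ (Finset.univ : Finset (Fin h)).filter (fun k : Fin h => (k : ℕ) / n = b),
        Wl (E k) lam (rho k) u s (ω k)) / 8)
  have hK0 : ∀ ω, 0 ≤ K ω := fun ω => by
    have : 0 ≤ ∑ s : S, ∑ b ∈ range h, 8 * Real.exp (- w0 / 8) *
      Real.exp ((∑ k ∈ (Finset.univ : Finset (Fin h)).filter (fun k : Fin h => (k : ℕ) / n = b),
        Wl (E k) lam (rho k) u s (ω k)) / 8) :=
      Finset.sum_nonneg fun s _ => Finset.sum_nonneg fun b _ => by positivity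
    change 0 ≤ w0 + _
    linarith
  have hWnn : ∀ (ω : Om S h J L) k s, 0 ≤ core3_W E lam rho u ω k s := by
    intro ω k s
    unfold core3_W
    split_ifs with hk
    · exact Finset.sum_nonneg fun i _ => mul_nonneg (hui0 i) (ind_nonneg _)
    · exact le_rfl
  have hWsum : ∀ (ω : Om S h J L) s b, ∑ k ∈ (range h).filter (fun k => k / n = b),
      core3_W E lam rho u ω k s ≤ K ω := by
    intro ω s b
    have e1 : ∑ k ∈ (range h).filter (fun k => k / n = b), core3_W E lam rho u ω k s =
        ∑ k ∈ (Finset.univ : Finset (Fin h)).filter (fun k : Fin h => (k : ℕ) / n = b),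
          Wl (E k) lam (rho k) u s (ω k) := by
      rw [Finset.sum_filter, Finset.sum_filter, Finset.sum_range]
      refine Finset.sum_congr rfl fun k _ => ?_
      by_cases hk : (k : ℕ) / n = b
      · rw [if_pos hk, if_pos hk]
        unfold core3_W
        rw [dif_pos k.2]
      · rw [if_neg hk, if_neg hk]
    rcases lt_or_ge b h with hb | hb
    · set Y := ∑ k ∈ (Finset.univ : Finset (Fin h)).filter (fun k : Fin h => (k : ℕ) / n = b),
          Wl (E k) lam (rho k) u s (ω k) with hY
      have h2 := Real.add_one_le_exp ((Y - w0) / 8)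
      have h3 : Real.exp ((Y - w0) / 8) = Real.exp (- w0 / 8) * Real.exp (Y / 8) := by
        rw [← Real.exp_add]
        congr 1
        ring
      have h4 : Y ≤ w0 + 8 * Real.exp (- w0 / 8) * Real.exp (Y / 8) := by
        rw [h3] at h2
        linarith
      have h5 : 8 * Real.exp (- w0 / 8) * Real.exp (Y / 8) ≤
          ∑ b ∈ range h, 8 * Real.exp (- w0 / 8) *
            Real.exp ((∑ k ∈ (Finset.univ : Finset (Fin h)).filter
              (fun k : Fin h => (k : ℕ) / n = b), Wl (E k) lam (rho k) u s (ω k)) / 8) :=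
        Finset.single_le_sum (f := fun b => 8 * Real.exp (- w0 / 8) *
            Real.exp ((∑ k ∈ (Finset.univ : Finset (Fin h)).filter
              (fun k : Fin h => (k : ℕ) / n = b), Wl (E k) lam (rho k) u s (ω k)) / 8))
          (fun b _ => by positivity) (Finset.mem_range.2 hb)
      have h6 : ∑ b ∈ range h, 8 * Real.exp (- w0 / 8) *
            Real.exp ((∑ k ∈ (Finset.univ : Finset (Fin h)).filter
              (fun k : Fin h => (k : ℕ) / n = b), Wl (E k) lam (rho k) u s (ω k)) / 8) ≤
          ∑ s : S, ∑ b ∈ range h, 8 * Real.exp (- w0 / 8) *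
            Real.exp ((∑ k ∈ (Finset.univ : Finset (Fin h)).filter
              (fun k : Fin h => (k : ℕ) / n = b), Wl (E k) lam (rho k) u s (ω k)) / 8) :=
        Finset.single_le_sum (f := fun s : S => ∑ b ∈ range h, 8 * Real.exp (- w0 / 8) *
            Real.exp ((∑ k ∈ (Finset.univ : Finset (Fin h)).filter
              (fun k : Fin h => (k : ℕ) / n = b), Wl (E k) lam (rho k) u s (ω k)) / 8))
          (fun s _ => Finset.sum_nonneg fun b _ => by positivity) (Finset.mem_univ s)
      rw [e1]
      change Y ≤ w0 + _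
      linarith
    · have e2 : (range h).filter (fun k => k / n = b) = ∅ := by
        apply Finset.filter_false_of_mem
        intro k hk hkb
        rw [Finset.mem_range] at hk
        have := Nat.div_le_self k n
        omega
      rw [e2, Finset.sum_empty]
      exact hK0 ω
  have hEK : Ex u K ≤ w0 + 1 := by
    have e1 : Ex u K = w0 + ∑ s : S, ∑ b ∈ range h, 8 * Real.exp (- w0 / 8) *
        Ex u (fun ω : Om S h J L => Real.exp ((∑ k ∈ (Finset.univ : Finset (Fin h)).filter
          (fun k : Fin h => (k : ℕ) / n = b), Wl (E k) lam (rho k) u s (ω k)) / 8)) := by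
      have e2 : Ex u K = Ex u (fun _ : Om S h J L => w0) +
          Ex u (fun ω : Om S h J L => ∑ s : S, ∑ b ∈ range h, 8 * Real.exp (- w0 / 8) *
            Real.exp ((∑ k ∈ (Finset.univ : Finset (Fin h)).filter
              (fun k : Fin h => (k : ℕ) / n = b), Wl (E k) lam (rho k) u s (ω k)) / 8)) := by
        rw [← stepCost_Ex_add]
      have e3 : Ex u (fun _ : Om S h J L => w0) = w0 := by
        have := stepCost_Ex_mul (T := S) (h := h) (J := J) (L := L) (u := u) w0 (fun _ => 1)
        simp only [mul_one] at this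
        rw [this, hEx1, mul_one]
      rw [e2, e3, stepCost_Ex_sum]
      congr 1
      refine Finset.sum_congr rfl fun s _ => ?_
      rw [stepCost_Ex_sum]
      exact Finset.sum_congr rfl fun b _ => stepCost_Ex_mul _ _
    rw [e1]
    have h7 : ∀ (s : S) (b : ℕ), 8 * Real.exp (- w0 / 8) * Ex u (fun ω : Om S h J L =>
          Real.exp ((∑ k ∈ (Finset.univ : Finset (Fin h)).filter
              (fun k : Fin h => (k : ℕ) / n = b), Wl (E k) lam (rho k) u s (ω k)) / 8)) ≤
        8 * Real.exp (- w0 / 8) * (Real.exp (n * (u0 / 8 + 1)) * m) := fun s b =>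
      mul_le_mul_of_nonneg_left
        (hE S h n J L u u0 D E lam rho s b hLv hlam0 hL hq hu0 hui) (by positivity)
    have h8 := Finset.sum_le_sum (s := (Finset.univ : Finset S)) fun s _ =>
      Finset.sum_le_sum (s := range h) fun b _ => h7 s b
    have h9 : ∑ _s : S, ∑ _b ∈ range h,
        8 * Real.exp (- w0 / 8) * (Real.exp (n * (u0 / 8 + 1)) * m) =
        8 * Real.exp (- w0 / 8) * (Real.exp (n * (u0 / 8 + 1)) * m) * m * h := by
      rw [Finset.sum_const, Finset.sum_const, Finset.card_univ, Finset.card_range,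
        nsmul_eq_mul, nsmul_eq_mul, ← hm]
      ring
    rw [h9] at h8
    linarith
  refine ⟨Om S h J L, inferInstance, fun ω => omw u ω * ind (Good3 E lam rho ω) / P,
    fun ω => pull σ (cst D (pot3 E lam rho ω)), fun ω => ?_, ?_, ?_⟩
  · exact div_nonneg (mul_nonneg (hwnn ω) (ind_nonneg _)) hPpos.le
  · rw [← Finset.sum_div]
    have : ∑ ω : Om S h J L, omw u ω * ind (Good3 E lam rho ω) = P := by rw [hP]; rfl
    rw [this, div_self hPpos.ne']
  · intro l hl
    obtain ⟨loc, hloc⟩ := (hAL T).2 l
    -- values of the optimum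
    have hopt : ∀ (c : T → T → ℝ) (t : ℕ), t ≤ Fintype.card T →
        asg c loc (range t) = optv c (lst loc t) := fun c t ht => (hAL T).1 c loc t ht
    let v : Om S h J L → Finset ℕ → ℝ := fun ω => asg (pull σ (cst D (pot3 E lam rho ω))) loc
    let U : ℕ → Om S h J L → ℝ := fun t ω => v ω (range (t + 1)) - v ω (range t)
    let C : ℕ → Fin h → Om S h J L → ℝ := fun t k ω =>
      vR (v ω) (rho k / (2 * m)) (range (t + 1)) - vR (v ω) (rho k / (2 * m)) (range t)
    have hUo : ∀ t ω, t + 1 ≤ Fintype.card T →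
        optv (pull σ (cst D (pot3 E lam rho ω))) (loc t :: lst loc t) -
          optv (pull σ (cst D (pot3 E lam rho ω))) (lst loc t) = U t ω := by
      intro t ω ht
      have h1 := hopt (pull σ (cst D (pot3 E lam rho ω))) (t + 1) ht
      have h2 := hopt (pull σ (cst D (pot3 E lam rho ω))) t (by omega)
      change _ = asg _ loc (range (t + 1)) - asg _ loc (range t)
      rw [h1, h2]
      rfl
    have hVal : ∀ ω, Val (Fintype.card T) (v ω) := fun ω => (hAV T _ loc).1
    have hInc : ∀ ω, Inc (Fintype.card T) (v ω) := fun ω => (hAV T _ loc).2.1 (hc0 ω)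
    have hSym : ∀ ω, Sym (fun t => σ (loc t)) (v ω) := fun ω => by
      refine (hAV T _ loc).2.2.1 S (fun t => σ (loc t)) ?_
      intro x y hxy t
      simp only [pull]
      rw [hxy]
    have hv0 : ∀ ω, v ω ∅ = 0 := fun ω => (hAV T _ loc).2.2.2
    have hCinv : ∀ t, t + 1 ≤ Fintype.card T → ∀ (k : Fin h) (ω : Om S h J L) i z j,
        C t k (upd ω k i z j) = C t k ω := by
      intro t ht k ω i z j
      have hrk := hLv.pos k k.2
      have h1 : ∀ A : Finset ℕ, A.card ≤ Fintype.card T →
          vR (v (upd ω k i z j)) (rho k / (2 * m)) A = vR (v ω) (rho k / (2 * m)) A := by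
        intro A hA
        refine hCI S T σ D (pot3 E lam rho (upd ω k i z j)) (pot3 E lam rho ω)
          (rho k / m) (rho k / (2 * m)) loc A hA ?_ (fun r s => (hc _ r s).1)
          (fun r s => (hc _ r s).1) (le_of_eq ?_)
        · intro r s hrs
          exact core3_pot_upd hF hLv hlam0.le ω k i z j r s hrs
        · field_simp
      change vR (v (upd ω k i z j)) _ _ - vR (v (upd ω k i z j)) _ _ = _
      rw [h1 _ (by rw [Finset.card_range]; exact ht), h1 _ (by rw [Finset.card_range]; omega)]
    have hCU : ∀ t, t + 1 ≤ Fintype.card T → ∀ (k : Fin h) (ω : Om S h J L),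
        C t k ω ≤ U t ω := by
      intro t ht k ω
      have := (hCM (Fintype.card T) (v ω) (range t) t (hVal ω) Finset.notMem_range_self
        (by rw [Finset.card_range]; exact ht)).2.2 (rho k / (2 * m))
      rw [← Finset.range_add_one] at this
      exact this
    let Q : ℕ → Om S h J L → ℝ := fun t ω => ∑ k : Fin h,
      Wl (E k) lam (rho k) u (σ (loc t)) (ω k) * ((U t ω - C t k ω) * ind (U t ω ≤ 44 * rho k))
    have step : ∀ t, t + 1 ≤ Fintype.card T →
        Ex u (fun ω : Om S h J L =>
            D (σ (loc t)) (σ (srv (pull σ (cst D (pot3 E lam rho ω))) (loc t) (lst loc t))) *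
            ind (Good3 E lam rho ω)) ≤
          A * Ex u (Q t) + Err * optv (pull σ D) (lst loc (t + 1)) := by
      intro t ht
      have h1 := hSC S T σ h n J L u u0 D E lam rho (loc t) (lst loc t) (C t) hLv hJpos hlam hL
        hML hu0 hui huL (by rw [core3_length]; exact ht) (fun k ω i z j => hCinv t ht k ω i z j)
        (fun k ω => by rw [hUo t ω ht]; exact hCU t ht k ω)
      refine le_trans h1 (le_of_eq ?_)
      rw [hA, hEdef]
      have e1 : (fun ω : Om S h J L => ∑ k : Fin h,
          Wl (E k) lam (rho k) u (σ (loc t)) (ω k) *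
          ((optv (pull σ (cst D (pot3 E lam rho ω))) (loc t :: lst loc t)
            - optv (pull σ (cst D (pot3 E lam rho ω))) (lst loc t) - C t k ω) *
            ind (optv (pull σ (cst D (pot3 E lam rho ω))) (loc t :: lst loc t)
            - optv (pull σ (cst D (pot3 E lam rho ω))) (lst loc t) ≤ 44 * rho k))) = Q t := by
        funext ω
        rw [hUo t ω ht]
      rw [e1]
      change _ = _ + _ * optv (pull σ D) (loc t :: lst loc t)
      ring
    have main : ∀ t, t ≤ Fintype.card T →
        Ex u (fun ω : Om S h J L =>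
            tcost (pull σ D) (pull σ (cst D (pot3 E lam rho ω))) (lst loc t) *
            ind (Good3 E lam rho ω)) ≤
          A * Ex u (fun ω : Om S h J L => ∑ t' ∈ range t, Q t' ω)
            + t * Err * optv (pull σ D) (lst loc t) := by
      intro t
      induction t with
      | zero =>
        intro _
        have h1 : Ex u (fun ω : Om S h J L =>
            tcost (pull σ D) (pull σ (cst D (pot3 E lam rho ω))) (lst loc 0) *
            ind (Good3 E lam rho ω)) = 0 := by
          unfold Ex
          exact Finset.sum_eq_zero fun ω _ => by simp [tcost, lst]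
        have h2 : Ex u (fun ω : Om S h J L => ∑ t' ∈ range 0, Q t' ω) = 0 := by
          unfold Ex
          exact Finset.sum_eq_zero fun ω _ => by simp
        rw [h1, h2]
        simp
      | succ t ih =>
        intro ht
        have ih' := ih (by omega)
        have hst := step t ht
        have e : Ex u (fun ω : Om S h J L =>
            tcost (pull σ D) (pull σ (cst D (pot3 E lam rho ω))) (lst loc (t + 1)) *
              ind (Good3 E lam rho ω)) =
            Ex u (fun ω : Om S h J L =>
              tcost (pull σ D) (pull σ (cst D (pot3 E lam rho ω))) (lst loc t) *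
                ind (Good3 E lam rho ω)) +
            Ex u (fun ω : Om S h J L =>
              D (σ (loc t)) (σ (srv (pull σ (cst D (pot3 E lam rho ω))) (loc t) (lst loc t))) *
                ind (Good3 E lam rho ω)) := by
          rw [← stepCost_Ex_add]
          congr 1
          funext ω
          simp only [tcost, pull, lst]
          ring
        have e' : Ex u (fun ω : Om S h J L => ∑ t' ∈ range (t + 1), Q t' ω) =
            Ex u (fun ω : Om S h J L => ∑ t' ∈ range t, Q t' ω) + Ex u (Q t) := by
          rw [← stepCost_Ex_add]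
          congr 1
          funext ω
          rw [Finset.sum_range_succ]
        rw [e, e']
        have hmono : optv (pull σ D) (lst loc t) ≤ optv (pull σ D) (lst loc (t + 1)) :=
          (hM T (pull σ D) (lst loc t)).1 hDT0 (loc t) (by rw [core3_length]; exact ht)
        have h3 : (t : ℝ) * Err * optv (pull σ D) (lst loc t) ≤
            (t : ℝ) * Err * optv (pull σ D) (lst loc (t + 1)) :=
          mul_le_mul_of_nonneg_left hmono (by positivity)
        push_cast
        nlinarith
    have hQ : Ex u (fun ω : Om S h J L => ∑ t' ∈ range l.length, Q t' ω) ≤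
        9 / 2 * optv (pull σ D) l * (w0 + 1) := by
      have hO0 : 0 ≤ optv (pull σ D) l := (hM T (pull σ D) l).2.1 hDT0
      have hp : ∀ ω : Om S h J L, ∑ t' ∈ range l.length, Q t' ω ≤
          9 / 2 * optv (pull σ D) l * K ω := by
        intro ω
        have h1 := hWin S (Fintype.card T) l.length h n (v ω) (fun t => σ (loc t)) rho
          (core3_W E lam rho u ω) (K ω) (hVal ω) (hInc ω) (hSym ω) (hv0 ω) hl hnpos hLv.pos
          hLv.four hLv.win (hWnn ω) (hK0 ω) (hWsum ω)
        have h2 : ∑ t' ∈ range l.length, Q t' ω =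
            ∑ t ∈ range l.length, ∑ k ∈ range h, core3_W E lam rho u ω k (σ (loc t)) *
              (((v ω (range (t + 1)) - v ω (range t)) -
                (vR (v ω) (rho k / (2 * m)) (range (t + 1)) -
                  vR (v ω) (rho k / (2 * m)) (range t))) *
                ind (v ω (range (t + 1)) - v ω (range t) ≤ 44 * rho k)) := by
          refine Finset.sum_congr rfl fun t _ => ?_
          rw [Finset.sum_range]
          refine Finset.sum_congr rfl fun k _ => ?_
          have e : core3_W E lam rho u ω k (σ (loc t)) =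
              Wl (E k) lam (rho k) u (σ (loc t)) (ω k) := by
            unfold core3_W
            rw [dif_pos k.2]
          rw [e]
        have h3 : v ω (range l.length) ≤ 3 / 2 * optv (pull σ D) l := by
          have h4 : v ω (range l.length) = optv (pull σ (cst D (pot3 E lam rho ω))) l := by
            have := hopt (pull σ (cst D (pot3 E lam rho ω))) l.length hl
            rw [hloc] at this
            exact this
          rw [h4]
          exact (hM T (pull σ D) l).2.2 _ (3 / 2) (fun r s => (hc ω (σ r) (σ s)).2) hl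
        rw [h2]
        refine le_trans h1 ?_
        have h5 := mul_le_mul_of_nonneg_left h3 (by have := hK0 ω; positivity : 0 ≤ 3 * K ω)
        linarith
      calc Ex u (fun ω : Om S h J L => ∑ t' ∈ range l.length, Q t' ω)
          ≤ Ex u (fun ω => 9 / 2 * optv (pull σ D) l * K ω) := stepCost_Ex_mono hwnn hp
        _ = 9 / 2 * optv (pull σ D) l * Ex u K := stepCost_Ex_mul _ _
        _ ≤ 9 / 2 * optv (pull σ D) l * (w0 + 1) :=
            mul_le_mul_of_nonneg_left hEK (by positivity)
    have h1 := main l.length hl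
    rw [hloc] at h1
    have hopt0 : 0 ≤ optv (pull σ D) l := (hM T (pull σ D) l).2.1 hDT0
    have h3 : (l.length : ℝ) * Err * optv (pull σ D) l ≤ 1 * optv (pull σ D) l := by
      refine mul_le_mul_of_nonneg_right ?_ hopt0
      have : (l.length : ℝ) * Err ≤ M * Err := mul_le_mul_of_nonneg_right
        (by rw [hMM]; exact_mod_cast hl) hE0
      linarith
    have h4 : A * Ex u (fun ω : Om S h J L => ∑ t' ∈ range l.length, Q t' ω) ≤
        A * (9 / 2 * optv (pull σ D) l * (w0 + 1)) := mul_le_mul_of_nonneg_left hQ hA0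
    set X : ℝ := Ex u (fun ω : Om S h J L =>
      tcost (pull σ D) (pull σ (cst D (pot3 E lam rho ω))) l * ind (Good3 E lam rho ω)) with hX
    have h5 : X ≤ (252 * n * J * (w0 + 1) + 1) * optv (pull σ D) l := by
      have e : (252 * n * J * (w0 + 1) + 1) * optv (pull σ D) l =
          A * (9 / 2 * optv (pull σ D) l * (w0 + 1)) + 1 * optv (pull σ D) l := by
        rw [hA]
        ring
      rw [e]
      linarith
    have h6 : ∑ ω : Om S h J L, omw u ω * ind (Good3 E lam rho ω) / P *
        tcost (pull σ D) (pull σ (cst D (pot3 E lam rho ω))) l = X / P := by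
      rw [hX]
      unfold Ex
      rw [Finset.sum_div]
      exact Finset.sum_congr rfl fun ω _ => by ring
    rw [h6, div_le_iff₀ hPpos]
    have hR0 : 0 ≤ (252 * n * J * (w0 + 1) + 1) * optv (pull σ D) l :=
      mul_nonneg (by positivity) hopt0
    have h7 : (504 * n * ((Nat.log 2 n : ℝ) + 2) *
            (9 * n + 36 * Real.log m + 20) + 2) * optv (pull σ D) l * P =
        ((252 * n * J * (w0 + 1) + 1) * optv (pull σ D) l) * (2 * P) := by
      rw [hw0, hJR]
      ring
    have h8 : ((252 * n * J * (w0 + 1) + 1) * optv (pull σ D) l) * 1 ≤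
        ((252 * n * J * (w0 + 1) + 1) * optv (pull σ D) l) * (2 * P) :=
      mul_le_mul_of_nonneg_left (by linarith) hR0
    calc X ≤ _ := h5
      _ = ((252 * n * J * (w0 + 1) + 1) * optv (pull σ D) l) * 1 := by ring
      _ ≤ _ := h8
      _ = _ := h7.symm

end Pool.Agent.MP_a4c1f4_lc
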