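import Pool.Agent.Lib.MP_a4c1f4_lc.Spec

set_option linter.all false

/-!
(E1) The perturbed costs.
-/

namespace Pool.Agent.MP_a4c1f4_lc

open Finset

theorem costP (hF : FieldProp) : CostProp := by
  intro T _ _ _ h J L D lam rho ω hD hlam hrho hJl r s
  have hb : ∀ r s, |pot D lam rho ω r - pot D lam rho ω s| ≤ 1 / 2 * D r s := by
    intro r s
    have e1 : pot D lam rho ω r - pot D lam rho ω s = ∑ k : Fin h, ∑ i : Fin J,
        (fld D (lam * rho k / (L : ℝ)) lam (ctr D (2 * rho k) (ω k).1) (gv (ω k) i) r -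
          fld D (lam * rho k / (L : ℝ)) lam (ctr D (2 * rho k) (ω k).1) (gv (ω k) i) s) := by
      unfold pot
      rw [← Finset.sum_sub_distrib]
      exact Finset.sum_congr rfl fun k _ => by rw [← Finset.sum_sub_distrib]
    rw [e1]
    calc |∑ k : Fin h, ∑ i : Fin J,
        (fld D (lam * rho k / (L : ℝ)) lam (ctr D (2 * rho k) (ω k).1) (gv (ω k) i) r -
          fld D (lam * rho k / (L : ℝ)) lam (ctr D (2 * rho k) (ω k).1) (gv (ω k) i) s)|
        ≤ ∑ k : Fin h, |∑ i : Fin J,
        (fld D (lam * rho k / (L : ℝ)) lam (ctr D (2 * rho k) (ω k).1) (gv (ω k) i) r -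
          fld D (lam * rho k / (L : ℝ)) lam (ctr D (2 * rho k) (ω k).1) (gv (ω k) i) s)| :=
          Finset.abs_sum_le_sum_abs _ _
      _ ≤ ∑ k : Fin h, ∑ i : Fin J, lam * D r s := by
          refine Finset.sum_le_sum fun k _ => ?_
          refine (Finset.abs_sum_le_sum_abs _ _).trans ?_
          refine Finset.sum_le_sum fun i _ => ?_
          have hη : 0 ≤ lam * rho k / (L : ℝ) := by
            have := hrho k k.2
            positivity
          exact (hF T D _ lam (ctr D (2 * rho k) (ω k).1) (gv (ω k) i) hD hη hlam).1 r s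
      _ = h * J * lam * D r s := by
          simp only [Finset.sum_const, Finset.card_univ, Fintype.card_fin, nsmul_eq_mul]
          ring
      _ ≤ 1 / 2 * D r s := mul_le_mul_of_nonneg_right hJl (hD.nonneg r s)
  have h1 := abs_le.1 (hb r s)
  unfold cst
  constructor <;> linarith [h1.1, h1.2]

end Pool.Agent.MP_a4c1f4_lc
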