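import Mathlib

set_option linter.all false

/-!
Online transportation: follow the perturbed optimum.
Definitions shared by all the files of this folder.
-/

namespace Pool.Agent.MP_a4c1f4_lc

open Finset

/-- A pseudo-metric given as a function. -/
structure PM {T : Type} (D : T → T → ℝ) : Prop where
  self : ∀ x, D x x = 0
  symm : ∀ x y, D x y = D y x
  tri : ∀ x y z, D x z ≤ D x y + D y z

theorem PM.nonneg {T : Type} {D : T → T → ℝ} (h : PM D) (x y : T) : 0 ≤ D x y := by
  have h1 := h.tri x y x
  have h2 := h.self x
  have h3 := h.symm x y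
  linarith

/-- Cost of the assignment `τ` of the requests `l` (both lists of the same length). -/
def acost {T : Type} (c : T → T → ℝ) (l τ : List T) : ℝ := (List.zipWith c l τ).sum

/-- `τ` is an injective assignment of the requests `l`. -/
def Adm {T : Type} (l τ : List T) : Prop := τ.length = l.length ∧ τ.Nodup

/-- The optimal cost. -/
noncomputable def optv {T : Type} (c : T → T → ℝ) (l : List T) : ℝ :=
  sInf {v : ℝ | ∃ τ, Adm l τ ∧ acost c l τ = v}

/-- `F` is the set of the sites of some optimal assignment. -/
def IsOpt {T : Type} [DecidableEq T] (c : T → T → ℝ) (l : List T) (F : Finset T) : Prop :=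
  ∃ τ, Adm l τ ∧ τ.toFinset = F ∧ acost c l τ = optv c l

open Classical in
/-- The site chosen for the request `x` after the requests `l`, when `F` is the set of the
sites already used: a site `y` outside `F` such that `F ∪ {y}` is again optimal. -/
noncomputable def pick {T : Type} [DecidableEq T] [Nonempty T] (c : T → T → ℝ) (x : T)
    (l : List T) (F : Finset T) : T :=
  if h : ∃ y, y ∉ F ∧ IsOpt c (x :: l) (insert y F) then h.choose else Classical.arbitrary T

/-- The set of the sites used by the algorithm (most recent request first). -/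
noncomputable def used {T : Type} [DecidableEq T] [Nonempty T] (c : T → T → ℝ) :
    List T → Finset T
  | [] => ∅
  | x :: l => insert (pick c x l (used c l)) (used c l)

/-- The site serving the request `x` after the requests `l`. -/
noncomputable def srv {T : Type} [DecidableEq T] [Nonempty T] (c : T → T → ℝ) (x : T)
    (l : List T) : T := pick c x l (used c l)

/-- The true cost (for `D`) of the algorithm run with the costs `c`. -/
noncomputable def tcost {T : Type} [DecidableEq T] [Nonempty T] (D c : T → T → ℝ) :
    List T → ℝ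
  | [] => 0
  | x :: l => tcost D c l + D x (srv c x l)

/-- The list of the sites chosen by the algorithm. -/
noncomputable def srvs {T : Type} [DecidableEq T] [Nonempty T] (c : T → T → ℝ) :
    List T → List T
  | [] => []
  | x :: l => srv c x l :: srvs c l

/-- The perturbed cost. -/
def cst {T : Type} (D : T → T → ℝ) (β : T → ℝ) (r s : T) : ℝ := D r s + β r - β s

/-! ### Noise fields -/

/-- A fixed numbering of the sites. -/
noncomputable def rk (T : Type) [Fintype T] (x : T) : ℕ := (Fintype.equivFin T x : ℕ)

open Classical in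
/-- The first site, in the order given by the permutation `π`, of the ball of radius `R`
around `x`. -/
noncomputable def ctr {T : Type} [Fintype T] (D : T → T → ℝ) (R : ℝ) (π : Equiv.Perm T)
    (x : T) : T :=
  if h : ((Finset.univ : Finset T).filter (fun w => D w x ≤ R)).Nonempty then
    (Finset.exists_min_image _ (fun w => rk T (π w)) h).choose
  else x

/-- The noise field with slope `lam`, grid step `eta`, centre map `z` and values `g`. -/
noncomputable def fld {T : Type} [Fintype T] [Nonempty T] (D : T → T → ℝ) (eta lam : ℝ)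
    (z : T → T) (g : T → ℕ) (s : T) : ℝ :=
  (Finset.univ : Finset T).sup' Finset.univ_nonempty (fun x => eta * (g (z x) : ℝ) - lam * D s x)

/-- `zc` is the centre selected at `r`: it is the centre of a maximiser `x` in the definition
of the field, ties being broken by the largest number. -/
def Sel {T : Type} [Fintype T] (D : T → T → ℝ) (eta lam : ℝ) (z : T → T) (g : T → ℕ)
    (r zc : T) : Prop :=
  ∃ x, z x = zc ∧ ∀ x',
    (eta * (g (z x') : ℝ) - lam * D r x' < eta * (g (z x) : ℝ) - lam * D r x) ∨
    (eta * (g (z x') : ℝ) - lam * D r x' = eta * (g (z x) : ℝ) - lam * D r x ∧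
      rk T (z x') ≤ rk T zc)

/-! ### The probability space -/

/-- Randomness of one level: a permutation of the sites and the values of the `J` fields. -/
abbrev Lev (T : Type) (J L : ℕ) : Type := Equiv.Perm T × (Fin J × T → Fin (L + 1))

/-- The whole sample space: `h` independent levels. -/
abbrev Om (T : Type) (h J L : ℕ) : Type := Fin h → Lev T J L

/-- Geometric weights capped at `L`. -/
noncomputable def gw (q : ℝ) (L : ℕ) (j : ℕ) : ℝ := if j < L then (1 - q) * q ^ j else q ^ L

/-- Parameter of the `i`-th field. -/
noncomputable def qq (u : ℕ → ℝ) (L : ℕ) (i : ℕ) : ℝ := 1 - u i / (L : ℝ)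

/-- Weight of one level. -/
noncomputable def levw {T : Type} [Fintype T] {J L : ℕ} (u : ℕ → ℝ) (a : Lev T J L) : ℝ :=
  (1 / ((Fintype.card T).factorial : ℝ)) * ∏ p : Fin J × T, gw (qq u L p.1) L (a.2 p)

/-- Weight of a sample point. -/
noncomputable def omw {T : Type} [Fintype T] {h J L : ℕ} (u : ℕ → ℝ) (ω : Om T h J L) : ℝ :=
  ∏ k, levw u (ω k)

/-- Expectation for one level. -/
noncomputable def Ex1 {T : Type} [Fintype T] [DecidableEq T] {J L : ℕ} (u : ℕ → ℝ)
    (f : Lev T J L → ℝ) : ℝ := ∑ a, levw u a * f a

/-- Expectation. -/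
noncomputable def Ex {T : Type} [Fintype T] [DecidableEq T] {h J L : ℕ} (u : ℕ → ℝ)
    (f : Om T h J L → ℝ) : ℝ := ∑ ω, omw u ω * f ω

/-- Change the value of the field `i` of level `k` at the centre `z` to `j`. -/
def upd {T : Type} [DecidableEq T] {h J L : ℕ} (ω : Om T h J L) (k : Fin h) (i : Fin J)
    (z : T) (j : Fin (L + 1)) : Om T h J L :=
  Function.update ω k ((ω k).1, Function.update (ω k).2 (i, z) j)

/-- Values of the field `i` in the level `a`. -/
def gv {T : Type} {J L : ℕ} (a : Lev T J L) (i : Fin J) (z : T) : ℕ := (a.2 (i, z) : ℕ)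

/-- The total noise. -/
noncomputable def pot {T : Type} [Fintype T] [Nonempty T] {h J L : ℕ} (D : T → T → ℝ)
    (lam : ℝ) (rho : ℕ → ℝ) (ω : Om T h J L) (s : T) : ℝ :=
  ∑ k : Fin h, ∑ i : Fin J,
    fld D (lam * rho k / (L : ℝ)) lam (ctr D (2 * rho k) (ω k).1) (gv (ω k) i) s

/-- The field `i` of the level `a` (with radius `rho`) is capped at `r`. -/
def Cap {T : Type} [Fintype T] {J L : ℕ} (D : T → T → ℝ) (lam rho : ℝ) (a : Lev T J L)
    (r : T) (i : Fin J) : Prop :=
  ∃ zc, Sel D (lam * rho / (L : ℝ)) lam (ctr D (2 * rho) a.1) (gv a i) r zc ∧ gv a i zc = L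

/-- All the fields before `i` of the level `a` are capped at `r`. -/
def CapBelow {T : Type} [Fintype T] {J L : ℕ} (D : T → T → ℝ) (lam rho : ℝ) (a : Lev T J L)
    (r : T) (i : Fin J) : Prop := ∀ i' : Fin J, i' < i → Cap D lam rho a r i'

open Classical in
/-- Indicator of a proposition. -/
noncomputable def ind (P : Prop) : ℝ := if P then 1 else 0

theorem ind_nonneg (P : Prop) : 0 ≤ ind P := by unfold ind; split_ifs <;> norm_num
theorem ind_le_one (P : Prop) : ind P ≤ 1 := by unfold ind; split_ifs <;> norm_num
theorem ind_true {P : Prop} (h : P) : ind P = 1 := by unfold ind; simp [h]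
theorem ind_false {P : Prop} (h : ¬ P) : ind P = 0 := by unfold ind; simp [h]
theorem ind_mono {P Q : Prop} (h : P → Q) : ind P ≤ ind Q := by
  unfold ind; split_ifs with h1 h2 <;> simp_all

/-- The weight `W` of one level. -/
noncomputable def Wl {T : Type} [Fintype T] {J L : ℕ} (D : T → T → ℝ) (lam rho : ℝ)
    (u : ℕ → ℝ) (r : T) (a : Lev T J L) : ℝ :=
  ∑ i : Fin J, u i * ind (CapBelow D lam rho a r i)

open Classical in
/-- Number of the sites in a ball. -/
noncomputable def nb {T : Type} [Fintype T] (D : T → T → ℝ) (R : ℝ) (x : T) : ℕ :=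
  ((Finset.univ : Finset T).filter (fun w => D w x ≤ R)).card

end Pool.Agent.MP_a4c1f4_lc
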