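import Pool.Agent.Lib.MP_a4c1f4_lc.Spec

set_option linter.all false

/-!
Exponential moment: product over the levels and telescoping.
-/

namespace Pool.Agent.MP_a4c1f4_lc

open Finset

theorem expMoment_nb_mono {T : Type} [Fintype T] (D : T → T → ℝ) {R R' : ℝ} (h : R ≤ R')
    (x : T) : (nb D R x : ℝ) ≤ (nb D R' x : ℝ) := by
  classical
  have : nb D R x ≤ nb D R' x := by
    unfold nb
    refine Finset.card_le_card fun w hw => ?_
    rw [Finset.mem_filter] at hw ⊢
    exact ⟨hw.1, hw.2.trans h⟩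
  exact_mod_cast this

theorem expMoment_one_le_nb {T : Type} [Fintype T] {D : T → T → ℝ} (hD : PM D) {R : ℝ}
    (h : 0 < R) (x : T) : (1 : ℝ) ≤ (nb D R x : ℝ) := by
  classical
  have : 1 ≤ nb D R x := by
    unfold nb
    rw [Nat.one_le_iff_ne_zero, Ne, Finset.card_eq_zero]
    refine Finset.nonempty_iff_ne_empty.1 ⟨x, ?_⟩
    rw [Finset.mem_filter]
    exact ⟨Finset.mem_univ _, by rw [hD.self]; exact h.le⟩
  exact_mod_cast this

theorem expMoment_telescope {T : Type} [Fintype T] {D : T → T → ℝ} (hD : PM D) (r : T)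
    (rho : ℕ → ℝ) (h : ℕ) (h1 : ∀ k, k < h + 1 → 0 < rho k)
    (h2 : ∀ k, k + 1 < h + 1 → 4 * rho k ≤ rho (k + 1)) :
    ∏ k ∈ Finset.range (h + 1), ((nb D (3 * rho k) r : ℝ) / (nb D (rho k) r : ℝ)) ≤
      (nb D (3 * rho h) r : ℝ) := by
  induction h with
  | zero =>
    rw [Finset.prod_range_one]
    exact div_le_self (Nat.cast_nonneg _) (expMoment_one_le_nb hD (h1 0 (by omega)) r)
  | succ h ih =>
    have ih' := ih (fun k hk => h1 k (by omega)) (fun k hk => h2 k (by omega))
    rw [Finset.prod_range_succ]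
    have e1 := expMoment_one_le_nb hD (h1 (h + 1) (by omega)) r
    have e0 : (0 : ℝ) < (nb D (rho (h + 1)) r : ℝ) := by linarith
    have e2 : (nb D (3 * rho h) r : ℝ) ≤ (nb D (rho (h + 1)) r : ℝ) := by
      refine expMoment_nb_mono D ?_ r
      have e3 := h2 h (by omega)
      have e4 := h1 h (by omega)
      linarith
    calc _ ≤ (nb D (3 * rho h) r : ℝ) *
          ((nb D (3 * rho (h + 1)) r : ℝ) / (nb D (rho (h + 1)) r : ℝ)) :=
          mul_le_mul_of_nonneg_right ih' (by positivity)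
      _ ≤ (nb D (rho (h + 1)) r : ℝ) *
          ((nb D (3 * rho (h + 1)) r : ℝ) / (nb D (rho (h + 1)) r : ℝ)) :=
          mul_le_mul_of_nonneg_right e2 (by positivity)
      _ = (nb D (3 * rho (h + 1)) r : ℝ) := by
          field_simp

theorem expMoment_prod_le {T : Type} [Fintype T] [Nonempty T] {D : T → T → ℝ} (hD : PM D)
    (r : T) (rho : ℕ → ℝ) (h : ℕ) (h1 : ∀ k, k < h → 0 < rho k)
    (h2 : ∀ k, k + 1 < h → 4 * rho k ≤ rho (k + 1)) :
    ∏ k : Fin h, ((nb D (3 * rho k) r : ℝ) / (nb D (rho k) r : ℝ)) ≤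
      (Fintype.card T : ℝ) := by
  classical
  cases h with
  | zero =>
    have : 1 ≤ Fintype.card T := Fintype.card_pos
    simpa using this
  | succ h =>
    have e1 := expMoment_telescope hD r rho h h1 h2
    rw [Finset.prod_range (fun k => (nb D (3 * rho k) r : ℝ) / (nb D (rho k) r : ℝ))] at e1
    refine e1.trans ?_
    have : nb D (3 * rho h) r ≤ Fintype.card T := by
      unfold nb
      exact Finset.card_le_univ _
    exact_mod_cast this

theorem expMoment (hW : WeightProp) (hI : IndepProp) (hE : ExpLevelProp) : ExpMomentProp := by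
  intro T _ _ _ h J L u u0 D lam rho r hD hlam hrho hrho4 hL0 hqq hu0 hu
  have hfun : (fun ω : Om T h J L => Real.exp ((∑ k : Fin h, Wl D lam (rho k) u r (ω k)) / 8)) =
      fun ω : Om T h J L => ∏ k : Fin h, Real.exp (Wl D lam (rho k) u r (ω k) / 8) := by
    funext ω
    rw [← Real.exp_sum, Finset.sum_div]
  rw [hfun, (hI T h J L u).1 (fun k a => Real.exp (Wl D lam (rho k) u r a / 8))]
  have hnn : ∀ k : Fin h, 0 ≤ Ex1 u (fun a : Lev T J L => Real.exp (Wl D lam (rho k) u r a / 8)) :=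
    fun k => Finset.sum_nonneg fun a _ =>
      mul_nonneg ((hW.2.2.1 T J L u).2 hqq a) (Real.exp_pos _).le
  calc ∏ k : Fin h, Ex1 u (fun a : Lev T J L => Real.exp (Wl D lam (rho k) u r a / 8))
      ≤ ∏ k : Fin h, (Real.exp (u0 / 8 + 1) *
          ((nb D (3 * rho k) r : ℝ) / (nb D (rho k) r : ℝ))) :=
        Finset.prod_le_prod (fun k _ => hnn k) fun k _ =>
          hE T J L u u0 D lam (rho k) r hD hlam (hrho k k.2) hL0 hqq hu0 hu
    _ = Real.exp (h * (u0 / 8 + 1)) *
          ∏ k : Fin h, ((nb D (3 * rho k) r : ℝ) / (nb D (rho k) r : ℝ)) := by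
        rw [Finset.prod_mul_distrib, Finset.prod_const, Finset.card_univ, Fintype.card_fin,
          ← Real.exp_nat_mul]
    _ ≤ Real.exp (h * (u0 / 8 + 1)) * (Fintype.card T : ℝ) :=
        mul_le_mul_of_nonneg_left (expMoment_prod_le hD r rho h hrho hrho4) (Real.exp_pos _).le

end Pool.Agent.MP_a4c1f4_lc
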