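import Pool.Agent.Lib.MP_a4c1f4_lc.Spec

set_option linter.all false

/-!
(E2) Probability of a far assignment at one level.
-/

namespace Pool.Agent.MP_a4c1f4_lc

open Finset

section LevelAux

variable {T : Type} [Fintype T] [DecidableEq T] {h J L : ℕ}

private theorem level_ex_mono (u : ℕ → ℝ) (hw : ∀ ω : Om T h J L, 0 ≤ omw u ω)
    {f g : Om T h J L → ℝ} (hfg : ∀ ω, f ω ≤ g ω) : Ex u f ≤ Ex u g := by
  unfold Ex
  exact Finset.sum_le_sum fun ω _ => mul_le_mul_of_nonneg_left (hfg ω) (hw ω)

private theorem level_ex_add (u : ℕ → ℝ) (f g : Om T h J L → ℝ) :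
    Ex u (fun ω => f ω + g ω) = Ex u f + Ex u g := by
  unfold Ex
  rw [← Finset.sum_add_distrib]
  exact Finset.sum_congr rfl fun ω _ => by ring

private theorem level_ex_smul (u : ℕ → ℝ) (a : ℝ) (f : Om T h J L → ℝ) :
    Ex u (fun ω => a * f ω) = a * Ex u f := by
  unfold Ex
  rw [Finset.mul_sum]
  exact Finset.sum_congr rfl fun ω _ => by ring

private theorem level_ex_sum (u : ℕ → ℝ) {ι : Type} (s : Finset ι) (f : ι → Om T h J L → ℝ) :
    Ex u (fun ω => ∑ i ∈ s, f i ω) = ∑ i ∈ s, Ex u (f i) := by
  unfold Ex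
  rw [Finset.sum_comm]
  exact Finset.sum_congr rfl fun ω _ => by rw [Finset.mul_sum]

private theorem level_ex_const (u : ℕ → ℝ) (hs : ∑ ω : Om T h J L, omw u ω = 1) (a : ℝ) :
    Ex (T := T) (h := h) (J := J) (L := L) u (fun _ => a) = a := by
  unfold Ex
  rw [← Finset.sum_mul, hs, one_mul]

/-! Effect of `upd`. -/

private theorem level_upd_self (ω : Om T h J L) (k : Fin h) (i : Fin J) (z : T)
    (j : Fin (L + 1)) : upd ω k i z j k = ((ω k).1, Function.update (ω k).2 (i, z) j) := by
  simp [upd]

private theorem level_upd_ne (ω : Om T h J L) (k k' : Fin h) (i : Fin J) (z : T)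
    (j : Fin (L + 1)) (hk : k' ≠ k) : upd ω k i z j k' = ω k' := by
  simp [upd, Function.update_of_ne hk]

private theorem level_upd_perm (ω : Om T h J L) (k : Fin h) (i : Fin J) (z : T)
    (j : Fin (L + 1)) (k' : Fin h) : (upd ω k i z j k').1 = (ω k').1 := by
  by_cases hk : k' = k
  · subst hk; rw [level_upd_self]
  · rw [level_upd_ne ω k k' i z j hk]

private theorem level_gv_self (ω : Om T h J L) (k : Fin h) (i : Fin J) (z : T)
    (j : Fin (L + 1)) : gv (upd ω k i z j k) i = Function.update (gv (ω k) i) z (j : ℕ) := by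
  funext w
  rw [level_upd_self]
  unfold gv
  by_cases hw : w = z
  · subst hw; simp
  · have : ((i, w) : Fin J × T) ≠ (i, z) := by
      intro hh; exact hw (Prod.mk.inj hh).2
    simp [Function.update_of_ne this, Function.update_of_ne hw]

private theorem level_gv_ne (ω : Om T h J L) (k : Fin h) (i i' : Fin J) (z : T)
    (j : Fin (L + 1)) (hi : i' ≠ i) : gv (upd ω k i z j k) i' = gv (ω k) i' := by
  funext w
  rw [level_upd_self]
  unfold gv
  have : ((i', w) : Fin J × T) ≠ (i, z) := by
    intro hh; exact hi (Prod.mk.inj hh).1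
  simp [Function.update_of_ne this]

private theorem level_cap_ne (D : T → T → ℝ) (lam rh : ℝ) (ω : Om T h J L) (k : Fin h)
    (i i' : Fin J) (z x : T) (j : Fin (L + 1)) (hi : i' ≠ i) :
    Cap D lam rh (upd ω k i z j k) x i' ↔ Cap D lam rh (ω k) x i' := by
  unfold Cap
  rw [level_gv_ne ω k i i' z j hi, level_upd_perm]

private theorem level_capBelow (D : T → T → ℝ) (lam rh : ℝ) (ω : Om T h J L) (k : Fin h)
    (i : Fin J) (z x : T) (j : Fin (L + 1)) :
    CapBelow D lam rh (upd ω k i z j k) x i ↔ CapBelow D lam rh (ω k) x i := by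
  unfold CapBelow
  constructor
  · intro hh i' hi'
    exact (level_cap_ne D lam rh ω k i i' z x j (ne_of_lt hi')).1 (hh i' hi')
  · intro hh i' hi'
    exact (level_cap_ne D lam rh ω k i i' z x j (ne_of_lt hi')).2 (hh i' hi')

private theorem level_pot_upd [Nonempty T] (D : T → T → ℝ) (lam : ℝ) (rho : ℕ → ℝ)
    (ω : Om T h J L) (k : Fin h) (i : Fin J) (z : T) (j : Fin (L + 1)) (s : T) :
    pot D lam rho (upd ω k i z j) s =
      (pot D lam rho ω s -
        fld D (lam * rho k / (L : ℝ)) lam (ctr D (2 * rho k) (ω k).1) (gv (ω k) i) s) +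
      fld D (lam * rho k / (L : ℝ)) lam (ctr D (2 * rho k) (ω k).1)
        (Function.update (gv (ω k) i) z (j : ℕ)) s := by
  unfold pot
  rw [← Finset.add_sum_erase _ _ (Finset.mem_univ k),
    ← Finset.add_sum_erase (Finset.univ : Finset (Fin h)) (fun k' : Fin h => ∑ i : Fin J,
      fld D (lam * rho k' / (L : ℝ)) lam (ctr D (2 * rho k') (ω k').1) (gv (ω k') i) s)
      (Finset.mem_univ k)]
  have h1 : ∑ k' ∈ (Finset.univ : Finset (Fin h)).erase k, ∑ i' : Fin J,
      fld D (lam * rho k' / (L : ℝ)) lam (ctr D (2 * rho k') (upd ω k i z j k').1)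
        (gv (upd ω k i z j k') i') s =
      ∑ k' ∈ (Finset.univ : Finset (Fin h)).erase k, ∑ i' : Fin J,
      fld D (lam * rho k' / (L : ℝ)) lam (ctr D (2 * rho k') (ω k').1) (gv (ω k') i') s := by
    refine Finset.sum_congr rfl fun k' hk' => ?_
    rw [level_upd_ne ω k k' i z j (Finset.ne_of_mem_erase hk')]
  rw [h1]
  have h2 : ∑ i' : Fin J, fld D (lam * rho k / (L : ℝ)) lam
        (ctr D (2 * rho k) (upd ω k i z j k).1) (gv (upd ω k i z j k) i') s =
      fld D (lam * rho k / (L : ℝ)) lam (ctr D (2 * rho k) (ω k).1)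
        (Function.update (gv (ω k) i) z (j : ℕ)) s +
      ∑ i' ∈ (Finset.univ : Finset (Fin J)).erase i,
        fld D (lam * rho k / (L : ℝ)) lam (ctr D (2 * rho k) (ω k).1) (gv (ω k) i') s := by
    rw [← Finset.add_sum_erase _ _ (Finset.mem_univ i), level_gv_self, level_upd_perm]
    congr 1
    refine Finset.sum_congr rfl fun i' hi' => ?_
    rw [level_gv_ne ω k i i' z j (Finset.ne_of_mem_erase hi')]
  have h3 : ∑ i' : Fin J, fld D (lam * rho k / (L : ℝ)) lam
        (ctr D (2 * rho k) (ω k).1) (gv (ω k) i') s =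
      fld D (lam * rho k / (L : ℝ)) lam (ctr D (2 * rho k) (ω k).1) (gv (ω k) i) s +
      ∑ i' ∈ (Finset.univ : Finset (Fin J)).erase i,
        fld D (lam * rho k / (L : ℝ)) lam (ctr D (2 * rho k) (ω k).1) (gv (ω k) i') s := by
    rw [← Finset.add_sum_erase _ _ (Finset.mem_univ i)]
  rw [h2, h3]
  ring

end LevelAux

theorem levelP (hM : MonoProp) (hO : OneVarProp) (hS : SelProp) (hW : WeightProp)
    (hR : ResampleProp) (hC : CtrProp) (hF : FieldProp) (hCo : CostProp) : LevelProp := by
  intro T _ _ _ h J L u D lam rho x l k hD hlam hrho hJl hL hq hl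
  obtain ⟨hW1, hW2, hW3, hW4⟩ := hW
  have hw := (hW4 T h J L u).2 hq
  have hw1 := (hW4 T h J L u).1
  have hrk : 0 < rho k := hrho k k.2
  have hLr : (0 : ℝ) < L := by exact_mod_cast hL
  set eta : ℝ := lam * rho k / (L : ℝ) with heta
  have hetap : 0 < eta := by positivity
  have hetaL : eta * L = lam * rho k := by rw [heta]; field_simp
  set M : ℝ := (Fintype.card T : ℝ) with hMdef
  set c : Om T h J L → T → T → ℝ := fun ω => cst D (pot D lam rho ω) with hc
  have hcn : ∀ ω r s, 0 ≤ c ω r s := by
    intro ω r s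
    have := (hCo T h J L D lam rho ω hD hlam.le (fun k hk => (hrho k hk).le) hJl r s).1
    have h2 := hD.nonneg r s
    simp only [hc]; linarith
  set U : Om T h J L → ℝ := fun ω => optv (c ω) (x :: l) - optv (c ω) l with hU
  have hUn : ∀ ω, 0 ≤ U ω := by
    intro ω
    have := (hM T (c ω) l).1 (hcn ω) x hl
    simp only [hU]; linarith
  set far : Om T h J L → Prop := fun ω => 6 * rho k ≤ D x (srv (c ω) x l) with hfar
  set P : Om T h J L → Fin J → Prop := fun ω i => CapBelow D lam (rho k) (ω k) x i with hP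
  set S : Om T h J L → Fin J → T → Prop := fun ω i zc =>
    Sel D eta lam (ctr D (2 * rho k) (ω k).1) (gv (ω k) i) x zc with hSd
  set tm : Fin J → T → Om T h J L → ℝ := fun i zc ω =>
    ind (P ω i ∧ S ω i zc ∧ gv (ω k) i zc < L ∧ far ω) with htm
  have hgle : ∀ (ω : Om T h J L) (i : Fin J) (w : T), gv (ω k) i w ≤ L := by
    intro ω i w
    unfold gv
    have := ((ω k).2 (i, w)).2
    omega
  -- Step 1
  have step1 : ∀ ω, ind (far ω) ≤ (∑ i : Fin J, ∑ zc : T, tm i zc ω) +
      ind (∀ i, Cap D lam (rho k) (ω k) x i) := by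
    intro ω
    have hnn : 0 ≤ ∑ i : Fin J, ∑ zc : T, tm i zc ω :=
      Finset.sum_nonneg fun i _ => Finset.sum_nonneg fun zc _ => ind_nonneg _
    by_cases hf : far ω
    swap
    · rw [ind_false hf]
      have := ind_nonneg (∀ i, Cap D lam (rho k) (ω k) x i)
      linarith
    by_cases hall : ∀ i, Cap D lam (rho k) (ω k) x i
    · rw [ind_true hall]
      have := ind_le_one (far ω)
      linarith
    · push Not at hall
      -- first non capped field
      have hex : ∃ n : ℕ, ∃ hn : n < J, ¬ Cap D lam (rho k) (ω k) x ⟨n, hn⟩ := by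
        obtain ⟨i, hi⟩ := hall
        exact ⟨i, i.2, hi⟩
      classical
      obtain ⟨hn, hnc⟩ := Nat.find_spec hex
      set i0 : Fin J := ⟨Nat.find hex, hn⟩ with hi0
      have hPi : P ω i0 := by
        intro i' hi'
        by_contra hcon
        have : (i' : ℕ) < Nat.find hex := hi'
        exact Nat.find_min hex this ⟨i'.2, hcon⟩
      obtain ⟨zc, hzc⟩ := (hS T D eta lam (ctr D (2 * rho k) (ω k).1) (gv (ω k) i0) x hD hetap
        hlam).1
      have hlt : gv (ω k) i0 zc < L := by
        rcases Nat.lt_or_ge (gv (ω k) i0 zc) L with h1 | h1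
        · exact h1
        · exfalso
          apply hnc
          exact ⟨zc, hzc, le_antisymm (hgle ω i0 zc) h1⟩
      have h1 : tm i0 zc ω = 1 := ind_true ⟨hPi, hzc, hlt, hf⟩
      have h2 : tm i0 zc ω ≤ ∑ zc : T, tm i0 zc ω :=
        Finset.single_le_sum (f := fun zc => tm i0 zc ω) (fun zc _ => ind_nonneg _)
          (Finset.mem_univ zc)
      have h3 : ∑ zc : T, tm i0 zc ω ≤ ∑ i : Fin J, ∑ zc : T, tm i zc ω :=
        Finset.single_le_sum (f := fun i => ∑ zc : T, tm i zc ω)
          (fun i _ => Finset.sum_nonneg fun zc _ => ind_nonneg _) (Finset.mem_univ i0)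
      have h4 := ind_le_one (far ω)
      have h5 := ind_nonneg (∀ i, Cap D lam (rho k) (ω k) x i)
      linarith
  -- Step 2
  have step2 : ∀ (i : Fin J) (zc : T), Ex u (tm i zc) ≤
      u i / (lam * rho k) * Ex u (fun ω => U ω * ind (P ω i) * ind (S ω i zc)) +
        u i / L * (1 + M) := by
    intro i zc
    have hq1 := hq i i.2
    have hqe : (1 - qq u L i) = u i / L := by unfold qq; ring
    have hcoef : (1 - qq u L i) / eta = u i / (lam * rho k) := by
      rw [hqe, heta]; field_simp
    have huL : 0 ≤ u i / L * (1 + M) := by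
      have : 0 ≤ u i / L := by rw [← hqe]; linarith [hq1.2]
      positivity
    rw [hR T h J L u k i zc (tm i zc),
      hR T h J L u k i zc (fun ω => U ω * ind (P ω i) * ind (S ω i zc))]
    rw [← level_ex_smul, ← level_ex_const (T := T) (h := h) (J := J) (L := L) u hw1
      (u i / L * (1 + M)), ← level_ex_add]
    refine level_ex_mono u hw fun ω => ?_
    set g : T → ℕ := gv (ω k) i with hg
    set z : T → T := ctr D (2 * rho k) (ω k).1 with hz
    set B : T → ℝ := fun s => pot D lam rho ω s - fld D eta lam z g s with hB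
    have hcupd : ∀ j : Fin (L + 1), c (upd ω k i zc j) =
        cst D (fun s => B s + fld D eta lam z (Function.update g zc (j : ℕ)) s) := by
      intro j
      simp only [hc]
      congr 1
      funext s
      rw [level_pot_upd]
    have hPupd : ∀ j : Fin (L + 1), ind (P (upd ω k i zc j) i) = ind (P ω i) := by
      intro j
      have hpp : P (upd ω k i zc j) i ↔ P ω i := level_capBelow D lam (rho k) ω k i zc x j
      by_cases hp : P ω i
      · rw [ind_true hp, ind_true (hpp.2 hp)]
      · rw [ind_false hp, ind_false (fun hh => hp (hpp.1 hh))]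
    have hSupd : ∀ j : Fin (L + 1), S (upd ω k i zc j) i zc =
        Sel D eta lam z (Function.update g zc (j : ℕ)) x zc := by
      intro j
      simp only [hSd]
      rw [level_gv_self, level_upd_perm]
    have hgupd : ∀ j : Fin (L + 1), gv (upd ω k i zc j k) i zc = (j : ℕ) := by
      intro j
      rw [level_gv_self]; simp
    have hOV := hO T D eta lam (rho k) (qq u L i) z g L B x zc l hD hetap hlam hetaL
      (fun w => (hC T D (2 * rho k) (ω k).1 hD (by positivity) w).1) (hgle ω i) hq1.1 hq1.2 hl
      (by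
        intro j hj r s
        have := hcn (upd ω k i zc ⟨j, Nat.lt_succ_of_le hj⟩) r s
        rw [hcupd] at this
        exact this)
    -- rewrite the two sums
    have hleft : ∀ j : Fin (L + 1), tm i zc (upd ω k i zc j) =
        ind (P ω i) * ind (Sel D eta lam z (Function.update g zc (j : ℕ)) x zc ∧ (j : ℕ) < L ∧
          6 * rho k ≤ D x (srv (cst D
            (fun s => B s + fld D eta lam z (Function.update g zc (j : ℕ)) s)) x l)) := by
      intro j
      have e1 : tm i zc (upd ω k i zc j) = ind (P (upd ω k i zc j) i) *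
          ind (S (upd ω k i zc j) i zc ∧ gv (upd ω k i zc j k) i zc < L ∧
            far (upd ω k i zc j)) := by
        simp only [htm]
        by_cases hp : P (upd ω k i zc j) i
        · rw [ind_true hp, one_mul]
          congr 1
          simp only [hp, true_and]
        · rw [ind_false hp, zero_mul]
          exact ind_false (fun hh => hp hh.1)
      rw [e1, hPupd, hSupd, hgupd]
      simp only [hfar]
      rw [hcupd]
    have hright : ∀ j : Fin (L + 1), U (upd ω k i zc j) * ind (P (upd ω k i zc j) i) *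
        ind (S (upd ω k i zc j) i zc) = ind (P ω i) *
        ((optv (cst D (fun s => B s + fld D eta lam z (Function.update g zc (j : ℕ)) s)) (x :: l)
          - optv (cst D (fun s => B s + fld D eta lam z (Function.update g zc (j : ℕ)) s)) l) *
          ind (Sel D eta lam z (Function.update g zc (j : ℕ)) x zc)) := by
      intro j
      rw [hPupd, hSupd]
      simp only [hU]
      rw [hcupd]
      ring
    simp only [hleft, hright]
    have hpn := ind_nonneg (P ω i)
    have hp1 := ind_le_one (P ω i)
    have e2 : ∑ j : Fin (L + 1), gw (qq u L i) L j * (ind (P ω i) *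
        ind (Sel D eta lam z (Function.update g zc (j : ℕ)) x zc ∧ (j : ℕ) < L ∧
          6 * rho k ≤ D x (srv (cst D
            (fun s => B s + fld D eta lam z (Function.update g zc (j : ℕ)) s)) x l))) =
        ind (P ω i) * ∑ j : Fin (L + 1), gw (qq u L i) L j *
        ind (Sel D eta lam z (Function.update g zc (j : ℕ)) x zc ∧ (j : ℕ) < L ∧
          6 * rho k ≤ D x (srv (cst D
            (fun s => B s + fld D eta lam z (Function.update g zc (j : ℕ)) s)) x l)) := by
      rw [Finset.mul_sum]
      exact Finset.sum_congr rfl fun j _ => by ring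
    have e3 : ∑ j : Fin (L + 1), gw (qq u L i) L j * (ind (P ω i) *
        ((optv (cst D (fun s => B s + fld D eta lam z (Function.update g zc (j : ℕ)) s)) (x :: l)
          - optv (cst D (fun s => B s + fld D eta lam z (Function.update g zc (j : ℕ)) s)) l) *
          ind (Sel D eta lam z (Function.update g zc (j : ℕ)) x zc))) =
        ind (P ω i) * ∑ j : Fin (L + 1), gw (qq u L i) L j *
        ((optv (cst D (fun s => B s + fld D eta lam z (Function.update g zc (j : ℕ)) s)) (x :: l)
          - optv (cst D (fun s => B s + fld D eta lam z (Function.update g zc (j : ℕ)) s)) l) *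
          ind (Sel D eta lam z (Function.update g zc (j : ℕ)) x zc)) := by
      rw [Finset.mul_sum]
      exact Finset.sum_congr rfl fun j _ => by ring
    rw [e2, e3]
    rw [hcoef, hqe] at hOV
    have h6 := mul_le_mul_of_nonneg_left hOV hpn
    have h7 : ind (P ω i) * (u i / L * (1 + M)) ≤ 1 * (u i / L * (1 + M)) :=
      mul_le_mul_of_nonneg_right hp1 huL
    rw [mul_add] at h6
    calc _ ≤ _ := h6
      _ ≤ _ := by
        have : ind (P ω i) * (u i / (lam * rho k) * ∑ j : Fin (L + 1), gw (qq u L i) L j *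
        ((optv (cst D (fun s => B s + fld D eta lam z (Function.update g zc (j : ℕ)) s)) (x :: l)
          - optv (cst D (fun s => B s + fld D eta lam z (Function.update g zc (j : ℕ)) s)) l) *
          ind (Sel D eta lam z (Function.update g zc (j : ℕ)) x zc))) = u i / (lam * rho k) *
            (ind (P ω i) * ∑ j : Fin (L + 1), gw (qq u L i) L j *
        ((optv (cst D (fun s => B s + fld D eta lam z (Function.update g zc (j : ℕ)) s)) (x :: l)
          - optv (cst D (fun s => B s + fld D eta lam z (Function.update g zc (j : ℕ)) s)) l) *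
          ind (Sel D eta lam z (Function.update g zc (j : ℕ)) x zc))) := by ring
        rw [this]
        linarith
  -- Step 3
  have step3 : ∀ i : Fin J, ∑ zc : T, Ex u (fun ω => U ω * ind (P ω i) * ind (S ω i zc)) =
      Ex u (fun ω => U ω * ind (P ω i)) := by
    intro i
    rw [← level_ex_sum]
    congr 1
    funext ω
    obtain ⟨hex, huni, -⟩ := hS T D eta lam (ctr D (2 * rho k) (ω k).1) (gv (ω k) i) x hD hetap
        hlam
    obtain ⟨z0, hz0⟩ := hex
    rw [Finset.sum_eq_single z0]
    · have : ind (S ω i z0) = 1 := ind_true hz0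
      rw [this, mul_one]
    · intro b _ hb
      have : ind (S ω i b) = 0 := ind_false (fun hh => hb (huni b z0 hh hz0))
      rw [this, mul_zero]
    · intro hh; exact absurd (Finset.mem_univ _) hh
  -- conclusion
  have hA : Ex u (fun ω => ind (far ω)) ≤ Ex u (fun ω => (∑ i : Fin J, ∑ zc : T, tm i zc ω) +
      ind (∀ i, Cap D lam (rho k) (ω k) x i)) := level_ex_mono u hw step1
  rw [level_ex_add] at hA
  refine hA.trans ?_
  gcongr
  rw [level_ex_sum]
  refine Finset.sum_le_sum fun i _ => ?_
  rw [level_ex_sum]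
  calc ∑ zc : T, Ex u (fun ω => tm i zc ω) ≤ ∑ zc : T,
        (u i / (lam * rho k) * Ex u (fun ω => U ω * ind (P ω i) * ind (S ω i zc)) +
        u i / L * (1 + M)) := Finset.sum_le_sum fun zc _ => step2 i zc
    _ = u i / (lam * rho k) * Ex u (fun ω => U ω * ind (P ω i)) +
        M * (u i / L * (1 + M)) := by
      rw [Finset.sum_add_distrib, ← Finset.mul_sum, step3, Finset.sum_const, Finset.card_univ,
        nsmul_eq_mul]

end Pool.Agent.MP_a4c1f4_lc
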