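import Pool.Agent.Lib.MP_a4c1f4_lc.Spec

set_option linter.all false

/-!
Sites with capacities: the noise lives on the sites `S`, the assignment problem on the copies
`T`, with the map `σ : T → S`. The one variable inequality in this setting.
-/

namespace Pool.Agent.MP_a4c1f4_lc

open Finset

/-- The cost on the copies. -/
def pull {S T : Type} (σ : T → S) (c : S → S → ℝ) : T → T → ℝ := fun r s => c (σ r) (σ s)

/-- The one variable inequality on the copies. -/
def OneVarProp2 : Prop :=
  ∀ (S T : Type) [Fintype S] [DecidableEq S] [Nonempty S] [Fintype T] [DecidableEq T]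
    [Nonempty T] (σ : T → S) (D : S → S → ℝ)
    (eta lam rho q : ℝ) (z : S → S) (g : S → ℕ) (L : ℕ) (B : S → ℝ) (x : T) (zc : S)
    (l : List T),
    PM D → 0 < eta → 0 < lam → eta * L = lam * rho → (∀ w, D (z w) w ≤ 2 * rho) →
    (∀ w, g w ≤ L) → 0 ≤ q → q ≤ 1 → l.length + 1 ≤ Fintype.card T →
    (∀ j, j ≤ L → ∀ r s,
      0 ≤ cst D (fun s => B s + fld D eta lam z (Function.update g zc j) s) r s) →
    ∑ j : Fin (L + 1), gw q L j *
        ind (Sel D eta lam z (Function.update g zc j) (σ x) zc ∧ (j : ℕ) < L ∧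
          6 * rho ≤ D (σ x) (σ (srv (pull σ (cst D
            (fun s => B s + fld D eta lam z (Function.update g zc j) s))) x l))) ≤
      (1 - q) / eta * (∑ j : Fin (L + 1), gw q L j *
        ((optv (pull σ (cst D (fun s => B s + fld D eta lam z (Function.update g zc j) s)))
            (x :: l)
          - optv (pull σ (cst D (fun s => B s + fld D eta lam z (Function.update g zc j) s))) l) *
          ind (Sel D eta lam z (Function.update g zc j) (σ x) zc)))
        + (1 - q) * (1 + (Fintype.card T : ℝ))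

/-- Sums over `range L` supported on `θ ≤ j`. -/
private theorem OneVar2_sum {L θ : ℕ} (hθ : θ ≤ L) (f g : ℕ → ℝ) (h0 : ∀ j, j < θ → f j = 0)
    (h1 : ∀ j, θ ≤ j → j < L → f j = g j) :
    ∑ j ∈ Finset.range L, f j = ∑ j ∈ Finset.Ico θ L, g j := by
  rw [Finset.range_eq_Ico, ← Finset.sum_Ico_consecutive f (Nat.zero_le θ) hθ]
  have e0 : ∑ j ∈ Finset.Ico 0 θ, f j = 0 := by
    apply Finset.sum_eq_zero
    intro j hj
    exact h0 j (Finset.mem_Ico.mp hj).2
  rw [e0, zero_add]
  apply Finset.sum_congr rfl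
  intro j hj
  exact h1 j (Finset.mem_Ico.mp hj).1 (Finset.mem_Ico.mp hj).2

theorem oneVar2 (hM : MonoProp) (hU : UsedProp) (hSt : StepProp) (hA : AbelProp)
    (hF : FieldProp) (hS : SelProp) (hE : ExitProp) : OneVarProp2 := by
  intro S' T _ _ _ _ _ _ σ D eta lam rho q z g L B x zc l hD heta hlam hel hz hg hq0 hq1 hl hc
  obtain ⟨c, hcdef⟩ : ∃ c : ℕ → T → T → ℝ, c = fun j =>
      pull σ (cst D (fun s => B s + fld D eta lam z (Function.update g zc j) s)) := ⟨_, rfl⟩
  obtain ⟨S, hSdef⟩ : ∃ S : ℕ → Prop, S = fun j =>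
      Sel D eta lam z (Function.update g zc j) (σ x) zc := ⟨_, rfl⟩
  obtain ⟨δ, hδ⟩ : ∃ δ : ℕ → T → ℝ, δ = fun j s =>
      fld D eta lam z (Function.update g zc (j + 1)) (σ s)
        - fld D eta lam z (Function.update g zc j) (σ s) := ⟨_, rfl⟩
  obtain ⟨U, hUdef⟩ : ∃ U : ℕ → ℝ, U = fun j => optv (c j) (x :: l) - optv (c j) l := ⟨_, rfl⟩
  obtain ⟨N, hN⟩ : ∃ N : ℕ → ℝ, N = fun j => ∑ s ∈ used (c j) l, δ j s := ⟨_, rfl⟩
  obtain ⟨far, hfar⟩ : ∃ far : ℕ → ℝ, far = fun j =>
      ind (6 * rho ≤ D (σ x) (σ (srv (c j) x l))) := ⟨_, rfl⟩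
  have hc' : ∀ j, j ≤ L → ∀ r s, 0 ≤ c j r s := by
    intro j hj r s
    rw [hcdef]
    exact hc j hj (σ r) (σ s)
  -- rewrite the goal
  have goal_eq : (∑ j : Fin (L + 1), gw q L j *
        ind (S j ∧ (j : ℕ) < L ∧ 6 * rho ≤ D (σ x) (σ (srv (c j) x l)))) ≤
      (1 - q) / eta * (∑ j : Fin (L + 1), gw q L j * (U j * ind (S j)))
        + (1 - q) * (1 + (Fintype.card T : ℝ)) := by
    have hq1' : 0 ≤ 1 - q := by linarith
    have hcard : (0 : ℝ) ≤ (Fintype.card T : ℝ) := Nat.cast_nonneg _
    have hUnn : ∀ j, j ≤ L → 0 ≤ U j := by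
      intro j hj
      have h := (hM T (c j) l).1 (hc' j hj) x hl
      rw [hUdef]
      simp only
      linarith
    have hfld := hF S' D eta lam z
    have hδ0 : ∀ j s, 0 ≤ δ j s := by
      intro j s
      rw [hδ]
      exact ((hfld g hD heta.le hlam.le).2.2 zc j (σ s)).1
    have hδ1 : ∀ j s, δ j s ≤ eta := by
      intro j s
      rw [hδ]
      exact ((hfld g hD heta.le hlam.le).2.2 zc j (σ s)).2.1
    have hδ2 : ∀ j s, δ j s ≤ δ (j + 1) s := by
      intro j s
      rw [hδ]
      exact ((hfld g hD heta.le hlam.le).2.2 zc j (σ s)).2.2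
    have hNnn : ∀ j, 0 ≤ N j := by
      intro j
      rw [hN]
      exact Finset.sum_nonneg (fun s _ => hδ0 j s)
    have hNle : ∀ j, N j ≤ eta * (Fintype.card T : ℝ) := by
      intro j
      rw [hN]
      calc ∑ s ∈ used (c j) l, δ j s ≤ ∑ s ∈ used (c j) l, eta :=
            Finset.sum_le_sum (fun s _ => hδ1 j s)
        _ = ((used (c j) l).card : ℝ) * eta := by rw [Finset.sum_const, nsmul_eq_mul]
        _ ≤ (Fintype.card T : ℝ) * eta := by
            apply mul_le_mul_of_nonneg_right _ heta.le
            exact_mod_cast Finset.card_le_univ _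
        _ = eta * (Fintype.card T : ℝ) := mul_comm _ _
    have hfar01 : ∀ j, 0 ≤ far j ∧ far j ≤ 1 := by
      intro j
      rw [hfar]
      exact ⟨ind_nonneg _, ind_le_one _⟩
    have hstepc : ∀ j r s, c (j + 1) r s = c j r s + δ j r - δ j s := by
      intro j r s
      rw [hcdef, hδ]
      simp only [pull, cst]
      ring
    have hSsucc : ∀ j, S j → S (j + 1) ∧ δ j x = eta := by
      intro j hj
      rw [hSdef] at hj ⊢
      rw [hδ]
      exact (hS S' D eta lam z g (σ x) hD heta hlam).2.2.1 zc j hj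
    have hmain : ∀ j, S j → j < L →
        eta * far (j + 1) ≤ U (j + 1) + N (j + 1) - (U j + N j) := by
      intro j hj hjL
      have h1 := hSt T c δ x l j hl (hstepc j) (hδ2 j)
      have h2 := (hSsucc j hj).2
      have h3 : U (j + 1) + N (j + 1) - (U j + N j) ≥ eta - δ j (srv (c (j + 1)) x l) := by
        rw [hUdef, hN]
        simp only
        linarith
      have h4 : eta * far (j + 1) ≤ eta - δ j (srv (c (j + 1)) x l) := by
        by_cases h6 : 6 * rho ≤ D (σ x) (σ (srv (c (j + 1)) x l))
        · have e1 : far (j + 1) = 1 := by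
            rw [hfar]
            exact ind_true h6
          have e2 : δ j (srv (c (j + 1)) x l) = 0 := by
            have hj' := hj
            rw [hSdef] at hj'
            rw [hδ]
            exact hE S' D eta lam rho z g L j (σ x) _ zc hD heta hlam hel hz hg hjL hj' h6
          rw [e1, e2]
          linarith
        · have e1 : far (j + 1) = 0 := by
            rw [hfar]
            exact ind_false h6
          have e2 := hδ1 j (srv (c (j + 1)) x l)
          rw [e1]
          linarith
      linarith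
    -- sums
    rw [Fin.sum_univ_eq_sum_range (fun j => gw q L j *
        ind (S j ∧ j < L ∧ 6 * rho ≤ D (σ x) (σ (srv (c j) x l)))) (L + 1),
      Fin.sum_univ_eq_sum_range (fun j => gw q L j * (U j * ind (S j))) (L + 1),
      Finset.sum_range_succ, Finset.sum_range_succ]
    have elast : ind (S L ∧ L < L ∧ 6 * rho ≤ D (σ x) (σ (srv (c L) x l))) = 0 :=
      ind_false (fun h => absurd h.2.1 (lt_irrefl L))
    rw [elast, mul_zero, add_zero]
    by_cases hex : ∃ j, j ≤ L ∧ S j
    · classical
      obtain ⟨θ, ⟨hθL, hθS⟩, hθmin⟩ : ∃ θ, (θ ≤ L ∧ S θ) ∧ ∀ j, j < θ → ¬ (j ≤ L ∧ S j) :=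
        ⟨Nat.find hex, Nat.find_spec hex, fun j hj => Nat.find_min hex hj⟩
      have hSge : ∀ j, θ ≤ j → S j := by
        intro j hj
        induction j, hj using Nat.le_induction with
        | base => exact hθS
        | succ n hn ih => exact (hSsucc n ih).1
      have hSlt : ∀ j, j < θ → ¬ S j := by
        intro j hj hSj
        exact hθmin j hj ⟨by omega, hSj⟩
      have e1 : ∑ j ∈ Finset.range L, gw q L j *
          ind (S j ∧ j < L ∧ 6 * rho ≤ D (σ x) (σ (srv (c j) x l))) =
          ∑ j ∈ Finset.Ico θ L, (1 - q) * q ^ j * far j := by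
        apply OneVar2_sum hθL
        · intro j hj
          rw [ind_false (fun h => hSlt j hj h.1), mul_zero]
        · intro j hj hjL
          have : gw q L j = (1 - q) * q ^ j := by
            unfold gw
            rw [if_pos hjL]
          rw [this, hfar]
          congr 1
          simp only
          by_cases h6 : 6 * rho ≤ D (σ x) (σ (srv (c j) x l))
          · rw [ind_true ⟨hSge j hj, hjL, h6⟩, ind_true h6]
          · rw [ind_false (fun h => h6 h.2.2), ind_false h6]
      have e2 : ∑ j ∈ Finset.range L, gw q L j * (U j * ind (S j)) =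
          ∑ j ∈ Finset.Ico θ L, (1 - q) * q ^ j * U j := by
        apply OneVar2_sum hθL
        · intro j hj
          rw [ind_false (hSlt j hj), mul_zero, mul_zero]
        · intro j hj hjL
          have : gw q L j = (1 - q) * q ^ j := by
            unfold gw
            rw [if_pos hjL]
          rw [this, ind_true (hSge j hj), mul_one]
      have e3 : gw q L L * (U L * ind (S L)) = q ^ L * U L := by
        have : gw q L L = q ^ L := by
          unfold gw
          rw [if_neg (lt_irrefl L)]
        rw [this, ind_true (hSge L hθL), mul_one]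
      rw [e1, e2, e3]
      exact hA L θ q eta (Fintype.card T : ℝ) U N far hq0 hq1 heta hcard hθL
        (fun j _ hjL => ⟨hUnn j hjL, hNnn j, hNle j⟩) hfar01
        (fun j hj hjL => hmain j (hSge j hj) hjL)
    · have hno : ∀ j, j ≤ L → ¬ S j := fun j hj hSj => hex ⟨j, hj, hSj⟩
      have e1 : ∑ j ∈ Finset.range L, gw q L j *
          ind (S j ∧ j < L ∧ 6 * rho ≤ D (σ x) (σ (srv (c j) x l))) = 0 := by
        apply Finset.sum_eq_zero
        intro j hj
        rw [ind_false (fun h => hno j (Finset.mem_range.mp hj).le h.1), mul_zero]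
      have e2 : ∑ j ∈ Finset.range L, gw q L j * (U j * ind (S j)) = 0 := by
        apply Finset.sum_eq_zero
        intro j hj
        rw [ind_false (hno j (Finset.mem_range.mp hj).le), mul_zero, mul_zero]
      rw [e1, e2, ind_false (hno L le_rfl), mul_zero, mul_zero, add_zero, mul_zero, zero_add]
      positivity
  have := goal_eq
  rw [hcdef, hSdef, hUdef, hcdef] at this
  exact this

end Pool.Agent.MP_a4c1f4_lc
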