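import Pool.Agent.Lib.MP_a4c1f4_lc.Spec3

set_option linter.all false

/-!
# P6: monotonicity of the capped increments
-/

namespace Pool.Agent.MP_a4c1f4_lc

open Finset

theorem capMono (h1 : CapBasicProp) (h2 : SupProp) : CapMonoProp := by
  intro N v A x hV hxA hcard
  refine ⟨?_, ?_, ?_⟩
  · intro R hR hInc
    obtain ⟨E, hE, hEq⟩ := (h1 v R (insert x A)).1
    rw [hEq]
    by_cases hx : x ∈ E
    · have hsub : E.erase x ⊆ A := by
        intro z hz
        rw [mem_erase] at hz
        rcases mem_insert.1 (hE hz.2) with h | h
        · exact absurd h hz.1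
        · exact h
      have h3 := (h1 v R A).2.1 (E.erase x) hsub
      have h4 : A \ E.erase x = insert x A \ E := by
        ext z
        simp only [mem_sdiff, mem_erase, mem_insert, not_and]
        constructor
        · rintro ⟨hz, hz2⟩
          have hne : z ≠ x := fun h => hxA (h ▸ hz)
          exact ⟨Or.inr hz, hz2 hne⟩
        · rintro ⟨hz, hz2⟩
          rcases hz with h | h
          · exact absurd (h ▸ hx) hz2
          · exact ⟨h, fun _ => hz2⟩
      have h5 : ((E.erase x).card : ℝ) ≤ (E.card : ℝ) := by
        exact_mod_cast card_erase_le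
      rw [h4] at h3
      have := mul_le_mul_of_nonneg_left h5 hR
      linarith
    · have hsub : E ⊆ A := by
        intro z hz
        rcases mem_insert.1 (hE hz) with h | h
        · exact absurd (h ▸ hz) hx
        · exact h
      have h3 := (h1 v R A).2.1 E hsub
      have h4 : insert x A \ E = insert x (A \ E) := by
        rw [insert_sdiff_of_notMem _ hx]
      have hc : (A \ E).card ≤ A.card := card_le_card sdiff_subset
      have h5 := hInc (A \ E) x (fun h => hxA (mem_sdiff.1 h).1) (by omega)
      rw [h4]
      linarith
  · intro R R' hRR
    obtain ⟨E', hE', hEq'⟩ := (h1 v R' (insert x A)).1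
    obtain ⟨E, hE, hEq⟩ := (h1 v R A).1
    have hxE : x ∉ E := fun h => hxA (hE h)
    by_cases hx : x ∈ E'
    · have hsub : E'.erase x ⊆ A := by
        intro z hz
        rw [mem_erase] at hz
        rcases mem_insert.1 (hE' hz.2) with h | h
        · exact absurd h hz.1
        · exact h
      have h3 := (h1 v R' A).2.1 (E'.erase x) hsub
      have h4 : A \ E'.erase x = insert x A \ E' := by
        ext z
        simp only [mem_sdiff, mem_erase, mem_insert, not_and]
        constructor
        · rintro ⟨hz, hz2⟩
          have hne : z ≠ x := fun h => hxA (h ▸ hz)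
          exact ⟨Or.inr hz, hz2 hne⟩
        · rintro ⟨hz, hz2⟩
          rcases hz with h | h
          · exact absurd (h ▸ hx) hz2
          · exact ⟨h, fun _ => hz2⟩
      have h5 : (E'.card : ℝ) = ((E'.erase x).card : ℝ) + 1 := by
        exact_mod_cast (card_erase_add_one hx).symm
      have h6 := (h1 v R (insert x A)).2.1 (insert x E) (insert_subset_insert x hE)
      have h7 : insert x A \ insert x E = A \ E := by
        ext z
        simp only [mem_sdiff, mem_insert, not_or]
        constructor
        · rintro ⟨hz, hz1, hz2⟩
          rcases hz with h | h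
          · exact absurd h hz1
          · exact ⟨h, hz2⟩
        · rintro ⟨hz, hz2⟩
          exact ⟨Or.inr hz, fun h => hxA (h ▸ hz), hz2⟩
      have h8 : ((insert x E).card : ℝ) = (E.card : ℝ) + 1 := by
        exact_mod_cast card_insert_of_notMem hxE
      rw [h4] at h3
      rw [h7, h8] at h6
      rw [h5] at hEq'
      nlinarith
    · have hsub : E' ⊆ A := by
        intro z hz
        rcases mem_insert.1 (hE' hz) with h | h
        · exact absurd (h ▸ hz) hx
        · exact h
      have ha : insert x A \ E' = insert x (A \ E') := insert_sdiff_of_notMem _ hx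
      have hb : insert x A \ E = insert x (A \ E) := insert_sdiff_of_notMem _ hxE
      have hca : (insert x A \ E').card ≤ N := by
        have : (insert x A \ E').card ≤ (insert x A).card := card_le_card sdiff_subset
        rw [card_insert_of_notMem hxA] at this
        omega
      have hcb : (A \ E).card ≤ N := by
        have : (A \ E).card ≤ A.card := card_le_card sdiff_subset
        omega
      have hxa : x ∈ insert x A \ E' := by
        rw [mem_sdiff]
        exact ⟨mem_insert_self _ _, hx⟩
      have hxb : x ∉ A \ E := fun h => hxA (mem_sdiff.1 h).1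
      rcases hV (insert x A \ E') (A \ E) x hca hcb hxa hxb with ⟨_, h⟩ | ⟨y, hy, hya, h⟩
      · have e1 : (insert x A \ E').erase x = A \ E' := by
          rw [ha, erase_insert]
          exact fun h => hxA (mem_sdiff.1 h).1
        rw [e1, ← hb] at h
        have h3 := (h1 v R' A).2.1 E' hsub
        have h4 := (h1 v R (insert x A)).2.1 E (hE.trans (subset_insert _ _))
        linarith
      · have hyA : y ∈ A := (mem_sdiff.1 hy).1
        have hyE : y ∉ E := (mem_sdiff.1 hy).2
        have hyx : y ≠ x := fun h => hxA (h ▸ hyA)
        have hyE' : y ∈ E' := by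
          by_contra hc
          exact hya (mem_sdiff.2 ⟨mem_insert_of_mem hyA, hc⟩)
        have e1 : insert y ((insert x A \ E').erase x) = A \ E'.erase y := by
          rw [ha, erase_insert (fun h => hxA (mem_sdiff.1 h).1)]
          ext z
          simp only [mem_insert, mem_sdiff, mem_erase, not_and]
          constructor
          · rintro (h | ⟨h, h'⟩)
            · subst h
              exact ⟨hyA, fun h => absurd rfl h⟩
            · exact ⟨h, fun _ => h'⟩
          · rintro ⟨h, h'⟩
            by_cases hz : z = y
            · exact Or.inl hz
            · exact Or.inr ⟨h, h' hz⟩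
        have e2 : (insert x (A \ E)).erase y = insert x A \ insert y E := by
          ext z
          simp only [mem_insert, mem_sdiff, mem_erase, not_or]
          constructor
          · rintro ⟨h, h' | ⟨h', h''⟩⟩
            · exact ⟨Or.inl h', h, h' ▸ hxE⟩
            · exact ⟨Or.inr h', h, h''⟩
          · rintro ⟨h | h, h', h''⟩
            · exact ⟨h', Or.inl h⟩
            · exact ⟨h', Or.inr ⟨h, h''⟩⟩
        rw [e1, e2] at h
        have h3 := (h1 v R' A).2.1 (E'.erase y) ((erase_subset _ _).trans hsub)
        have h4 := (h1 v R (insert x A)).2.1 (insert y E)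
          (insert_subset (mem_insert_of_mem hyA) (hE.trans (subset_insert _ _)))
        have h5 : (E'.card : ℝ) = ((E'.erase y).card : ℝ) + 1 := by
          exact_mod_cast (card_erase_add_one hyE').symm
        have h6 : ((insert y E).card : ℝ) = (E.card : ℝ) + 1 := by
          exact_mod_cast card_insert_of_notMem hyE
        rw [h6] at h4
        rw [h5] at hEq'
        nlinarith
  · intro R
    obtain ⟨E, hE, hEq⟩ := (h1 v R A).1
    have hxE : x ∉ E := fun h => hxA (hE h)
    have h3 := (h1 v R (insert x A)).2.1 E (hE.trans (subset_insert _ _))
    have hb : insert x A \ E = insert x (A \ E) := insert_sdiff_of_notMem _ hxE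
    have h4 := (h2 ℕ N v id hV).1 (A \ E) A x sdiff_subset hxA hcard
    rw [hb] at h3
    linarith

end Pool.Agent.MP_a4c1f4_lc
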