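import Pool.Agent.Lib.MP_a4c1f4_lc.Spec

set_option linter.all false

/-!
(E4) Numerical choice of the parameters.
-/

namespace Pool.Agent.MP_a4c1f4_lc

open Finset

private theorem param_exp_eight : (2304 : ℝ) ≤ Real.exp 8 := by
  have h1 : (2.7 : ℝ) < Real.exp 1 := lt_trans (by norm_num) Real.exp_one_gt_d9
  have h2 : Real.exp 8 = Real.exp 1 ^ 8 := by
    rw [← Real.exp_nat_mul]
    norm_num
  rw [h2]
  calc (2304 : ℝ) ≤ 2.7 ^ 8 := by norm_num
    _ ≤ Real.exp 1 ^ 8 := pow_le_pow_left₀ (by norm_num) h1.le 8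

private theorem param_exp_five : (48 : ℝ) ≤ Real.exp 5 := by
  have h1 : (2.7 : ℝ) < Real.exp 1 := lt_trans (by norm_num) Real.exp_one_gt_d9
  have h2 : Real.exp 5 = Real.exp 1 ^ 5 := by
    rw [← Real.exp_nat_mul]
    norm_num
  rw [h2]
  calc (48 : ℝ) ≤ 2.7 ^ 5 := by norm_num
    _ ≤ Real.exp 1 ^ 5 := pow_le_pow_left₀ (by norm_num) h1.le 5

theorem param : ParamProp := by
  intro h M hh hM
  obtain ⟨J, hJ⟩ : ∃ J : ℕ, J = Nat.log 2 h + 2 := ⟨_, rfl⟩
  have hJR : ((Nat.log 2 h : ℝ) + 2) = (J : ℝ) := by rw [hJ]; push_cast; ring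
  have hlog : Nat.log 2 h < h := Nat.log_lt_self 2 (by omega)
  have hJh : J ≤ h + 1 := by omega
  have hhR : (1 : ℝ) ≤ h := by exact_mod_cast hh
  have hMR : (1 : ℝ) ≤ M := by exact_mod_cast hM
  have hJR0 : (2 : ℝ) ≤ J := by rw [← hJR]; linarith [Nat.cast_nonneg (α := ℝ) (Nat.log 2 h)]
  have hJhR : (J : ℝ) ≤ h + 1 := by exact_mod_cast hJh
  have hlM : 0 ≤ Real.log M := Real.log_nonneg hMR
  obtain ⟨u0, hu0⟩ : ∃ u0 : ℝ, u0 = 1 + (2 * Real.log M + 4) / h := ⟨_, rfl⟩
  have hu1 : 1 ≤ u0 := by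
    rw [hu0]
    have : 0 ≤ (2 * Real.log M + 4) / h := by positivity
    linarith
  have hhu : h * u0 = h + 2 * Real.log M + 4 := by
    rw [hu0]
    field_simp
    ring
  obtain ⟨U, hU⟩ : ∃ U : ℝ, U = 2 ^ (Nat.log 2 h + 2 - 1) * u0 := ⟨_, rfl⟩
  have hUge : h + 2 * Real.log M + 4 ≤ U := by
    rw [← hhu, hU]
    have h1 : h < 2 ^ (Nat.log 2 h + 2 - 1) := by
      have := Nat.lt_pow_succ_log_self (b := 2) (by norm_num) h
      simpa using this
    have h2 : (h : ℝ) ≤ 2 ^ (Nat.log 2 h + 2 - 1) := by exact_mod_cast h1.le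
    nlinarith
  have hU0 : 0 < U := by linarith
  obtain ⟨K, hK⟩ : ∃ K : ℝ, K = 48 * h * J * M ^ 2 * (1 + M) * U := ⟨_, rfl⟩
  have hKU : U ≤ K := by
    rw [hK]
    have h1 : (1 : ℝ) ≤ 48 * h * J * M ^ 2 * (1 + M) := by
      have a1 : (1 : ℝ) ≤ 48 * h := by linarith
      have a2 : (1 : ℝ) ≤ 48 * h * J := by nlinarith
      have a3 : (1 : ℝ) ≤ (M : ℝ) ^ 2 := by nlinarith
      have a4 : (1 : ℝ) ≤ 48 * h * J * M ^ 2 := by nlinarith
      nlinarith
    nlinarith
  have hK0 : 0 < K := lt_of_lt_of_le hU0 hKU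
  obtain ⟨L, hL⟩ : ∃ L : ℕ, L = ⌈K⌉₊ := ⟨_, rfl⟩
  have hLK : K ≤ L := by rw [hL]; exact Nat.le_ceil K
  have hL0 : 0 < L := by rw [hL]; exact Nat.ceil_pos.mpr hK0
  have hLR : (0 : ℝ) < L := by exact_mod_cast hL0
  refine ⟨L, u0, 17 * h + 18 * Real.log M + 68, hL0, hu1, rfl, ?_, ?_⟩
  · rw [← hU]
    linarith
  · rw [← hU, hJR]
    have hexpM : Real.exp (Real.log M) = M := Real.exp_log (by linarith)
    -- first term
    have hA : 48 * (h : ℝ) * J * (12 * (Real.exp (-(17 * h + 18 * Real.log M + 68) / 8) *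
        Real.exp (h * (u0 / 8 + 1)) * M)) * M ≤ 1 := by
      have e1 : Real.exp (-(17 * h + 18 * Real.log M + 68) / 8) * Real.exp (h * (u0 / 8 + 1)) =
          Real.exp (-h - 8) * Real.exp (-(2 * Real.log M)) := by
        rw [← Real.exp_add, ← Real.exp_add]
        congr 1
        have : (h : ℝ) * (u0 / 8 + 1) = h * u0 / 8 + h := by ring
        rw [this, hhu]
        ring
      have e2 : Real.exp (-(2 * Real.log M)) * (M * M) = 1 := by
        rw [← hexpM, Real.log_exp, ← Real.exp_add, ← Real.exp_add]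
        rw [show -(2 * Real.log M) + (Real.log M + Real.log M) = 0 by ring, Real.exp_zero]
      have e3 : 48 * (h : ℝ) * J * (12 * (Real.exp (-(17 * h + 18 * Real.log M + 68) / 8) *
        Real.exp (h * (u0 / 8 + 1)) * M)) * M = 576 * h * J * Real.exp (-h - 8) := by
        rw [e1]
        calc _ = 576 * h * J * Real.exp (-h - 8) * (Real.exp (-(2 * Real.log M)) * (M * M)) := by ring
          _ = _ := by rw [e2, mul_one]
      rw [e3]
      have hq := Real.quadratic_le_exp_of_nonneg (x := (h : ℝ)) (by linarith)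
      have h8 := param_exp_eight
      have hexp : Real.exp (-h - 8) * (Real.exp h * Real.exp 8) = 1 := by
        rw [← Real.exp_add, ← Real.exp_add, show -(h : ℝ) - 8 + (h + 8) = 0 by ring, Real.exp_zero]
      have hle : 576 * (h : ℝ) * J ≤ Real.exp h * Real.exp 8 := by
        have a1 : 576 * (h : ℝ) * J ≤ 576 * h * (h + 1) := by nlinarith
        have a2 : (h : ℝ) * (h + 1) ≤ 4 * Real.exp h := by nlinarith
        have a3 : 0 < Real.exp (h : ℝ) := Real.exp_pos _
        nlinarith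
      have hp : 0 < Real.exp (-(h : ℝ) - 8) := Real.exp_pos _
      nlinarith
    -- the sampling error
    have hB : 24 * (h : ℝ) * (J * M * (U / L * (1 + M))) * M ≤ 1 / 2 := by
      have e : 24 * (h : ℝ) * (J * M * (U / L * (1 + M))) * M = K / (2 * L) := by
        rw [hK]
        field_simp
        ring
      rw [e, div_le_iff₀ (by positivity)]
      linarith
    -- the capped fields
    have hC : 24 * (h : ℝ) * (M * Real.exp (-U)) * M ≤ 1 / 2 := by
      have e1 : Real.exp (-U) ≤ Real.exp (-h - 4) * Real.exp (-(2 * Real.log M)) := by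
        rw [← Real.exp_add]
        exact Real.exp_le_exp.mpr (by linarith)
      have e2 : Real.exp (-(2 * Real.log M)) * (M * M) = 1 := by
        rw [← hexpM, Real.log_exp, ← Real.exp_add, ← Real.exp_add]
        rw [show -(2 * Real.log M) + (Real.log M + Real.log M) = 0 by ring, Real.exp_zero]
      have e3 : 24 * (h : ℝ) * (M * Real.exp (-U)) * M ≤ 24 * h * Real.exp (-h - 4) := by
        calc 24 * (h : ℝ) * (M * Real.exp (-U)) * M = 24 * h * (M * M) * Real.exp (-U) := by ring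
          _ ≤ 24 * h * (M * M) * (Real.exp (-h - 4) * Real.exp (-(2 * Real.log M))) :=
              mul_le_mul_of_nonneg_left e1 (by positivity)
          _ = 24 * h * Real.exp (-h - 4) * (Real.exp (-(2 * Real.log M)) * (M * M)) := by ring
          _ = _ := by rw [e2, mul_one]
      refine le_trans e3 ?_
      have h1 : (h : ℝ) ≤ Real.exp (h - 1) := by
        have := Real.add_one_le_exp ((h : ℝ) - 1)
        linarith
      have h5 := param_exp_five
      have hexp : Real.exp (-(h : ℝ) - 4) * (Real.exp (h - 1) * Real.exp 5) = 1 := by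
        rw [← Real.exp_add, ← Real.exp_add, show -(h : ℝ) - 4 + (h - 1 + 5) = 0 by ring,
          Real.exp_zero]
      have hp : 0 < Real.exp (-(h : ℝ) - 4) := Real.exp_pos _
      have hle : 48 * (h : ℝ) ≤ Real.exp (h - 1) * Real.exp 5 := by nlinarith
      nlinarith
    have hsplit : 24 * (h : ℝ) * (J * M * (U / L * (1 + M)) + M * Real.exp (-U)) * M =
        24 * (h : ℝ) * (J * M * (U / L * (1 + M))) * M + 24 * (h : ℝ) * (M * Real.exp (-U)) * M := by
      ring
    rw [hsplit]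
    linarith

end Pool.Agent.MP_a4c1f4_lc
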