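import Pool.Agent.Lib.MP_a4c1f4_lc.Spec

set_option linter.all false

/-!
Expected cost of one step.
-/

namespace Pool.Agent.MP_a4c1f4_lc

open Finset

section StepCostAux

variable {T : Type} [Fintype T] [DecidableEq T] {h J L : ℕ} {u : ℕ → ℝ}

theorem stepCost_Ex_mono (hw : ∀ ω : Om T h J L, 0 ≤ omw u ω) {f g : Om T h J L → ℝ}
    (hfg : ∀ ω, f ω ≤ g ω) : Ex u f ≤ Ex u g :=
  Finset.sum_le_sum fun ω _ => mul_le_mul_of_nonneg_left (hfg ω) (hw ω)

theorem stepCost_Ex_add (f g : Om T h J L → ℝ) :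
    Ex u (fun ω => f ω + g ω) = Ex u f + Ex u g := by
  unfold Ex
  rw [← Finset.sum_add_distrib]
  exact Finset.sum_congr rfl fun ω _ => mul_add _ _ _

theorem stepCost_Ex_mul (a : ℝ) (f : Om T h J L → ℝ) :
    Ex u (fun ω => a * f ω) = a * Ex u f := by
  unfold Ex
  rw [Finset.mul_sum]
  exact Finset.sum_congr rfl fun ω _ => by ring

theorem stepCost_Ex_sum {ι : Type} (s : Finset ι) (f : ι → Om T h J L → ℝ) :
    Ex u (fun ω => ∑ i ∈ s, f i ω) = ∑ i ∈ s, Ex u (f i) := by
  unfold Ex
  rw [Finset.sum_comm]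
  exact Finset.sum_congr rfl fun ω _ => Finset.mul_sum _ _ _

theorem stepCost_Ex_nonneg (hw : ∀ ω : Om T h J L, 0 ≤ omw u ω) {f : Om T h J L → ℝ}
    (hf : ∀ ω, 0 ≤ f ω) : 0 ≤ Ex u f :=
  Finset.sum_nonneg fun ω _ => mul_nonneg (hw ω) (hf ω)

theorem stepCost_nb_le [Nonempty T] {D : T → T → ℝ} (hD : PM D) (R rho : ℝ) (hrho : 0 < rho)
    (x : T) : (nb D R x : ℝ) / (nb D rho x : ℝ) ≤ (Fintype.card T : ℝ) := by
  classical
  have h1 : (nb D R x : ℝ) ≤ (Fintype.card T : ℝ) := by
    have : nb D R x ≤ Fintype.card T := by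
      unfold nb
      exact Finset.card_le_univ _
    exact_mod_cast this
  have h2 : (1 : ℝ) ≤ (nb D rho x : ℝ) := by
    have : 1 ≤ nb D rho x := by
      unfold nb
      rw [Nat.one_le_iff_ne_zero, Ne, Finset.card_eq_zero]
      refine Finset.nonempty_iff_ne_empty.1 ⟨x, ?_⟩
      rw [Finset.mem_filter]
      exact ⟨Finset.mem_univ _, by rw [hD.self]; exact hrho.le⟩
    exact_mod_cast this
  rw [div_le_iff₀ (by linarith)]
  have h3 : (0 : ℝ) ≤ (Fintype.card T : ℝ) := Nat.cast_nonneg _
  nlinarith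

end StepCostAux

theorem stepCost (hM : MonoProp) (hFar : FarProp) (hW : WeightProp) (hI : IndepProp)
    (hCa : CapProbProp) (hE : ExpMomentProp) (hCo : CostProp) (hL : LevelProp) :
    StepCostProp := by
  intro T _ _ _ h J L u u0 w0 D lam rho x l hD hh hJ hlam hrho hrho4 hL0 hu0 hu huJ hlen hsc
  have hhr : (0 : ℝ) < h := by exact_mod_cast hh
  have hJr : (0 : ℝ) < J := by exact_mod_cast hJ
  have hLr : (0 : ℝ) < L := by exact_mod_cast hL0
  have hlam0 : 0 < lam := by rw [hlam]; positivity
  have hhJ : (h : ℝ) * J * lam = 1 / 2 := by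
    rw [hlam]
    field_simp
  have hui0 : ∀ i, 0 ≤ u i := fun i => by
    rw [hu i]
    have : (0 : ℝ) ≤ u0 := by linarith
    positivity
  have huiJ : ∀ i, i < J → u i ≤ u (J - 1) := fun i hi => by
    rw [hu i, hu (J - 1)]
    have h1 : (2 : ℝ) ^ i ≤ 2 ^ (J - 1) := pow_le_pow_right₀ (by norm_num) (by omega)
    exact mul_le_mul_of_nonneg_right h1 (by linarith)
  have hqq : ∀ i, i < J → 0 ≤ qq u L i ∧ qq u L i ≤ 1 := fun i hi => by
    unfold qq
    have h1 : u i / (L : ℝ) ≤ 1 := by
      rw [div_le_one hLr]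
      exact (huiJ i hi).trans huJ
    have h2 : 0 ≤ u i / (L : ℝ) := div_nonneg (hui0 i) hLr.le
    constructor <;> linarith
  obtain ⟨hsum1, hw⟩ := hW.2.2.2 T h J L u
  have hw0 : ∀ ω : Om T h J L, 0 ≤ omw u ω := hw hqq
  -- the costs
  let c : Om T h J L → T → T → ℝ := fun ω => cst D (pot D lam rho ω)
  have hc : ∀ ω r s, D r s ≤ 2 * c ω r s ∧ c ω r s ≤ 3 / 2 * D r s := fun ω r s =>
    hCo T h J L D lam rho ω hD hlam0.le (fun k hk => (hrho k hk).le) hhJ.le r s
  have hD0 : ∀ r s, 0 ≤ D r s := fun r s => hD.nonneg r s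
  have hc0 : ∀ ω r s, 0 ≤ c ω r s := fun ω r s => by
    have h1 := (hc ω r s).1
    have h2 := hD0 r s
    linarith
  set O := optv D (x :: l) with hO
  have hlen' : (x :: l).length ≤ Fintype.card T := by simpa using hlen
  have hO0 : 0 ≤ O := (hM T D (x :: l)).2.1 hD0
  have hcO : ∀ ω, optv (c ω) (x :: l) ≤ 3 / 2 * O := fun ω =>
    (hM T D (x :: l)).2.2 (c ω) (3 / 2) (fun r s => (hc ω r s).2) hlen'
  have hcl0 : ∀ ω, 0 ≤ optv (c ω) l := fun ω => (hM T (c ω) l).2.1 (hc0 ω)
  have hcmono : ∀ ω, optv (c ω) l ≤ optv (c ω) (x :: l) := fun ω =>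
    (hM T (c ω) l).1 (hc0 ω) x hlen
  let U : Om T h J L → ℝ := fun ω => optv (c ω) (x :: l) - optv (c ω) l
  have hU0 : ∀ ω, 0 ≤ U ω := fun ω => sub_nonneg.2 (hcmono ω)
  have hUO : ∀ ω, U ω ≤ 3 / 2 * O := fun ω => by
    have h1 := hcO ω
    have h2 := hcl0 ω
    change optv (c ω) (x :: l) - optv (c ω) l ≤ _
    linarith
  let y : Om T h J L → T := fun ω => srv (c ω) x l
  have hDy : ∀ ω, D x (y ω) ≤ 6 * O := fun ω => by
    have h1 := hFar T D (c ω) x l hD (hc0 ω) (fun r s => (hc ω r s).1) hlen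
    have h2 := hcO ω
    change D x (srv (c ω) x l) ≤ _
    linarith
  set M : ℝ := (Fintype.card T : ℝ) with hMdef
  have hM0 : 0 ≤ M := Nat.cast_nonneg _
  set err : ℝ := J * M * (u (J - 1) / L * (1 + M)) + M * Real.exp (- u (J - 1)) with herr
  have huJ0 : 0 ≤ u (J - 1) := hui0 _
  have herr0 : 0 ≤ err := by positivity
  let Wk : Fin h → Om T h J L → ℝ := fun k ω => Wl D lam (rho k) u x (ω k)
  let W : Om T h J L → ℝ := fun ω => ∑ k : Fin h, Wk k ω
  have hWk0 : ∀ k ω, 0 ≤ Wk k ω := fun k ω =>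
    Finset.sum_nonneg fun i _ => mul_nonneg (hui0 i) (ind_nonneg _)
  -- step (2)
  have step2 : ∀ k : Fin h, 6 * rho k * Ex u (fun ω : Om T h J L => ind (6 * rho k ≤ D x (y ω))) ≤
      6 / lam * Ex u (fun ω => U ω * Wk k ω) + 6 * O * err := by
    intro k
    have hrk := hrho k k.2
    have hUW0 : 0 ≤ Ex u (fun ω => U ω * Wk k ω) :=
      stepCost_Ex_nonneg hw0 fun ω => mul_nonneg (hU0 ω) (hWk0 k ω)
    rcases lt_or_ge (6 * O) (6 * rho k) with hcase | hcase
    · have hz : Ex u (fun ω : Om T h J L => ind (6 * rho k ≤ D x (y ω))) ≤ 0 := by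
        have h1 : ∀ ω : Om T h J L, ind (6 * rho k ≤ D x (y ω)) ≤ 0 * (0 : ℝ) := fun ω => by
          rw [ind_false, mul_zero]
          intro h2
          have h3 := hDy ω
          linarith
        refine (stepCost_Ex_mono hw0 h1).trans ?_
        rw [stepCost_Ex_mul (T := T) (h := h) (J := J) (L := L) (u := u) 0 (fun _ => 0), zero_mul]
      have h4 : 6 * rho k * Ex u (fun ω : Om T h J L => ind (6 * rho k ≤ D x (y ω))) ≤ 0 :=
        mul_nonpos_of_nonneg_of_nonpos (by positivity) hz
      have h5 : 0 ≤ 6 / lam * Ex u (fun ω => U ω * Wk k ω) := by positivity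
      have h6 : 0 ≤ 6 * O * err := by positivity
      linarith
    · have h1 := hL T h J L u D lam rho x l k hD hlam0 hrho hhJ.le hL0 hqq hlen
      -- all fields capped
      have hcap : Ex u (fun ω : Om T h J L => ind (∀ i, Cap D lam (rho k) (ω k) x i)) ≤
          M * Real.exp (- u (J - 1)) := by
        have hJ1 : J - 1 < J := by omega
        have g1 : Ex u (fun ω : Om T h J L => ind (∀ i, Cap D lam (rho k) (ω k) x i)) ≤
            Ex u (fun ω : Om T h J L => ind (Cap D lam (rho k) (ω k) x ⟨J - 1, hJ1⟩)) :=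
          stepCost_Ex_mono hw0 fun ω => ind_mono fun hall => hall _
        have g2 := (hI T h J L u).2 k (fun a => ind (Cap D lam (rho k) a x ⟨J - 1, hJ1⟩))
        have g3 := hCa T J L u D lam (rho k) x ⟨J - 1, hJ1⟩ hD hlam0 hrk hL0 hqq
        have g4 := stepCost_nb_le hD (3 * rho k) (rho k) hrk x
        calc _ ≤ _ := g1
          _ = _ := g2
          _ ≤ _ := g3
          _ ≤ M * Real.exp (- u (J - 1)) :=
            mul_le_mul_of_nonneg_right g4 (Real.exp_pos _).le
      have hsumi : ∑ i : Fin J, (u i / (lam * rho k) * Ex u (fun ω : Om T h J L =>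
            (optv (cst D (pot D lam rho ω)) (x :: l) - optv (cst D (pot D lam rho ω)) l) *
              ind (CapBelow D lam (rho k) (ω k) x i))
          + M * (u i / L * (1 + M))) ≤
          1 / (lam * rho k) * Ex u (fun ω => U ω * Wk k ω) +
            J * M * (u (J - 1) / L * (1 + M)) := by
        rw [Finset.sum_add_distrib]
        refine add_le_add (le_of_eq ?_) ?_
        · have e1 : Ex u (fun ω => U ω * Wk k ω) =
              ∑ i : Fin J, u i * Ex u (fun ω : Om T h J L => U ω *
                ind (CapBelow D lam (rho k) (ω k) x i)) := by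
            have e2 : (fun ω : Om T h J L => U ω * Wk k ω) = fun ω => ∑ i : Fin J, u i * (U ω *
                ind (CapBelow D lam (rho k) (ω k) x i)) := by
              funext ω
              change U ω * (∑ i : Fin J, u i * ind (CapBelow D lam (rho k) (ω k) x i)) = _
              rw [Finset.mul_sum]
              exact Finset.sum_congr rfl fun i _ => by ring
            rw [e2, stepCost_Ex_sum]
            exact Finset.sum_congr rfl fun i _ => stepCost_Ex_mul _ _
          rw [e1, Finset.mul_sum]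
          refine Finset.sum_congr rfl fun i _ => ?_
          change u i / (lam * rho k) * Ex u (fun ω : Om T h J L => U ω *
                ind (CapBelow D lam (rho k) (ω k) x i)) = _
          ring
        · calc ∑ i : Fin J, M * (u i / L * (1 + M)) ≤
              ∑ _i : Fin J, M * (u (J - 1) / L * (1 + M)) := by
                refine Finset.sum_le_sum fun i _ => ?_
                have h2 := huiJ i i.2
                gcongr
            _ = J * M * (u (J - 1) / L * (1 + M)) := by
                rw [Finset.sum_const, Finset.card_univ, Fintype.card_fin, nsmul_eq_mul]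
                ring
      have h2 : Ex u (fun ω : Om T h J L => ind (6 * rho k ≤ D x (y ω))) ≤
          1 / (lam * rho k) * Ex u (fun ω => U ω * Wk k ω) + err := by
        calc _ ≤ _ := h1
          _ ≤ (1 / (lam * rho k) * Ex u (fun ω => U ω * Wk k ω) +
                J * M * (u (J - 1) / L * (1 + M))) + M * Real.exp (- u (J - 1)) :=
              add_le_add hsumi hcap
          _ = _ := by rw [herr]; ring
      calc 6 * rho k * Ex u (fun ω : Om T h J L => ind (6 * rho k ≤ D x (y ω)))
          ≤ 6 * rho k * (1 / (lam * rho k) * Ex u (fun ω => U ω * Wk k ω) + err) :=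
            mul_le_mul_of_nonneg_left h2 (by positivity)
        _ = 6 / lam * Ex u (fun ω => U ω * Wk k ω) + 6 * rho k * err := by
            have := hrk.ne'
            have := hlam0.ne'
            field_simp
        _ ≤ 6 / lam * Ex u (fun ω => U ω * Wk k ω) + 6 * O * err := by
            have := mul_le_mul_of_nonneg_right hcase herr0
            linarith
  -- step (1) and (3)
  have step3 : Ex u (fun ω : Om T h J L => D x (y ω)) ≤
      24 / lam * Ex u (fun ω => U ω * W ω) + 24 * h * O * err := by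
    have h1 : ∀ ω : Om T h J L, D x (y ω) ≤
        ∑ k : Fin h, 4 * (6 * rho k) * ind (6 * rho k ≤ D x (y ω)) := by
      intro ω
      have hnn : ∀ k : Fin h, 0 ≤ 4 * (6 * rho k) * ind (6 * rho k ≤ D x (y ω)) := fun k =>
        mul_nonneg (by have := hrho k k.2; positivity) (ind_nonneg _)
      rcases hsc x (y ω) with h0 | ⟨k, hk, h2, h3⟩
      · rw [h0]
        exact Finset.sum_nonneg fun k _ => by
          have := hnn k
          rwa [h0] at this
      · have h4 := Finset.single_le_sum (f := fun k : Fin h =>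
          4 * (6 * rho k) * ind (6 * rho k ≤ D x (y ω))) (fun k _ => hnn k)
          (Finset.mem_univ (⟨k, hk⟩ : Fin h))
        refine le_trans ?_ h4
        change D x (y ω) ≤ 4 * (6 * rho k) * ind (6 * rho k ≤ D x (y ω))
        rw [ind_true h2, mul_one]
        exact h3.le
    have h2 : Ex u (fun ω => U ω * W ω) = ∑ k : Fin h, Ex u (fun ω => U ω * Wk k ω) := by
      rw [← stepCost_Ex_sum]
      congr 1
      funext ω
      exact Finset.mul_sum _ _ _
    calc Ex u (fun ω : Om T h J L => D x (y ω))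
        ≤ Ex u (fun ω : Om T h J L =>
          ∑ k : Fin h, 4 * (6 * rho k) * ind (6 * rho k ≤ D x (y ω))) := stepCost_Ex_mono hw0 h1
      _ = ∑ k : Fin h, 4 * (6 * rho k * Ex u (fun ω : Om T h J L =>
            ind (6 * rho k ≤ D x (y ω)))) := by
          rw [stepCost_Ex_sum]
          refine Finset.sum_congr rfl fun k _ => ?_
          rw [stepCost_Ex_mul]
          ring
      _ ≤ ∑ k : Fin h, 4 * (6 / lam * Ex u (fun ω => U ω * Wk k ω) + 6 * O * err) :=
          Finset.sum_le_sum fun k _ => mul_le_mul_of_nonneg_left (step2 k) (by norm_num)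
      _ = 24 / lam * Ex u (fun ω => U ω * W ω) + 24 * h * O * err := by
          rw [h2, ← Finset.mul_sum, Finset.sum_add_distrib, ← Finset.mul_sum, Finset.sum_const,
            Finset.card_univ, Fintype.card_fin, nsmul_eq_mul]
          ring
  -- step (4)
  have step4 : Ex u (fun ω => U ω * W ω) ≤ w0 * Ex u U +
      12 * O * (Real.exp (- w0 / 8) * Real.exp (h * (u0 / 8 + 1)) * M) := by
    have h1 : ∀ ω : Om T h J L, U ω * W ω ≤
        w0 * U ω + 12 * O * Real.exp (- w0 / 8) * Real.exp (W ω / 8) := by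
      intro ω
      have h2 := Real.add_one_le_exp ((W ω - w0) / 8)
      have h3 : Real.exp ((W ω - w0) / 8) = Real.exp (- w0 / 8) * Real.exp (W ω / 8) := by
        rw [← Real.exp_add]
        congr 1
        ring
      have h4 : W ω - w0 ≤ 8 * (Real.exp (- w0 / 8) * Real.exp (W ω / 8)) := by
        rw [← h3]
        linarith
      have h5 : U ω * (W ω - w0) ≤ U ω * (8 * (Real.exp (- w0 / 8) * Real.exp (W ω / 8))) :=
        mul_le_mul_of_nonneg_left h4 (hU0 ω)
      have h6 : U ω * (8 * (Real.exp (- w0 / 8) * Real.exp (W ω / 8))) ≤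
          3 / 2 * O * (8 * (Real.exp (- w0 / 8) * Real.exp (W ω / 8))) :=
        mul_le_mul_of_nonneg_right (hUO ω) (by positivity)
      linarith
    have h7 := hE T h J L u u0 D lam rho x hD hlam0 hrho hrho4 hL0 hqq hu0 hu
    calc Ex u (fun ω => U ω * W ω)
        ≤ Ex u (fun ω => w0 * U ω + 12 * O * Real.exp (- w0 / 8) * Real.exp (W ω / 8)) :=
          stepCost_Ex_mono hw0 h1
      _ = w0 * Ex u U + 12 * O * Real.exp (- w0 / 8) * Ex u (fun ω => Real.exp (W ω / 8)) := by
          rw [stepCost_Ex_add, stepCost_Ex_mul, stepCost_Ex_mul]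
      _ ≤ w0 * Ex u U + 12 * O * Real.exp (- w0 / 8) *
            (Real.exp (h * (u0 / 8 + 1)) * M) := by
          refine add_le_add le_rfl (mul_le_mul_of_nonneg_left h7 (by positivity))
      _ = _ := by ring
  have h24 : 24 / lam = 48 * h * J := by
    rw [hlam]
    field_simp
    norm_num
  have hfin : 24 / lam * Ex u (fun ω => U ω * W ω) ≤ 48 * h * J * (w0 * Ex u U +
      12 * O * (Real.exp (- w0 / 8) * Real.exp (h * (u0 / 8 + 1)) * M)) := by
    rw [h24]
    exact mul_le_mul_of_nonneg_left step4 (by positivity)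
  exact step3.trans (add_le_add hfin le_rfl)

end Pool.Agent.MP_a4c1f4_lc
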