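import Pool.Agent.Lib.MP_a4c1f4_lc.Level2
import Pool.Agent.Lib.MP_a4c1f4_lc.StepCost

set_option linter.all false

/-!
Expected cost of one step for the copies, on the event that no point is capped.
-/

namespace Pool.Agent.MP_a4c1f4_lc

open Finset

/-- No point of no level has all its fields capped. -/
def Good {S : Type} [Fintype S] [DecidableEq S] {h J L : ℕ} (D : S → S → ℝ) (lam : ℝ)
    (rho : ℕ → ℝ) (ω : Om S h J L) : Prop :=
  ∀ (s : S) (k : Fin h), ¬ ∀ i, Cap D lam (rho k) (ω k) s i

/-- Expected cost of one step on the good event. -/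
def StepCostProp2 : Prop :=
  ∀ (S T : Type) [Fintype S] [DecidableEq S] [Nonempty S] [Fintype T] [DecidableEq T]
    [Nonempty T] (σ : T → S) (h J L : ℕ) (u : ℕ → ℝ) (u0 : ℝ)
    (D : S → S → ℝ) (lam : ℝ) (rho : ℕ → ℝ) (x : T) (l : List T),
    PM D → 0 < h → 0 < J → lam = 1 / (2 * h * J) → (∀ k, k < h → 0 < rho k) →
    0 < L → 1 ≤ u0 → (∀ i, u i = 2 ^ i * u0) →
    u (J - 1) ≤ L → l.length + 1 ≤ Fintype.card T →
    (∀ r s, D r s = 0 ∨ ∃ k, k < h ∧ 6 * rho k ≤ D r s ∧ D r s < 4 * (6 * rho k)) →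
    Ex u (fun ω : Om S h J L => D (σ x) (σ (srv (pull σ (cst D (pot D lam rho ω))) x l)) *
        ind (Good D lam rho ω)) ≤
      48 * h * J * Ex u (fun ω : Om S h J L =>
          (optv (pull σ (cst D (pot D lam rho ω))) (x :: l)
            - optv (pull σ (cst D (pot D lam rho ω))) l) *
          (∑ k : Fin h, Wl D lam (rho k) u (σ x) (ω k)))
      + 24 * h * optv (pull σ D) (x :: l) *
        (J * (Fintype.card S : ℝ) * (u (J - 1) / L * (1 + (Fintype.card T : ℝ))))

theorem stepCost2 (hM : MonoProp) (hFar : FarProp) (hW : WeightProp)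
    (hCo : CostProp) (hL : LevelProp2) : StepCostProp2 := by
  intro S T _ _ _ _ _ _ σ h J L u u0 D lam rho x l hD hh hJ hlam hrho hL0 hu0 hu huJ hlen hsc
  have hhr : (0 : ℝ) < h := by exact_mod_cast hh
  have hJr : (0 : ℝ) < J := by exact_mod_cast hJ
  have hLr : (0 : ℝ) < L := by exact_mod_cast hL0
  have hlam0 : 0 < lam := by rw [hlam]; positivity
  have hhJ : (h : ℝ) * J * lam = 1 / 2 := by
    rw [hlam]
    field_simp
  have hui0 : ∀ i, 0 ≤ u i := fun i => by
    rw [hu i]
    have : (0 : ℝ) ≤ u0 := by linarith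
    positivity
  have huiJ : ∀ i, i < J → u i ≤ u (J - 1) := fun i hi => by
    rw [hu i, hu (J - 1)]
    have h1 : (2 : ℝ) ^ i ≤ 2 ^ (J - 1) := pow_le_pow_right₀ (by norm_num) (by omega)
    exact mul_le_mul_of_nonneg_right h1 (by linarith)
  have hqq : ∀ i, i < J → 0 ≤ qq u L i ∧ qq u L i ≤ 1 := fun i hi => by
    unfold qq
    have h1 : u i / (L : ℝ) ≤ 1 := by
      rw [div_le_one hLr]
      exact (huiJ i hi).trans huJ
    have h2 : 0 ≤ u i / (L : ℝ) := div_nonneg (hui0 i) hLr.le
    constructor <;> linarith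
  obtain ⟨hsum1, hw⟩ := hW.2.2.2 S h J L u
  have hw0 : ∀ ω : Om S h J L, 0 ≤ omw u ω := hw hqq
  have hDT : PM (pull σ D) :=
    ⟨fun x => hD.self _, fun x y => hD.symm _ _, fun x y z => hD.tri _ _ _⟩
  -- the costs
  let c : Om S h J L → T → T → ℝ := fun ω => pull σ (cst D (pot D lam rho ω))
  have hc : ∀ ω r s, pull σ D r s ≤ 2 * c ω r s ∧ c ω r s ≤ 3 / 2 * pull σ D r s :=
    fun ω r s =>
      hCo S h J L D lam rho ω hD hlam0.le (fun k hk => (hrho k hk).le) hhJ.le (σ r) (σ s)
  have hD0 : ∀ r s, 0 ≤ pull σ D r s := fun r s => hD.nonneg _ _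
  have hc0 : ∀ ω r s, 0 ≤ c ω r s := fun ω r s => by
    have h1 := (hc ω r s).1
    have h2 := hD0 r s
    linarith
  set O := optv (pull σ D) (x :: l) with hO
  have hlen' : (x :: l).length ≤ Fintype.card T := by simpa using hlen
  have hO0 : 0 ≤ O := (hM T (pull σ D) (x :: l)).2.1 hD0
  have hcO : ∀ ω, optv (c ω) (x :: l) ≤ 3 / 2 * O := fun ω =>
    (hM T (pull σ D) (x :: l)).2.2 (c ω) (3 / 2) (fun r s => (hc ω r s).2) hlen'
  have hcl0 : ∀ ω, 0 ≤ optv (c ω) l := fun ω => (hM T (c ω) l).2.1 (hc0 ω)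
  have hcmono : ∀ ω, optv (c ω) l ≤ optv (c ω) (x :: l) := fun ω =>
    (hM T (c ω) l).1 (hc0 ω) x hlen
  let U : Om S h J L → ℝ := fun ω => optv (c ω) (x :: l) - optv (c ω) l
  have hU0 : ∀ ω, 0 ≤ U ω := fun ω => sub_nonneg.2 (hcmono ω)
  let y : Om S h J L → S := fun ω => σ (srv (c ω) x l)
  have hDy : ∀ ω, D (σ x) (y ω) ≤ 6 * O := fun ω => by
    have h1 := hFar T (pull σ D) (c ω) x l hDT (hc0 ω) (fun r s => (hc ω r s).1) hlen
    have h2 := hcO ω
    change D (σ x) (σ (srv (c ω) x l)) ≤ _ at h1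
    change D (σ x) (σ (srv (c ω) x l)) ≤ _
    linarith
  set M : ℝ := (Fintype.card T : ℝ) with hMdef
  have hM0 : 0 ≤ M := Nat.cast_nonneg _
  set m : ℝ := (Fintype.card S : ℝ) with hmdef
  have hm0 : 0 ≤ m := Nat.cast_nonneg _
  set err : ℝ := J * m * (u (J - 1) / L * (1 + M)) with herr
  have huJ0 : 0 ≤ u (J - 1) := hui0 _
  have herr0 : 0 ≤ err := by positivity
  let Wk : Fin h → Om S h J L → ℝ := fun k ω => Wl D lam (rho k) u (σ x) (ω k)
  let W : Om S h J L → ℝ := fun ω => ∑ k : Fin h, Wk k ω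
  have hWk0 : ∀ k ω, 0 ≤ Wk k ω := fun k ω =>
    Finset.sum_nonneg fun i _ => mul_nonneg (hui0 i) (ind_nonneg _)
  let F : Fin h → Om S h J L → Prop := fun k ω => 6 * rho k ≤ D (σ x) (y ω) ∧
    ¬ ∀ i, Cap D lam (rho k) (ω k) (σ x) i
  -- step (2)
  have step2 : ∀ k : Fin h, 6 * rho k * Ex u (fun ω : Om S h J L => ind (F k ω)) ≤
      6 / lam * Ex u (fun ω => U ω * Wk k ω) + 6 * O * err := by
    intro k
    have hrk := hrho k k.2
    have hUW0 : 0 ≤ Ex u (fun ω => U ω * Wk k ω) :=
      stepCost_Ex_nonneg hw0 fun ω => mul_nonneg (hU0 ω) (hWk0 k ω)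
    rcases lt_or_ge (6 * O) (6 * rho k) with hcase | hcase
    · have hz : Ex u (fun ω : Om S h J L => ind (F k ω)) ≤ 0 := by
        have h1 : ∀ ω : Om S h J L, ind (F k ω) ≤ 0 * (0 : ℝ) := fun ω => by
          rw [ind_false, mul_zero]
          rintro ⟨h2, -⟩
          have h3 := hDy ω
          linarith
        refine (stepCost_Ex_mono hw0 h1).trans ?_
        rw [stepCost_Ex_mul (T := S) (h := h) (J := J) (L := L) (u := u) 0 (fun _ => 0), zero_mul]
      have h4 : 6 * rho k * Ex u (fun ω : Om S h J L => ind (F k ω)) ≤ 0 :=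
        mul_nonpos_of_nonneg_of_nonpos (by positivity) hz
      have h5 : 0 ≤ 6 / lam * Ex u (fun ω => U ω * Wk k ω) := by positivity
      have h6 : 0 ≤ 6 * O * err := by positivity
      linarith
    · have h1 := hL S T σ h J L u D lam rho x l k hD hlam0 hrho hhJ.le hL0 hqq hlen
      have hsumi : ∑ i : Fin J, (u i / (lam * rho k) * Ex u (fun ω : Om S h J L =>
            (optv (pull σ (cst D (pot D lam rho ω))) (x :: l)
              - optv (pull σ (cst D (pot D lam rho ω))) l) *
              ind (CapBelow D lam (rho k) (ω k) (σ x) i))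
          + m * (u i / L * (1 + M))) ≤
          1 / (lam * rho k) * Ex u (fun ω => U ω * Wk k ω) + err := by
        rw [Finset.sum_add_distrib]
        refine add_le_add (le_of_eq ?_) ?_
        · have e1 : Ex u (fun ω => U ω * Wk k ω) =
              ∑ i : Fin J, u i * Ex u (fun ω : Om S h J L => U ω *
                ind (CapBelow D lam (rho k) (ω k) (σ x) i)) := by
            have e2 : (fun ω : Om S h J L => U ω * Wk k ω) = fun ω => ∑ i : Fin J, u i * (U ω *
                ind (CapBelow D lam (rho k) (ω k) (σ x) i)) := by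
              funext ω
              change U ω * (∑ i : Fin J, u i * ind (CapBelow D lam (rho k) (ω k) (σ x) i)) = _
              rw [Finset.mul_sum]
              exact Finset.sum_congr rfl fun i _ => by ring
            rw [e2, stepCost_Ex_sum]
            exact Finset.sum_congr rfl fun i _ => stepCost_Ex_mul _ _
          rw [e1, Finset.mul_sum]
          refine Finset.sum_congr rfl fun i _ => ?_
          change u i / (lam * rho k) * Ex u (fun ω : Om S h J L => U ω *
                ind (CapBelow D lam (rho k) (ω k) (σ x) i)) = _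
          ring
        · calc ∑ i : Fin J, m * (u i / L * (1 + M)) ≤
              ∑ _i : Fin J, m * (u (J - 1) / L * (1 + M)) := by
                refine Finset.sum_le_sum fun i _ => ?_
                have h2 := huiJ i i.2
                gcongr
            _ = err := by
                rw [Finset.sum_const, Finset.card_univ, Fintype.card_fin, nsmul_eq_mul, herr]
                ring
      have h2 : Ex u (fun ω : Om S h J L => ind (F k ω)) ≤
          1 / (lam * rho k) * Ex u (fun ω => U ω * Wk k ω) + err := h1.trans hsumi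
      calc 6 * rho k * Ex u (fun ω : Om S h J L => ind (F k ω))
          ≤ 6 * rho k * (1 / (lam * rho k) * Ex u (fun ω => U ω * Wk k ω) + err) :=
            mul_le_mul_of_nonneg_left h2 (by positivity)
        _ = 6 / lam * Ex u (fun ω => U ω * Wk k ω) + 6 * rho k * err := by
            have := hrk.ne'
            have := hlam0.ne'
            field_simp
        _ ≤ 6 / lam * Ex u (fun ω => U ω * Wk k ω) + 6 * O * err := by
            have := mul_le_mul_of_nonneg_right hcase herr0
            linarith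
  -- step (1) and (3)
  have step3 : Ex u (fun ω : Om S h J L => D (σ x) (y ω) * ind (Good D lam rho ω)) ≤
      24 / lam * Ex u (fun ω => U ω * W ω) + 24 * h * O * err := by
    have h1 : ∀ ω : Om S h J L, D (σ x) (y ω) * ind (Good D lam rho ω) ≤
        ∑ k : Fin h, 4 * (6 * rho k) * ind (F k ω) := by
      intro ω
      have hnn : ∀ k : Fin h, 0 ≤ 4 * (6 * rho k) * ind (F k ω) := fun k =>
        mul_nonneg (by have := hrho k k.2; positivity) (ind_nonneg _)
      have hsn : 0 ≤ ∑ k : Fin h, 4 * (6 * rho k) * ind (F k ω) :=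
        Finset.sum_nonneg fun k _ => hnn k
      by_cases hG : Good D lam rho ω
      · rw [ind_true hG, mul_one]
        rcases hsc (σ x) (y ω) with h0 | ⟨k, hk, h2, h3⟩
        · rw [h0]
          exact hsn
        · have h4 := Finset.single_le_sum (f := fun k : Fin h =>
            4 * (6 * rho k) * ind (F k ω)) (fun k _ => hnn k)
            (Finset.mem_univ (⟨k, hk⟩ : Fin h))
          refine le_trans ?_ h4
          change D (σ x) (y ω) ≤ 4 * (6 * rho k) * ind (F ⟨k, hk⟩ ω)
          rw [ind_true ⟨h2, hG (σ x) ⟨k, hk⟩⟩, mul_one]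
          exact h3.le
      · rw [ind_false hG, mul_zero]
        exact hsn
    have h2 : Ex u (fun ω => U ω * W ω) = ∑ k : Fin h, Ex u (fun ω => U ω * Wk k ω) := by
      rw [← stepCost_Ex_sum]
      congr 1
      funext ω
      exact Finset.mul_sum _ _ _
    calc Ex u (fun ω : Om S h J L => D (σ x) (y ω) * ind (Good D lam rho ω))
        ≤ Ex u (fun ω : Om S h J L =>
          ∑ k : Fin h, 4 * (6 * rho k) * ind (F k ω)) := stepCost_Ex_mono hw0 h1
      _ = ∑ k : Fin h, 4 * (6 * rho k * Ex u (fun ω : Om S h J L => ind (F k ω))) := by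
          rw [stepCost_Ex_sum]
          refine Finset.sum_congr rfl fun k _ => ?_
          rw [stepCost_Ex_mul]
          ring
      _ ≤ ∑ k : Fin h, 4 * (6 / lam * Ex u (fun ω => U ω * Wk k ω) + 6 * O * err) :=
          Finset.sum_le_sum fun k _ => mul_le_mul_of_nonneg_left (step2 k) (by norm_num)
      _ = 24 / lam * Ex u (fun ω => U ω * W ω) + 24 * h * O * err := by
          rw [h2, ← Finset.mul_sum, Finset.sum_add_distrib, ← Finset.mul_sum, Finset.sum_const,
            Finset.card_univ, Fintype.card_fin, nsmul_eq_mul]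
          ring
  have h24 : 24 / lam = 48 * h * J := by
    rw [hlam]
    field_simp
    norm_num
  rw [h24] at step3
  exact step3

end Pool.Agent.MP_a4c1f4_lc
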