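import Pool.Agent.Lib.MP_a4c1f4_lc.Spec

set_option linter.all false
set_option autoImplicit false

namespace Pool.Agent.MP_a4c1f4_lc

open Finset

private theorem weight_gw_nonneg (q : ℝ) (L j : ℕ) (h0 : 0 ≤ q) (h1 : q ≤ 1) : 0 ≤ gw q L j := by
  unfold gw
  split_ifs
  · exact mul_nonneg (by linarith) (pow_nonneg h0 _)
  · exact pow_nonneg h0 _

private theorem weight_gw_sum (q : ℝ) (L : ℕ) : ∑ j : Fin (L + 1), gw q L j = 1 := by
  rw [Fin.sum_univ_castSucc]
  have h1 : ∀ j : Fin L, gw q L ((Fin.castSucc j : Fin (L + 1)) : ℕ) = (1 - q) * q ^ (j : ℕ) := by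
    intro j
    unfold gw
    rw [if_pos (by simp)]
    simp
  have h2 : gw q L ((Fin.last L : Fin (L + 1)) : ℕ) = q ^ L := by
    unfold gw
    rw [if_neg (by simp)]
  rw [sum_congr rfl (fun j _ => h1 j), h2, Fin.sum_univ_eq_sum_range (fun j => (1 - q) * q ^ j) L]
  clear h1 h2
  induction L with
  | zero => simp
  | succ n ih =>
    rw [sum_range_succ]
    have : (1 - q) * q ^ n + q ^ (n + 1) = q ^ n := by ring
    linarith

private theorem weight_levsum (T : Type) [Fintype T] [DecidableEq T] (J L : ℕ) (u : ℕ → ℝ) :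
    ∑ a : Lev T J L, levw u a = 1 := by
  unfold levw
  rw [Fintype.sum_prod_type]
  have h1 : ∀ π : Equiv.Perm T, ∑ g : Fin J × T → Fin (L + 1),
      (1 / ((Fintype.card T).factorial : ℝ)) *
        ∏ p : Fin J × T, gw (qq u L p.1) L ((g p : Fin (L + 1)) : ℕ) =
      1 / ((Fintype.card T).factorial : ℝ) := by
    intro π
    rw [← mul_sum]
    have h2 : ∑ g : Fin J × T → Fin (L + 1),
        ∏ p : Fin J × T, gw (qq u L p.1) L ((g p : Fin (L + 1)) : ℕ) = 1 := by
      have h3 := Finset.prod_univ_sum (fun _ : Fin J × T => (univ : Finset (Fin (L + 1))))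
        (fun p j => gw (qq u L p.1) L ((j : Fin (L + 1)) : ℕ))
      rw [Fintype.piFinset_univ] at h3
      rw [← h3]
      apply prod_eq_one
      intro p _
      exact weight_gw_sum _ L
    rw [h2, mul_one]
  rw [sum_congr rfl (fun π _ => h1 π), sum_const, card_univ, Fintype.card_perm, nsmul_eq_mul]
  have : ((Fintype.card T).factorial : ℝ) ≠ 0 := by
    exact_mod_cast (Nat.factorial_pos _).ne'
  field_simp

private theorem weight_levnn (T : Type) [Fintype T] [DecidableEq T] (J L : ℕ) (u : ℕ → ℝ)
    (h : ∀ i, i < J → 0 ≤ qq u L i ∧ qq u L i ≤ 1) (a : Lev T J L) : 0 ≤ levw u a := by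
  unfold levw
  apply mul_nonneg (by positivity)
  apply prod_nonneg
  intro p _
  exact weight_gw_nonneg _ _ _ (h _ p.1.2).1 (h _ p.1.2).2

private theorem weight_indep (T : Type) [Fintype T] [DecidableEq T] (h J L : ℕ) (u : ℕ → ℝ)
    (f : Fin h → Lev T J L → ℝ) :
    Ex (h := h) u (fun ω => ∏ k, f k (ω k)) = ∏ k, Ex1 u (f k) := by
  unfold Ex Ex1 omw
  have h3 := Finset.prod_univ_sum (fun _ : Fin h => (univ : Finset (Lev T J L)))
    (fun k a => levw u a * f k a)
  rw [Fintype.piFinset_univ] at h3
  rw [h3]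
  apply sum_congr rfl
  intro ω _
  rw [prod_mul_distrib]

theorem weight : WeightProp := by
  refine ⟨fun q L j h0 h1 => weight_gw_nonneg q L j h0 h1, weight_gw_sum, ?_, ?_⟩
  · intro T _ _ J L u
    exact ⟨weight_levsum T J L u, fun h a => weight_levnn T J L u h a⟩
  · intro T _ _ h J L u
    constructor
    · have h1 := weight_indep T h J L u (fun _ _ => 1)
      unfold Ex Ex1 at h1
      simp only [prod_const_one, mul_one] at h1
      rw [h1]
      apply prod_eq_one
      intro k _
      exact weight_levsum T J L u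
    · intro hq ω
      unfold omw
      exact prod_nonneg fun k _ => weight_levnn T J L u hq _

theorem indep (hW : WeightProp) : IndepProp := by
  intro T _ _ h J L u
  refine ⟨weight_indep T h J L u, ?_⟩
  intro k f
  have h1 := weight_indep T h J L u (fun k' a => if k' = k then f a else 1)
  have h2 : (fun ω : Om T h J L => ∏ k', (if k' = k then f (ω k') else 1)) = fun ω => f (ω k) := by
    funext ω
    rw [prod_ite_eq' univ k (fun k' => f (ω k'))]
    rw [if_pos (mem_univ _)]
  rw [h2] at h1
  rw [h1]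
  rw [prod_eq_single k]
  · simp
  · intro k' _ hk
    simp only [if_neg hk]
    unfold Ex1
    simp only [mul_one]
    exact weight_levsum T J L u
  · intro hk
    exact absurd (mem_univ k) hk

end Pool.Agent.MP_a4c1f4_lc
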